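import Pool.Agent.H3NX.Energy

set_option autoImplicit false
set_option maxHeartbeats 4000000
set_option synthInstance.maxHeartbeats 400000

/-!
Solutions near an approximate solution.
-/

open MeasureTheory Set Filter Topology
open scoped ENNReal NNReal ContDiff

namespace Pool.Agent.H356R3.NS.X

open Pool.Agent.H3NS

/-- parameters with prescribed smallness -/
lemma par_small {c D ε : ℝ} (hc : 0 < c) (hD : 0 < D) (hε : 0 < ε) : ∃ Lam ρ, Par c D Lam ρ ∧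
    Real.exp (Lam * D ^ 2) * ρ ≤ ε ∧ Real.exp (Lam * D ^ 2) * (3 * C0 * D) * ρ ≤ ε := by
  have hC := C0_pos
  obtain ⟨Lam, ρ, hp⟩ := exists_par hc hD
  obtain ⟨K1, hK1⟩ : ∃ K1, K1 = Real.exp (Lam * D ^ 2) * (1 + 3 * C0 * D) := ⟨_, rfl⟩
  have hK0 : 0 < K1 := by rw [hK1]; positivity
  have hE := Real.exp_pos (Lam * D ^ 2)
  obtain ⟨ρ', hρ'⟩ : ∃ ρ', ρ' = min ρ (ε / K1) := ⟨_, rfl⟩
  have h0 : 0 < ρ' := by rw [hρ']; exact lt_min hp.hρ (by positivity)
  have h1 : ρ' ≤ ρ := by rw [hρ']; exact min_le_left _ _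
  have h2 : K1 * ρ' ≤ ε := by
    have : ρ' ≤ ε / K1 := by rw [hρ']; exact min_le_right _ _
    rw [le_div_iff₀ hK0] at this
    linarith
  have hE2 := Real.exp_pos (2 * (Lam * D ^ 2))
  refine ⟨Lam, ρ', ⟨hc, hD, hp.hL, h0, hp.h1, le_trans ?_ hp.h2, le_trans ?_ hp.h3⟩, ?_, ?_⟩
  · exact mul_le_mul_of_nonneg_left (by linarith) hE2.le
  · exact mul_le_mul_of_nonneg_left (by linarith) hE2.le
  · refine le_trans ?_ h2
    rw [hK1]
    have : 0 ≤ Real.exp (Lam * D ^ 2) * (3 * C0 * D) * ρ' := by positivity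
    nlinarith
  · refine le_trans ?_ h2
    rw [hK1]
    have : 0 ≤ Real.exp (Lam * D ^ 2) * ρ' := by positivity
    nlinarith

/-- A solution near an approximate solution. -/
lemma approx_sol {χ : ℝ → ℝ} (hχ : CutT χ) {c D Lam ρ : ℝ} (hp : Par c D Lam ρ) {a : ℝ} (ha : 0 < a) {A : ℝ → ℝ}
    (hA : Continuous A) (hA0 : ∀ t, 0 ≤ A t) (hAi : LN (fun t => ENNReal.ofReal (A t)) ≤ ENNReal.ofReal D)
    {U FE G : Fam} (hUc : CF U) (hUW : WDom a U) (hUz : ∀ t, U 0 t = 0) (hUs : SymF U)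
    (hUA : ∀ t, 0 < t → NW (Wa a) (at' U t) ≤ ENNReal.ofReal (A t))
    (hG : CF G) (hFE : FE = Bx χ U - G)
    (hGs : SymF G) (hFE0 : ∀ t, FE 0 t = 0) {η : ℝ} (hη : 0 ≤ η) (hη2 : η ^ 2 ≤ c * (ρ / 2) ^ 2)
    (hFEi : ∫⁻ s in Ioi 0, NW (Wm a) (at' FE s) ≤ ENNReal.ofReal η) {V : K → C3}
    (hU : ∀ k t, U k t = Real.exp (-(c * sq k * max t 0)) • V k + Duh c G k t) :
    ∃ u : Fam, SolX χ c (a / 2) V u ∧
      (∀ t, NW (Wm 0) (at' (u - U) t) ≤ ENNReal.ofReal (2 * (η + Real.exp (Lam * D ^ 2) * (3 * C0 * D) * ρ))) ∧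
      LN (fun t => NW (Wa 0) (at' (u - U) t)) ≤ ENNReal.ofReal (Real.exp (Lam * D ^ 2) * ρ) := by
  have hC := C0_pos
  have hD := hp.hD
  have hρ := hp.hρ
  have hUd : Dom U := hUW.dom ha.le
  have hFEc : CF FE := by
    rw [hFE]
    exact fun k => (Bx_cont hχ hUc hUd k).sub (hG k)
  have hFEs : SymF FE := by
    rw [hFE]
    intro t
    exact (Bx_sym χ hUs t).sub (hGs t)
  obtain ⟨r, hrc, hr0, hrM, hrL, hrfix, hrs⟩ := existX hχ hp ha hA hA0 hAi hUc hUd hUs hUA hFEc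
    hFEs hFE0 hη hη2 hFEi
  obtain ⟨M, hM⟩ : ∃ M, M = 2 * (η + Real.exp (Lam * D ^ 2) * (3 * C0 * D) * ρ) := ⟨_, rfl⟩
  have hM0 : 0 ≤ M := by rw [hM]; positivity
  rw [← hM] at hrM
  have hrW : WDom (a / 2) r := by
    refine ⟨fun k => M * (nk k * Real.exp (-(a * l1 k))), ?_, fun k t =>
      norm_le_of_NWm hM0 (hr0 t) (hrM t) k⟩
    refine ((summ_nk (half_pos ha)).mul_left M).congr fun k => ?_
    unfold om
    have : Real.exp (-(a / 2 * l1 k)) = Real.exp (a / 2 * l1 k) * Real.exp (-(a * l1 k)) := by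
      rw [← Real.exp_add]; congr 1; ring
    rw [this]; ring
  have hrd : Dom r := hrW.dom (half_pos ha).le
  have hUrc : CF (U + r) := fun k => (hUc k).add (hrc k)
  have e0 : U + r - U = r := by abel
  refine ⟨U + r, ⟨hUrc, fun t => ?_, fun t => (hUs t).add (hrs t), (hUW.mono (by linarith)).add hrW, ?_, ?_⟩,
    fun t => ?_, ?_⟩
  · show U 0 t + r 0 t = 0
    rw [hUz, hr0, add_zero]
  · have m1 : Measurable fun t => NW (Wa (a / 2)) (at' U t) := NW_meas _ hUc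
    have m2 : Measurable fun t => NW (Wa (a / 2)) (at' r t) := NW_meas _ hrc
    have h1 : LN (fun t => NW (Wa (a / 2)) (at' U t)) ≠ ⊤ := by
      refine ne_top_of_le_ne_top ENNReal.ofReal_ne_top ((LN_mono fun t ht => ?_).trans hAi)
      exact (NW_mono (fun k => Wa_mono (by linarith) k) _).trans (hUA t ht)
    have h2 : LN (fun t => NW (Wa (a / 2)) (at' r t)) ≠ ⊤ :=
      ne_top_of_le_ne_top (ENNReal.mul_ne_top ENNReal.ofReal_ne_top
        (ne_top_of_le_ne_top ENNReal.ofReal_ne_top hrL))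
        (LN_le_LF hp.hL.le hD.le hA hA0 hAi (half_le_self ha.le) hrc)
    refine ne_top_of_le_ne_top (ENNReal.add_ne_top.2 ⟨h1, h2⟩) ((LN_mono fun t _ => ?_).trans
      (LN_add_le m1 m2))
    exact NW_add_le _ _ _
  · intro k t
    have hBr : CF (Bx χ (U + r)) := Bx_cont hχ hUrc (hUd.add hrd)
    have e1 : FE + (Bx χ (U + r) - Bx χ U) = Bx χ (U + r) - G := by rw [hFE]; abel
    rw [e1, Duh_sub hBr hG] at hrfix
    have e2 : r k t = Duh c (Bx χ (U + r)) k t - Duh c G k t := congrFun (congrFun hrfix k) t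
    show U k t + r k t = _
    rw [hU k t, e2]
    abel
  · rw [e0, ← hM]
    refine le_trans (NW_mono (fun k => ?_) _) (hrM t)
    unfold Wm
    exact ENNReal.ofReal_le_ofReal (div_le_div_of_nonneg_right (om_mono ha.le k) (nk_nonneg k))
  · rw [e0]
    refine ((LN_le_LF hp.hL.le hD.le hA hA0 hAi ha.le hrc).trans
      ((mul_le_mul' le_rfl hrL).trans ?_))
    rw [← ENNReal.ofReal_mul (Real.exp_pos _).le]

end Pool.Agent.H356R3.NS.X
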