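import Pool.Agent.H3NX.Fix2X
import Pool.Agent.H3NS.Step4

set_option autoImplicit false
set_option maxHeartbeats 4000000
set_option synthInstance.maxHeartbeats 400000

/-!
Integrals of the coefficients of the nonlinear term.
-/

open MeasureTheory Set Filter Topology
open scoped ENNReal NNReal

namespace Pool.Agent.H356R3.NS.X

open Pool.Agent.H356R3.NS.H3

lemma enorm_le_Wm {x : K → C3} (h0 : x 0 = 0) (k : K) : ‖x k‖ₑ ≤ ENNReal.ofReal (nk k) * NW (Wm 0) x := by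
  by_cases hk : k = 0
  · subst hk; rw [h0]; simp
  have hn := nk_pos hk
  have h1 : Wm 0 k * ‖x k‖ₑ ≤ NW (Wm 0) x := ENNReal.le_tsum k
  have h2 : ENNReal.ofReal (nk k) * Wm 0 k = 1 := by
    unfold Wm
    have o : om 0 k = 1 := by simp [om]
    rw [o, ← ENNReal.ofReal_mul hn.le, mul_one_div_cancel hn.ne', ENNReal.ofReal_one]
  calc ‖x k‖ₑ = ENNReal.ofReal (nk k) * Wm 0 k * ‖x k‖ₑ := by rw [h2, one_mul]
    _ = ENNReal.ofReal (nk k) * (Wm 0 k * ‖x k‖ₑ) := mul_assoc _ _ _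
    _ ≤ _ := mul_le_mul' le_rfl h1

lemma lint_coef (F : Fam) (h0 : ∀ t, F 0 t = 0) (k : K) :
    ∫⁻ t in Ioi 0, ‖F k t‖ₑ ≤ ENNReal.ofReal (nk k) * ∫⁻ t in Ioi 0, NW (Wm 0) (at' F t) := by
  rw [← lintegral_const_mul' _ _ ENNReal.ofReal_ne_top]
  exact lintegral_mono fun t => enorm_le_Wm (x := at' F t) (h0 t) k

lemma Bx_zero (χ : ℝ → ℝ) (u : Fam) (t : ℝ) : Bx χ u 0 t = 0 := by
  show χ t • Bf _ _ 0 = 0
  rw [Bf_zero, smul_zero]

lemma nl_diff {χ : ℝ → ℝ} (hχ : CutT χ) {U r : Fam} (hU : CF U) (hr : CF r) (hUd : Dom U) (hrd : Dom r) (k : K) :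
    ∫⁻ t in Ioi 0, ‖(Bx χ (U + r) - Bx χ U) k t‖ₑ ≤ ENNReal.ofReal (nk k) * (ENNReal.ofReal C0 *
      (2 * (LN (fun t => NW (Wa 0) (at' U t)) * LN (fun t => NW (Wa 0) (at' r t)))
        + LN (fun t => NW (Wa 0) (at' r t)) * LN (fun t => NW (Wa 0) (at' r t)))) := by
  refine (lint_coef _ (fun t => ?_) k).trans (mul_le_mul' le_rfl ?_)
  · rw [Pi.sub_apply, Pi.sub_apply, Bx_zero, Bx_zero, sub_zero]
  have m1 : Measurable fun t => NW (Wa 0) (at' U t) := NW_meas _ hU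
  have m2 : Measurable fun t => NW (Wa 0) (at' r t) := NW_meas _ hr
  calc ∫⁻ t in Ioi 0, NW (Wm 0) (at' (Bx χ (U + r) - Bx χ U) t)
      ≤ ∫⁻ t in Ioi 0, ENNReal.ofReal C0 * (2 * (NW (Wa 0) (at' U t) * NW (Wa 0) (at' r t))
          + NW (Wa 0) (at' r t) * NW (Wa 0) (at' r t)) := by
        refine lintegral_mono fun t => ?_
        have nx := hUd.sn t
        have ny := hrd.sn t
        have e1 : at' (Bx χ (U + r) - Bx χ U) t = χ t • (Bf (at' U t) (at' r t) + Bf (at' r t) (at' U t)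
            + Bf (at' r t) (at' r t)) := by
          have e0 : at' (Bx χ (U + r) - Bx χ U) t
              = χ t • Bf (at' U t + at' r t) (at' U t + at' r t) - χ t • Bf (at' U t) (at' U t) := rfl
          rw [e0, Bf_add_left nx ny (nx.add ny), Bf_add_right nx nx ny, Bf_add_right ny nx ny, ← smul_sub]
          congr 1
          abel
        rw [e1]
        refine (NW_smul_le _ (hχ.nn t) (hχ.le t) _).trans ?_
        refine (NW_add_le _ _ _).trans ((add_le_add ((NW_add_le _ _ _).trans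
          (add_le_add (NW_Bf_le le_rfl _ _) (NW_Bf_le le_rfl _ _))) (NW_Bf_le le_rfl _ _)).trans (le_of_eq ?_))
        ring
    _ = ENNReal.ofReal C0 * (2 * (∫⁻ t in Ioi 0, NW (Wa 0) (at' U t) * NW (Wa 0) (at' r t))
          + ∫⁻ t in Ioi 0, NW (Wa 0) (at' r t) * NW (Wa 0) (at' r t)) := by
        rw [lintegral_const_mul' _ _ ENNReal.ofReal_ne_top, lintegral_add_left (by fun_prop),
          lintegral_const_mul' _ _ (by norm_num)]
    _ ≤ _ := by
        gcongr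
        · exact LN_cs m1 m2
        · exact LN_cs m2 m2

lemma nl_one {χ : ℝ → ℝ} (hχ : CutT χ) {U : Fam} (hU : CF U) (k : K) :
    ∫⁻ t in Ioi 0, ‖Bx χ U k t‖ₑ ≤ ENNReal.ofReal (nk k) * (ENNReal.ofReal C0 *
      (LN (fun t => NW (Wa 0) (at' U t)) * LN (fun t => NW (Wa 0) (at' U t)))) := by
  refine (lint_coef _ (fun t => Bx_zero χ U t) k).trans (mul_le_mul' le_rfl ?_)
  have m1 : Measurable fun t => NW (Wa 0) (at' U t) := NW_meas _ hU
  calc ∫⁻ t in Ioi 0, NW (Wm 0) (at' (Bx χ U) t)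
      ≤ ∫⁻ t in Ioi 0, ENNReal.ofReal C0 * (NW (Wa 0) (at' U t) * NW (Wa 0) (at' U t)) := by
        refine lintegral_mono fun t => ?_
        rw [at'_Bx]
        exact (NW_smul_le _ (hχ.nn t) (hχ.le t) _).trans (NW_Bf_le le_rfl _ _)
    _ = ENNReal.ofReal C0 * ∫⁻ t in Ioi 0, NW (Wa 0) (at' U t) * NW (Wa 0) (at' U t) :=
        lintegral_const_mul' _ _ ENNReal.ofReal_ne_top
    _ ≤ _ := mul_le_mul' le_rfl (LN_cs m1 m1)

lemma ofR_comb {C D X : ℝ} (hC : 0 ≤ C) (hD : 0 ≤ D) (hX : 0 ≤ X) :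
    ENNReal.ofReal C * (2 * (ENNReal.ofReal D * ENNReal.ofReal X) + ENNReal.ofReal X * ENNReal.ofReal X)
      = ENNReal.ofReal (C * (2 * (D * X) + X * X)) := by
  rw [ENNReal.ofReal_mul hC, ENNReal.ofReal_add (by positivity) (by positivity),
    ENNReal.ofReal_mul (by norm_num), ENNReal.ofReal_mul hD, ENNReal.ofReal_mul hX,
    ENNReal.ofReal_ofNat]

/-- The nonlinear term of the waves moves exactly the coefficient of `E0`. -/
lemma pF_int {q cc η : K} {c : ℝ} (hc : 0 < c) (hG : Geo q cc η) (γ : ℂ) {N : ℕ} (hN : 1 ≤ N) (k : K) :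
    ∫⁻ t in Ioi 0, ‖pF c q cc η γ N q k t‖ₑ ≤ ‖E0 q cc γ k‖ₑ := by
  have hsη := sq_pos hG.hη
  have hQ := sq_pos hG.hq
  have hNr : (1 : ℝ) ≤ N := by exact_mod_cast hN
  have hNp : (0 : ℝ) < N := by linarith
  obtain ⟨A, hA⟩ : ∃ A : ℝ, A = 2 * c * N ^ 2 * sq η := ⟨_, rfl⟩
  have hA0 : 0 < A := by rw [hA]; positivity
  obtain ⟨μ, hμ⟩ : ∃ μ, μ = muF c q η N := ⟨_, rfl⟩
  have hμA : A ≤ μ := by
    rw [hμ, hA]
    unfold muF
    rw [sq_k1 N, sq_k2 hG N]
    nlinarith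
  have hμ0 : 0 < μ := hA0.trans_le hμA
  have e1 : ∀ t, ‖pF c q cc η γ N q k t‖ₑ = ENNReal.ofReal A * ‖E0 q cc γ k‖ₑ * ENNReal.ofReal (Real.exp (-(μ * max t 0))) := by
    intro t
    have e2 : pF c q cc η γ N q k t = (-A * Real.exp (-(μ * max t 0))) • E0 q cc γ k := by
      unfold pF E0 Mo Sg
      rw [← hA, ← hμ]
      simp only [Pi.add_apply, smul_add, smul_ite, smul_zero]
      congr 1
      · split_ifs
        · funext i
          simp only [Pi.smul_apply, smul_eq_mul, Complex.real_smul]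
          push_cast
          ring
        · rfl
      · split_ifs
        · funext i
          simp only [Pi.smul_apply, smul_eq_mul, Complex.real_smul, star_mul', star_neg, Complex.star_def,
            Complex.conj_ofReal]
          push_cast
          ring
        · rfl
    rw [e2, enorm_smul]
    have e3 : ‖-A * Real.exp (-(μ * max t 0))‖ₑ = ENNReal.ofReal A * ENNReal.ofReal (Real.exp (-(μ * max t 0))) := by
      rw [← ENNReal.ofReal_mul hA0.le, neg_mul, enorm_neg, Real.enorm_of_nonneg (by positivity)]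
    rw [e3]
    ring
  simp only [e1]
  rw [lintegral_const_mul _ (by fun_prop), lint_e hμ0]
  calc ENNReal.ofReal A * ‖E0 q cc γ k‖ₑ * ENNReal.ofReal (1 / μ)
      = ENNReal.ofReal (A * (1 / μ)) * ‖E0 q cc γ k‖ₑ := by
        rw [ENNReal.ofReal_mul hA0.le]; ring
    _ ≤ 1 * ‖E0 q cc γ k‖ₑ := by
        apply mul_le_mul' _ le_rfl
        rw [ENNReal.ofReal_le_one, mul_one_div, div_le_one hμ0]
        exact hμA
    _ = _ := one_mul _

end Pool.Agent.H356R3.NS.X
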