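import Pool.Agent.H3NX.PhysB

set_option autoImplicit false
set_option maxHeartbeats 4000000
set_option synthInstance.maxHeartbeats 400000

/-!
Blocks of finite length in physical space.
-/

open MeasureTheory Set Filter Topology
open scoped ENNReal NNReal ContDiff

namespace Pool.Agent.H356R3.NS.X

open Pool.Agent.H3NS
open H459R3.NS (fr ee SP IsSol cube)

/-- a smooth path of divergence-free fields with the mean `m` -/
structure PathH (T : ℝ) (w : ℝ → R3 → R3) (m : E3) : Prop where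
  sv : SV (Ico 0 T) w
  dv : ∀ t ∈ Ico 0 T, ∀ x, ∑ i, pd i (fun y => w t y i) x = 0
  mn : ∀ t ∈ Ico 0 T, ∀ i, fc (w t) 0 i = (m i : ℂ)

lemma lp_bound {p e1 e2 l X : ℝ} (hp1 : 1 ≤ p) (hp2 : p < 2) (he2 : 0 < e2) (he21 : e2 ≤ 1) (he1 : 0 ≤ e1)
    (hl : 0 < l) (hX : 2 * (e2 + e1 ^ p * l ^ (1 - p / 2)) ≤ X) :
    2 ^ (p - 1) * (ENNReal.ofReal e2 ^ p + ENNReal.ofReal e1 ^ p * ENNReal.ofReal l ^ (1 - p / 2)) ≤ ENNReal.ofReal X := by
  have hp0 : 0 < p := by linarith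
  have h0 : 0 ≤ e1 ^ p * l ^ (1 - p / 2) := by positivity
  refine le_trans ?_ (ENNReal.ofReal_le_ofReal hX)
  rw [ENNReal.ofReal_mul (by norm_num), ENNReal.ofReal_ofNat, ENNReal.ofReal_add he2.le h0]
  refine mul_le_mul' ?_ (add_le_add ?_ (le_of_eq ?_))
  · calc (2 : ℝ≥0∞) ^ (p - 1) ≤ 2 ^ (1 : ℝ) := ENNReal.rpow_le_rpow_of_exponent_le (by norm_num) (by linarith)
      _ = 2 := ENNReal.rpow_one _
  · rw [ENNReal.ofReal_rpow_of_nonneg he2.le hp0.le]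
    apply ENNReal.ofReal_le_ofReal
    calc e2 ^ p ≤ e2 ^ (1 : ℝ) := Real.rpow_le_rpow_of_exponent_ge he2 he21 hp1
      _ = e2 := Real.rpow_one _
  · rw [ENNReal.ofReal_rpow_of_nonneg he1 hp0.le, ENNReal.ofReal_rpow_of_nonneg hl.le (by linarith),
      ← ENNReal.ofReal_mul (by positivity)]

lemma nz_props {a : K → C3} (has : Sym a) (had : ∀ k, dt k (a k) = 0) {r : ℝ} (har : critNorm r a ≠ ⊤) :
    nz a 0 = 0 ∧ (∀ k, dt k (nz a k) = 0) ∧ Sym (nz a) ∧ critNorm r (nz a) ≠ ⊤ :=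
  ⟨nz_zero a, nz_div had, nz_sym has, by rw [critNorm_nz]; exact har⟩

section
variable {ν T : ℝ} {w : ℝ → R3 → R3} {q : ℝ → R3 → ℝ} {O : Set ℝ} {m : E3}

lemma yb_at_zero (τ H0 : ℝ) (hH : 0 ≤ H0) : at' (yb m w τ H0) 0 = nz (fc (w τ)) := by
  funext k i
  show nz (fc (w (τ + clt H0 0))) k i * ex k (-((-(clt H0 0)) • m)) = _
  rw [clt_eq le_rfl hH]
  simp [ex]

lemma Ioc_shift (τ h : ℝ) : {t | t - τ ∈ Ioc 0 h} = Ioc τ (τ + h) := by
  ext t
  simp only [mem_Ioc, mem_ofPred_eq]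
  constructor
  · rintro ⟨h5, h6⟩; exact ⟨by linarith, by linarith⟩
  · rintro ⟨h5, h6⟩; exact ⟨by linarith, by linarith⟩

/-- Short blocks near an arbitrary path. -/
theorem block_small {ga : ℝ → ℝ} (hga : Gau ga) (hν : 0 < ν) (hw : PathH T w m) {B : ℝ} (hBT : B < T) {r p : ℝ} (hr : 2 < r) (hp1 : 1 ≤ p)
    (hp2 : p < 2) {δ ε : ℝ} (hδ : 0 < δ) (hε : 0 < ε) (s : ℕ) : ∃ h0 : ℝ, 0 < h0 ∧ h0 < δ ∧ ∀ τ h : ℝ, 0 ≤ τ → τ ≤ B →
    0 < h → h ≤ h0 → ∀ a : K → C3, Sym a → (∀ k, dt k (a k) = 0) → (∀ i, a 0 i = (m i : ℂ)) → critNorm r a ≠ ⊤ →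
    ∃ u P, PB ga ν w τ (Ioc τ (τ + h)) a r p (h / 2) δ (ENNReal.ofReal (ε * h)) ε s u P := by
  obtain ⟨c, hce⟩ : ∃ c, c = 4 * Real.pi ^ 2 * ν := ⟨_, rfl⟩
  have hc : 0 < c := by rw [hce]; positivity
  obtain ⟨H0, hH0e⟩ : ∃ H0, H0 = (T - B) / 2 := ⟨_, rfl⟩
  have hH0 : 0 < H0 := by rw [hH0e]; linarith
  have hT1 : B + H0 < T := by rw [hH0e]; linarith
  obtain ⟨C, hC, hBF⟩ := path_BF hw.sv hw.dv hc.le m hT1 (2 * 0 + 5)
  obtain ⟨D, C2, hD, hC2, hconst⟩ := block_const hc hH0 hC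
  obtain ⟨Kb, Kk, η0, hKb, hKk, hη0, hblock⟩ := blockU hc hH0 hC
  obtain ⟨κ, hκ⟩ : ∃ κ, κ = 8 * Kb * C2 := ⟨_, rfl⟩
  have hκ0 : 0 < κ := by rw [hκ]; positivity
  have hp0 : 0 < p := by linarith
  obtain ⟨h1, hh1⟩ : ∃ h1, h1 = (ε / (4 * κ ^ p)) ^ (2 / p) := ⟨_, rfl⟩
  have hh10 : 0 < h1 := by rw [hh1]; positivity
  obtain ⟨h0, hh0⟩ : ∃ h0, h0 = min (min (min (δ / 2) ((ε / (4 * Kk)) ^ 2 / (8 * C2))) (H0 / 2))
    (min (min 1 h1) (min (η0 / (8 * C2)) (ε / (40 * κ)))) := ⟨_, rfl⟩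
  have hh00 : 0 < h0 := by rw [hh0]; positivity
  have k1 : h0 ≤ δ / 2 := by rw [hh0]; exact (min_le_left _ _).trans ((min_le_left _ _).trans (min_le_left _ _))
  have k7 : h0 ≤ (ε / (4 * Kk)) ^ 2 / (8 * C2) := by
    rw [hh0]; exact (min_le_left _ _).trans ((min_le_left _ _).trans (min_le_right _ _))
  have k2 : h0 ≤ H0 / 2 := by rw [hh0]; exact (min_le_left _ _).trans (min_le_right _ _)
  have k3 : h0 ≤ 1 := by
    rw [hh0]; exact (min_le_right _ _).trans ((min_le_left _ _).trans (min_le_left _ _))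
  have k4 : h0 ≤ h1 := by
    rw [hh0]; exact (min_le_right _ _).trans ((min_le_left _ _).trans (min_le_right _ _))
  have k5 : h0 ≤ η0 / (8 * C2) := by
    rw [hh0]; exact (min_le_right _ _).trans ((min_le_right _ _).trans (min_le_left _ _))
  have k6 : h0 ≤ ε / (40 * κ) := by
    rw [hh0]; exact (min_le_right _ _).trans ((min_le_right _ _).trans (min_le_right _ _))
  refine ⟨h0, hh00, by linarith, fun τ h hτ hτB hh hhh a has had ham har => ?_⟩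
  have hBF' := hBF τ H0 hτ hH0 (by linarith)
  obtain ⟨χ, hχ, -, hχ0⟩ := exists_cut (half_pos hH0) (half_lt_self hH0)
  obtain ⟨-, -, -, hres, -⟩ := hconst (2 * 0 + 5) _ _ (by norm_num) hBF' χ hχ.toCutT hχ0
  obtain ⟨Bs, -, hb2⟩ := hblock 0 (h / 2) (half_pos hh)
  obtain ⟨η, hη⟩ : ∃ η, η = 8 * C2 * h := ⟨_, rfl⟩
  have hη1 : 0 < η := by rw [hη]; positivity
  have hη2 : η ≤ η0 := by
    have h3 : h ≤ η0 / (8 * C2) := hhh.trans k5
    rw [le_div_iff₀ (by positivity)] at h3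
    rw [hη]; linarith
  have hκη : Kb * η = κ * h := by rw [hη, hκ]; ring
  have hKη : Kk * √η ≤ ε / 4 := by
    have h3 : h ≤ (ε / (4 * Kk)) ^ 2 / (8 * C2) := hhh.trans k7
    rw [le_div_iff₀ (by positivity)] at h3
    have h4 : √η ≤ ε / (4 * Kk) := (Real.sqrt_le_left (by positivity)).2 (by rw [hη]; linarith)
    rw [le_div_iff₀ (by positivity)] at h4
    linarith
  obtain ⟨e2, he2⟩ : ∃ e2, e2 = min (min 1 (ε / 4)) (ε * h / 4) := ⟨_, rfl⟩
  have he20 : 0 < e2 := by rw [he2]; positivity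
  have he21 : e2 ≤ 1 := by rw [he2]; exact (min_le_left _ _).trans (min_le_left _ _)
  have he22 : e2 ≤ ε / 4 := by rw [he2]; exact (min_le_left _ _).trans (min_le_right _ _)
  have he23 : e2 ≤ ε * h / 4 := by rw [he2]; exact min_le_right _ _
  have hκh : 10 * (κ * h) ≤ ε / 4 := by
    have h3 : h ≤ ε / (40 * κ) := hhh.trans k6
    rw [le_div_iff₀ (by positivity)] at h3
    linarith
  have hκ00 : 0 < κ * h := by positivity
  have hresi : ∫⁻ t in Ioc 0 h, NW (Wm 0) (at' (Bt (yb m w τ H0)) t - at' (gb c m w τ H0) t) ≤ ENNReal.ofReal (η / 8) := by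
    calc _ ≤ ∫⁻ _t in Ioc 0 h, ENNReal.ofReal C2 := by
          refine setLIntegral_mono' measurableSet_Ioc fun t _ => ?_
          exact (NW_sub_le _ _ _).trans (hres t)
      _ = ENNReal.ofReal (C2 * h) := by
          rw [setLIntegral_const, Real.volume_Ioc, sub_zero, ← ENNReal.ofReal_mul hC2.le]
      _ ≤ _ := ENNReal.ofReal_le_ofReal (by rw [hη]; linarith)
  obtain ⟨n0, n1, n2, n3⟩ := nz_props has had har
  obtain ⟨u, hu⟩ := hb2 η hη1 hη2 _ _ hBF' h hh (by linarith) hresi r p e2 hr hp1 hp2 he20 (nz a) n0 n1 n2 n3 _ hga.half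
  rw [hκη] at hu
  have hmin : min h 1 = h := min_eq_left (hhh.trans k3)
  have hpw : (κ * h) ^ p * h ^ (1 - p / 2) ≤ ε * h / 4 := by
    have e1 : (κ * h) ^ p * h ^ (1 - p / 2) = κ ^ p * h ^ (p / 2) * h := by
      rw [Real.mul_rpow hκ0.le hh.le]
      have : h ^ p * h ^ (1 - p / 2) = h ^ (p / 2) * h := by
        rw [← Real.rpow_add hh, ← Real.rpow_add_one hh.ne']
        congr 1
        ring
      rw [mul_assoc, this, ← mul_assoc]
    have e2 : h ^ (p / 2) ≤ ε / (4 * κ ^ p) := by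
      calc h ^ (p / 2) ≤ h1 ^ (p / 2) := Real.rpow_le_rpow hh.le (hhh.trans k4) (by positivity)
        _ = ε / (4 * κ ^ p) := by
            rw [hh1, ← Real.rpow_mul (by positivity)]
            rw [show 2 / p * (p / 2) = 1 by field_simp, Real.rpow_one]
    rw [e1]
    have e3 : κ ^ p * h ^ (p / 2) ≤ ε / 4 := by
      calc κ ^ p * h ^ (p / 2) ≤ κ ^ p * (ε / (4 * κ ^ p)) := mul_le_mul_of_nonneg_left e2 (by positivity)
        _ = ε / 4 := by field_simp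
    calc κ ^ p * h ^ (p / 2) * h ≤ ε / 4 * h := mul_le_mul_of_nonneg_right e3 hh.le
      _ = _ := by ring
  have hsny : ∀ t, SN (at' (yb m w τ H0) t) := fun t => (BF.dom hC (by norm_num) hBF').sn t
  have hG : OutG (fun t => ga t / 2) (4 * Real.pi ^ 2 * ν) (nz a) (yb m w τ H0) (Ioc 0 h) r p (h / 2) δ (ENNReal.ofReal (ε * h)) (ε / 2) s u := by
    refine ⟨hu.cf, ?_, hu.sym, hu.z, hu.sn, hu.att, hu.lq, ?_, fun t ht h3 => ?_, fun t ht h3 => ?_, fun t ht => ?_,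
      hu.nl, fun t ht => (hu.kt t ht.1 ht.2).trans (ENNReal.ofReal_le_ofReal (by linarith)), hu.kg⟩
    · obtain ⟨χ', h3, h4⟩ := hu.reg
      exact ⟨χ', fun t ht => h3 t ht.2, by rw [← hce]; exact h4⟩
    · rw [Ioc_inter_Ioc, max_self]
      refine hu.lp.trans ?_
      rw [hmin]
      refine lp_bound hp1 hp2 he20 he21 hκ00.le hh ?_
      linarith
    · exact (hu.cm t h3 ht.2).trans (ENNReal.ofReal_le_ofReal (by linarith))
    · exfalso
      have := ht.2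
      linarith
    · exact (hu.cr t ht.2).trans (add_le_add le_rfl (ENNReal.ofReal_le_ofReal (by linarith)))
  have key := pb_of hga (τ := τ) (w := w) Ioc_subset_Ioi_self measurableSet_Ioc ham (by linarith : 1 ≤ r) hp0
    (half_pos hε) (by linarith : 2 * (ε / 2) ≤ ε) hG (fun t ht => fld_yb hw.sv hw.mn hτ (by linarith) ht.1.le
      (by linarith [ht.2]) (hsny t)) (fun t _ => hsny t) (yb_sym m τ H0) (yb_zero m τ H0) (yb_at_zero τ H0 hH0.le)
  rw [Ioc_shift] at key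
  exact ⟨_, _, key⟩

/-- Blocks on which the path is a solution. -/
theorem block_sol {ga : ℝ → ℝ} (hga : Gau ga) (hν : 0 < ν) (hw : PathH T w m) (hO : IsOpen O) (hOT : O ⊆ Ico 0 T) (hs : SolOn ν O w q)
    {τ h : ℝ} (hτ : 0 ≤ τ) (hh : 0 < h) (hhT : τ + h < T) (hsub : Ioo τ (τ + h) ⊆ O) {r p : ℝ} (hr : 2 < r)
    (hp1 : 1 ≤ p) (hp2 : p < 2) {δ ε : ℝ} (hδ : 0 < δ) (hε : 0 < ε) (s : ℕ) (a : K → C3) (has : Sym a)
    (had : ∀ k, dt k (a k) = 0) (ham : ∀ i, a 0 i = (m i : ℂ)) (har : critNorm r a ≠ ⊤) :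
    ∃ u P, PB ga ν w τ (Ioc τ (τ + h)) a r p (h / 2) δ (ENNReal.ofReal (ε * min h 1)) ε s u P := by
  obtain ⟨c, hce⟩ : ∃ c, c = 4 * Real.pi ^ 2 * ν := ⟨_, rfl⟩
  have hc : 0 < c := by rw [hce]; positivity
  obtain ⟨H0, hH0e⟩ : ∃ H0, H0 = (h + (T - τ)) / 2 := ⟨_, rfl⟩
  have hH0 : 0 < H0 := by rw [hH0e]; linarith
  have hhH : h < H0 := by rw [hH0e]; linarith
  have hT1 : τ + H0 < T := by rw [hH0e]; linarith
  obtain ⟨C, hC, hBF⟩ := path_BF hw.sv hw.dv hc.le m hT1 (2 * s + 5)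
  have hBF' := hBF τ H0 hτ hH0 le_rfl
  obtain ⟨Kb, Kk, η0, hKb, hKk, hη0, hblock⟩ := blockU hc hH0 hC
  obtain ⟨δ', hδ'⟩ : ∃ δ', δ' = min δ (h / 2) := ⟨_, rfl⟩
  have hδ'0 : 0 < δ' := by rw [hδ']; positivity
  have hδ'1 : δ' ≤ δ := by rw [hδ']; exact min_le_left _ _
  have hδ'2 : δ' ≤ h / 2 := by rw [hδ']; exact min_le_right _ _
  obtain ⟨Bs, hBs, hb2⟩ := hblock s δ' hδ'0
  have hp0 : 0 < p := by linarith
  obtain ⟨l, hl⟩ : ∃ l, l = min h 1 := ⟨_, rfl⟩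
  have hl0 : 0 < l := by rw [hl]; positivity
  have hl1 : l ≤ 1 := by rw [hl]; exact min_le_right _ _
  obtain ⟨g, hg⟩ : ∃ g, g = min 1 (ε * l / 44) := ⟨_, rfl⟩
  have hg0 : 0 < g := by rw [hg]; positivity
  have hg1 : g ≤ 1 := by rw [hg]; exact min_le_left _ _
  have hg2 : 44 * g ≤ ε * l := by
    have : g ≤ ε * l / 44 := by rw [hg]; exact min_le_right _ _
    linarith
  have hg3 : 44 * g ≤ ε := hg2.trans (by nlinarith)
  obtain ⟨η, hη⟩ : ∃ η, η = min (min η0 ((g / Kk) ^ 2)) (min (g / Kb) (g ^ 2 / (Bs + 1))) := ⟨_, rfl⟩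
  have hKb0 : 0 < Kb := by linarith
  have hKk0 : 0 < Kk := by linarith
  have hη1 : 0 < η := by rw [hη]; positivity
  have hη2 : η ≤ η0 := by rw [hη]; exact (min_le_left _ _).trans (min_le_left _ _)
  have hη5 : Kk * √η ≤ g := by
    have h3 : η ≤ (g / Kk) ^ 2 := by rw [hη]; exact (min_le_left _ _).trans (min_le_right _ _)
    have h4 : √η ≤ g / Kk := (Real.sqrt_le_left (by positivity)).2 h3
    rw [le_div_iff₀ hKk0] at h4
    linarith
  have hη3 : Kb * η ≤ g := by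
    have : η ≤ g / Kb := by rw [hη]; exact (min_le_right _ _).trans (min_le_left _ _)
    rw [le_div_iff₀ hKb0] at this
    linarith
  have hη4 : Real.sqrt (Bs * η) ≤ g := by
    have : η ≤ g ^ 2 / (Bs + 1) := by rw [hη]; exact (min_le_right _ _).trans (min_le_right _ _)
    rw [le_div_iff₀ (by positivity)] at this
    rw [Real.sqrt_le_left hg0.le]
    nlinarith
  have hresi : ∫⁻ t in Ioc 0 h, NW (Wm 0) (at' (Bt (yb m w τ H0)) t - at' (gb c m w τ H0) t) ≤ ENNReal.ofReal (η / 8) := by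
    rw [hce, res_zero hw.sv hw.dv hw.mn hO hOT hs hτ hT1 hhH.le hsub]
    exact zero_le
  obtain ⟨n0, n1, n2, n3⟩ := nz_props has had har
  obtain ⟨u, hu⟩ := hb2 η hη1 hη2 _ _ hBF' h hh hhH hresi r p g hr hp1 hp2 hg0 (nz a) n0 n1 n2 n3 _ hga.half
  have hsny : ∀ t, SN (at' (yb m w τ H0) t) := fun t => (BF.dom hC (by omega) hBF').sn t
  have hKη0 : 0 < Kb * η := by positivity
  have hG : OutG (fun t => ga t / 2) (4 * Real.pi ^ 2 * ν) (nz a) (yb m w τ H0) (Ioc 0 h) r p (h / 2) δ (ENNReal.ofReal (ε * min h 1))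
      (ε / 2) s u := by
    refine ⟨hu.cf, ?_, hu.sym, hu.z, hu.sn, hu.att, hu.lq, ?_, fun t ht h3 => ?_, fun t ht h3 => ?_, fun t ht => ?_,
      hu.nl, fun t ht => (hu.kt t ht.1 ht.2).trans (ENNReal.ofReal_le_ofReal (by linarith)), hu.kg⟩
    · obtain ⟨χ', h3, h4⟩ := hu.reg
      exact ⟨χ', fun t ht => h3 t ht.2, by rw [← hce]; exact h4⟩
    · rw [Ioc_inter_Ioc, max_self]
      refine hu.lp.trans ?_
      rw [← hl]
      refine lp_bound hp1 hp2 hg0 hg1 hKη0.le hl0 ?_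
      have h5 : (Kb * η) ^ p * l ^ (1 - p / 2) ≤ g := by
        calc (Kb * η) ^ p * l ^ (1 - p / 2) ≤ g * 1 := by
              refine mul_le_mul ?_ (Real.rpow_le_one hl0.le hl1 (by linarith)) (by positivity) hg0.le
              calc (Kb * η) ^ p ≤ g ^ p := Real.rpow_le_rpow hKη0.le hη3 hp0.le
                _ ≤ g ^ (1 : ℝ) := Real.rpow_le_rpow_of_exponent_ge hg0 hg1 hp1
                _ = g := Real.rpow_one _
          _ = g := mul_one _
      linarith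
    · exact (hu.cm t (hδ'2.trans h3) ht.2).trans (ENNReal.ofReal_le_ofReal (by linarith))
    · exact (hu.cl t (hδ'1.trans h3) ht.2).trans (ENNReal.ofReal_le_ofReal (by linarith))
    · exact (hu.cr t ht.2).trans (add_le_add le_rfl (ENNReal.ofReal_le_ofReal (by linarith)))
  have key := pb_of hga (τ := τ) (w := w) Ioc_subset_Ioi_self measurableSet_Ioc ham (by linarith : 1 ≤ r) hp0
    (half_pos hε) (by linarith : 2 * (ε / 2) ≤ ε) hG (fun t ht => fld_yb hw.sv hw.mn hτ hT1 ht.1.le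
      (by linarith [ht.2]) (hsny t)) (fun t _ => hsny t) (yb_sym m τ H0) (yb_zero m τ H0) (yb_at_zero τ H0 hH0.le)
  rw [Ioc_shift] at key
  exact ⟨_, _, key⟩

end

end Pool.Agent.H356R3.NS.X
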