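import Mathlib

set_option autoImplicit false
set_option maxHeartbeats 4000000

/-!
Meshes in closed sets of times.
-/

open Set Filter Topology

namespace Pool.Agent.H356R3.NS.X

/-- intervals of times `[0, T)`, `0 < T ≤ ∞` -/
structure DD (D : Set ℝ) : Prop where
  z : (0 : ℝ) ∈ D
  nn : ∀ t ∈ D, 0 ≤ t
  dc : ∀ t ∈ D, ∀ s, 0 ≤ s → s ≤ t → s ∈ D
  nx : ∀ t ∈ D, ∃ t' ∈ D, t < t'

/-- the next point of the mesh -/
lemma mesh_next {D O : Set ℝ} (hD : DD D) (hO : IsOpen O) (hcof : ∀ t ∈ D, ∃ y ∈ D \ O, t < y) {x h : ℝ}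
    (hx : x ∈ D) (hh : 0 < h) (hxh : x + h ∈ D) :
    ∃ y ∈ D \ O, x < y ∧ (Ioo x y ⊆ O ∨ y ≤ x + h) ∧ (∀ z ∈ D \ O, x + h ≤ z → y ≤ z) ∧
      ∀ z ∈ D \ O, y < z → x + h < z := by
  have hx0 := hD.nn x hx
  by_cases hA : ((D \ O) ∩ Ioc x (x + h)).Nonempty
  · obtain ⟨K, hK⟩ : ∃ K, K = Icc x (x + h) ∩ Oᶜ := ⟨_, rfl⟩
    have hKc : IsCompact K := by rw [hK]; exact isCompact_Icc.inter_right hO.isClosed_compl
    obtain ⟨z0, hz0, hz1⟩ := hA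
    have hz0K : z0 ∈ K := by rw [hK]; exact ⟨⟨hz1.1.le, hz1.2⟩, hz0.2⟩
    have hm := hKc.sSup_mem ⟨z0, hz0K⟩
    have hle := le_csSup hKc.bddAbove hz0K
    obtain ⟨y, hy⟩ : ∃ y, y = sSup K := ⟨_, rfl⟩
    have hKb := hKc.bddAbove
    rw [← hy] at hm hle
    have hy' : ∀ z ∈ K, z ≤ y := fun z hz => by rw [hy]; exact le_csSup hKb hz
    rw [hK] at hm hy'
    refine ⟨y, ⟨hD.dc _ hxh _ (hx0.trans hm.1.1) hm.1.2, hm.2⟩, hz1.1.trans_le hle, Or.inr hm.1.2,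
      fun z hz hz2 => hm.1.2.trans hz2, fun z hz hz2 => ?_⟩
    by_contra hcon
    push Not at hcon
    exact absurd (hy' z ⟨⟨(hz1.1.le.trans hle).trans hz2.le, hcon⟩, hz.2⟩) (not_le.2 hz2)
  · obtain ⟨y0, hy0, hy1⟩ := hcof _ hxh
    obtain ⟨K, hK⟩ : ∃ K, K = Icc (x + h) y0 ∩ Oᶜ := ⟨_, rfl⟩
    have hKc : IsCompact K := by rw [hK]; exact isCompact_Icc.inter_right hO.isClosed_compl
    have hy0K : y0 ∈ K := by rw [hK]; exact ⟨⟨hy1.le, le_rfl⟩, hy0.2⟩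
    have hm := hKc.sInf_mem ⟨y0, hy0K⟩
    obtain ⟨y, hy⟩ : ∃ y, y = sInf K := ⟨_, rfl⟩
    have hKb := hKc.bddBelow
    rw [← hy] at hm
    have hy' : ∀ z ∈ K, y ≤ z := fun z hz => by rw [hy]; exact csInf_le hKb hz
    rw [hK] at hm hy'
    have hyD : y ∈ D := hD.dc _ hy0.1 _ (by linarith [hm.1.1]) hm.1.2
    refine ⟨y, ⟨hyD, hm.2⟩, by linarith [hm.1.1], Or.inl fun z hz => ?_, fun z hz hz2 => ?_, fun z hz hz2 => ?_⟩
    · by_contra hcon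
      have hzD : z ∈ D := hD.dc _ hyD _ (hx0.trans hz.1.le) hz.2.le
      by_cases h1 : z ≤ x + h
      · exact hA ⟨z, ⟨hzD, hcon⟩, hz.1, h1⟩
      · push Not at h1
        exact absurd (hy' z ⟨⟨h1.le, hz.2.le.trans hm.1.2⟩, hcon⟩) (not_le.2 hz.2)
    · by_cases h1 : z ≤ y0
      · exact hy' z ⟨⟨hz2, h1⟩, hz.2⟩
      · push Not at h1
        exact hm.1.2.trans h1.le
    · exact lt_of_le_of_lt hm.1.1 hz2

/-- Meshes. -/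
theorem mesh_exists {D O : Set ℝ} (hD : DD D) (hO : IsOpen O) (h0 : (0 : ℝ) ∉ O)
    (hcof : ∀ t ∈ D, ∃ y ∈ D \ O, t < y) {hh : ℝ → ℝ} (hpos : ∀ x ∈ D, 0 < hh x) (hin : ∀ x ∈ D, x + hh x ∈ D)
    (hloc : ∀ B ∈ D, ∃ η : ℝ, 0 < η ∧ ∀ x ∈ D, x ≤ B → η ≤ hh x) :
    ∃ s : ℕ → ℝ, s 0 = 0 ∧ StrictMono s ∧ (∀ j, s j ∈ D \ O) ∧ (∀ t ∈ D, ∃ j, t < s j) ∧
      (∀ j, Ioo (s j) (s (j + 1)) ⊆ O ∨ s (j + 1) ≤ s j + hh (s j)) ∧
      ∀ j, ∀ z ∈ D \ O, s j + hh (s j) ≤ z → s (j + 1) ≤ z := by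
  have key : ∀ x : {x : ℝ // x ∈ D \ O}, ∃ y : {y : ℝ // y ∈ D \ O}, (x : ℝ) < y ∧
      (Ioo (x : ℝ) y ⊆ O ∨ (y : ℝ) ≤ x + hh x) ∧ (∀ z ∈ D \ O, x + hh x ≤ z → (y : ℝ) ≤ z) ∧
      ∀ z ∈ D \ O, (y : ℝ) < z → x + hh x < z := by
    rintro ⟨x, hx⟩
    obtain ⟨y, hy, h1⟩ := mesh_next hD hO hcof hx.1 (hpos x hx.1) (hin x hx.1)
    exact ⟨⟨y, hy⟩, h1⟩
  choose N hN1 hN2 hN3 hN4 using key
  obtain ⟨S, hS⟩ : ∃ S : ℕ → {x : ℝ // x ∈ D \ O}, S = fun j => N^[j] ⟨0, hD.z, h0⟩ := ⟨_, rfl⟩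
  have hS0 : (S 0 : ℝ) = 0 := by rw [hS]; rfl
  have hSs : ∀ j, S (j + 1) = N (S j) := fun j => by rw [hS]; exact Function.iterate_succ_apply' N j _
  have hmono : StrictMono fun j => (S j : ℝ) := strictMono_nat_of_lt_succ fun j => by
    show (S j : ℝ) < S (j + 1)
    rw [hSs]; exact hN1 _
  refine ⟨fun j => S j, hS0, hmono, fun j => (S j).2, fun t ht => ?_, fun j => ?_, fun j z hz hz1 => ?_⟩
  · by_contra hcon
    push Not at hcon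
    obtain ⟨η, hη, hη1⟩ := hloc t ht
    have h2 : ∀ j, (S j : ℝ) + η ≤ S (j + 2) := by
      intro j
      have h3 := hN4 (S j) (S (j + 2)) (S (j + 2)).2 (by rw [← hSs]; exact hmono (Nat.lt_succ_self _))
      have h4 := hη1 _ (S j).2.1 (hcon j)
      linarith
    have h3 : ∀ n : ℕ, (n : ℝ) * η ≤ S (2 * n) := by
      intro n
      induction n with
      | zero => simp [hS0]
      | succ n ih =>
        have h4 := h2 (2 * n)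
        rw [show 2 * (n + 1) = 2 * n + 2 by ring]
        push_cast
        linarith
    obtain ⟨n, hn⟩ := exists_nat_gt (t / η)
    rw [div_lt_iff₀ hη] at hn
    have := h3 n
    have := hcon (2 * n)
    linarith
  · show Ioo (S j : ℝ) (S (j + 1)) ⊆ O ∨ (S (j + 1) : ℝ) ≤ S j + hh (S j)
    rw [hSs]
    exact hN2 _
  · show (S (j + 1) : ℝ) ≤ z
    rw [hSs]
    exact hN3 _ z hz hz1

end Pool.Agent.H356R3.NS.X
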