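import Pool.Agent.H3NX.RegX2

set_option autoImplicit false
set_option maxHeartbeats 4000000
set_option synthInstance.maxHeartbeats 400000

/-!
The nonlinear term of the limit is integrable in time, coefficient by coefficient.
-/

open MeasureTheory Set Filter Topology
open scoped ENNReal NNReal

namespace Pool.Agent.H356R3.NS.X

open Pool.Agent.H3NS

/-- the integral of the coefficient `k` -/
noncomputable def NI (k : K) (G : Fam) : ℝ≥0∞ := ∫⁻ t in Ioi 0, ‖G k t‖ₑ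

lemma NI_add (k : K) {G H : Fam} (hG : CF G) : NI k (G + H) ≤ NI k G + NI k H := by
  unfold NI
  rw [← lintegral_add_left (hG k).measurable.enorm]
  exact lintegral_mono fun t => enorm_add_le _ _

lemma NI_zero (k : K) : NI k 0 = 0 := by
  unfold NI
  simp

section
variable {χ : ℝ → ℝ} {c : ℝ} {b : K → C3} {S0 : StX χ c} {ρ p dl : ℕ → ℝ} {e : ℝ} {g : ℝ → ℝ}
    {S : ℕ → StX χ c} {W D : ℕ → K → C3}

lemma Run.nl1 (h : Run χ c b S0 ρ p dl e g S W D) (he : 0 ≤ e) (hρ2 : ∀ j, 2 < ρ j) (hρ : Antitone ρ) (j : ℕ) (k : K) :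
    NI k (Bx χ (S (j + 1 + 1)).u - Bx χ (S (j + 1)).u) ≤ ENNReal.ofReal (21 * (e * nk k) * (1 / 2) ^ (j + 1)) := by
  have p0 : (0 : ℝ) ≤ (1 / 2) ^ j := by positivity
  have hnk := nk_nonneg k
  by_cases hk : k = 0
  · subst hk
    have h1 : NI 0 (Bx χ (S (j + 1 + 1)).u - Bx χ (S (j + 1)).u) = 0 := by
      unfold NI
      simp [Bx_zero]
    rw [h1]; exact zero_le
  refine (h.nl (j + 1) k).trans (ENNReal.ofReal_le_ofReal ?_)
  have hr : 1 ≤ ρ 0 := by linarith [hρ2 0]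
  have q : ∀ i, 1 ≤ ρ i := fun i => by linarith [hρ2 i]
  have a0 : ∀ i, ρ i ≤ ρ 0 := fun i => hρ (Nat.zero_le i)
  have w0 : critNorm (ρ 0) (W j) ≤ ENNReal.ofReal (e * (1 / 2) ^ j) := (critNorm_anti (q _) (a0 j) _).trans (h.wn j)
  have d1 : critNorm (ρ 0) (b - D (j + 1)) ≤ ENNReal.ofReal (e * (1 / 2) ^ (j + 1)) :=
    (critNorm_anti (q _) (a0 _) _).trans (h.dn (j + 1))
  have d0 : critNorm (ρ 0) (b - D j) ≤ ENNReal.ofReal (e * (1 / 2) ^ j) := (critNorm_anti (q _) (a0 _) _).trans (h.dn j)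
  have e1 : D (j + 1) - (S (j + 1)).V = ((b - D j) - (b - D (j + 1))) - W j := by
    rw [h.sV j]; abel
  have h1 : critNorm (ρ 0) (D (j + 1) - (S (j + 1)).V) ≤ ENNReal.ofReal (5 * e * (1 / 2) ^ (j + 1)) := by
    rw [e1]
    refine ((critNorm_sub' hr _ _).trans (add_le_add ((critNorm_sub' hr _ _).trans (add_le_add d0 d1)) w0)).trans ?_
    rw [← ENNReal.ofReal_add (by positivity) (by positivity), ← ENNReal.ofReal_add (by positivity) (by positivity)]
    apply ENNReal.ofReal_le_ofReal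
    rw [pow_succ]
    apply le_of_eq
    ring
  have h2 := (enorm_le_crit hr (D (j + 1) - (S (j + 1)).V) hk).trans (mul_le_mul' le_rfl h1)
  rw [← ENNReal.ofReal_mul hnk, ← ofReal_norm] at h2
  have h3 := (ENNReal.ofReal_le_ofReal_iff (mul_nonneg hnk (by positivity))).1 h2
  calc 4 * ‖(D (j + 1) - (S (j + 1)).V) k‖ + nk k * (e * (1 / 2) ^ (j + 1))
      ≤ 4 * (nk k * (5 * e * (1 / 2) ^ (j + 1))) + nk k * (e * (1 / 2) ^ (j + 1)) := by linarith
    _ = _ := by ring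

/-- The coefficients of the nonlinear term of the limit are integrable. -/
theorem Run.nlim (h : Run χ c b S0 ρ p dl e g S W D) (hχ : CutT χ) (hc : 0 < c) (he : 0 ≤ e) (hρ2 : ∀ j, 2 < ρ j)
    (hρ : Antitone ρ) (hdl : Antitone dl) (hdl0 : Tendsto dl atTop (𝓝 0)) :
    ∃ C : ℝ, 0 ≤ C ∧ ∀ k, ∫⁻ t in Ioi 0, ‖Bx χ (lim S) k t‖ₑ ≤ ENNReal.ofReal (C * nk k) := by
  have hcf : ∀ n, CF (Bx χ (S n).u) := fun n => Bx_cont hχ (S n).sol.cf ((S n).sol.dom' (S n).ha)
  -- the first state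
  obtain ⟨L, hL⟩ : ∃ L, L = (LN (fun t => NW (Wa 0) (at' (S 1).u t))).toReal := ⟨_, rfl⟩
  have hLt : LN (fun t => NW (Wa 0) (at' (S 1).u t)) ≠ ⊤ :=
    ne_top_of_le_ne_top (S 1).sol.l2 (LN_mono fun t _ => NW_mono (fun k => Wa_mono (S 1).ha.le k) _)
  have hL0 : 0 ≤ L := by rw [hL]; exact ENNReal.toReal_nonneg
  have hL1 : LN (fun t => NW (Wa 0) (at' (S 1).u t)) = ENNReal.ofReal L := by
    rw [hL, ENNReal.ofReal_toReal hLt]
  have hC0 := C0_pos
  have h1 : ∀ k, NI k (Bx χ (S 1).u) ≤ ENNReal.ofReal (nk k * (C0 * (L * L))) := by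
    intro k
    refine (nl_one hχ (S 1).sol.cf k).trans (le_of_eq ?_)
    rw [hL1, ENNReal.ofReal_mul (nk_nonneg k), ENNReal.ofReal_mul hC0.le, ENNReal.ofReal_mul hL0]
  have h2 : ∀ k n, 1 ≤ n → NI k (Bx χ (S n).u) ≤ ENNReal.ofReal ((21 * e + C0 * (L * L)) * nk k) := by
    intro k n hn
    have hnk := nk_nonneg k
    have h3 := tele (u := fun n => Bx χ (S n).u) hcf (N := NI k) (fun x y hx _ => NI_add k hx) (NI_zero k)
      (e := 21 * (e * nk k)) (by positivity) (j := 1) (fun i hi => by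
        obtain ⟨j, rfl⟩ : ∃ j, i = j + 1 := ⟨i - 1, by omega⟩
        exact h.nl1 he hρ2 hρ j k) n hn
    have e1 : Bx χ (S n).u = (Bx χ (S n).u - Bx χ (S 1).u) + Bx χ (S 1).u := by abel
    rw [e1]
    refine (NI_add k (CF.sub' (hcf n) (hcf 1))).trans ((add_le_add h3 (h1 k)).trans ?_)
    rw [← ENNReal.ofReal_add (by positivity) (by positivity)]
    apply ENNReal.ofReal_le_ofReal
    apply le_of_eq
    ring
  refine ⟨21 * e + C0 * (L * L), by positivity, fun k => ?_⟩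
  -- pointwise convergence
  have h4 : ∀ t : ℝ, 0 < t → Tendsto (fun n => Bx χ (S n).u k t) atTop (𝓝 (Bx χ (lim S) k t)) := by
    intro t ht
    obtain ⟨B, hB, j, hj⟩ := h.wsb hχ hc he hdl hdl0 ht 4
    obtain ⟨bd, hbd⟩ : ∃ bd : K → ℝ, bd = fun k => B * (1 / nk k) ^ 4 := ⟨_, rfl⟩
    have hbs : Summable bd := by rw [hbd]; exact summ_nk4.mul_left B
    have hbn : ∀ n k, ‖(S (n + j)).u k t‖ ≤ bd k := by
      intro n k
      rw [hbd]
      exact norm_le_of_ws ((S (n + j)).sol.z t) hB (hj (n + j) (Nat.le_add_left _ _) t le_rfl) k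
    have htn : ∀ k, Tendsto (fun n => (S (n + j)).u k t) atTop (𝓝 (lim S k t)) := fun k =>
      (h.tends he hρ2 hρ k t).comp (tendsto_add_atTop_nat j)
    have h5 : Tendsto (fun n => Bx χ (S (n + j)).u k t) atTop (𝓝 (Bx χ (lim S) k t)) :=
      (Bf_tendsto hbs hbn htn k).const_smul (χ t)
    exact (tendsto_add_atTop_iff_nat j).1 h5
  calc ∫⁻ t in Ioi 0, ‖Bx χ (lim S) k t‖ₑ
      = ∫⁻ t in Ioi 0, liminf (fun n => ‖Bx χ (S n).u k t‖ₑ) atTop := by
        refine setLIntegral_congr_fun measurableSet_Ioi fun t ht => ?_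
        exact ((continuous_enorm.tendsto _).comp (h4 t ht)).liminf_eq.symm
    _ ≤ liminf (fun n => ∫⁻ t in Ioi 0, ‖Bx χ (S n).u k t‖ₑ) atTop :=
        lintegral_liminf_le fun n => (hcf n k).measurable.enorm
    _ ≤ liminf (fun _ : ℕ => ENNReal.ofReal ((21 * e + C0 * (L * L)) * nk k)) atTop :=
        liminf_le_liminf ((eventually_ge_atTop 1).mono fun n hn => h2 k n hn)
    _ = _ := liminf_const _

end

end Pool.Agent.H356R3.NS.X
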