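import Pool.Agent.H3NX.Phys
import Pool.Agent.H3NX.NlLim

set_option autoImplicit false
set_option maxHeartbeats 4000000
set_option synthInstance.maxHeartbeats 400000

open MeasureTheory Set Filter Topology
open scoped ENNReal NNReal ContDiff

namespace Pool.Agent.H356R3.NS.X

open Pool.Agent.H3NS

/-- a decreasing sequence which reaches every exponent -/
lemma seq_exp {A : Set ℝ} {r : ℝ} (hr : r ∈ A) (hb : BddBelow A) :
    ∃ ρ : ℕ → ℝ, Antitone ρ ∧ (∀ j, ρ j ∈ A) ∧ ρ 0 ≤ r ∧ ∀ r' ∈ A, ∃ j, ρ j ≤ r' := by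
  obtain ⟨A', hA'⟩ : ∃ A', A' = A ∩ Iic r := ⟨_, rfl⟩
  have hr' : r ∈ A' := by rw [hA']; exact ⟨hr, mem_Iic.2 le_rfl⟩
  have hb' : BddBelow A' := by rw [hA']; exact hb.mono inter_subset_left
  have key : ∃ ρ : ℕ → ℝ, Antitone ρ ∧ (∀ j, ρ j ∈ A') ∧ ∀ r' ∈ A', ∃ j, ρ j ≤ r' := by
    by_cases h : sInf A' ∈ A'
    · exact ⟨fun _ => sInf A', antitone_const, fun _ => h, fun r' hr' => ⟨0, csInf_le hb' hr'⟩⟩
    · obtain ⟨ρ, h1, h2, h3⟩ := exists_seq_tendsto_sInf ⟨r, hr'⟩ hb'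
      refine ⟨ρ, h1, h3, fun r' hr' => ?_⟩
      have h4 : sInf A' < r' := lt_of_le_of_ne (csInf_le hb' hr') fun h5 => h (h5 ▸ hr')
      obtain ⟨j, hj⟩ := (h2.eventually (gt_mem_nhds h4)).exists
      exact ⟨j, hj.le⟩
  obtain ⟨ρ, h1, h2, h3⟩ := key
  have h4 : ∀ j, ρ j ∈ A ∧ ρ j ≤ r := fun j => by
    have := h2 j
    rw [hA'] at this
    exact this
  refine ⟨ρ, h1, fun j => (h4 j).1, (h4 0).2, fun r' hr'' => ?_⟩
  by_cases h5 : r' ≤ r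
  · exact h3 r' (by rw [hA']; exact ⟨hr'', h5⟩)
  · exact ⟨0, (h4 0).2.trans (not_le.1 h5).le⟩

lemma seq_p {p : ℝ} (hp1 : 1 ≤ p) (hp2 : p < 2) :
    ∃ q : ℕ → ℝ, (∀ j, 1 ≤ q j) ∧ (∀ j, q j < 2) ∧ (∀ j, p ≤ q j) ∧ ∀ p' < 2, ∃ j, ∀ i, j ≤ i → p' ≤ q i := by
  have h0 : 0 < 2 - p := by linarith
  refine ⟨fun j => 2 - (2 - p) * (1 / 2) ^ j, fun j => ?_, fun j => ?_, fun j => ?_, fun p' hp' => ?_⟩
  · have : (1 / 2 : ℝ) ^ j ≤ 1 := pow_le_one₀ (by norm_num) (by norm_num)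
    simp only
    nlinarith
  · have : (0 : ℝ) < (2 - p) * (1 / 2) ^ j := by positivity
    simp only
    linarith
  · have : (1 / 2 : ℝ) ^ j ≤ 1 := pow_le_one₀ (by norm_num) (by norm_num)
    simp only
    nlinarith
  · have h1 : Tendsto (fun j : ℕ => (2 - p) * (1 / 2 : ℝ) ^ j) atTop (𝓝 0) := by
      have := (tendsto_pow_atTop_nhds_zero_of_lt_one (by norm_num : (0 : ℝ) ≤ 1 / 2)
        (by norm_num : (1 / 2 : ℝ) < 1)).const_mul (2 - p)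
      simpa using this
    obtain ⟨j, hj⟩ := (h1.eventually (gt_mem_nhds (show 0 < 2 - p' by linarith))).exists
    refine ⟨j, fun i hi => ?_⟩
    have h2 : (1 / 2 : ℝ) ^ i ≤ (1 / 2) ^ j := pow_le_pow_of_le_one (by norm_num) (by norm_num) hi
    have h3 : (2 - p) * (1 / 2 : ℝ) ^ i ≤ (2 - p) * (1 / 2) ^ j := mul_le_mul_of_nonneg_left h2 h0.le
    linarith

lemma TF_one (n : ℕ) : TF n fun _ => (1 : ℝ) := TF.const n 1

lemma LP_ne_top {χ : ℝ → ℝ} {c : ℝ} (S : StX χ c) {q : ℝ} (hq : 0 < q) : LP q S.u ≠ ⊤ := by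
  obtain ⟨Mu, hMu, hb⟩ := solX_bdd S.ha.le S.sol
  unfold LP
  apply ENNReal.rpow_ne_top_of_nonneg (by positivity)
  refine ne_top_of_le_ne_top ?_ (lintegral_mono (g := fun _ => ENNReal.ofReal Mu ^ q)
    fun t => ENNReal.rpow_le_rpow (hb t) hq.le)
  rw [setLIntegral_const, Real.volume_Ioc]
  exact ENNReal.mul_ne_top (ENNReal.rpow_ne_top_of_nonneg hq.le ENNReal.ofReal_ne_top) ENNReal.ofReal_ne_top

/-- What the construction gives. -/
structure OutN (ga : ℝ → ℝ) (c : ℝ) (χ : ℝ → ℝ) (b : K → C3) (v : Fam) (V : K → C3) (r p δ ε : ℝ) (s : ℕ) (u : Fam) : Prop where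
  cf : CF u
  reg : RegP c χ u
  sym : SymF u
  z : ∀ t, u 0 t = 0
  sn : ∀ t, 0 < t → SN (at' u t)
  init : ∀ k, u k 0 = b k
  att : ∀ r', 2 < r' → critNorm r' b ≠ ⊤ → Tendsto (fun t => critNorm r' (at' u t - b)) (𝓝[>] 0) (𝓝 0)
  lq : ∀ q, 1 ≤ q → q < 2 → LP q u ≠ ⊤
  lp : LP p (u - v) ≤ ENNReal.ofReal ε
  cl : ∀ t, δ ≤ t → NW (ws s) (at' (u - v) t) ≤ ENNReal.ofReal ε
  cr : ∀ t, critNorm r (at' (u - v) t) ≤ 4 * critNorm r (b - V) + ENNReal.ofReal ε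
  nl : ∃ C : ℝ, 0 ≤ C ∧ ∀ k, ∫⁻ t in Ioi 0, ‖Bx χ u k t‖ₑ ≤ ENNReal.ofReal (C * nk k)
  kt : ∀ t, 0 < t → KA (u - v) t ≤ ENNReal.ofReal ε
  kg : ∀ᶠ t in 𝓝[>] (0 : ℝ), KA u t ≤ ENNReal.ofReal (ga t)

theorem coreN {ga : ℝ → ℝ} (hga : Gau ga) {χ : ℝ → ℝ} {h : ℝ} (hχ : CutH χ h) (hT : ∀ n, TF n χ) {c : ℝ} (hc : 0 < c) (S0 : StX χ c)
    {b : K → C3} (hb0 : b 0 = 0) (hbd : ∀ k, dt k (b k) = 0) (hbs : Sym b) {r : ℝ} (hr : 2 < r)
    (hbr : critNorm r b ≠ ⊤) {p δ ε : ℝ} (hp1 : 1 ≤ p) (hp2 : p < 2) (hδ : 0 < δ) (hε : 0 < ε) (s : ℕ) :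
    ∃ u : Fam, OutN ga c χ b S0.u S0.V r p δ ε s u := by
  have hχT : CutT χ := hχ.toCutT
  obtain ⟨ρ, hρ, hρA, hρ0, hρr⟩ := seq_exp (A := {x | 2 < x ∧ critNorm x b ≠ ⊤}) (r := r) ⟨hr, hbr⟩
    ⟨2, fun x hx => hx.1.le⟩
  have hρ2 : ∀ j, 2 < ρ j := fun j => (hρA j).1
  obtain ⟨q, hq1, hq2, hqp, hqq⟩ := seq_p hp1 hp2
  obtain ⟨L, hL⟩ : ∃ L, L = (LNd (δ / 2) S0.u).toReal + 2 := ⟨_, rfl⟩
  have hL0 : 0 ≤ L := by rw [hL]; positivity
  obtain ⟨B, hB, hB'⟩ := smoothing hc hL0 (2 * s + 1) (δ / 2) δ (by positivity) (by linarith)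
  obtain ⟨e, he⟩ : ∃ e, e = min (min 1 (ε / 31)) (ε ^ 2 / (4 * B + 1)) := ⟨_, rfl⟩
  have he0 : 0 < e := by rw [he]; positivity
  have he1 : e ≤ 1 := by rw [he]; exact (min_le_left _ _).trans (min_le_left _ _)
  have he2 : 31 * e ≤ ε := by
    have : e ≤ ε / 31 := by rw [he]; exact (min_le_left _ _).trans (min_le_right _ _)
    linarith
  have he3 : (4 * B + 1) * e ≤ ε ^ 2 := by
    have : e ≤ ε ^ 2 / (4 * B + 1) := by rw [he]; exact min_le_right _ _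
    rw [le_div_iff₀ (by positivity)] at this
    linarith
  obtain ⟨dl, hdl⟩ : ∃ dl : ℕ → ℝ, dl = fun j => δ / 2 * (1 / 2) ^ j := ⟨_, rfl⟩
  have hdl0 : ∀ j, 0 < dl j := fun j => by rw [hdl]; positivity
  have hdlA : Antitone dl := by
    rw [hdl]
    intro i j hij
    exact mul_le_mul_of_nonneg_left (pow_le_pow_of_le_one (by norm_num) (by norm_num) hij) (by positivity)
  have hdlT : Tendsto dl atTop (𝓝 0) := by
    rw [hdl]
    have := (tendsto_pow_atTop_nhds_zero_of_lt_one (by norm_num : (0 : ℝ) ≤ 1 / 2)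
        (by norm_num : (1 / 2 : ℝ) < 1)).const_mul (δ / 2)
    simpa using this
  obtain ⟨S, W, D, hR⟩ := exists_run hχ hc S0 hb0 hbd hbs hρ2 hq1 hq2 hdl0 (fun j => (hρA j).2) he0 hga
  have hd0 : dl 0 ≤ δ / 2 := by rw [hdl]; simp
  have hS0 : (S 0).u = S0.u := by rw [hR.s0]
  have hwb : ∀ n, ∀ t, δ ≤ t → NW (ws (2 * s + 1)) (at' (S n).u t) ≤ ENNReal.ofReal B := fun n t ht => by
    refine hR.wsb' hχT hc he0.le hdlA (L := (LNd (δ / 2) S0.u).toReal) (by positivity)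
      (show δ / 2 < δ by linarith) hd0 ENNReal.toReal_nonneg ?_ (s := 2 * s + 1) (B := B) ?_ n (Nat.zero_le n) t ht
    · rw [hS0, ENNReal.ofReal_toReal (LNd_ne_top S0.ha S0.sol _)]
    · intro χ hχ a ha V u hu hLu t ht
      refine hB' χ hχ a ha V u hu (hLu.trans (ENNReal.ofReal_le_ofReal ?_)) t ht
      rw [hL]
      linarith
  refine ⟨lim S, ⟨hR.cf he0.le hρ2 hρ, fun δ' hδ' => hR.regF hχT hc he0.le hρ2 hρ hdlA hdlT hT hδ',
    hR.sym he0.le hρ2 hρ, lim_z S, fun t ht => ?_, hR.init he0.le hρ2 hρ hb0,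
    fun r' hr' hb' => hR.attain hχT hc he0.le hρ2 hρ (hρr r' ⟨hr', hb'⟩), fun q' h1 h2 => ?_, ?_, fun t ht => ?_,
    fun t => ?_, hR.nlim hχT hc he0.le hρ2 hρ hdlA hdlT, fun t ht => ?_, hR.kg he0.le hρ2 hρ hdlT⟩⟩
  · obtain ⟨B', hB', hb⟩ := hR.wsy hχT hc he0.le hρ2 hρ hdlA hdlT ht 4
    have h2 := hb 0
    rw [at'_shf _ le_rfl, add_zero] at h2
    refine Summable.of_nonneg_of_le (fun _ => norm_nonneg _) (fun k => norm_le_of_ws (lim_z S t) hB' h2 k)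
      (summ_nk4.mul_left B')
  · obtain ⟨j, hj⟩ := hqq q' h2
    have h3 := hR.lplim he0.le hρ2 hρ h1 hj
    have e1 : lim S = (lim S - (S j).u) + (S j).u := by abel
    rw [e1]
    refine ne_top_of_le_ne_top ?_ (LP_add h1 (CF.sub' (hR.cf he0.le hρ2 hρ) (S j).sol.cf) (S j).sol.cf)
    exact ENNReal.add_ne_top.2 ⟨ne_top_of_le_ne_top ENNReal.ofReal_ne_top h3, LP_ne_top (S j) (by linarith)⟩
  · have h3 := hR.lplim he0.le hρ2 hρ hp1 (j := 0) fun i _ => hqp i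
    rw [hS0] at h3
    refine h3.trans (ENNReal.ofReal_le_ofReal ?_)
    rw [pow_zero]
    linarith
  · have h1 : NW (Wm 0) (at' (lim S - S0.u) t) ≤ ENNReal.ofReal (2 * e) := by
      have := hR.nmlim he0.le hρ2 hρ hdlA (j := 0) (t := t) (by linarith)
      rw [hS0] at this
      simpa using this
    have h2 : NW (ws (2 * s + 1)) (at' (lim S - S0.u) t) ≤ ENNReal.ofReal (2 * B) := by
      have h3 : NW (ws (2 * s + 1)) (at' (lim S) t) ≤ ENNReal.ofReal B :=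
        hR.wslim he0.le hρ2 hρ (fun k => by unfold ws; exact ENNReal.ofReal_ne_top) (j := 0)
          fun n _ => hwb n t ht
      have h4 := hwb 0 t ht
      rw [hS0] at h4
      have e1 : at' (lim S - S0.u) t = at' (lim S) t + (-1 : ℝ) • at' S0.u t := by
        funext k
        simp [at', sub_eq_add_neg]
      rw [e1]
      refine (NW_add_le _ _ _).trans ?_
      have e2 : NW (ws (2 * s + 1)) ((-1 : ℝ) • at' S0.u t) = NW (ws (2 * s + 1)) (at' S0.u t) := by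
        unfold NW
        refine tsum_congr fun k => ?_
        rw [Pi.smul_apply, neg_one_smul, enorm_neg]
      rw [e2, show 2 * B = B + B by ring, ENNReal.ofReal_add hB hB]
      exact add_le_add h3 h4
    have h5 := (interp_s s (x := at' (lim S - S0.u) t) (by
      show lim S 0 t - S0.u 0 t = 0
      rw [lim_z, S0.sol.z, sub_self])).trans (mul_le_mul' h1 h2)
    rw [← ENNReal.ofReal_mul (by positivity)] at h5
    have h6 : ENNReal.ofReal (2 * e * (2 * B)) ≤ ENNReal.ofReal ε * ENNReal.ofReal ε := by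
      rw [← ENNReal.ofReal_mul hε.le]
      apply ENNReal.ofReal_le_ofReal
      nlinarith
    have h7 := h5.trans h6
    by_contra h8
    push Not at h8
    exact absurd h7 (not_le.2 (ENNReal.mul_lt_mul h8 h8))
  · have h1 := hR.crlim0 he0.le hρ2 hρ hρ0 t
    exact h1.trans (add_le_add le_rfl (ENNReal.ofReal_le_ofReal he2))
  · have h1 := hR.kklim he0.le hρ2 hρ 0 ht
    rw [hS0] at h1
    refine h1.trans (ENNReal.ofReal_le_ofReal ?_)
    rw [pow_zero]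
    linarith

end Pool.Agent.H356R3.NS.X
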