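import Pool.Agent.H3NX.Gal2

set_option autoImplicit false
set_option maxHeartbeats 4000000
set_option synthInstance.maxHeartbeats 400000

/-!
Global smooth solutions have a finite norm in `L²(0, ∞; ℓ¹)`.
-/

open MeasureTheory Set Filter Topology
open scoped ENNReal NNReal ContDiff

namespace Pool.Agent.H356R3.NS.X

open Pool.Agent.H3NS
open H459R3.NS (fr ee SP IsSol cube)

lemma Ht_le {c : ℝ} (hc : 0 < c) (V : K → C3) (W : K → ℝ≥0∞) (t : ℝ) : NW W (at' (Ht c V) t) ≤ NW W V := by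
  unfold NW
  refine ENNReal.tsum_le_tsum fun k => mul_le_mul' le_rfl ?_
  show ‖Real.exp (-(c * sq k * max t 0)) • V k‖ₑ ≤ _
  rw [enorm_smul, Real.enorm_of_nonneg (Real.exp_pos _).le]
  calc _ ≤ 1 * ‖V k‖ₑ := by
        apply mul_le_mul' _ le_rfl
        rw [ENNReal.ofReal_le_one, Real.exp_le_one_iff]
        have := sq_nonneg' k
        have h2 : 0 ≤ max t 0 := le_max_right _ _
        have : 0 ≤ c * sq k * max t 0 := by positivity
        linarith
    _ = _ := one_mul _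

lemma Ht_W2 {c : ℝ} (hc : 0 < c) (w : K → ℝ≥0∞) (V : K → C3) :
    ENNReal.ofReal c * ∫⁻ t in Ioi 0, NW (W2 w) (at' (Ht c V) t) ≤ NW w V := by
  unfold NW
  rw [lintegral_tsum, ← ENNReal.tsum_mul_left]
  · refine ENNReal.tsum_le_tsum fun k => ?_
    by_cases hk0 : k = 0
    · subst hk0
      simp [W2, sq_zero]
    have hlam : 0 < c * sq k := mul_pos hc (sq_pos hk0)
    have e2 : ∀ t, W2 w k * ‖at' (Ht c V) t k‖ₑ
        = (W2 w k * ‖V k‖ₑ) * ENNReal.ofReal (Real.exp (-(c * sq k * max t 0))) := by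
      intro t
      show W2 w k * ‖Real.exp (-(c * sq k * max t 0)) • V k‖ₑ = _
      rw [enorm_smul, Real.enorm_of_nonneg (Real.exp_pos _).le]
      ring
    simp only [e2]
    rw [lintegral_const_mul _ (by fun_prop), lint_e hlam]
    have e3 : ENNReal.ofReal c * (W2 w k * ‖V k‖ₑ * ENNReal.ofReal (1 / (c * sq k)))
        = (ENNReal.ofReal (c * sq k) * ENNReal.ofReal (1 / (c * sq k))) * (w k * ‖V k‖ₑ) := by
      rw [ENNReal.ofReal_mul hc.le]
      unfold W2
      ring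
    rw [e3, ← ENNReal.ofReal_mul hlam.le, mul_one_div_cancel hlam.ne', ENNReal.ofReal_one, one_mul]
  · intro k
    have : Continuous (Ht c V k) := by unfold Ht; fun_prop
    exact (this.enorm.measurable.const_mul _).aemeasurable

lemma Duh_W2 {c : ℝ} (hc : 0 < c) (w : K → ℝ≥0∞) {F : Fam} (hF : CF F) :
    ENNReal.ofReal c * ∫⁻ t in Ioi 0, NW (W2 w) (at' (Duh c F) t) ≤ ∫⁻ s in Ioi 0, NW w (at' F s) := by
  have h := L1w hc w hF (g := fun _ => 0) monotone_const
  simpa using h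

lemma W2_Wm : W2 (Wm 0) = Wp 0 := by
  funext k
  unfold W2 Wm Wp
  have o : om 0 k = 1 := by simp [om]
  rw [o, ← ENNReal.ofReal_mul (by have := nk_nonneg k; positivity)]
  congr 1
  by_cases hk : k = 0
  · subst hk; rw [nk_zero, sq_zero]; simp
  · have := nk_pos hk
    rw [← nk_mul_self k]
    field_simp

/-- a clamped family -/
noncomputable def clp (z : Fam) (T : ℝ) : Fam := fun k s => z k (min s T)

/-- local bounds -/
def LB (z : Fam) : Prop := ∀ T : ℝ, ∃ C : ℝ, 0 ≤ C ∧ ∀ t ≤ T, ∀ k, ‖z k t‖ ≤ C * (1 / nk k) ^ 4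

lemma LB.sn {z : Fam} (h : LB z) (t : ℝ) : SN (at' z t) := by
  obtain ⟨C, hC, hb⟩ := h t
  exact Summable.of_nonneg_of_le (fun _ => norm_nonneg _) (fun k => hb t le_rfl k) (summ_nk4.mul_left C)

lemma LB.cont {z : Fam} (h : LB z) (hz : CF z) : Continuous fun t => ∑' k, ‖z k t‖ := by
  rw [continuous_iff_continuousAt]
  intro t
  obtain ⟨C, hC, hb⟩ := h (t + 1)
  have h1 : Continuous fun s => ∑' k, ‖z k (min s (t + 1))‖ := by
    refine continuous_tsum (u := fun k => C * (1 / nk k) ^ 4) (fun k => ?_) (summ_nk4.mul_left C) fun k s => ?_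
    · exact ((hz k).comp (by fun_prop)).norm
    · rw [norm_norm]
      exact hb _ (min_le_right _ _) k
  refine h1.continuousAt.congr ?_
  filter_upwards [gt_mem_nhds (show t < t + 1 by linarith)] with s hs
  rw [min_eq_left (le_of_lt hs)]

lemma NW_eq_An {x : K → C3} (h : SN x) : NW (Wa 0) x = ENNReal.ofReal (∑' k, ‖x k‖) := by
  rw [NW_Wa_zero, ENNReal.ofReal_tsum_of_nonneg (fun _ => norm_nonneg _) h]
  exact tsum_congr fun k => (ofReal_norm _).symm

section
variable {c : ℝ} {z : Fam}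

/-- the square integral -/
noncomputable def II (z : Fam) (τ : ℝ) : ℝ := ∫ t in (0 : ℝ)..τ, (∑' k, ‖z k t‖) ^ 2

lemma II_cont (h : LB z) (hz : CF z) : Continuous (II z) := by
  unfold II
  exact intervalIntegral.continuous_primitive (fun a b => ((h.cont hz).pow 2).intervalIntegrable _ _) 0

lemma II_eq (h : LB z) (hz : CF z) {τ : ℝ} (hτ : 0 ≤ τ) :
    ∫⁻ t in Ioc 0 τ, NW (Wa 0) (at' z t) * NW (Wa 0) (at' z t) = ENNReal.ofReal (II z τ) := by
  unfold II
  have hint : IntegrableOn (fun t => (∑' k, ‖z k t‖) ^ 2) (Ioc 0 τ) := by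
    have h1 : Continuous fun t => (∑' k, ‖z k t‖) ^ 2 := (h.cont hz).pow 2
    exact h1.integrableOn_Ioc
  rw [intervalIntegral.integral_of_le hτ,
    ofReal_integral_eq_lintegral_ofReal hint (Filter.Eventually.of_forall fun _ => sq_nonneg _)]
  refine lintegral_congr fun t => ?_
  have h0 : 0 ≤ ∑' k, ‖z k t‖ := tsum_nonneg fun _ => norm_nonneg _
  rw [NW_eq_An (h.sn t), ← ENNReal.ofReal_mul (tsum_nonneg fun _ => norm_nonneg _), pow_two]
  rfl

lemma II_nonneg (z : Fam) {τ : ℝ} (hτ : 0 ≤ τ) : 0 ≤ II z τ :=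
  intervalIntegral.integral_nonneg hτ fun _ _ => sq_nonneg _

/-- the basic quadratic inequality -/
lemma II_quad (hc : 0 < c) (h : LB z) (hz : CF z) (hB : CF (Bt z)) (hz0 : ∀ t, z 0 t = 0)
    (he : Eqn c (at' z 0) (Bt z) z) {Y0 : ℝ} (hY : 0 ≤ Y0) (hV : NW (Wm 0) (at' z 0) ≤ ENNReal.ofReal Y0)
    {τ : ℝ} (hτ : 0 ≤ τ) : c * II z τ ≤ (Y0 + C0 * II z τ) ^ 2 := by
  have hC := C0_pos
  have hI0 := II_nonneg z hτ
  have key : ∀ κ : ℝ, 0 < κ → c * II z τ ≤ (Y0 + C0 * II z τ) * (Y0 + C0 * II z (τ + κ)) := by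
    intro κ hκ
    have hI1 := II_nonneg z (show 0 ≤ τ + κ by linarith)
    obtain ⟨θ, hθ⟩ : ∃ θ : ℝ → ℝ, θ = fun t => max 0 (min 1 ((τ + κ - t) / κ)) := ⟨_, rfl⟩
    have hθc : Continuous θ := by rw [hθ]; fun_prop
    have hθ0 : ∀ t, 0 ≤ θ t := fun t => by rw [hθ]; exact le_max_left _ _
    have hθ1 : ∀ t, θ t ≤ 1 := fun t => by rw [hθ]; exact max_le zero_le_one (min_le_left _ _)
    have hθe : ∀ t, t ≤ τ → θ t = 1 := fun t ht => by
      rw [hθ]
      have : 1 ≤ (τ + κ - t) / κ := by rw [one_le_div hκ]; linarith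
      simp only [min_eq_left this]
      exact max_eq_right zero_le_one
    have hθz : ∀ t, τ + κ ≤ t → θ t = 0 := fun t ht => by
      rw [hθ]
      have : (τ + κ - t) / κ ≤ 0 := div_nonpos_of_nonpos_of_nonneg (by linarith) hκ.le
      simp only
      exact max_eq_left ((min_le_right _ _).trans this)
    obtain ⟨F, hF⟩ : ∃ F : Fam, F = fun k t => θ t • Bt z k t := ⟨_, rfl⟩
    have hFc : CF F := fun k => by rw [hF]; exact hθc.smul (hB k)
    have hzθ : ∀ t, 0 < t → t ≤ τ → at' z t = at' (Ht c (at' z 0)) t + at' (Duh c F) t := by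
      intro t ht0 ht
      funext k
      show z k t = Real.exp (-(c * sq k * max t 0)) • at' z 0 k + Duh c F k t
      rw [he k t]
      congr 1
      unfold Duh
      refine intervalIntegral.integral_congr fun s hs => ?_
      rw [uIcc_of_le (le_max_right t 0), max_eq_left ht0.le] at hs
      simp only [hF]
      rw [hθe s (hs.2.trans ht), one_smul]
    have hsup : ∀ t, 0 < t → t ≤ τ → NW (Wm 0) (at' z t) ≤ ENNReal.ofReal (Y0 + C0 * II z τ) := by
      intro t ht0 ht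
      have e : at' z t = at' (Ht c (at' z 0)) t + at' (Duh c (Bt z)) t := by
        funext k; exact he k t
      rw [e, ENNReal.ofReal_add hY (by positivity)]
      refine (NW_add_le _ _ _).trans (add_le_add ((Ht_le hc _ _ t).trans hV) ?_)
      refine (NW_Duh_le hc.le _ hB ht0.le).trans ?_
      rw [ENNReal.ofReal_mul hC.le, ← II_eq h hz hτ, ← lintegral_const_mul' _ _ ENNReal.ofReal_ne_top]
      refine (lintegral_mono_set (Ioc_subset_Ioc_right ht)).trans (lintegral_mono fun s => ?_)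
      exact NW_Bf_le le_rfl _ _
    have hFW : ∫⁻ s in Ioi 0, NW (Wm 0) (at' F s) ≤ ENNReal.ofReal (C0 * II z (τ + κ)) := by
      rw [ENNReal.ofReal_mul hC.le, ← II_eq h hz (show 0 ≤ τ + κ by linarith),
        ← lintegral_const_mul' _ _ ENNReal.ofReal_ne_top, ← lintegral_indicator measurableSet_Ioi,
        ← lintegral_indicator measurableSet_Ioc]
      refine lintegral_mono fun s => ?_
      by_cases hs0 : s ∈ Ioi (0 : ℝ)
      · rw [indicator_of_mem hs0]
        by_cases hs1 : s ≤ τ + κ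
        · rw [indicator_of_mem (show s ∈ Ioc 0 (τ + κ) from ⟨hs0, hs1⟩)]
          have e : at' F s = θ s • Bf (at' z s) (at' z s) := by rw [hF]; rfl
          rw [e]
          exact (NW_smul_le _ (hθ0 s) (hθ1 s) _).trans (NW_Bf_le le_rfl _ _)
        · have e : at' F s = 0 := by
            rw [hF]
            funext k
            simp only [at', hθz s (not_le.1 hs1).le, zero_smul, Pi.zero_apply]
          rw [e, NW_zero]
          exact zero_le
      · rw [indicator_of_notMem hs0]; exact zero_le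
    have hP : ENNReal.ofReal c * ∫⁻ t in Ioc 0 τ, NW (Wp 0) (at' z t) ≤ ENNReal.ofReal (Y0 + C0 * II z (τ + κ)) := by
      have h1 : ∫⁻ t in Ioc 0 τ, NW (Wp 0) (at' z t) ≤ (∫⁻ t in Ioi 0, NW (Wp 0) (at' (Ht c (at' z 0)) t))
          + ∫⁻ t in Ioi 0, NW (Wp 0) (at' (Duh c F) t) := by
        rw [← lintegral_add_left (NW_meas _ (Ht_cf c _))]
        refine (setLIntegral_mono' measurableSet_Ioc fun t ht => ?_).trans (lintegral_mono_set Ioc_subset_Ioi_self)
        rw [hzθ t ht.1 ht.2]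
        exact NW_add_le _ _ _
      calc ENNReal.ofReal c * ∫⁻ t in Ioc 0 τ, NW (Wp 0) (at' z t)
          ≤ ENNReal.ofReal c * ((∫⁻ t in Ioi 0, NW (Wp 0) (at' (Ht c (at' z 0)) t))
            + ∫⁻ t in Ioi 0, NW (Wp 0) (at' (Duh c F) t)) := mul_le_mul' le_rfl h1
        _ = ENNReal.ofReal c * (∫⁻ t in Ioi 0, NW (Wp 0) (at' (Ht c (at' z 0)) t))
            + ENNReal.ofReal c * ∫⁻ t in Ioi 0, NW (Wp 0) (at' (Duh c F) t) := mul_add _ _ _
        _ ≤ ENNReal.ofReal Y0 + ENNReal.ofReal (C0 * II z (τ + κ)) := by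
            refine add_le_add ?_ ?_
            · rw [← W2_Wm]
              exact (Ht_W2 hc _ _).trans hV
            · rw [← W2_Wm]
              exact (Duh_W2 hc _ hFc).trans hFW
        _ = _ := (ENNReal.ofReal_add hY (by positivity)).symm
    have hfin : ENNReal.ofReal (c * II z τ) ≤ ENNReal.ofReal ((Y0 + C0 * II z τ) * (Y0 + C0 * II z (τ + κ))) := by
      rw [ENNReal.ofReal_mul hc.le, ENNReal.ofReal_mul (by positivity), ← II_eq h hz hτ]
      have h1 : ∫⁻ t in Ioc 0 τ, NW (Wa 0) (at' z t) * NW (Wa 0) (at' z t)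
          ≤ ENNReal.ofReal (Y0 + C0 * II z τ) * ∫⁻ t in Ioc 0 τ, NW (Wp 0) (at' z t) := by
        rw [← lintegral_const_mul' _ _ ENNReal.ofReal_ne_top]
        refine setLIntegral_mono' measurableSet_Ioc fun t ht => ?_
        exact (NW_interp (hz0 t)).trans (mul_le_mul' (hsup t ht.1 ht.2) le_rfl)
      calc _ ≤ ENNReal.ofReal c * (ENNReal.ofReal (Y0 + C0 * II z τ) * ∫⁻ t in Ioc 0 τ, NW (Wp 0) (at' z t)) :=
            mul_le_mul' le_rfl h1
        _ = ENNReal.ofReal (Y0 + C0 * II z τ) * (ENNReal.ofReal c * ∫⁻ t in Ioc 0 τ, NW (Wp 0) (at' z t)) := by ring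
        _ ≤ _ := mul_le_mul' le_rfl hP
    exact (ENNReal.ofReal_le_ofReal_iff (by positivity)).1 hfin
  have hcont : Tendsto (fun κ : ℝ => (Y0 + C0 * II z τ) * (Y0 + C0 * II z (τ + κ))) (𝓝[>] 0)
      (𝓝 ((Y0 + C0 * II z τ) * (Y0 + C0 * II z (τ + 0)))) := by
    have h1 := II_cont h hz
    have h2 : Continuous fun κ : ℝ => (Y0 + C0 * II z τ) * (Y0 + C0 * II z (τ + κ)) := by fun_prop
    exact (h2.tendsto 0).mono_left nhdsWithin_le_nhds
  have h3 := ge_of_tendsto hcont (by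
    filter_upwards [self_mem_nhdsWithin] with κ hκ
    exact key κ hκ)
  rw [add_zero] at h3
  rw [pow_two]
  exact h3

/-- small data: the norm in `L²(0, ∞; ℓ¹)` is finite -/
lemma small_l2 (hc : 0 < c) (h : LB z) (hz : CF z) (hB : CF (Bt z)) (hz0 : ∀ t, z 0 t = 0)
    (he : Eqn c (at' z 0) (Bt z) z) {Y0 : ℝ} (hY : 0 < Y0) (hY' : 8 * C0 * Y0 ≤ c)
    (hV : NW (Wm 0) (at' z 0) ≤ ENNReal.ofReal Y0) : LN (fun t => NW (Wa 0) (at' z t)) ≠ ⊤ := by
  have hC := C0_pos
  obtain ⟨X, hX⟩ : ∃ X, X = 4 * Y0 ^ 2 / c := ⟨_, rfl⟩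
  have hX0 : 0 < X := by rw [hX]; positivity
  have hle : ∀ τ, 0 ≤ τ → II z τ ≤ X := by
    intro τ hτ
    by_contra hcon
    push Not at hcon
    have h0 : II z 0 = 0 := by unfold II; simp
    obtain ⟨τ', hτ', hτe⟩ := intermediate_value_Icc hτ (II_cont h hz).continuousOn
      (show X ∈ Icc (II z 0) (II z τ) from ⟨by rw [h0]; exact hX0.le, hcon.le⟩)
    have h1 := II_quad hc h hz hB hz0 he hY.le hV hτ'.1
    rw [hτe] at h1
    have h2 : c * X = 4 * Y0 ^ 2 := by rw [hX]; field_simp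
    have h3 : C0 * X ≤ Y0 / 2 := by
      rw [hX, ← mul_div_assoc, div_le_iff₀ hc]
      nlinarith
    have h4 : 0 < C0 * X := by positivity
    have h5 : (Y0 + C0 * X) ^ 2 ≤ (Y0 + Y0 / 2) ^ 2 := pow_le_pow_left₀ (by positivity) (by linarith) 2
    nlinarith
  have hlim : ∫⁻ t in Ioi 0, NW (Wa 0) (at' z t) * NW (Wa 0) (at' z t) ≤ ENNReal.ofReal X := by
    have hU : (Ioi (0 : ℝ)) = ⋃ n : ℕ, Ioc (0 : ℝ) n := by
      ext t
      simp only [mem_Ioi, mem_iUnion, mem_Ioc]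
      constructor
      · intro ht
        obtain ⟨n, hn⟩ := exists_nat_ge t
        exact ⟨n, ht, hn⟩
      · rintro ⟨n, h1, -⟩
        exact h1
    rw [hU, setLIntegral_iUnion_of_directed]
    · refine iSup_le fun n => ?_
      rw [II_eq h hz (Nat.cast_nonneg n)]
      exact ENNReal.ofReal_le_ofReal (hle n (Nat.cast_nonneg n))
    · refine Monotone.directed_le fun m n hmn => Ioc_subset_Ioc_right ?_
      exact_mod_cast hmn
  unfold LN
  refine ENNReal.rpow_ne_top_of_nonneg (by norm_num) (ne_top_of_le_ne_top (ENNReal.ofReal_ne_top (r := X)) ?_)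
  refine le_trans (le_of_eq (lintegral_congr fun t => ?_)) hlim
  rw [ENNReal.rpow_two, pow_two]

/-- a solution which is small at some time -/
lemma late_l2 (hc : 0 < c) (h : LB z) (hz : CF z) (hB : CF (Bt z)) (hz0 : ∀ t, z 0 t = 0)
    (he : Eqn c (at' z 0) (Bt z) z) {Y0 : ℝ} (hY : 0 < Y0) (hY' : 8 * C0 * Y0 ≤ c) {H : ℝ} (hH : 0 ≤ H)
    (hV : NW (Wm 0) (at' z H) ≤ ENNReal.ofReal Y0) : LN (fun t => NW (Wa 0) (at' z t)) ≠ ⊤ := by
  have hs := he.shift hB hH
  have e0 : at' (shf H z) 0 = at' z H := by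
    funext k
    simp [at', shf]
  have eB : shf H (Bt z) = Bt (shf H z) := rfl
  have h1 : LN (fun t => NW (Wa 0) (at' (shf H z) t)) ≠ ⊤ := by
    refine small_l2 hc (fun T => ?_) (shf_cf hz) (by rw [← eB]; exact shf_cf hB) (fun t => hz0 _)
      (by rw [e0, ← eB]; exact hs) hY hY' (by rw [e0]; exact hV)
    obtain ⟨C, hC, hb⟩ := h (H + max T 0)
    exact ⟨C, hC, fun t ht k => hb _ (by have := max_le_max ht (le_refl (0 : ℝ)); linarith) k⟩
  have h2 : LN (fun t => NW (Wa 0) (at' (shf H z) t)) = (∫⁻ t in Ioi H, NW (Wa 0) (at' z t) ^ (2 : ℝ)) ^ (1 / 2 : ℝ) := by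
    rw [← LN_shift]
    unfold LN
    congr 1
    refine setLIntegral_congr_fun measurableSet_Ioi fun t ht => ?_
    simp only
    rw [at'_shf z (le_of_lt ht)]
  rw [h2] at h1
  have h3 : ∫⁻ t in Ioi H, NW (Wa 0) (at' z t) ^ (2 : ℝ) ≠ ⊤ := by
    intro h'
    rw [h', ENNReal.top_rpow_of_pos (by norm_num)] at h1
    exact h1 rfl
  unfold LN
  refine ENNReal.rpow_ne_top_of_nonneg (by norm_num) ?_
  rw [← Ioc_union_Ioi_eq_Ioi hH, lintegral_union measurableSet_Ioi (Ioc_disjoint_Ioi le_rfl)]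
  refine ENNReal.add_ne_top.2 ⟨?_, h3⟩
  have h4 := II_eq h hz hH
  have h5 : ∫⁻ t in Ioc 0 H, NW (Wa 0) (at' z t) ^ (2 : ℝ) = ENNReal.ofReal (II z H) := by
    rw [← h4]
    refine lintegral_congr fun t => ?_
    rw [ENNReal.rpow_two, pow_two]
  rw [h5]
  exact ENNReal.ofReal_ne_top

end

end Pool.Agent.H356R3.NS.X
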