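import Pool.Agent.H3NX.GlueX

set_option autoImplicit false
set_option maxHeartbeats 4000000
set_option synthInstance.maxHeartbeats 400000

/-!
The glued solution solves the equations in the sense of distributions, also across the breaks.
-/

open MeasureTheory Set Filter Topology
open scoped ENNReal NNReal ContDiff

namespace Pool.Agent.H356R3.NS.X

open Pool.Agent.H3NS
open H459R3.NS (fr ee SP IsSol cube)

lemma PB.der {ga : ℝ → ℝ} {ν : ℝ} {w : ℝ → R3 → R3} {τ : ℝ} {J : Set ℝ} {a : K → C3} {r p δ1 δ : ℝ} {L : ℝ≥0∞} {ε : ℝ} {s : ℕ}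
    {u : ℝ → R3 → R3} {P : ℝ → R3 → ℝ} (h : PB ga ν w τ J a r p δ1 δ L ε s u P) {t : ℝ} (ht : τ < t) (htJ : t ∈ J)
    (k : K) (i : Fin 3) :
    HasDerivAt (fun s => fc (u s) k i)
      (-((4 * Real.pi ^ 2 * ν * Pool.Agent.H356R3.NS.sq k : ℝ) : ℂ) * fc (u t) k i - fc (adv (u t) (P t)) k i) t := by
  have h1 : ContDiffOn ℝ ∞ (fun x : R3 => ((t, x) : ℝ × R3)) univ := by fun_prop
  have h2 := ContDiffOn.comp (g := fun z : ℝ × R3 => P z.1 z.2) h.sm_p h1 (fun x _ => ⟨ht, mem_univ _⟩)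
  exact adv_deriv (η := t - τ) (sub_pos.2 ht)
    (h.sm_u.mono (prod_mono (fun s hs => show τ < s by linarith [hs.1]) subset_rfl)) (h.per_u t)
    (contDiffOn_univ.1 h2) (h.per_p t) (h.mom t htJ) k i

section
variable {ga : ℝ → ℝ} {ν : ℝ} {D O : Set ℝ} {w : ℝ → R3 → R3} {m : E3} {r p δ : ℝ} {sN : ℕ} {ε : ℝ → ℝ} {a : K → C3}
  {s : ℕ → ℝ} {g : ℕ → ℕ} {δ1 e : ℕ → ℝ} {A : ℕ → K → C3} {U : ℕ → ℝ → R3 → R3} {Q : ℕ → ℝ → R3 → ℝ}

lemma CHN.nl (h : CHN ga ν D O w m r p δ sN ε a s g δ1 e A U Q) {t : ℝ} (ht : t ∈ D) : ∃ C : ℝ, 0 ≤ C ∧ ∀ k,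
    ∫⁻ x in Ioc 0 t, ‖fc (adv (GU s g U x) (GU s g Q x)) k‖ₑ ≤ ENNReal.ofReal (C * (1 + nk k)) := by
  obtain ⟨n, hn⟩ := h.gm.cof t ht
  have hsub : Ioc 0 t ⊆ ⋃ j : Fin n, Ioc (s j) (s (j + 1)) := by
    intro x hx
    have hxD := h.gm.hD.dc t ht x hx.1.le hx.2
    obtain ⟨h3, h4⟩ := h.gm.jx_spec hxD hx.1
    have h5 : jx s x < n := h.gm.mono.lt_iff_lt.1 (h3.trans (lt_of_le_of_lt hx.2 hn))
    exact mem_iUnion.2 ⟨⟨_, h5⟩, h3, h4⟩
  choose C hC using fun j : Fin n => (h.pb (g j)).nl (s (j + 1))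
  refine ⟨∑ j, |C j|, Finset.sum_nonneg fun _ _ => abs_nonneg _, fun k => ?_⟩
  have hk : 0 ≤ 1 + nk k := by have := nk_nonneg k; linarith
  refine ((lintegral_mono_set hsub).trans (lintegral_iUnion_le _ _)).trans ?_
  rw [tsum_fintype, Finset.sum_mul, ENNReal.ofReal_sum_of_nonneg fun j _ => mul_nonneg (abs_nonneg _) hk]
  refine Finset.sum_le_sum fun j _ => ?_
  have hτ : s (g j) ≤ s j := h.gm.mono.monotone (h.gm.gle j)
  have e1 : ∫⁻ x in Ioc (s j) (s (j + 1)), ‖fc (adv (GU s g U x) (GU s g Q x)) k‖ₑ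
      = ∫⁻ x in Ioc (s j) (s (j + 1)), ‖fc (adv (U (g j) x) (Q (g j) x)) k‖ₑ := by
    refine setLIntegral_congr_fun measurableSet_Ioc fun x hx => ?_
    show ‖fc (adv (U (g (jx s x)) x) (Q (g (jx s x)) x)) k‖ₑ = _
    rw [jx_eq h.gm.mono hx.1 hx.2]
  rw [e1]
  have hsub2 : Ioc (s j) (s (j + 1)) ⊆ JB s g (g j) ∩ Ioc (s (g j)) (s (j + 1)) := fun x hx =>
    ⟨⟨j, rfl, hx.1, hx.2⟩, lt_of_le_of_lt hτ hx.1, hx.2⟩
  exact (lintegral_mono_set hsub2).trans ((hC j k).trans (ENNReal.ofReal_le_ofReal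
    (mul_le_mul_of_nonneg_right (le_abs_self _) hk)))

lemma CHN.der (h : CHN ga ν D O w m r p δ sN ε a s g δ1 e A U Q) {t : ℝ} (ht : t ∈ D \ SB s g) (k : K) (i : Fin 3) :
    HasDerivAt (fun x => fc (GU s g U x) k i)
      (-((4 * Real.pi ^ 2 * ν * Pool.Agent.H356R3.NS.sq k : ℝ) : ℂ) * fc (GU s g U t) k i
        - fc (adv (GU s g U t) (GU s g Q t)) k i) t := by
  obtain ⟨ht0, hev⟩ := h.gm.both ht.1 ht.2
  have hmem := h.gm.mem_JB ht.1 ht0
  have h1 := (h.pb (g (jx s t))).der (h.gm.JB_pos hmem) hmem k i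
  refine h1.congr_of_eventuallyEq ?_
  filter_upwards [hev] with x hx
  show fc (U (g (jx s x)) x) k i = _
  rw [hx.2.2]

/-- the coefficients with the initial value -/
noncomputable def cF (a : K → C3) (u : ℝ → R3 → R3) (k : K) (i : Fin 3) : ℝ → ℂ := fun t =>
  if t ≤ 0 then a k i else fc (u t) k i

lemma cF_pos {u : ℝ → R3 → R3} {k : K} {i : Fin 3} {t : ℝ} (ht : 0 < t) : cF a u k i t = fc (u t) k i := if_neg (not_le.2 ht)

lemma tend_coef {F : ℝ → K → C3} {b : K → C3} {l : Filter ℝ} {r' : ℝ} (hr' : 1 ≤ r')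
    (h : Tendsto (fun t => critNorm r' (fun k => F t k - b k)) l (𝓝 0)) {k : K} (hk : k ≠ 0) (i : Fin 3) :
    Tendsto (fun t => F t k i) l (𝓝 (b k i)) := by
  have h1 : Tendsto (fun t => ‖F t k - b k‖ₑ) l (𝓝 0) := by
    have h2 := ENNReal.Tendsto.const_mul (a := ENNReal.ofReal (nk k)) h (Or.inr ENNReal.ofReal_ne_top)
    rw [mul_zero] at h2
    exact tendsto_of_tendsto_of_tendsto_of_le_of_le tendsto_const_nhds h2 (fun _ => zero_le)
      fun t => enorm_le_crit hr' (fun k => F t k - b k) hk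
  have h3 : Tendsto (fun t => F t k) l (𝓝 (b k)) := by
    rw [tendsto_iff_edist_tendsto_0]
    simpa only [edist_eq_enorm_sub] using h1
  exact ((continuous_apply i).tendsto _).comp h3

lemma CHN.cF_cont (h : CHN ga ν D O w m r p δ sN ε a s g δ1 e A U Q) (hr : 2 < r) (k : K) (i : Fin 3) {t : ℝ}
    (ht : t ∈ D) : ContinuousOn (cF a (GU s g U) k i) (Icc 0 t) := by
  by_cases hk : k = 0
  · subst hk
    refine continuousOn_const.congr (f := fun _ => a 0 i) fun x hx => ?_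
    unfold cF
    by_cases hx0 : x ≤ 0
    · rw [if_pos hx0]
    · rw [if_neg hx0, h.mean (h.gm.hD.dc t ht x hx.1 hx.2) (not_le.1 hx0)]
  intro x hx
  rcases hx.1.lt_or_eq with hx0 | hx0
  · have hxD := h.gm.hD.dc t ht x hx.1 hx.2
    refine ContinuousAt.continuousWithinAt ?_
    have h1 := tend_coef (r' := 3) (by norm_num) (h.cont hxD hx0 (r' := 3) (by norm_num)) hk i
    show Tendsto _ _ (𝓝 (cF a (GU s g U) k i x))
    rw [cF_pos hx0]
    refine h1.congr' ?_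
    filter_upwards [lt_mem_nhds hx0] with y hy
    exact (cF_pos hy).symm
  · subst hx0
    have h1 := tend_coef (by linarith) (h.start hr (by rw [← h.A0]; exact (h.adm 0).cr)) hk i
    have e0 : cF a (GU s g U) k i 0 = a k i := if_pos le_rfl
    have h2 : Tendsto (cF a (GU s g U) k i) (𝓝[>] 0) (𝓝 (cF a (GU s g U) k i 0)) := by
      rw [e0]
      refine h1.congr' ?_
      filter_upwards [self_mem_nhdsWithin] with y hy
      exact (cF_pos hy).symm
    have h3 : ContinuousWithinAt (cF a (GU s g U) k i) (Ici 0) 0 :=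
      continuousWithinAt_Ioi_iff_Ici.1 h2
    exact h3.mono Icc_subset_Ici_self

/-- the integrated equation -/
theorem CHN.dist (h : CHN ga ν D O w m r p δ sN ε a s g δ1 e A U Q) (hr : 2 < r) (k : K) (i : Fin 3) {t : ℝ}
    (ht : t ∈ D) (ht0 : 0 < t) :
    IntervalIntegrable (fun x => fc (GU s g U x) k i) volume 0 t ∧
    IntervalIntegrable (fun x => fc (adv (GU s g U x) (GU s g Q x)) k i) volume 0 t ∧
    fc (GU s g U t) k i = a k i - ∫ x in (0 : ℝ)..t,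
      (((4 * Real.pi ^ 2 * ν * Pool.Agent.H356R3.NS.sq k : ℝ) : ℂ) * fc (GU s g U x) k i
        + fc (adv (GU s g U x) (GU s g Q x)) k i) := by
  obtain ⟨c, hc⟩ : ∃ c : ℂ, c = ((4 * Real.pi ^ 2 * ν * Pool.Agent.H356R3.NS.sq k : ℝ) : ℂ) := ⟨_, rfl⟩
  obtain ⟨N, hN⟩ : ∃ N : ℝ → ℂ, N = fun x => fc (adv (GU s g U x) (GU s g Q x)) k i := ⟨_, rfl⟩
  obtain ⟨F, hF⟩ : ∃ F, F = cF a (GU s g U) k i := ⟨_, rfl⟩
  have hFc : ContinuousOn F (Icc 0 t) := by rw [hF]; exact h.cF_cont hr k i ht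
  have hFp : ∀ x, 0 < x → F x = fc (GU s g U x) k i := fun x hx => by rw [hF]; exact cF_pos hx
  have hFI : IntervalIntegrable F volume 0 t := hFc.intervalIntegrable_of_Icc ht0.le
  have hderF : ∀ x ∈ Ioo 0 t \ SB s g, HasDerivAt F (-(c * F x + N x)) x := by
    intro x hx
    have hxD := h.gm.hD.dc t ht x hx.1.1.le hx.1.2.le
    have h1 := h.der ⟨hxD, hx.2⟩ k i
    rw [← hc] at h1
    have h2 : HasDerivAt F (-c * fc (GU s g U x) k i - fc (adv (GU s g U x) (GU s g Q x)) k i) x := by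
      refine h1.congr_of_eventuallyEq ?_
      filter_upwards [lt_mem_nhds hx.1.1] with y hy
      exact hFp y hy
    refine h2.congr_deriv ?_
    rw [hFp x hx.1.1, hN]
    ring
  -- the exceptional times
  have hSf : (SB s g ∩ Iic t).Finite := h.gm.SB_fin ht
  have hae : ∀ᵐ x ∂(volume.restrict (Ioc 0 t)), x ∈ Ioo 0 t \ SB s g := by
    have h1 : ∀ᵐ x ∂(volume : Measure ℝ), x ∉ SB s g ∩ Iic t :=
      measure_eq_zero_iff_ae_notMem.1 (hSf.countable.measure_zero _)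
    have h2 : ∀ᵐ x ∂(volume : Measure ℝ), x ≠ t := Measure.ae_ne volume t
    filter_upwards [ae_restrict_mem measurableSet_Ioc, ae_restrict_of_ae h1, ae_restrict_of_ae h2] with x h3 h4 h5
    exact ⟨⟨h3.1, lt_of_le_of_ne h3.2 h5⟩, fun h6 => h4 ⟨h6, h3.2⟩⟩
  have hFm : AEStronglyMeasurable F (volume.restrict (Ioc 0 t)) := hFI.1.aestronglyMeasurable
  have hNm : AEStronglyMeasurable N (volume.restrict (Ioc 0 t)) := by
    have h1 : AEStronglyMeasurable (fun x => -deriv F x - c * F x) (volume.restrict (Ioc 0 t)) :=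
      ((stronglyMeasurable_deriv F).aestronglyMeasurable.neg).sub (hFm.const_mul c)
    refine h1.congr ?_
    filter_upwards [hae] with x hx
    rw [(hderF x hx).deriv]
    ring
  have hNI : IntervalIntegrable N volume 0 t := by
    rw [intervalIntegrable_iff_integrableOn_Ioc_of_le ht0.le]
    refine ⟨hNm, ?_⟩
    obtain ⟨C, -, hC⟩ := h.nl ht
    refine lt_of_le_of_lt (lintegral_mono fun x => ?_) (lt_of_le_of_lt (hC k) ENNReal.ofReal_lt_top)
    rw [hN, ← ofReal_norm, ← ofReal_norm]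
    exact ENNReal.ofReal_le_ofReal (norm_le_pi_norm _ i)
  have hII : IntervalIntegrable (fun x => -(c * F x + N x)) volume 0 t := ((hFI.const_mul c).add hNI).neg
  have hftc := MeasureTheory.integral_eq_of_hasDerivAt_off_countable_of_le F (fun x => -(c * F x + N x)) ht0.le
    (s := SB s g ∩ Iic t) hSf.countable hFc (fun x hx => hderF x ⟨hx.1, fun h1 => hx.2 ⟨h1, hx.1.2.le⟩⟩) hII
  have hF0 : F 0 = a k i := by rw [hF]; exact if_pos le_rfl
  have hcongr : ∀ G : ℝ → ℂ → ℂ, ∫ x in (0 : ℝ)..t, G x (F x) = ∫ x in (0 : ℝ)..t, G x (fc (GU s g U x) k i) := by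
    intro G
    rw [intervalIntegral.integral_of_le ht0.le, intervalIntegral.integral_of_le ht0.le]
    exact setIntegral_congr_fun measurableSet_Ioc fun x hx => by
      show G x (F x) = _
      rw [hFp x hx.1]
  refine ⟨?_, hN ▸ hNI, ?_⟩
  · refine hFI.congr fun x hx => ?_
    rw [uIoc_of_le ht0.le] at hx
    exact hFp x hx.1
  · rw [← hc, ← hcongr (fun x z => c * z + fc (adv (GU s g U x) (GU s g Q x)) k i)]
    have h1 : ∫ x in (0 : ℝ)..t, (c * F x + N x) = -(F t - F 0) := by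
      rw [← hftc, intervalIntegral.integral_neg, neg_neg]
    rw [hN] at h1
    rw [h1, hF0, hFp t ht0]
    ring

end

end Pool.Agent.H356R3.NS.X
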