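import Pool.Agent.H3NX.Decay

set_option autoImplicit false
set_option maxHeartbeats 4000000
set_option synthInstance.maxHeartbeats 400000

/-!
The energy inequality gives times at which a global smooth solution is small.
-/

open MeasureTheory Set Filter Topology
open scoped ENNReal NNReal ContDiff

namespace Pool.Agent.H356R3.NS.X

open Pool.Agent.H3NS
open H459R3.NS (fr ee SP IsSol cube)

section
variable {ν : ℝ} {u : ℝ → R3 → R3} {p : ℝ → R3 → ℝ}

lemma small_enstrophy (hν : 0 < ν) (h : Glob ν u p) {η : ℝ} (hη : 0 < η) :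
    ∃ s : ℝ, 0 ≤ s ∧ H459R3.NS.enstrophy (u s) ≤ η := by
  by_contra hcon
  push Not at hcon
  have hE := H459R3.NS.energy_nonneg (u 0)
  obtain ⟨t, ht⟩ : ∃ t, t = H459R3.NS.energy (u 0) / (2 * ν) / η + 1 := ⟨_, rfl⟩
  have ht0 : 0 ≤ t := by rw [ht]; positivity
  have hI : t ∈ Ico 0 (t + 1) := ⟨ht0, by linarith⟩
  have h1 := (h (t + 1)).int_enstrophy hν hI
  have hc : ContinuousOn (fun s => H459R3.NS.enstrophy (u s)) (Icc 0 t) :=
    (h (t + 1)).enstrophy_continuousOn.mono fun s hs => ⟨hs.1, hs.2.trans_lt hI.2⟩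
  have h2 : ∫ s in (0 : ℝ)..t, η ≤ ∫ s in (0 : ℝ)..t, H459R3.NS.enstrophy (u s) := by
    refine intervalIntegral.integral_mono_on ht0 intervalIntegrable_const
      (hc.intervalIntegrable_of_Icc ht0) fun s hs => (hcon s hs.1).le
  rw [intervalIntegral.integral_const, sub_zero, smul_eq_mul] at h2
  have h3 : t * η ≤ H459R3.NS.energy (u 0) / (2 * ν) := h2.trans h1
  have h4 : t ≤ H459R3.NS.energy (u 0) / (2 * ν) / η := by
    rw [le_div_iff₀ hη]; exact h3
  linarith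

lemma small_leilin (hν : 0 < ν) (h : Glob ν u p) (m : E3) {Y0 : ℝ} (hY : 0 < Y0) :
    ∃ H : ℝ, 0 ≤ H ∧ NW (Wm 0) (at' (yv m u) H) ≤ ENNReal.ofReal Y0 := by
  obtain ⟨S4, hS4⟩ : ∃ S4, S4 = ∑' k : K, (1 / nk k) ^ 4 := ⟨_, rfl⟩
  have hS40 : 0 ≤ S4 := by rw [hS4]; exact tsum_nonneg fun k => by have := nk_nonneg k; positivity
  obtain ⟨lam, hlam⟩ : ∃ lam, lam = Y0 / (S4 + 1) := ⟨_, rfl⟩
  have hlam0 : 0 < lam := by rw [hlam]; positivity
  have hlam1 : lam * S4 ≤ Y0 := by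
    rw [hlam, div_mul_eq_mul_div, div_le_iff₀ (by positivity)]
    nlinarith
  obtain ⟨H, hH, hHe⟩ := small_enstrophy hν h (show 0 < lam * Y0 by positivity)
  refine ⟨H, hH, ?_⟩
  have hI : H ∈ Ico 0 (H + 1) := ⟨hH, by linarith⟩
  have hsp : ∀ i, SP (fun y => u H y i) := fun i => (h (H + 1)).sp hI i
  -- the dominating sequence
  obtain ⟨E, hE⟩ : ∃ E : K → ℝ, E = fun k => ∑ i, ∑ m, ‖H459R3.NS.D m (fr (fun y => u H y i)) k‖ ^ 2 := ⟨_, rfl⟩
  have hsD : ∀ i m, Summable fun k => ‖H459R3.NS.D m (fr (fun y => u H y i)) k‖ ^ 2 := fun i m =>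
    H459R3.NS.summable_sq ((H459R3.NS.rap_fr (hsp i)).D m).summable
  have hEs : Summable E := by
    rw [hE]
    exact summable_sum fun i _ => summable_sum fun m _ => hsD i m
  have hEt : ∑' k, E k ≤ lam * Y0 := by
    refine le_trans (le_of_eq ?_) hHe
    have e1 := H459R3.NS.sum_grad (v := fun i y => u H y i) hsp
    have e2 : H459R3.NS.enstrophy (u H) = ∑ i, ∑ j, ∫ x in cube, H459R3.NS.pd j (fun y => u H y i) x ^ 2 := rfl
    rw [e2, ← e1, hE]
    rw [Summable.tsum_finsetSum fun i _ => summable_sum fun m _ => hsD i m]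
    refine Finset.sum_congr rfl fun i _ => ?_
    rw [Summable.tsum_finsetSum fun m _ => hsD i m]
    exact Finset.sum_congr rfl fun m _ => (H459R3.NS.n2_sq _).symm
  have hk2 : ∀ k : K, nk k ^ 2 * ‖fc (u H) k‖ ^ 2 ≤ E k := by
    intro k
    obtain ⟨i, -, hi⟩ := Finset.exists_max_image Finset.univ (fun i : Fin 3 => ‖fc (u H) k i‖) Finset.univ_nonempty
    have h1 : ‖fc (u H) k‖ ≤ ‖fc (u H) k i‖ := by
      rw [pi_norm_le_iff_of_nonneg (norm_nonneg _)]
      exact fun j => hi j (Finset.mem_univ j)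
    have h2 : ∀ m, (k m : ℝ) ^ 2 * ‖fc (u H) k i‖ ^ 2 ≤ ‖H459R3.NS.D m (fr (fun y => u H y i)) k‖ ^ 2 := by
      intro m
      unfold H459R3.NS.D
      rw [norm_mul, mul_pow, fc_fr]
      apply mul_le_mul_of_nonneg_right _ (by positivity)
      rw [norm_mul, norm_mul, norm_mul, Complex.norm_I, mul_one, Complex.norm_real,
        Real.norm_eq_abs, abs_of_pos Real.pi_pos, Complex.norm_ofNat, Complex.norm_intCast, mul_pow, sq_abs]
      have h3 := Real.pi_gt_three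
      have h4 : 1 ≤ (2 * Real.pi) ^ 2 := by nlinarith
      nlinarith [sq_nonneg (k m : ℝ)]
    have hn : nk k ^ 2 = ∑ m, (k m : ℝ) ^ 2 := by
      rw [pow_two, nk_mul_self]; rfl
    rw [hE, hn]
    calc (∑ m, (k m : ℝ) ^ 2) * ‖fc (u H) k‖ ^ 2 ≤ (∑ m, (k m : ℝ) ^ 2) * ‖fc (u H) k i‖ ^ 2 := by
          apply mul_le_mul_of_nonneg_left _ (Finset.sum_nonneg fun _ _ => sq_nonneg _)
          exact pow_le_pow_left₀ (norm_nonneg _) h1 2
      _ = ∑ m, (k m : ℝ) ^ 2 * ‖fc (u H) k i‖ ^ 2 := Finset.sum_mul _ _ _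
      _ ≤ ∑ m, ‖H459R3.NS.D m (fr (fun y => u H y i)) k‖ ^ 2 := Finset.sum_le_sum fun m _ => h2 m
      _ ≤ _ := Finset.single_le_sum (f := fun i => ∑ m, ‖H459R3.NS.D m (fr (fun y => u H y i)) k‖ ^ 2)
          (fun i _ => Finset.sum_nonneg fun m _ => by positivity) (Finset.mem_univ i)
  have hterm : ∀ k : K, Wm 0 k * ‖at' (yv m u) H k‖ₑ ≤
      ENNReal.ofReal (lam / 2 * (1 / nk k) ^ 4 + 1 / (2 * lam) * E k) := by
    intro k
    by_cases hk : k = 0
    · subst hk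
      have : at' (yv m u) H 0 = 0 := yv_zero m u H
      rw [this, enorm_zero, mul_zero]
      exact zero_le
    have hn := nk_pos hk
    have e1 : ‖at' (yv m u) H k‖ₑ = ENNReal.ofReal ‖fc (u H) k‖ := by
      show ‖ph m (-(max H 0)) (nz (fc (u (max H 0)))) k‖ₑ = _
      rw [enorm_ph, max_eq_left hH]
      unfold nz
      rw [if_neg hk, ofReal_norm]
    have o : om 0 k = 1 := by simp [om]
    rw [e1]
    unfold Wm
    rw [o, ← ENNReal.ofReal_mul (by positivity)]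
    apply ENNReal.ofReal_le_ofReal
    have h1 := hk2 k
    have h2 : 0 ≤ (lam * (1 / nk k) ^ 2 - nk k * ‖fc (u H) k‖) ^ 2 := sq_nonneg _
    have h3 : (1 / nk k) ^ 2 * (nk k * ‖fc (u H) k‖) = 1 / nk k * ‖fc (u H) k‖ := by
      field_simp
    have h4 : 2 * lam * (1 / nk k * ‖fc (u H) k‖) ≤ lam ^ 2 * (1 / nk k) ^ 4 + E k := by
      rw [← h3]
      nlinarith
    have h5 : 1 / nk k * ‖fc (u H) k‖ ≤ (lam ^ 2 * (1 / nk k) ^ 4 + E k) / (2 * lam) := by
      rw [le_div_iff₀ (by positivity)]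
      linarith
    refine h5.trans (le_of_eq ?_)
    field_simp
  have hg : Summable fun k : K => lam / 2 * (1 / nk k) ^ 4 + 1 / (2 * lam) * E k :=
    (summ_nk4.mul_left _).add (hEs.mul_left _)
  have hE0 : ∀ k, 0 ≤ E k := fun k => by
    rw [hE]
    exact Finset.sum_nonneg fun i _ => Finset.sum_nonneg fun m _ => by positivity
  calc NW (Wm 0) (at' (yv m u) H) ≤ ∑' k : K, ENNReal.ofReal (lam / 2 * (1 / nk k) ^ 4 + 1 / (2 * lam) * E k) :=
        ENNReal.tsum_le_tsum hterm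
    _ = ENNReal.ofReal (∑' k : K, (lam / 2 * (1 / nk k) ^ 4 + 1 / (2 * lam) * E k)) := by
        rw [ENNReal.ofReal_tsum_of_nonneg (fun k => ?_) hg]
        have := nk_nonneg k
        have := hE0 k
        positivity
    _ ≤ ENNReal.ofReal Y0 := by
        apply ENNReal.ofReal_le_ofReal
        rw [(summ_nk4.mul_left _).tsum_add (hEs.mul_left _), tsum_mul_left, tsum_mul_left, ← hS4]
        have h1 : 1 / (2 * lam) * ∑' k, E k ≤ Y0 / 2 := by
          rw [one_div_mul_eq_div, div_le_iff₀ (by positivity)]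
          linarith
        linarith

/-- A global smooth solution has a finite norm in `L²(0, ∞; ℓ¹)`. -/
theorem glob_l2 (hν : 0 < ν) (h : Glob ν u p) {m : E3} (hm : ∀ i, fc (u 0) 0 i = (m i : ℂ)) :
    LN (fun t => NW (Wa 0) (at' (yv m u) t)) ≠ ⊤ := by
  have hC := C0_pos
  have hc : 0 < 4 * Real.pi ^ 2 * ν := by positivity
  obtain ⟨Y0, hY0⟩ : ∃ Y0, Y0 = 4 * Real.pi ^ 2 * ν / (8 * C0) := ⟨_, rfl⟩
  have hY : 0 < Y0 := by rw [hY0]; positivity
  obtain ⟨H, hH, hHV⟩ := small_leilin hν h m hY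
  refine late_l2 hc (fun T => yv_bound h m T 4) (yv_cf h m) (Bt_yv_cf h m) (yv_zero m u) (yv_eqn h hm) hY ?_ hH hHV
  rw [hY0]
  apply le_of_eq
  field_simp

end

end Pool.Agent.H356R3.NS.X
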