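import Pool.Agent.H3NX.MainN

set_option autoImplicit false
set_option maxHeartbeats 4000000
set_option synthInstance.maxHeartbeats 400000

open MeasureTheory Set Filter Topology
open scoped ENNReal NNReal ContDiff

namespace Pool.Agent.H356R3.NS.X

open Pool.Agent.H3NS
open H459R3.NS (fr ee SP IsSol cube)

lemma per_of_single {α : Type*} {f : R3 → α} (h : ∀ x j, f (x + Pi.single j 1) = f x) : Pe f := h

/-- Admissible periodic solutions are global solutions in the sense of the library. -/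
lemma glob_of_adm {ν : ℝ} {v0 : R3 → R3} {v : ℝ → R3 → R3} {q : ℝ → R3 → ℝ} (h : AdmissiblePeriodic ν v0 v q) :
    Glob ν v q := by
  intro T
  have hsub : Ico 0 T ×ˢ (univ : Set R3) ⊆ Ici 0 ×ˢ univ := prod_mono (fun s hs => hs.1) le_rfl
  refine ⟨h.smooth_u.mono hsub, h.smooth_p.mono hsub, fun t ht => ?_, fun t ht => ?_, fun t ht x => h.divFree t ht.1 x,
    fun t ht x i => ?_⟩
  · exact fun i x => h.periodic_u t ht.1 x i
  · exact fun i x => h.periodic_p t ht.1 x i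
  · have h1 := h.momentum t ht.1.le x i
    rw [derivWithin_of_mem_nhds (Ici_mem_nhds ht.1)] at h1
    exact h1

section
variable {ν : ℝ} {v : ℝ → R3 → R3} {q : ℝ → R3 → ℝ}

lemma nk_pow_ge (k : K) (s : ℕ) : (1 + ∑ i, (k i : ℝ) ^ 2) ^ s ≤ 2 ^ s * (1 + nk k ^ (2 * s)) := by
  have e : ∑ i, (k i : ℝ) ^ 2 = nk k ^ 2 := (nk_sq k).symm
  rw [e]
  by_cases hk : k = 0
  · subst hk
    rw [nk_zero]
    have h1 : (1 : ℝ) ≤ 2 ^ s := one_le_pow₀ (by norm_num)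
    have h2 : (0 : ℝ) ≤ 0 ^ (2 * s) := by positivity
    have h3 : (1 + (0 : ℝ) ^ 2) ^ s = 1 := by norm_num
    rw [h3]
    nlinarith
  · have h1 := one_le_nk hk
    calc (1 + nk k ^ 2) ^ s ≤ (2 * nk k ^ 2) ^ s := by
          apply pow_le_pow_left₀ (by positivity)
          nlinarith
      _ = 2 ^ s * nk k ^ (2 * s) := by rw [mul_pow, ← pow_mul]
      _ ≤ _ := by
          apply mul_le_mul_of_nonneg_left _ (by positivity)
          linarith

/-- The main theorem with the norm of the results file. -/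
theorem mainS (hν : 0 < ν) (hv : Glob ν v q) {a : K → C3} (has : Sym a) (had : ∀ k, dt k (a k) = 0)
    (ham : a 0 = fc (v 0) 0) {r : ℝ} (hr : 2 < r) (har : critNorm r a ≠ ⊤) {p δ ε : ℝ} (hp1 : 1 ≤ p) (hp2 : p < 2)
    (hδ : 0 < δ) (hε : 0 < ε) (s : ℕ) :
    ∃ (u : ℝ → R3 → R3) (P : ℝ → R3 → ℝ),
      ContDiffOn ℝ ∞ (fun z : ℝ × R3 => u z.1 z.2) (Ioi 0 ×ˢ univ) ∧
      ContDiffOn ℝ ∞ (fun z : ℝ × R3 => P z.1 z.2) (Ioi 0 ×ˢ univ) ∧
      (∀ t, Pe (u t)) ∧ (∀ t, Pe (P t)) ∧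
      (∀ t, 0 < t → ∀ x i, deriv (fun s => u s x i) t + ∑ j, u t x j * pd j (fun y => u t y i) x
        = ν * ∑ j, pd j (pd j fun y => u t y i) x - pd i (P t) x) ∧
      (∀ t, 0 < t → ∀ x, ∑ i, pd i (fun y => u t y i) x = 0) ∧
      (∀ t, 0 < t → fc (u t) 0 = a 0) ∧
      (∀ r' : ℝ, 2 < r' → critNorm r' a ≠ ⊤ →
        Tendsto (fun t => critNorm r' (fun k => fc (u t) k - a k)) (𝓝[>] 0) (𝓝 0)) ∧
      (∀ p' : ℝ, 1 ≤ p' → p' < 2 → ∫⁻ t in Ioc 0 1, (⨆ x, ‖u t x‖ₑ) ^ p' ≠ ⊤) ∧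
      (∫⁻ t in Ioc 0 1, (⨆ x, ‖u t x - v t x‖ₑ) ^ p ≤ ENNReal.ofReal ε) ∧
      (∀ t, δ ≤ t → ∑' k : K, ENNReal.ofReal ((1 + ∑ i, (k i : ℝ) ^ 2) ^ s) *
        ‖fc (fun x => u t x - v t x) k‖ₑ ≤ ENNReal.ofReal ε) ∧
      (∀ t, δ ≤ t → ∀ x, ‖u t x - v t x‖ₑ ≤ ENNReal.ofReal ε) ∧
      (∀ t, 0 < t → critNorm r (fun k => fc (u t) k - fc (v t) k) ≤
        4 * critNorm r (fun k => a k - fc (v 0) k) + ENNReal.ofReal ε) := by
  have h2s : (0 : ℝ) < 2 ^ s := by positivity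
  have h2s1 : (1 : ℝ) ≤ 2 ^ s := one_le_pow₀ (by norm_num)
  have hle : ENNReal.ofReal (ε / 2 ^ s) ≤ ENNReal.ofReal ε :=
    ENNReal.ofReal_le_ofReal (div_le_self hε.le h2s1)
  obtain ⟨u, P, h1, h2, h3, h4, h5, h6, h7, h8, h9, h10, h11, h12, h13⟩ :=
    mainN hν hv has had ham hr har hp1 hp2 hδ (show 0 < ε / 2 ^ s by positivity) (2 * s)
  refine ⟨u, P, h1, h2, h3, h4, h5, h6, h7, h8, h9, h10.trans hle, fun t ht => ?_,
    fun t ht x => (h12 t ht x).trans hle, fun t ht => (h13 t ht).trans (add_le_add le_rfl hle)⟩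
  have ht0 : 0 < t := by linarith
  have hcu : Continuous (u t) := by
    have := h1.continuousOn.comp_continuous (f := fun x : R3 => ((t, x) : ℝ × R3)) (by fun_prop)
      (fun x => ⟨ht0, mem_univ _⟩)
    exact this
  have hcv : Continuous (v t) := by
    have := (hv (t + 1)).smooth_u.continuousOn.comp_continuous (f := fun x : R3 => ((t, x) : ℝ × R3)) (by fun_prop)
      (fun x => ⟨⟨ht0.le, by linarith⟩, mem_univ _⟩)
    exact this
  have e1 : ∀ k, fc (fun x => u t x - v t x) k = fc (u t) k - fc (v t) k := by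
    intro k
    have := Pool.Agent.H3NS.fc_sub hcu hcv k
    exact this
  calc ∑' k : K, ENNReal.ofReal ((1 + ∑ i, (k i : ℝ) ^ 2) ^ s) * ‖fc (fun x => u t x - v t x) k‖ₑ
      ≤ ∑' k : K, ENNReal.ofReal (2 ^ s) * ((1 + ENNReal.ofReal (nk k ^ (2 * s))) * ‖fc (u t) k - fc (v t) k‖ₑ) := by
        refine ENNReal.tsum_le_tsum fun k => ?_
        rw [e1, ← mul_assoc]
        apply mul_le_mul' _ le_rfl
        have h0 : 0 ≤ nk k ^ (2 * s) := pow_nonneg (nk_nonneg k) _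
        rw [← ENNReal.ofReal_one, ← ENNReal.ofReal_add zero_le_one h0, ← ENNReal.ofReal_mul h2s.le]
        exact ENNReal.ofReal_le_ofReal (nk_pow_ge k s)
    _ = ENNReal.ofReal (2 ^ s) * ∑' k : K, (1 + ENNReal.ofReal (nk k ^ (2 * s))) * ‖fc (u t) k - fc (v t) k‖ₑ := by
        rw [ENNReal.tsum_mul_left]
    _ ≤ ENNReal.ofReal (2 ^ s) * ENNReal.ofReal (ε / 2 ^ s) := mul_le_mul' le_rfl (h11 t ht)
    _ = _ := by
        rw [← ENNReal.ofReal_mul h2s.le]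
        congr 1
        field_simp

end

end Pool.Agent.H356R3.NS.X
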