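import Pool.Agent.H3NX.GlueX
import Pool.Agent.H3NX.FinalN

set_option autoImplicit false
set_option maxHeartbeats 4000000
set_option synthInstance.maxHeartbeats 400000

/-!
Existence of chains of blocks.
-/

open MeasureTheory Set Filter Topology
open scoped ENNReal NNReal ContDiff

namespace Pool.Agent.H356R3.NS.X

open Pool.Agent.H3NS
open H459R3.NS (fr ee SP IsSol cube)

lemma PB.weaken {ga : ℝ → ℝ} {ν : ℝ} {w : ℝ → R3 → R3} {τ : ℝ} {J J' : Set ℝ} {a : K → C3} {r p δ1 δ : ℝ} {L L' : ℝ≥0∞}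
    {ε ε' : ℝ} {s : ℕ} {u : ℝ → R3 → R3} {P : ℝ → R3 → ℝ} (h : PB ga ν w τ J a r p δ1 δ L ε s u P) (hJ : J' ⊆ J)
    (hL : L ≤ L') (hε : ε ≤ ε') : PB ga ν w τ J' a r p δ1 δ L' ε' s u P where
  sm_u := h.sm_u
  sm_p := h.sm_p
  per_u := h.per_u
  per_p := h.per_p
  mom := fun t ht => h.mom t (hJ ht)
  divf := h.divf
  mean := h.mean
  att := h.att
  cont := h.cont
  fin := h.fin
  bd := h.bd
  lq := h.lq
  lp := (lintegral_mono_set (inter_subset_inter_left _ hJ)).trans (h.lp.trans hL)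
  ce := fun t ht h1 => (h.ce t (hJ ht) h1).trans (ENNReal.ofReal_le_ofReal hε)
  cl := fun t ht h1 => (h.cl t (hJ ht) h1).trans (ENNReal.ofReal_le_ofReal hε)
  cls := fun t ht h1 x => (h.cls t (hJ ht) h1 x).trans (ENNReal.ofReal_le_ofReal hε)
  cr := fun t ht => (h.cr t (hJ ht)).trans (add_le_add le_rfl (ENNReal.ofReal_le_ofReal hε))
  nl := fun B => by
    obtain ⟨C, hC⟩ := h.nl B
    exact ⟨C, fun k => (lintegral_mono_set (inter_subset_inter_left _ hJ)).trans (hC k)⟩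
  kt := fun t ht x => (h.kt t (hJ ht) x).trans hε
  kg := h.kg

lemma exists_lower (f : ℕ → ℝ) (hf : ∀ k, 0 < f k) (n : ℕ) : ∃ η : ℝ, 0 < η ∧ ∀ k ≤ n, η ≤ f k := by
  induction n with
  | zero => exact ⟨f 0, hf 0, fun k hk => by rw [Nat.le_zero.1 hk]⟩
  | succ n ih =>
    obtain ⟨η, h1, h2⟩ := ih
    refine ⟨min η (f (n + 1)), lt_min h1 (hf _), fun k hk => ?_⟩
    rcases Nat.le_succ_iff.1 hk with h3 | h3
    · exact (min_le_left _ _).trans (h2 k h3)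
    · rw [h3]; exact min_le_right _ _

section
variable {ν : ℝ} {D O : Set ℝ} {w : ℝ → R3 → R3} {q : ℝ → R3 → ℝ} {m : E3} {r p δ : ℝ} {ε : ℝ → ℝ} {a : K → C3}

/-- a block on an interval of the mesh -/
lemma block_mesh {ga : ℝ → ℝ} (hga : Gau ga) (hν : 0 < ν) {T : ℝ} (hw : PathH T w m) (hO : IsOpen O) (hOD : O ⊆ Ici 0) (hs : SolOn ν O w q)
    (hr : 2 < r) (hp1 : 1 ≤ p) (hp2 : p < 2) (hδ : 0 < δ) (hδ1 : δ ≤ 1) {E : ℝ} (hE : 0 < E) {h0 : ℝ} (hh0 : h0 < δ)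
    (sN : ℕ) {x y : ℝ} (hx : 0 ≤ x) (hxy : x < y) (hyT : y < T)
    (hsm : ∀ h : ℝ, 0 < h → h ≤ h0 → ∀ a : K → C3, Sym a → (∀ k, dt k (a k) = 0) → (∀ i, a 0 i = (m i : ℂ)) →
      critNorm r a ≠ ⊤ → ∃ u P, PB ga ν w x (Ioc x (x + h)) a r p (h / 2) δ (ENNReal.ofReal (E * h)) E sN u P)
    (hxy2 : Ioo x y ⊆ O ∨ y ≤ x + h0) (a : K → C3) (ha : AdmC m r a) :
    ∃ u P, PB ga ν w x (Ioc x y) a r p ((y - x) / 2) δ (ENNReal.ofReal (E * min (y - x) 1)) E sN u P := by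
  have e1 : x + (y - x) = y := by ring
  rcases hxy2 with h1 | h1
  · have h2 := block_sol hga (O := O ∩ Iio T) (τ := x) (h := y - x) hν hw (hO.inter isOpen_Iio)
      (fun t ht => ⟨hOD ht.1, ht.2⟩) (hs.mono inter_subset_left) hx (sub_pos.2 hxy) (by linarith)
      (by rw [e1]; exact fun t ht => ⟨h1 ht, ht.2.trans hyT⟩) hr hp1 hp2 hδ hE sN a ha.sym ha.dv ha.mn ha.cr
    rw [e1] at h2
    exact h2
  · have h2 := hsm (y - x) (sub_pos.2 hxy) (by linarith) a ha.sym ha.dv ha.mn ha.cr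
    rw [e1] at h2
    rw [min_eq_left (by linarith)]
    exact h2

/-- Chains with infinitely many blocks. -/
theorem chain_inf {ga : ℝ → ℝ} (hga : Gau ga) (hν : 0 < ν) (hD : DD D) (hO : IsOpen O) (hOD : O ⊆ D) (hw : ∀ T ∈ D, PathH T w m)
    (hs : SolOn ν O w q) (h0 : ∃ hh : ℝ → ℝ, (∀ x ∈ D, 0 < hh x) ∧ (∀ x ∈ D, x + hh x ∈ D) ∧
      ∀ B ∈ D, ∃ η : ℝ, 0 < η ∧ ∀ x ∈ D, x ≤ B → η ≤ hh x)
    (hcof : ∀ t ∈ D, ∃ y ∈ D \ O, t < y) (hε : ∀ t ∈ D, ∃ e : ℝ, 0 < e ∧ ∀ x ∈ D, x ≤ t → e ≤ ε x)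
    (hr : 2 < r) (hp1 : 1 ≤ p) (hp2 : p < 2) (hδ : 0 < δ) (hδ1 : δ ≤ 1) (sN : ℕ) (ha : AdmC m r a) :
    ∃ s g δ1 e A U Q, CHN ga ν D O w m r p δ sN ε a s g δ1 e A U Q := by
  have h0O : (0 : ℝ) ∉ O := by
    intro h1
    obtain ⟨η, hη, h2⟩ := Metric.isOpen_iff.1 hO 0 h1
    have h3 : (-(η / 2)) ∈ O := h2 (by rw [Metric.mem_ball, Real.dist_eq, sub_zero, abs_neg, abs_of_pos (by positivity)]; linarith)
    have := hD.nn _ (hOD h3)
    linarith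
  obtain ⟨hh0, hh1, hh2, hh3⟩ := h0
  obtain ⟨c, hc0, hcm, hcD, hccof, -, -⟩ := mesh_exists hD hO h0O hcof hh1 hh2 hh3
  -- the errors
  have hE : ∀ k, ∃ E : ℝ, 0 < E ∧ E ≤ 1 ∧ ∀ x ∈ D, x ≤ c (k + 2) → E ≤ ε x / 8 := by
    intro k
    obtain ⟨e, he, he1⟩ := hε (c (k + 2)) (hcD _).1
    refine ⟨min (e / 8) 1, by positivity, min_le_right _ _, fun x hx hxc => (min_le_left _ _).trans ?_⟩
    have := he1 x hx hxc
    linarith
  choose E hE0 hE1 hE2 using hE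
  have hc0' : ∀ k, 0 ≤ c k := fun k => hD.nn _ (hcD k).1
  have hhk : ∀ k, ∃ h0 : ℝ, 0 < h0 ∧ h0 < δ ∧ ∀ τ h : ℝ, 0 ≤ τ → τ ≤ c k →
    0 < h → h ≤ h0 → ∀ a : K → C3, Sym a → (∀ k, dt k (a k) = 0) → (∀ i, a 0 i = (m i : ℂ)) → critNorm r a ≠ ⊤ →
    ∃ u P, PB ga ν w τ (Ioc τ (τ + h)) a r p (h / 2) δ (ENNReal.ofReal (E k * h)) (E k) sN u P := fun k =>
    block_small hga hν (hw _ (hcD (k + 1)).1) (hcm (Nat.lt_succ_self k)) hr hp1 hp2 hδ (hE0 k) sN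
  choose hk hk0 hk1 hk2 using hhk
  -- the levels
  obtain ⟨κ, hκ⟩ : ∃ κ : ℝ → ℕ, κ = fun x => sInf {k | x ≤ c k} := ⟨_, rfl⟩
  have hκ1 : ∀ x ∈ D, x ≤ c (κ x) := by
    intro x hx
    obtain ⟨k, hk⟩ := hccof x hx
    rw [hκ]
    exact Nat.sInf_mem (s := {k | x ≤ c k}) ⟨k, hk.le⟩
  have hκ2 : ∀ x k, x ≤ c k → κ x ≤ k := fun x k hx => by rw [hκ]; exact Nat.sInf_le hx
  obtain ⟨f, hf⟩ : ∃ f : ℕ → ℝ, f = fun k => min (hk k) (c (k + 1) - c k) := ⟨_, rfl⟩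
  have hf0 : ∀ k, 0 < f k := fun k => by rw [hf]; exact lt_min (hk0 k) (sub_pos.2 (hcm (Nat.lt_succ_self k)))
  have hf1 : ∀ k, f k ≤ hk k := fun k => by rw [hf]; exact min_le_left _ _
  have hf2 : ∀ k, f k ≤ c (k + 1) - c k := fun k => by rw [hf]; exact min_le_right _ _
  have hup : ∀ x ∈ D, x + f (κ x) ≤ c (κ x + 1) := fun x hx => by
    have h1 := hκ1 x hx
    have h2 := hf2 (κ x)
    linarith
  obtain ⟨s, hs0, hsm, hsD, hscof, hs1, hs2⟩ := mesh_exists (hh := fun x => f (κ x)) hD hO h0O hcof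
    (fun x _ => hf0 _) (fun x hx => hD.dc _ (hcD (κ x + 1)).1 _ (by
      have h1 := hD.nn x hx
      have h2 := hf0 (κ x)
      linarith) (hup x hx)) (fun B hB => by
        obtain ⟨η, hη, hη1⟩ := exists_lower f hf0 (κ B)
        exact ⟨η, hη, fun x _ hxB => hη1 _ (hκ2 x _ (hxB.trans (hκ1 B hB)))⟩)
  have hcap : ∀ j, s (j + 1) ≤ c (κ (s j) + 1) := fun j => hs2 j _ (hcD _) (hup _ (hsD j).1)
  have hsnn : ∀ j, 0 ≤ s j := fun j => hD.nn _ (hsD j).1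
  have hgm : GM D O s id := ⟨hD, hs0, hsm, fun j => (hsD j).1, fun j _ => (hsD j).2, hscof, rfl, fun j => Or.inr ⟨rfl, rfl⟩⟩
  have hJB : ∀ i, JB s id i = Ioc (s i) (s (i + 1)) := by
    intro i
    ext t
    constructor
    · rintro ⟨j, h1, h2, h3⟩
      have h1' : j = i := h1
      subst h1'
      exact ⟨h2, h3⟩
    · rintro ⟨h2, h3⟩
      exact ⟨i, rfl, h2, h3⟩
  obtain ⟨A, U, Q, hA0, hAs, hAd, hPB⟩ := chain (ga := ga) (p := p) (δ := δ) (sN := sN) (ν := ν) (w := w) (r := r) (m := m)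
    (J := JB s id) (δ1 := fun j => (s (j + 1) - s j) / 2)
    (L := fun j => ENNReal.ofReal (E (κ (s j)) * min (s (j + 1) - s j) 1)) (e := fun j => E (κ (s j)))
    hsm (by linarith : 1 ≤ r) (fun j b hb => by
      obtain ⟨T, hT, hT1⟩ := hD.nx _ (hsD (j + 1)).1
      rw [hJB]
      exact block_mesh hga hν (hw T hT) hO (fun t ht => hD.nn _ (hOD ht)) hs hr hp1 hp2 hδ hδ1 (hE0 _) (hk1 (κ (s j))) sN
        (hsnn j) (hsm (Nat.lt_succ_self j)) hT1 (fun h h1 h2 => hk2 (κ (s j)) (s j) h (hsnn j) (hκ1 _ (hsD j).1) h1 h2)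
        ((hs1 j).imp_right fun h1 => h1.trans (by have := hf1 (κ (s j)); linarith)) b hb) ha
  refine ⟨s, id, fun j => (s (j + 1) - s j) / 2, fun j => E (κ (s j)), A, U, Q, hgm, hA0, hAs, hAd, hPB,
    fun i _ => ?_, fun i => hE0 _, fun i => hE1 _, fun j t ht htj => ⟨?_, ?_⟩⟩
  · have := hsm (Nat.lt_succ_self i)
    show s i + (s (i + 1) - s i) / 2 ≤ s (i + 1)
    have h2 : s i < s (i + 1) := this
    linarith
  · show E (κ (s j)) ≤ _
    exact hE2 _ t ht (htj.trans ((hcap j).trans (hcm.monotone (by omega))))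
  · rcases j with _ | i
    · show E (κ (s 0)) ≤ _
      exact hE2 _ t ht (htj.trans ((hcap 0).trans (hcm.monotone (by omega))))
    · show E (κ (s (i + 1 - 1))) ≤ _
      rw [Nat.add_sub_cancel]
      refine hE2 _ t ht (htj.trans ((hcap (i + 1)).trans (hcm.monotone ?_)))
      have := hκ2 _ _ (hcap i)
      omega

/-- Chains with a last block. -/
theorem chain_fin {ga : ℝ → ℝ} (hga : Gau ga) (hν : 0 < ν) (hO : IsOpen O) (hOD : O ⊆ Ici 0) (hw : ∀ T : ℝ, PathH T w m)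
    (hs : SolOn ν O w q) {B : ℝ} (hB : ∀ t ∈ Ici (0 : ℝ) \ O, t ≤ B) {e0 : ℝ} (he0 : 0 < e0)
    (hε : ∀ t ∈ Ici (0 : ℝ), e0 ≤ ε t)
    (hr : 2 < r) (hp1 : 1 ≤ p) (hp2 : p < 2) (hδ : 0 < δ) (hδ1 : δ ≤ 1) (sN : ℕ) (ha : AdmC m r a) :
    ∃ s g δ1 e A U Q, CHN ga ν (Ici 0) O w m r p δ sN ε a s g δ1 e A U Q := by
  have hD : DD (Ici (0 : ℝ)) := ⟨mem_Ici.2 le_rfl, fun t ht => ht, fun t _ s hs _ => hs, fun t ht =>
    ⟨t + 1, by have : 0 ≤ t := ht; exact mem_Ici.2 (by linarith), by linarith⟩⟩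
  have h0O : (0 : ℝ) ∉ O := by
    intro h1
    obtain ⟨η, hη, h2⟩ := Metric.isOpen_iff.1 hO 0 h1
    have h3 : (-(η / 2)) ∈ O := h2 (by rw [Metric.mem_ball, Real.dist_eq, sub_zero, abs_neg, abs_of_pos (by positivity)]; linarith)
    have : (0 : ℝ) ≤ -(η / 2) := hOD h3
    linarith
  -- the last break
  obtain ⟨c, hc, hcO, hcmax⟩ : ∃ c : ℝ, 0 ≤ c ∧ c ∉ O ∧ Ioi c ⊆ O := by
    obtain ⟨F, hF⟩ : ∃ F, F = Icc 0 B ∩ Oᶜ := ⟨_, rfl⟩
    have hFc : IsCompact F := by rw [hF]; exact isCompact_Icc.inter_right hO.isClosed_compl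
    have h0F : (0 : ℝ) ∈ F := by rw [hF]; exact ⟨⟨le_rfl, hB 0 ⟨mem_Ici.2 le_rfl, h0O⟩⟩, h0O⟩
    have hm := hFc.sSup_mem ⟨0, h0F⟩
    have hFb := hFc.bddAbove
    obtain ⟨c, hc⟩ : ∃ c, c = sSup F := ⟨_, rfl⟩
    rw [← hc] at hm
    have hm' := hm
    rw [hF] at hm'
    refine ⟨c, hm'.1.1, hm'.2, fun t ht => ?_⟩
    by_contra hcon
    have ht0 : (0 : ℝ) ≤ t := hm'.1.1.trans (le_of_lt ht)
    have h1 : t ∈ F := by rw [hF]; exact ⟨⟨ht0, hB t ⟨ht0, hcon⟩⟩, hcon⟩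
    have h2 : t ≤ c := by rw [hc]; exact le_csSup hFb h1
    exact absurd ht (not_lt.2 h2)
  -- the error
  obtain ⟨E, hE⟩ : ∃ E, E = min (e0 / 8) 1 := ⟨_, rfl⟩
  have hE0 : 0 < E := by rw [hE]; positivity
  have hE1 : E ≤ 1 := by rw [hE]; exact min_le_right _ _
  have hE2 : ∀ t ∈ Ici (0 : ℝ), E ≤ ε t / 8 := fun t ht => by
    have h1 : E ≤ e0 / 8 := by rw [hE]; exact min_le_left _ _
    have := hε t ht
    linarith
  obtain ⟨h0, hh0, hh1, hh2⟩ := block_small hga hν (hw (c + 1)) (show c < c + 1 by linarith) hr hp1 hp2 hδ hE0 sN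
  -- the mesh with artificial breaks after `c`
  obtain ⟨O', hO'⟩ : ∃ O', O' = (O ∩ Iio (c + 1)) ∪ ⋃ n : ℕ, Ioo (c + 1 + n) (c + 1 + n + 1) := ⟨_, rfl⟩
  have hO'o : IsOpen O' := by
    rw [hO']
    exact (hO.inter isOpen_Iio).union (isOpen_iUnion fun n => isOpen_Ioo)
  have hO'O : O' ⊆ O := by
    rw [hO']
    rintro x (hx | hx)
    · exact hx.1
    · obtain ⟨n, hn⟩ := mem_iUnion.1 hx
      exact hcmax (show c < x by have : (0 : ℝ) ≤ n := Nat.cast_nonneg n; linarith [hn.1])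
  have hOO' : ∀ x, x < c + 1 → x ∈ O → x ∈ O' := fun x h1 h2 => by rw [hO']; exact Or.inl ⟨h2, h1⟩
  have hbr : ∀ n : ℕ, c + 1 + n ∉ O' := by
    intro n h1
    rw [hO'] at h1
    rcases h1 with h1 | h1
    · have h2 : c + 1 + (n : ℝ) < c + 1 := h1.2
      have : (0 : ℝ) ≤ n := Nat.cast_nonneg n
      linarith
    · obtain ⟨k, hk⟩ := mem_iUnion.1 h1
      have h2 : (k : ℝ) < n := by linarith [hk.1]
      have h3 : (n : ℝ) < k + 1 := by linarith [hk.2]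
      have h4 : k < n := by exact_mod_cast h2
      have h5 : n < k + 1 := by exact_mod_cast h3
      omega
  obtain ⟨η, hη⟩ : ∃ η, η = min h0 (1 / 2) := ⟨_, rfl⟩
  have hη0 : 0 < η := by rw [hη]; positivity
  have hη1 : η ≤ h0 := by rw [hη]; exact min_le_left _ _
  have hη2 : η ≤ 1 / 2 := by rw [hη]; exact min_le_right _ _
  obtain ⟨s, hs0, hsm, hsD, hscof, hs1, hs2⟩ := mesh_exists (hh := fun _ => η) hD hO'o (fun h => h0O (hO'O h))
    (fun t ht => by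
      obtain ⟨n, hn⟩ := exists_nat_gt t
      have h0n : (0 : ℝ) ≤ n := Nat.cast_nonneg n
      exact ⟨c + 1 + n, ⟨mem_Ici.2 (by linarith), hbr n⟩, by linarith⟩)
    (fun x _ => hη0) (fun x hx => mem_Ici.2 (by have : (0 : ℝ) ≤ x := hx; linarith))
    (fun B _ => ⟨η, hη0, fun x _ _ => le_rfl⟩)
  have hsnn : ∀ j, 0 ≤ s j := fun j => (hsD j).1
  obtain ⟨n, hn, hn1⟩ : ∃ n, s n = c ∧ c + 1 ≤ s (n + 1) := by
    have hex : ∃ j, c < s j := hscof c hc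
    obtain ⟨j, hj, hjmin⟩ : ∃ j, c < s j ∧ ∀ i < j, ¬ c < s i := by
      classical
      exact ⟨Nat.find hex, Nat.find_spec hex, fun i hi => Nat.find_min hex hi⟩
    rcases j with _ | n
    · rw [hs0] at hj; linarith
    have h1 : s n ≤ c := not_lt.1 (hjmin n (Nat.lt_succ_self n))
    have h2 : c + 1 ≤ s (n + 1) := by
      by_contra hcon
      push Not at hcon
      exact (hsD (n + 1)).2 (hOO' _ hcon (hcmax hj))
    refine ⟨n, le_antisymm h1 ?_, h2⟩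
    rcases hs1 n with h3 | h3
    · by_contra hcon
      push Not at hcon
      exact hcO (hO'O (h3 ⟨hcon, hj⟩))
    · linarith
  have hlt : ∀ i, i < n → s (i + 1) ≤ c := fun i hi => by rw [← hn]; exact hsm.monotone hi
  have hge : ∀ i, n ≤ i → c ≤ s i := fun i hi => by rw [← hn]; exact hsm.monotone hi
  have hgm : GM (Ici 0) O s (fun j => min j n) := by
    refine ⟨hD, hs0, hsm, fun j => (hsD j).1, fun j hj h1 => ?_, hscof, Nat.zero_min n, fun j => ?_⟩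
    · have h2 : j ≤ n := by
        have h3 : min j n = j := hj
        omega
      have h3 : s j ≤ c := by rw [← hn]; exact hsm.monotone h2
      exact (hsD j).2 (hOO' _ (by linarith) h1)
    · show min (j + 1) n = min j n ∨ (min j n = j ∧ min (j + 1) n = j + 1)
      omega
  have hJ1 : ∀ i, i < n → JB s (fun j => min j n) i = Ioc (s i) (s (i + 1)) := by
    intro i hi
    ext t
    constructor
    · rintro ⟨j, h1, h2, h3⟩
      have h1' : min j n = i := h1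
      have h4 : j = i := by omega
      subst h4
      exact ⟨h2, h3⟩
    · rintro ⟨h2, h3⟩
      exact ⟨i, show min i n = i by omega, h2, h3⟩
  obtain ⟨δ1, hδ1'⟩ : ∃ δ1 : ℕ → ℝ, δ1 = fun i => if i < n then (s (i + 1) - s i) / 2 else δ := ⟨_, rfl⟩
  obtain ⟨A, U, Q, hA0, hAs, hAd, hPB⟩ := chain (ga := ga) (p := p) (δ := δ) (sN := sN) (ν := ν) (w := w) (r := r) (m := m)
    (J := JB s (fun j => min j n)) (δ1 := δ1)
    (L := fun j => ENNReal.ofReal (E * min (s (j + 1) - s j) 1)) (e := fun _ => E)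
    hsm (by linarith : 1 ≤ r) (fun j b hb => by
      by_cases hj : j < n
      · have e1 : δ1 j = (s (j + 1) - s j) / 2 := by rw [hδ1']; exact if_pos hj
        rw [hJ1 j hj, e1]
        have h1 := hlt j hj
        have h2 := hsm (Nat.lt_succ_self j)
        have h2' : s j < s (j + 1) := h2
        exact block_mesh hga (T := c + 1) hν (hw _) hO hOD hs hr hp1 hp2 hδ hδ1 hE0 hh1 sN (hsnn j) h2'
          (by linarith) (fun h h3 h4 => hh2 (s j) h (hsnn j) (by linarith) h3 h4)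
          ((hs1 j).imp (fun h3 => h3.trans hO'O) fun h3 => by linarith) b hb
      · push Not at hj
        have e1 : δ1 j = δ := by rw [hδ1']; exact if_neg (not_lt.2 hj)
        have h2 : 0 < min (s (j + 1) - s j) 1 := lt_min (sub_pos.2 (hsm (Nat.lt_succ_self j))) one_pos
        have hsub : Ioi (s j) ⊆ O := fun t ht => hcmax (show c < t from lt_of_le_of_lt (hge j hj) ht)
        obtain ⟨u, P, h3⟩ := block_inf hga hν hw hO hOD hs (hsnn j) hsub hr hp1 hp2 hδ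
          (show 0 < E * min (s (j + 1) - s j) 1 by positivity) sN b hb.sym hb.dv hb.mn hb.cr
        rw [e1]
        exact ⟨u, P, h3.weaken (fun t ht => hgm.JB_pos ht) le_rfl
          (mul_le_of_le_one_right hE0.le (min_le_right _ _))⟩) ha
  refine ⟨s, fun j => min j n, δ1, fun _ => E, A, U, Q, hgm, hA0, hAs, hAd, hPB,
    fun i hi => ?_, fun i => hE0, fun i => hE1, fun j t ht htj => ⟨hE2 t ht, hE2 t ht⟩⟩
  have hi' : min (i + 1) n = i + 1 := hi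
  have e1 : δ1 i = (s (i + 1) - s i) / 2 := by rw [hδ1']; exact if_pos (by omega)
  have h2 : s i < s (i + 1) := hsm (Nat.lt_succ_self i)
  rw [e1]
  linarith

lemma PathH.mono' {T T' : ℝ} (h : PathH T w m) (hT : Ico 0 T' ⊆ Ico 0 T) : PathH T' w m :=
  ⟨SV.mono' h.sv hT, fun t ht => h.dv t (hT ht), fun t ht => h.mn t (hT ht)⟩

/-- Chains exist. -/
theorem mainU {ga : ℝ → ℝ} (hga : Gau ga) (hν : 0 < ν) (hDD : D = Ici 0 ∨ ∃ T, 0 < T ∧ D = Ico 0 T) (hO : IsOpen O) (hOD : O ⊆ D)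
    (hw : ∀ T ∈ D, PathH T w m) (hs : SolOn ν O w q)
    (hc : (∀ t ∈ D, ∃ x ∈ D \ O, t < x) ∨ (D = Ici 0 ∧ ∃ e > 0, ∀ t ∈ D, e ≤ ε t))
    (hε : ∀ t ∈ D, ∃ e : ℝ, 0 < e ∧ ∀ x ∈ D, x ≤ t → e ≤ ε x)
    (hr : 2 < r) (hp1 : 1 ≤ p) (hp2 : p < 2) (hδ : 0 < δ) (hδ1 : δ ≤ 1) (sN : ℕ) (ha : AdmC m r a) :
    ∃ s g δ1 e A U Q, CHN ga ν D O w m r p δ sN ε a s g δ1 e A U Q := by
  have key : DD D ∧ ∃ hh : ℝ → ℝ, (∀ x ∈ D, 0 < hh x) ∧ (∀ x ∈ D, x + hh x ∈ D) ∧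
      ∀ B ∈ D, ∃ η : ℝ, 0 < η ∧ ∀ x ∈ D, x ≤ B → η ≤ hh x := by
    rcases hDD with h1 | ⟨T, hT, h1⟩
    · rw [h1]
      refine ⟨⟨mem_Ici.2 le_rfl, fun t ht => ht, fun t _ s hs _ => hs, fun t ht =>
        ⟨t + 1, ?_, by linarith⟩⟩, fun _ => 1, fun _ _ => one_pos, fun x hx => ?_, fun B _ => ⟨1, one_pos, fun _ _ _ => le_rfl⟩⟩
      · have : (0 : ℝ) ≤ t := ht
        exact mem_Ici.2 (by linarith)
      · have : (0 : ℝ) ≤ x := hx
        exact mem_Ici.2 (by linarith)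
    · rw [h1]
      refine ⟨⟨⟨le_rfl, hT⟩, fun t ht => ht.1, fun t ht s hs hst => ⟨hs, hst.trans_lt ht.2⟩, fun t ht =>
        ⟨(t + T) / 2, ⟨by linarith [ht.1, ht.2], by linarith [ht.2]⟩, by linarith [ht.2]⟩⟩, fun x => (T - x) / 2,
        fun x hx => by linarith [hx.2], fun x hx => ⟨by linarith [hx.1, hx.2], by linarith [hx.2]⟩,
        fun B hB => ⟨(T - B) / 2, by linarith [hB.2], fun x _ hxB => by linarith⟩⟩
  by_cases hcof : ∀ t ∈ D, ∃ x ∈ D \ O, t < x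
  · exact chain_inf hga hν key.1 hO hOD hw hs key.2 hcof hε hr hp1 hp2 hδ hδ1 sN ha
  · rcases hc with h1 | ⟨h1, e0, he0, he1⟩
    · exact absurd h1 hcof
    push Not at hcof
    obtain ⟨B, -, hB⟩ := hcof
    subst h1
    exact chain_fin hga hν hO hOD (fun T => (hw (max T 0) (mem_Ici.2 (le_max_right _ _))).mono'
      fun t ht => ⟨ht.1, ht.2.trans_le (le_max_left _ _)⟩) hs (fun t ht => hB t ht) he0 he1 hr hp1 hp2 hδ hδ1 sN ha

end

end Pool.Agent.H356R3.NS.X
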