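import Pool.Agent.H356R3.NS.Fix2

set_option autoImplicit false
set_option maxHeartbeats 4000000
set_option synthInstance.maxHeartbeats 400000

open MeasureTheory Set Filter Topology
open scoped ENNReal NNReal

namespace Pool.Agent.H356R3.NS.X


/-- Time cut-offs. -/
structure CutT (χ : ℝ → ℝ) : Prop where
  cont : Continuous χ
  nn : ∀ t, 0 ≤ χ t
  le : ∀ t, χ t ≤ 1

/-- The nonlinear term with a time cut-off. -/
noncomputable def Bx (χ : ℝ → ℝ) (u : Fam) : Fam := fun k t => χ t • Bt u k t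

lemma Bx_cont {χ : ℝ → ℝ} (hχ : CutT χ) {u : Fam} (hu : CF u) (hu' : Dom u) : CF (Bx χ u) := fun k =>
  hχ.cont.smul (Bt_cont hu hu' k)

lemma Bx_sym (χ : ℝ → ℝ) {u : Fam} (h : SymF u) : SymF (Bx χ u) := by
  intro t k i
  have := Bt_sym h t k i
  simp only [at', Bx, Pi.smul_apply, star_smul, star_trivial] at this ⊢
  rw [this]

lemma at'_Bx (χ : ℝ → ℝ) (u : Fam) (t : ℝ) : at' (Bx χ u) t = χ t • Bf (at' u t) (at' u t) := rfl

lemma NW_smul_le (W : K → ℝ≥0∞) {l : ℝ} (h0 : 0 ≤ l) (h1 : l ≤ 1) (x : K → C3) : NW W (l • x) ≤ NW W x := by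
  unfold NW
  refine ENNReal.tsum_le_tsum fun k => mul_le_mul' le_rfl ?_
  rw [Pi.smul_apply, enorm_smul, Real.enorm_of_nonneg h0]
  calc ENNReal.ofReal l * ‖x k‖ₑ ≤ 1 * ‖x k‖ₑ := mul_le_mul' (by rwa [ENNReal.ofReal_le_one]) le_rfl
    _ = _ := one_mul _

/-- The iteration. -/
noncomputable def ItX (χ : ℝ → ℝ) (c : ℝ) (U FE : Fam) : ℕ → Fam
  | 0 => 0
  | n + 1 => Duh c (FE + (Bx χ (U + ItX χ c U FE n) - Bx χ U))

variable {c D Lam ρ : ℝ}

lemma ofReal_half_powX (n : ℕ) (x : ℝ) (_hx : 0 ≤ x) :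
    (1 / 2) * ENNReal.ofReal (x * (1 / 2) ^ n) = ENNReal.ofReal (x * (1 / 2) ^ (n + 1)) := by
  have : (1 / 2 : ℝ≥0∞) = ENNReal.ofReal (1 / 2) := by
    rw [ENNReal.ofReal_div_of_pos (by norm_num)]
    simp
  rw [this, ← ENNReal.ofReal_mul (by norm_num)]
  congr 1
  ring

structure InvX (c a M ρ' : ℝ) (g : ℝ → ℝ) (R : ℕ → Fam) (n : ℕ) : Prop where
  cf : CF (R n)
  z : ∀ t, R n 0 t = 0
  nm : ∀ t, NW (Wm a) (at' (R n) t) ≤ ENNReal.ofReal (2 * M * (1 - (1 / 2) ^ n))
  lf : LF g a (R n) ≤ ENNReal.ofReal (ρ' * (1 - (1 / 2) ^ n))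
  lfd : LF g a (R (n + 1) - R n) ≤ ENNReal.ofReal (ρ' / 2 * (1 / 2) ^ n)
  nmd : ∀ t, NW (Wm a) (at' (R (n + 1) - R n) t) ≤ ENNReal.ofReal (M * (1 / 2) ^ n)

lemma inv_allX {χ : ℝ → ℝ} (hχ : CutT χ) (hp : Par c D Lam ρ) {a : ℝ} (ha : 0 < a) {A : ℝ → ℝ} (hA : Continuous A)
    (hA0 : ∀ t, 0 ≤ A t) (hAi : LN (fun t => ENNReal.ofReal (A t)) ≤ ENNReal.ofReal D)
    {U FE : Fam} (hU : CF U) (hUd : Dom U)
    (hUA : ∀ t, 0 < t → NW (Wa a) (at' U t) ≤ ENNReal.ofReal (A t))
    (hFE : CF FE) (hFE0 : ∀ t, FE 0 t = 0) {η : ℝ} (hη : 0 ≤ η) (hη2 : η ^ 2 ≤ c * (ρ / 2) ^ 2)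
    (hFEi : ∫⁻ s in Ioi 0, NW (Wm a) (at' FE s) ≤ ENNReal.ofReal η) (n : ℕ) :
    InvX c a (η + Real.exp (Lam * D ^ 2) * (3 * C0 * D) * ρ) ρ (gw Lam A) (ItX χ c U FE) n := by
  have hc := hp.hc
  have hρ := hp.hρ
  have hD := hp.hD
  have hL := hp.hL
  have hC := C0_pos
  set g := gw Lam A
  have hg : Monotone g := gw_mono hL.le hA
  set E := Real.exp (Lam * D ^ 2) * (3 * C0 * D)
  have hE : 0 < E := by positivity
  set M := η + E * ρ
  have hM : 0 < M := by positivity
  set R := ItX χ c U FE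
  have hR0 : R 0 = 0 := rfl
  have hmax : ∀ (F : Fam) (W : K → ℝ≥0∞) t, NW W (at' (Duh c F) t) = NW W (at' (Duh c F) (max t 0)) := by
    intro F W t
    unfold NW at'
    simp only [Duh_max]
  -- auxiliary: forcing terms
  have hdom : ∀ n, CF (R n) → (∀ t, R n 0 t = 0) →
      (∀ t, NW (Wm a) (at' (R n) t) ≤ ENNReal.ofReal (2 * M * (1 - (1 / 2) ^ n))) → Dom (R n) := by
    intro n _ h0 h
    refine dom_of_NWm ha (M := 2 * M) (by positivity) h0 fun t => (h t).trans ?_
    apply ENNReal.ofReal_le_ofReal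
    have : (0 : ℝ) ≤ (1 / 2) ^ n := by positivity
    nlinarith
  have hFc : ∀ n, CF (R n) → Dom (R n) → CF (FE + (Bx χ (U + R n) - Bx χ U)) := by
    intro n h1 h2 k
    have e1 : CF (U + R n) := fun k => (hU k).add (h1 k)
    exact (hFE k).add ((Bx_cont hχ e1 (hUd.add h2) k).sub (Bx_cont hχ hU hUd k))
  have hF0 : ∀ n t, (FE + (Bx χ (U + R n) - Bx χ U)) 0 t = 0 := by
    intro n t
    simp [Bx, Bt, Bf_zero, hFE0]
  have hstep : ∀ n, InvX c a M ρ g R n → CF (R (n + 1)) ∧ (∀ t, R (n + 1) 0 t = 0) := by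
    intro n h
    have h2 := hdom n h.cf h.z h.nm
    have h3 := hFc n h.cf h2
    refine ⟨Duh_cont h3 c, fun t => ?_⟩
    exact at'_Duh_zero (hF0 n) t
  induction n with
  | zero =>
    have hk : R 1 = Duh c FE := by
      show Duh c (FE + (Bx χ (U + 0) - Bx χ U)) = _
      rw [add_zero, sub_self, add_zero]
    have hb : ∀ t, 0 ≤ t → NW (Wm a) (at' (Duh c FE) t) ≤ ENNReal.ofReal η := fun t ht =>
      (NW_Duh_le hc.le _ hFE ht).trans ((lintegral_mono_set fun s hs => hs.1).trans hFEi)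
    refine ⟨?_, ?_, ?_, ?_, ?_, ?_⟩
    · intro k; rw [hR0]; exact continuous_const
    · intro t; rw [hR0]; rfl
    · intro t; rw [hR0]
      have : NW (Wm a) (at' (0 : Fam) t) = 0 := NW_zero _
      rw [this]; exact zero_le
    · rw [hR0]
      have : LF g a (0 : Fam) = 0 := by
        unfold LF LN
        have h0 : ∀ t, NW (Wa a) (at' (0 : Fam) t) = 0 := fun t => NW_zero _
        simp [h0]
      rw [this]; exact zero_le
    · rw [hR0, sub_zero, zero_add, hk]
      have h1 : ENNReal.ofReal c * LF g a (Duh c FE) ^ 2 ≤ ENNReal.ofReal η * ENNReal.ofReal η := by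
        refine key_le hc hFE hFE0 hg (fun t ht => ?_) ?_
        · calc _ ≤ 1 * ∫⁻ s in Ioi 0, NW (Wm a) (at' FE s) := by
                apply mul_le_mul' _ (lintegral_mono_set fun s hs => hs.1)
                rw [ENNReal.ofReal_le_one, Real.exp_le_one_iff]
                have := gw_nonneg hL.le hA ht.le
                simp only [g]; linarith
            _ ≤ _ := by rw [one_mul]; exact hFEi
        · refine le_trans (setLIntegral_mono' measurableSet_Ioi fun s hs => ?_) hFEi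
          calc _ ≤ 1 * NW (Wm a) (at' FE s) := by
                apply mul_le_mul' _ le_rfl
                rw [ENNReal.ofReal_le_one, Real.exp_le_one_iff]
                have := gw_nonneg hL.le hA (le_of_lt hs)
                simp only [g]; linarith
            _ = _ := one_mul _
      have h2 : ENNReal.ofReal c * LF g a (Duh c FE) ^ 2 ≤ ENNReal.ofReal c * ENNReal.ofReal (ρ / 2) ^ 2 := by
        refine h1.trans ?_
        rw [← ENNReal.ofReal_mul hη, ← ENNReal.ofReal_pow (by positivity), ← ENNReal.ofReal_mul hc.le]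
        apply ENNReal.ofReal_le_ofReal
        rw [← pow_two]; exact hη2
      have h3 : LF g a (Duh c FE) ^ 2 ≤ ENNReal.ofReal (ρ / 2) ^ 2 :=
        (ENNReal.mul_le_mul_iff_right (by simpa using hc) ENNReal.ofReal_ne_top).1 h2
      rw [← ENNReal.rpow_two, ← ENNReal.rpow_two] at h3
      simpa using (ENNReal.rpow_le_rpow_iff (by norm_num : (0 : ℝ) < 2)).1 h3
    · intro t
      rw [hR0, sub_zero, zero_add, hk, hmax]
      refine (hb _ (le_max_right _ _)).trans (ENNReal.ofReal_le_ofReal ?_)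
      simp only [pow_zero, mul_one, M]
      have : 0 ≤ E * ρ := by positivity
      linarith
  | succ n ih =>
    obtain ⟨hcf1, hz1⟩ := hstep n ih
    have hsum : R (n + 1) = R n + (R (n + 1) - R n) := by abel
    have hdn : CF (R (n + 1) - R n) := fun k => (hcf1 k).sub (ih.cf k)
    have hnm1 : ∀ t, NW (Wm a) (at' (R (n + 1)) t) ≤ ENNReal.ofReal (2 * M * (1 - (1 / 2) ^ (n + 1))) := by
      intro t
      have e : at' (R (n + 1)) t = at' (R n) t + at' (R (n + 1) - R n) t := by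
        funext k; simp [at']
      rw [e]
      refine (NW_add_le _ _ _).trans ((add_le_add (ih.nm t) (ih.nmd t)).trans ?_)
      have p1 : (1 / 2 : ℝ) ^ n ≤ 1 := pow_le_one₀ (by norm_num) (by norm_num)
      have p0 : (0 : ℝ) ≤ (1 / 2) ^ n := by positivity
      rw [← ENNReal.ofReal_add (by nlinarith) (by positivity)]
      apply ENNReal.ofReal_le_ofReal
      rw [pow_succ]
      apply le_of_eq; ring
    have hlf1 : LF g a (R (n + 1)) ≤ ENNReal.ofReal (ρ * (1 - (1 / 2) ^ (n + 1))) := by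
      rw [hsum]
      refine (LF_add_le hg ih.cf hdn).trans ((add_le_add ih.lf ih.lfd).trans ?_)
      have p1 : (1 / 2 : ℝ) ^ n ≤ 1 := pow_le_one₀ (by norm_num) (by norm_num)
      have p0 : (0 : ℝ) ≤ (1 / 2) ^ n := by positivity
      rw [← ENNReal.ofReal_add (by nlinarith) (by positivity)]
      apply ENNReal.ofReal_le_ofReal
      rw [pow_succ]
      apply le_of_eq; ring
    have hd0 := hdom n ih.cf ih.z ih.nm
    have hd1 := hdom (n + 1) hcf1 hz1 hnm1
    -- the difference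
    set F0 := FE + (Bx χ (U + R n) - Bx χ U)
    set F1 := FE + (Bx χ (U + R (n + 1)) - Bx χ U)
    have hF0c : CF F0 := hFc n ih.cf hd0
    have hF1c : CF F1 := hFc (n + 1) hcf1 hd1
    have hdiff : R (n + 1 + 1) - R (n + 1) = Duh c (F1 - F0) := by
      rw [Duh_sub hF1c hF0c]
      rfl
    have hFdc : CF (F1 - F0) := fun k => (hF1c k).sub (hF0c k)
    have hFd0 : ∀ t, (F1 - F0) 0 t = 0 := by
      intro t
      simp only [Pi.sub_apply, F1, F0, hF0, sub_self]
    have hb : ∀ s, 0 < s → NW (Wm a) (at' (F1 - F0) s) ≤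
        ENNReal.ofReal C0 * (NW (Wa a) (at' (R (n + 1) - R n) s) * (2 * ENNReal.ofReal (A s) +
          (NW (Wa a) (at' (R (n + 1)) s) + NW (Wa a) (at' (R n) s)))) := by
      intro s hs
      have s0 := hUd.sn s
      have s1 := hd0.sn s
      have s2 := hd1.sn s
      have e : at' (F1 - F0) s = χ s • (Bf (at' (R (n + 1) - R n) s) (at' U s + at' (R (n + 1)) s)
          + Bf (at' U s + at' (R n) s) (at' (R (n + 1) - R n) s)) := by
        have e1 : at' (F1 - F0) s = χ s • (Bf (at' U s + at' (R (n + 1)) s) (at' U s + at' (R (n + 1)) s)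
            - Bf (at' U s + at' (R n) s) (at' U s + at' (R n) s)) := by
          funext k
          have ea : at' (U + R (n + 1)) s = at' U s + at' (R (n + 1)) s := rfl
          have eb : at' (U + R n) s = at' U s + at' (R n) s := rfl
          show (F1 - F0) k s = _
          simp only [Pi.sub_apply, F1, F0, Pi.add_apply, Bx, Bt, Pi.smul_apply]
          rw [ea, eb, smul_sub]
          abel
        rw [e1, Bf_diff (s0.add s2) (s0.add s1)]
        have : at' U s + at' (R (n + 1)) s - (at' U s + at' (R n) s) = at' (R (n + 1) - R n) s := by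
          funext k; simp [at']
        rw [this]
      rw [e]
      refine (NW_smul_le _ (hχ.nn s) (hχ.le s) _).trans ?_
      calc _ ≤ NW (Wm a) (Bf (at' (R (n + 1) - R n) s) (at' U s + at' (R (n + 1)) s))
          + NW (Wm a) (Bf (at' U s + at' (R n) s) (at' (R (n + 1) - R n) s)) := NW_add_le _ _ _
        _ ≤ ENNReal.ofReal C0 * (NW (Wa a) (at' (R (n + 1) - R n) s) *
              (ENNReal.ofReal (A s) + NW (Wa a) (at' (R (n + 1)) s)))
            + ENNReal.ofReal C0 * ((ENNReal.ofReal (A s) + NW (Wa a) (at' (R n) s)) *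
              NW (Wa a) (at' (R (n + 1) - R n) s)) := by
            apply add_le_add
            · refine (NW_Bf_le ha.le _ _).trans (mul_le_mul' le_rfl (mul_le_mul' le_rfl ?_))
              exact (NW_add_le _ _ _).trans (add_le_add (hUA s hs) le_rfl)
            · refine (NW_Bf_le ha.le _ _).trans (mul_le_mul' le_rfl (mul_le_mul' ?_ le_rfl))
              exact (NW_add_le _ _ _).trans (add_le_add (hUA s hs) le_rfl)
        _ = _ := by ring
    have hYm : Measurable fun s => NW (Wa a) (at' (R (n + 1)) s) + NW (Wa a) (at' (R n) s) :=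
      (NW_meas _ hcf1).add (NW_meas _ ih.cf)
    have hgm : Measurable fun t => ENNReal.ofReal (Real.exp (-g t)) :=
      ENNReal.measurable_ofReal.comp (Real.measurable_exp.comp hg.measurable.neg)
    have hYi : LN (fun s => ENNReal.ofReal (Real.exp (-g s)) *
        (NW (Wa a) (at' (R (n + 1)) s) + NW (Wa a) (at' (R n) s))) ≤ ENNReal.ofReal (2 * ρ) := by
      have h1 : LN (fun s => ENNReal.ofReal (Real.exp (-g s)) *
        (NW (Wa a) (at' (R (n + 1)) s) + NW (Wa a) (at' (R n) s))) ≤ LF g a (R (n + 1)) + LF g a (R n) := by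
        unfold LF
        refine le_trans (le_of_eq ?_) (LN_add_le (hgm.mul (NW_meas _ hcf1)) (hgm.mul (NW_meas _ ih.cf)))
        congr 1
        funext s
        ring
      refine h1.trans ((add_le_add hlf1 ih.lf).trans ?_)
      have p1 : (1 / 2 : ℝ) ^ n ≤ 1 := pow_le_one₀ (by norm_num) (by norm_num)
      have p0 : (0 : ℝ) ≤ (1 / 2) ^ n := by positivity
      have p2 : (1 / 2 : ℝ) ^ (n + 1) ≤ 1 := pow_le_one₀ (by norm_num) (by norm_num)
      have p3 : (0 : ℝ) ≤ (1 / 2) ^ (n + 1) := by positivity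
      rw [← ENNReal.ofReal_add (by nlinarith) (by nlinarith)]
      apply ENNReal.ofReal_le_ofReal
      nlinarith
    have hcon := contr hp hA hA0 hAi hFdc hFd0 hdn hYm hYi hb
    refine ⟨hcf1, hz1, hnm1, hlf1, ?_, ?_⟩
    · rw [hdiff]
      refine hcon.1.trans ?_
      rw [← ofReal_half_powX n (ρ / 2) (by positivity)]
      exact mul_le_mul' le_rfl ih.lfd
    · intro t
      rw [hdiff, hmax]
      refine (hcon.2 _ (le_max_right _ _)).trans ?_
      calc _ ≤ ENNReal.ofReal E * ENNReal.ofReal (ρ / 2 * (1 / 2) ^ n) := mul_le_mul' le_rfl ih.lfd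
        _ = ENNReal.ofReal (E * (ρ / 2 * (1 / 2) ^ n)) := by rw [ENNReal.ofReal_mul hE.le]
        _ ≤ _ := by
            apply ENNReal.ofReal_le_ofReal
            simp only [M]
            have p0 : (0 : ℝ) ≤ (1 / 2) ^ n := by positivity
            rw [pow_succ]
            nlinarith [mul_nonneg hη p0]

end Pool.Agent.H356R3.NS.X
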