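import Pool.Agent.H3NX.KeyW

set_option autoImplicit false
set_option maxHeartbeats 4000000
set_option synthInstance.maxHeartbeats 400000

open MeasureTheory Set Filter Topology
open scoped ENNReal NNReal

namespace Pool.Agent.H356R3.NS.X

lemma Ht_cf (c : ℝ) (V : K → C3) : CF (Ht c V) := fun k => by unfold Ht; fun_prop

lemma NW_Ht_le {c : ℝ} (hc : 0 ≤ c) (W : K → ℝ≥0∞) (V : K → C3) (t : ℝ) : NW W (at' (Ht c V) t) ≤ NW W V := by
  unfold NW
  refine ENNReal.tsum_le_tsum fun k => mul_le_mul' le_rfl ?_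
  show ‖Real.exp (-(c * sq k * max t 0)) • V k‖ₑ ≤ _
  rw [enorm_smul, Real.enorm_of_nonneg (Real.exp_pos _).le]
  calc _ ≤ 1 * ‖V k‖ₑ := by
        apply mul_le_mul' _ le_rfl
        rw [ENNReal.ofReal_le_one, Real.exp_le_one_iff]
        have := sq_nonneg' k
        have h2 : 0 ≤ max t 0 := le_max_right _ _
        have : 0 ≤ c * sq k * max t 0 := by positivity
        linarith
    _ = _ := one_mul _

/-- Regularity is propagated and gained, with a constant which depends on the norm in `L²(ℓ¹)` only. -/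
theorem gain {c Cs L : ℝ} (hc : 0 < c) (hCs : 0 ≤ Cs) (hL : 0 ≤ L) : ∃ C : ℝ, 0 ≤ C ∧
    ∀ (w : K → ℝ≥0∞) (u G : Fam) (V : K → C3) (A : ℝ → ℝ), CF u → CF G → Continuous A → (∀ t, 0 ≤ A t) →
      LN (fun t => ENNReal.ofReal (A t)) ≤ ENNReal.ofReal L →
      (∀ k t, u k t = Real.exp (-(c * sq k * max t 0)) • V k + Duh c G k t) →
      (∀ s, 0 < s → NW w (at' G s) ≤ ENNReal.ofReal Cs * (ENNReal.ofReal (A s) * NW (W1 w) (at' u s))) →
      LN (fun t => NW (W1 w) (at' u t)) ≠ ⊤ →
      LN (fun t => NW (W1 w) (at' u t)) ≤ ENNReal.ofReal C * NW w V ∧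
      ∀ t, 0 ≤ t → NW w (at' u t) ≤ ENNReal.ofReal C * NW w V := by
  obtain ⟨κ, hκd⟩ : ∃ κ, κ = c / (4 * (Cs ^ 2 + 1) * (L + 1)) := ⟨_, rfl⟩
  have hκ : 0 < κ := by rw [hκd]; positivity
  have hκ2 : Cs ^ 2 * κ * L ≤ c / 4 := by
    have h1 : κ * ((Cs ^ 2 + 1) * (L + 1)) = c / 4 := by rw [hκd]; field_simp
    rw [← h1]
    have h2 : Cs ^ 2 * L ≤ (Cs ^ 2 + 1) * (L + 1) := by nlinarith [sq_nonneg Cs]
    calc Cs ^ 2 * κ * L = κ * (Cs ^ 2 * L) := by ring
      _ ≤ _ := mul_le_mul_of_nonneg_left h2 hκ.le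
  obtain ⟨Lam, hLamd⟩ : ∃ Lam, Lam = 1 / (2 * κ ^ 2) := ⟨_, rfl⟩
  have hLam : 0 < Lam := by rw [hLamd]; positivity
  have hs : Real.sqrt (1 / (2 * Lam)) = κ := by
    have : 1 / (2 * Lam) = κ ^ 2 := by rw [hLamd]; field_simp
    rw [this, Real.sqrt_sq hκ.le]
  have hsc := Real.sqrt_pos.2 hc
  obtain ⟨E, hEd⟩ : ∃ E, E = Real.exp (Lam * L ^ 2) * (2 / Real.sqrt c) := ⟨_, rfl⟩
  have hE : 0 ≤ E := by rw [hEd]; positivity
  refine ⟨1 + Cs * L * E + E, by positivity, fun w u G V A hu hG hA hA0 hAi heq hGb hfin => ?_⟩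
  set g := gw Lam A
  have hg : Monotone g := gw_mono hLam.le hA
  have hgc : Continuous g := continuous_iff_continuousAt.2 fun s => (gw_deriv Lam hA s).continuousAt
  have hgm : Measurable fun t => ENNReal.ofReal (Real.exp (-g t)) := by fun_prop
  have hgL : ∀ t, 0 ≤ t → g t ≤ Lam * L ^ 2 := fun t ht => gw_le hLam.le hA hA0 hL hAi ht
  have hg0 : ∀ t, 0 ≤ t → 0 ≤ g t := fun t ht => gw_nonneg hLam.le hA ht
  set δ : ℝ → ℝ≥0∞ := fun s => ENNReal.ofReal (Real.exp (-g s)) * NW (W1 w) (at' u s) with hδd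
  have hδm : Measurable δ := hgm.mul (NW_meas _ hu)
  obtain ⟨Y, hYd⟩ : ∃ Y, Y = LG g (W1 w) u := ⟨_, rfl⟩
  have hYδ : Y = LN δ := hYd
  have hYle : Y ≤ LN (fun t => NW (W1 w) (at' u t)) := by
    rw [hYδ]
    refine LN_mono fun t ht => ?_
    simp only [hδd]
    calc _ ≤ 1 * NW (W1 w) (at' u t) := by
          apply mul_le_mul' _ le_rfl
          rw [ENNReal.ofReal_le_one, Real.exp_le_one_iff]
          have := hg0 t ht.le
          linarith
      _ = _ := one_mul _
  have hYt : Y ≠ ⊤ := ne_top_of_le_ne_top hfin hYle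
  -- P
  have hP : ∀ t, 0 < t → ENNReal.ofReal (Real.exp (-g t)) * ∫⁻ s in Ioc 0 t, NW w (at' G s)
      ≤ ENNReal.ofReal (Cs * κ) * Y := by
    intro t ht
    have m1 : Measurable fun s => ENNReal.ofReal (Real.exp (-(g t - g s)) * |A s|) := by fun_prop
    have hcs : ∫⁻ s in Ioc 0 t, ENNReal.ofReal (Real.exp (-(g t - g s)) * |A s|) * δ s
        ≤ ENNReal.ofReal κ * Y := by
      have := ENNReal.lintegral_mul_le_Lp_mul_Lq (volume.restrict (Ioc (0 : ℝ) t))
        Real.HolderConjugate.two_two m1.aemeasurable hδm.aemeasurable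
      refine this.trans ?_
      apply mul_le_mul'
      · calc _ ≤ (ENNReal.ofReal (1 / (2 * Lam))) ^ (1 / 2 : ℝ) :=
              ENNReal.rpow_le_rpow (kernel_le hLam hA ht.le) (by norm_num)
          _ = ENNReal.ofReal κ := by
              rw [ENNReal.ofReal_rpow_of_nonneg (by positivity) (by norm_num), ← Real.sqrt_eq_rpow, hs]
      · rw [hYδ]; unfold LN
        apply ENNReal.rpow_le_rpow _ (by norm_num)
        exact lintegral_mono_set fun s hs => hs.1
    calc ENNReal.ofReal (Real.exp (-g t)) * ∫⁻ s in Ioc 0 t, NW w (at' G s)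
        = ∫⁻ s in Ioc 0 t, ENNReal.ofReal (Real.exp (-g t)) * NW w (at' G s) := by
          rw [lintegral_const_mul _ (NW_meas _ hG)]
      _ ≤ ∫⁻ s in Ioc 0 t, ENNReal.ofReal Cs * (ENNReal.ofReal (Real.exp (-(g t - g s)) * |A s|) * δ s) := by
          refine setLIntegral_mono' measurableSet_Ioc fun s hs => ?_
          refine (mul_le_mul' le_rfl (hGb s hs.1)).trans (le_of_eq ?_)
          simp only [hδd]
          rw [abs_of_nonneg (hA0 s), ENNReal.ofReal_mul (Real.exp_pos _).le]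
          have e : Real.exp (-g t) = Real.exp (-(g t - g s)) * Real.exp (-g s) := by
            rw [← Real.exp_add]; congr 1; ring
          rw [e, ENNReal.ofReal_mul (Real.exp_pos _).le]
          ring
      _ = ENNReal.ofReal Cs * ∫⁻ s in Ioc 0 t, ENNReal.ofReal (Real.exp (-(g t - g s)) * |A s|) * δ s := by
          rw [lintegral_const_mul _ (by fun_prop)]
      _ ≤ ENNReal.ofReal Cs * (ENNReal.ofReal κ * Y) := mul_le_mul' le_rfl hcs
      _ = _ := by rw [ENNReal.ofReal_mul hCs, mul_assoc]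
  have hAm : Measurable fun s => ENNReal.ofReal (A s) := by fun_prop
  have hQ : ∫⁻ s in Ioi 0, ENNReal.ofReal (Real.exp (-g s)) * NW w (at' G s)
      ≤ ENNReal.ofReal (Cs * L) * Y := by
    have hcs : ∫⁻ s in Ioi 0, ENNReal.ofReal (A s) * δ s ≤ ENNReal.ofReal L * Y := by
      rw [hYδ]
      exact (LN_cs hAm hδm).trans (mul_le_mul' hAi le_rfl)
    calc ∫⁻ s in Ioi 0, ENNReal.ofReal (Real.exp (-g s)) * NW w (at' G s)
        ≤ ∫⁻ s in Ioi 0, ENNReal.ofReal Cs * (ENNReal.ofReal (A s) * δ s) := by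
          refine setLIntegral_mono' measurableSet_Ioi fun s hs => ?_
          refine (mul_le_mul' le_rfl (hGb s hs)).trans (le_of_eq ?_)
          simp only [hδd]
          ring
      _ = ENNReal.ofReal Cs * ∫⁻ s in Ioi 0, ENNReal.ofReal (A s) * δ s := by
          have mm : Measurable fun s => ENNReal.ofReal (A s) * δ s := hAm.mul hδm
          rw [lintegral_const_mul _ mm]
      _ ≤ ENNReal.ofReal Cs * (ENNReal.ofReal L * Y) := mul_le_mul' le_rfl hcs
      _ = _ := by rw [ENNReal.ofReal_mul hCs, mul_assoc]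
  have hDuh : LG g (W1 w) (Duh c G) ≤ (1 / 2) * Y := by
    have hk := key_w hc w hG hg hP hQ
    have h5 : ENNReal.ofReal (Cs * κ) * Y * (ENNReal.ofReal (Cs * L) * Y)
        ≤ ENNReal.ofReal c * ((1 / 2) * Y) ^ 2 := by
      have e1 : ENNReal.ofReal (Cs * κ) * Y * (ENNReal.ofReal (Cs * L) * Y)
          = ENNReal.ofReal (Cs * κ * (Cs * L)) * Y ^ 2 := by
        rw [ENNReal.ofReal_mul (p := Cs * κ) (by positivity)]; ring
      have e2 : ENNReal.ofReal c * ((1 / 2) * Y) ^ 2 = ENNReal.ofReal (c * (1 / 4)) * Y ^ 2 := by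
        rw [ENNReal.ofReal_mul hc.le]
        have : ENNReal.ofReal (1 / 4) = (1 / 2) ^ 2 := by
          rw [ENNReal.ofReal_div_of_pos (by norm_num)]
          simp only [ENNReal.ofReal_one, ENNReal.ofReal_ofNat, one_div]
          rw [← ENNReal.inv_pow]
          norm_num
        rw [this]; ring
      rw [e1, e2]
      apply mul_le_mul' _ le_rfl
      apply ENNReal.ofReal_le_ofReal
      nlinarith
    have h6 : ENNReal.ofReal c * LG g (W1 w) (Duh c G) ^ 2 ≤ ENNReal.ofReal c * ((1 / 2) * Y) ^ 2 :=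
      hk.trans h5
    have h7 : LG g (W1 w) (Duh c G) ^ 2 ≤ ((1 / 2) * Y) ^ 2 :=
      (ENNReal.mul_le_mul_iff_right (by simpa using hc) ENNReal.ofReal_ne_top).1 h6
    rw [← ENNReal.rpow_two, ← ENNReal.rpow_two] at h7
    exact (ENNReal.rpow_le_rpow_iff (by norm_num : (0 : ℝ) < 2)).1 h7
  -- the linear part
  have hlin : LN (fun t => NW (W1 w) (at' (Ht c V) t)) ≤ ENNReal.ofReal (1 / Real.sqrt c) * NW w V := by
    have h1 := lin_w hc w V
    have h2 : LN (fun t => NW (W1 w) (at' (Ht c V) t)) ^ 2 ≤ (ENNReal.ofReal (1 / Real.sqrt c) * NW w V) ^ 2 := by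
      rw [mul_pow, ← ENNReal.ofReal_pow (by positivity), div_pow, one_pow, Real.sq_sqrt hc.le]
      calc LN (fun t => NW (W1 w) (at' (Ht c V) t)) ^ 2
          = ENNReal.ofReal (1 / c) * (ENNReal.ofReal c * LN (fun t => NW (W1 w) (at' (Ht c V) t)) ^ 2) := by
            rw [← mul_assoc, ← ENNReal.ofReal_mul (by positivity), one_div_mul_cancel hc.ne', ENNReal.ofReal_one,
              one_mul]
        _ ≤ _ := mul_le_mul' le_rfl h1
    rw [← ENNReal.rpow_two, ← ENNReal.rpow_two] at h2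
    exact (ENNReal.rpow_le_rpow_iff (by norm_num : (0 : ℝ) < 2)).1 h2
  have hsplit : u = Ht c V + Duh c G := by
    funext k t
    exact heq k t
  have hY2 : Y ≤ 2 * (ENNReal.ofReal (1 / Real.sqrt c) * NW w V) := by
    have h1 : Y ≤ LG g (W1 w) (Ht c V) + LG g (W1 w) (Duh c G) := by
      have m1 : Measurable fun t => ENNReal.ofReal (Real.exp (-g t)) * NW (W1 w) (at' (Ht c V) t) :=
        hgm.mul (NW_meas _ (Ht_cf c V))
      have m2 : Measurable fun t => ENNReal.ofReal (Real.exp (-g t)) * NW (W1 w) (at' (Duh c G) t) :=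
        hgm.mul (NW_meas _ (Duh_cont hG c))
      rw [hYδ]
      refine le_trans (LN_mono fun t _ => ?_) (LN_add_le m1 m2)
      simp only [hδd]
      rw [← mul_add]
      refine mul_le_mul' le_rfl ?_
      rw [hsplit]
      exact NW_add_le _ _ _
    have h2 : LG g (W1 w) (Ht c V) ≤ ENNReal.ofReal (1 / Real.sqrt c) * NW w V := by
      refine le_trans (LN_mono fun t ht => ?_) hlin
      calc _ ≤ 1 * NW (W1 w) (at' (Ht c V) t) := by
            apply mul_le_mul' _ le_rfl
            rw [ENNReal.ofReal_le_one, Real.exp_le_one_iff]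
            have := hg0 t ht.le
            linarith
        _ = _ := one_mul _
    have h3 := h1.trans (add_le_add h2 hDuh)
    have h4 : (1 / 2) * Y + (1 / 2) * Y ≤ ENNReal.ofReal (1 / Real.sqrt c) * NW w V + (1 / 2) * Y := by
      refine le_trans (le_of_eq ?_) h3
      rw [← add_mul, ENNReal.add_halves, one_mul]
    have h5 : (1 / 2) * Y ≤ ENNReal.ofReal (1 / Real.sqrt c) * NW w V :=
      ENNReal.le_of_add_le_add_right (ENNReal.mul_ne_top (by norm_num) hYt) h4
    calc Y = 2 * ((1 / 2) * Y) := by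
          rw [← mul_assoc, one_div, ENNReal.mul_inv_cancel (by norm_num) (by norm_num), one_mul]
      _ ≤ _ := mul_le_mul' le_rfl h5
  have hLNu : LN (fun t => NW (W1 w) (at' u t)) ≤ ENNReal.ofReal E * NW w V := by
    calc LN (fun t => NW (W1 w) (at' u t))
        ≤ LN (fun t => ENNReal.ofReal (Real.exp (Lam * L ^ 2)) * δ t) := by
          refine LN_mono fun t ht => ?_
          simp only [hδd]
          rw [← mul_assoc, ← ENNReal.ofReal_mul (Real.exp_pos _).le, ← Real.exp_add]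
          calc NW (W1 w) (at' u t) = 1 * NW (W1 w) (at' u t) := (one_mul _).symm
            _ ≤ _ := by
                apply mul_le_mul' _ le_rfl
                rw [ENNReal.one_le_ofReal]
                apply Real.one_le_exp
                have := hgL t ht.le
                linarith
      _ = ENNReal.ofReal (Real.exp (Lam * L ^ 2)) * Y := by rw [LN_const_mul _ hδm, hYδ]
      _ ≤ ENNReal.ofReal (Real.exp (Lam * L ^ 2)) * (2 * (ENNReal.ofReal (1 / Real.sqrt c) * NW w V)) :=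
          mul_le_mul' le_rfl hY2
      _ = _ := by
          have e : ENNReal.ofReal E = ENNReal.ofReal (Real.exp (Lam * L ^ 2)) *
              (2 * ENNReal.ofReal (1 / Real.sqrt c)) := by
            rw [hEd, ENNReal.ofReal_mul (Real.exp_pos _).le,
              show (2 : ℝ) / Real.sqrt c = 2 * (1 / Real.sqrt c) by ring,
              ENNReal.ofReal_mul (by norm_num : (0 : ℝ) ≤ 2), ENNReal.ofReal_ofNat]
          rw [e]; ring
  have hCEL : 0 ≤ Cs * L * E := by positivity
  refine ⟨hLNu.trans (mul_le_mul' (ENNReal.ofReal_le_ofReal (by linarith)) le_rfl), fun t ht => ?_⟩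
  have h1 : NW w (at' u t) ≤ NW w (at' (Ht c V) t) + NW w (at' (Duh c G) t) := by
    rw [hsplit]
    exact NW_add_le _ _ _
  have h2 : NW w (at' (Duh c G) t) ≤ ENNReal.ofReal (Cs * L * E) * NW w V := by
    refine (NW_Duh_le hc.le w hG ht).trans ?_
    calc ∫⁻ s in Ioc 0 t, NW w (at' G s)
        ≤ ∫⁻ s in Ioc 0 t, ENNReal.ofReal Cs * (ENNReal.ofReal (A s) * NW (W1 w) (at' u s)) :=
          setLIntegral_mono' measurableSet_Ioc fun s hs => hGb s hs.1
      _ ≤ ∫⁻ s in Ioi 0, ENNReal.ofReal Cs * (ENNReal.ofReal (A s) * NW (W1 w) (at' u s)) :=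
          lintegral_mono_set fun s hs => hs.1
      _ = ENNReal.ofReal Cs * ∫⁻ s in Ioi 0, ENNReal.ofReal (A s) * NW (W1 w) (at' u s) := by
          have mm : Measurable fun s => ENNReal.ofReal (A s) * NW (W1 w) (at' u s) :=
            hAm.mul (NW_meas _ hu)
          rw [lintegral_const_mul _ mm]
      _ ≤ ENNReal.ofReal Cs * (ENNReal.ofReal L * (ENNReal.ofReal E * NW w V)) := by
          apply mul_le_mul' le_rfl
          exact (LN_cs hAm (NW_meas _ hu)).trans (mul_le_mul' hAi hLNu)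
      _ = _ := by
          rw [ENNReal.ofReal_mul (p := Cs * L) (by positivity), ENNReal.ofReal_mul hCs]
          ring
  refine (h1.trans (add_le_add (NW_Ht_le hc.le w V t) h2)).trans ?_
  calc NW w V + ENNReal.ofReal (Cs * L * E) * NW w V = ENNReal.ofReal (1 + Cs * L * E) * NW w V := by
        rw [ENNReal.ofReal_add (by norm_num) hCEL, add_mul, ENNReal.ofReal_one, one_mul]
    _ ≤ _ := mul_le_mul' (ENNReal.ofReal_le_ofReal (by linarith)) le_rfl

end Pool.Agent.H356R3.NS.X
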