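import Pool.Agent.H3NX.Ode

set_option autoImplicit false
set_option maxHeartbeats 4000000
set_option synthInstance.maxHeartbeats 400000

/-!
Global smooth solutions in the moving frame, on the Fourier side.
-/

open MeasureTheory Set Filter Topology
open scoped ENNReal NNReal ContDiff

namespace Pool.Agent.H356R3.NS.X

open Pool.Agent.H3NS
open H459R3.NS (fr ee SP IsSol cube)

lemma continuousOn_intC {T : ℝ} {F : ℝ → R3 → ℂ}
    (hF : ContinuousOn (fun z : ℝ × R3 => F z.1 z.2) (Ico 0 T ×ˢ univ)) :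
    ContinuousOn (fun s => ∫ x in cube, F s x) (Ico 0 T) := by
  intro t ht
  obtain ⟨b, hb1, hb2⟩ := exists_between ht.2
  have hK : IsCompact (Icc 0 b ×ˢ cube) := isCompact_Icc.prod isCompact_Icc
  have hsub : Icc 0 b ×ˢ cube ⊆ Ico 0 T ×ˢ (univ : Set R3) :=
    prod_mono (fun s hs => ⟨hs.1, hs.2.trans_lt hb2⟩) (subset_univ _)
  obtain ⟨C, hC⟩ := hK.exists_bound_of_continuousOn (hF.mono hsub)
  have hev : ∀ᶠ s in 𝓝[Ico 0 T] t, s ∈ Icc 0 b := by
    have h1 : ∀ᶠ s in 𝓝[Ico 0 T] t, s < b := nhdsWithin_le_nhds (Iio_mem_nhds hb1)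
    filter_upwards [h1, self_mem_nhdsWithin] with s hs1 hs2
    exact ⟨hs2.1, hs1.le⟩
  have hmeas : MeasurableSet cube := measurableSet_Icc
  have := H459R3.NS.cube_finite
  refine continuousWithinAt_of_dominated (bound := fun _ => C) ?_ ?_ ?_ ?_
  · filter_upwards [hev] with s hs
    have hc : Continuous (fun x => F s x) := by
      have := hF.comp_continuous (f := fun x : R3 => ((s, x) : ℝ × R3)) (by fun_prop)
        (fun x => ⟨⟨hs.1, hs.2.trans_lt hb2⟩, mem_univ _⟩)
      exact this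
    exact hc.aestronglyMeasurable
  · filter_upwards [hev] with s hs
    refine (ae_restrict_iff' hmeas).2 (Filter.Eventually.of_forall fun x hx => ?_)
    exact hC (s, x) ⟨hs, hx⟩
  · exact integrable_const _
  · refine Filter.Eventually.of_forall fun x => ?_
    have h1 : ContinuousWithinAt (fun z : ℝ × R3 => F z.1 z.2)
        (Ico 0 T ×ˢ univ) (t, x) := hF (t, x) ⟨ht, mem_univ _⟩
    exact h1.comp (t := Ico 0 T ×ˢ univ) (f := fun s : ℝ => ((s, x) : ℝ × R3))
      (by fun_prop) (fun s hs => ⟨hs, mem_univ _⟩)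

section
variable {ν T : ℝ} {u : ℝ → R3 → R3} {p : ℝ → R3 → ℝ}

lemma fc_contOn (h : IsSol ν T u p) (k : K) (i : Fin 3) : ContinuousOn (fun s => fc (u s) k i) (Ico 0 T) := by
  simp only [fc_fr]
  refine continuousOn_intC (F := fun s x => ee (-k) x * (u s x i : ℂ)) ?_
  refine ContinuousOn.mul ?_ ?_
  · exact ((H459R3.NS.ee_continuous (-k)).comp continuous_snd).continuousOn
  · exact Complex.continuous_ofReal.comp_continuousOn (h.smooth_c i).continuousOn

lemma pd_iter_smooth {f : ℝ → R3 → ℝ}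
    (hf : ContDiffOn ℝ ∞ (fun z : ℝ × R3 => f z.1 z.2) (Ico 0 T ×ˢ univ)) (j : Fin 3) (n : ℕ) :
    ContDiffOn ℝ ∞ (fun z : ℝ × R3 => ((H459R3.NS.pd j)^[n] (f z.1)) z.2) (Ico 0 T ×ˢ univ) := by
  induction n with
  | zero => exact hf
  | succ n ih =>
    have := H459R3.NS.contDiffOn_pd (f := fun t => (H459R3.NS.pd j)^[n] (f t)) ih j
    refine this.congr fun z _ => ?_
    simp only [Function.iterate_succ_apply']

/-- rapid decrease of the Fourier coefficients, locally uniformly in time -/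
lemma fc_bound (h : IsSol ν T u p) {T' : ℝ} (hT : T' < T) (n : ℕ) : ∃ C : ℝ, 0 ≤ C ∧
    ∀ t ∈ Icc 0 T', ∀ k, nk k ^ n * ‖fc (u t) k‖ ≤ C := by
  have key : ∀ i j : Fin 3, ∃ C : ℝ, 0 ≤ C ∧ ∀ t ∈ Icc 0 T', ∀ k : K, |(k j : ℝ)| ^ n * ‖fc (u t) k i‖ ≤ C := by
    intro i j
    have hc := (pd_iter_smooth (T := T) (f := fun t y => u t y i) (h.smooth_c i) j n).continuousOn
    have hK : IsCompact (Icc 0 T' ×ˢ cube) := isCompact_Icc.prod isCompact_Icc
    have hsub : Icc 0 T' ×ˢ cube ⊆ Ico 0 T ×ˢ (univ : Set R3) :=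
      prod_mono (fun s hs => ⟨hs.1, hs.2.trans_lt hT⟩) (subset_univ _)
    obtain ⟨C, hC⟩ := hK.exists_bound_of_continuousOn (hc.mono hsub)
    refine ⟨max C 0, le_max_right _ _, fun t ht k => ?_⟩
    have hI : t ∈ Ico 0 T := ⟨ht.1, ht.2.trans_lt hT⟩
    have e1 := H459R3.NS.fr_iter (h.sp hI i) j n k
    have h2 : ‖fr ((H459R3.NS.pd j)^[n] (fun y => u t y i)) k‖ ≤ max C 0 := by
      unfold H459R3.NS.fr H459R3.NS.fc
      have hv : (volume : Measure R3) cube < ⊤ := isCompact_Icc.measure_lt_top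
      have h3 := norm_setIntegral_le_of_norm_le_const (μ := (volume : Measure R3)) (s := cube) (C := max C 0) hv
        (f := fun x => ee (-k) x * ((((H459R3.NS.pd j)^[n] (fun y => u t y i)) x : ℝ) : ℂ)) fun x hx => by
          rw [norm_mul, H459R3.NS.norm_ee, one_mul, Complex.norm_real]
          exact (hC (t, x) ⟨ht, hx⟩).trans (le_max_left _ _)
      refine h3.trans (le_of_eq ?_)
      rw [Measure.real, H459R3.NS.volume_cube]
      simp
    rw [e1, norm_mul, norm_pow] at h2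
    rw [fc_fr]
    refine le_trans ?_ h2
    apply mul_le_mul_of_nonneg_right _ (norm_nonneg _)
    apply pow_le_pow_left₀ (abs_nonneg _)
    rw [norm_mul, norm_mul, norm_mul, Complex.norm_I, mul_one, Complex.norm_real,
      Real.norm_eq_abs, abs_of_pos Real.pi_pos, Complex.norm_ofNat, Complex.norm_intCast]
    have h0 : 0 ≤ |(k j : ℝ)| := abs_nonneg _
    have := Real.pi_gt_three
    nlinarith
  choose C hC0 hC using key
  refine ⟨2 ^ n * ∑ i, ∑ j, C i j, mul_nonneg (by positivity) (Finset.sum_nonneg fun i _ =>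
    Finset.sum_nonneg fun j _ => hC0 i j), fun t ht k => ?_⟩
  have h1 : nk k ^ n ≤ 2 ^ n * ∑ j, |(k j : ℝ)| ^ n := by
    obtain ⟨j, -, hj⟩ := Finset.exists_max_image Finset.univ (fun j : Fin 3 => |(k j : ℝ)|) Finset.univ_nonempty
    have h2 : nk k ≤ 2 * |(k j : ℝ)| := by
      unfold nk Pool.Agent.H356R3.NS.sq
      rw [Real.sqrt_le_left (by positivity)]
      have h3 : ∀ l : Fin 3, (k l : ℝ) ^ 2 ≤ |(k j : ℝ)| ^ 2 := fun l => by
        rw [← sq_abs (k l : ℝ)]
        exact pow_le_pow_left₀ (abs_nonneg _) (hj l (Finset.mem_univ l)) 2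
      rw [Fin.sum_univ_three]
      have := h3 0
      have := h3 1
      have := h3 2
      nlinarith [sq_nonneg (|(k j : ℝ)|)]
    calc nk k ^ n ≤ (2 * |(k j : ℝ)|) ^ n := pow_le_pow_left₀ (nk_nonneg k) h2 n
      _ = 2 ^ n * |(k j : ℝ)| ^ n := mul_pow _ _ _
      _ ≤ _ := by
          apply mul_le_mul_of_nonneg_left _ (by positivity)
          exact Finset.single_le_sum (f := fun j => |(k j : ℝ)| ^ n) (fun j _ => by positivity) (Finset.mem_univ j)
  have h2 : ‖fc (u t) k‖ ≤ ∑ i, ‖fc (u t) k i‖ := by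
    rw [pi_norm_le_iff_of_nonneg (Finset.sum_nonneg fun i _ => norm_nonneg _)]
    intro i
    exact Finset.single_le_sum (f := fun i => ‖fc (u t) k i‖) (fun i _ => norm_nonneg _) (Finset.mem_univ i)
  calc nk k ^ n * ‖fc (u t) k‖ ≤ (2 ^ n * ∑ j, |(k j : ℝ)| ^ n) * ∑ i, ‖fc (u t) k i‖ :=
        mul_le_mul h1 h2 (norm_nonneg _) (by positivity)
    _ = 2 ^ n * ∑ i, ∑ j, |(k j : ℝ)| ^ n * ‖fc (u t) k i‖ := by
        rw [mul_assoc, Finset.sum_mul_sum, Finset.sum_comm]
    _ ≤ _ := by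
        apply mul_le_mul_of_nonneg_left _ (by positivity)
        exact Finset.sum_le_sum fun i _ => Finset.sum_le_sum fun j _ => hC i j t ht k

/-- the mean is constant -/
lemma mean_const (h : IsSol ν T u p) {t : ℝ} (ht : t ∈ Ico 0 T) (i : Fin 3) : fc (u t) 0 i = fc (u 0) 0 i := by
  have hc := fc_contOn h 0 i
  have hd : ∀ s ∈ Ioo 0 T, HasDerivAt (fun s => fc (u s) 0 i) 0 s := by
    intro s hs
    have hI : s ∈ Ico 0 T := ⟨hs.1.le, hs.2⟩
    have hsp : ∀ i, SP (fun y => u s y i) := fun i => h.sp hI i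
    have h1 := fr_hasDerivAt (f := fun s y => u s y i)
      (H459R3.NS.mono_Ioo (f := fun s y => u s y i) (h.smooth_c i) (by norm_cast)) hs 0
    simp only [fc_fr]
    refine h1.congr_deriv ?_
    have e2 : H459R3.NS.dt (fun s y => u s y i) s = fun x => (ν * H459R3.NS.lap (fun y => u s y i) x
      - H459R3.NS.conv (fun i y => u s y i) i x) - H459R3.NS.pd i (p s) x := by
      funext x
      exact h.dt_eq hs i x
    have s1 : SP (fun x => ν * H459R3.NS.lap (fun y => u s y i) x) :=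
      ⟨contDiff_const.mul (hsp i).lap.smooth, fun j x => by simp only [(hsp i).lap.per j x]⟩
    have s2 : SP (H459R3.NS.conv (fun i y => u s y i) i) := H459R3.NS.sp_conv hsp i
    have s3 : SP (fun x => ν * H459R3.NS.lap (fun y => u s y i) x - H459R3.NS.conv (fun i y => u s y i) i x) :=
      ⟨s1.smooth.sub s2.smooth, fun j x => by simp only [s1.per j x, s2.per j x]⟩
    have f0 : ∀ j, fj 0 j = 0 := fun j => by simp [fj]
    rw [e2, fr_sub s3 ((h.sp_p hI).pd i), fr_sub s1 s2, fr_smul, fr_lap (hsp i), fr_conv hsp (h.divfree s hI),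
      H459R3.NS.fr_pd (h.sp_p hI), H459R3.NS.D]
    simp [f0, sq_zero]
  rcases eq_or_lt_of_le ht.1 with h0 | h0
  · rw [← h0]
  have hcI : ContinuousOn (fun s => fc (u s) 0 i) (Icc 0 t) := hc.mono fun s hs => ⟨hs.1, hs.2.trans_lt ht.2⟩
  have key := constant_of_has_deriv_right_zero hcI fun s hs => ?_
  · exact key t ⟨h0.le, le_rfl⟩
  · rcases eq_or_lt_of_le hs.1 with h1 | h1
    · subst h1
      -- right derivative at zero
      have hderiv : HasDerivWithinAt (fun s => fc (u s) 0 i) 0 (Ici 0) 0 := by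
        refine hasDerivWithinAt_Ici_of_tendsto_deriv (s := Ioo 0 t) (fun x hx => ?_) ?_ ?_ ?_
        · exact (hd x ⟨hx.1, hx.2.trans ht.2⟩).differentiableAt.differentiableWithinAt
        · exact (hcI 0 ⟨le_rfl, h0.le⟩).mono Ioo_subset_Icc_self
        · exact Ioo_mem_nhdsGT h0
        · refine (tendsto_const_nhds (x := (0 : ℂ))).congr' ?_
          filter_upwards [Ioo_mem_nhdsGT h0] with x hx
          exact ((hd x ⟨hx.1, hx.2.trans ht.2⟩).deriv).symm
      exact hderiv
    · exact (hd s ⟨h1, hs.2.trans ht.2⟩).hasDerivWithinAt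

end

end Pool.Agent.H356R3.NS.X
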