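import Pool.Agent.H3NX.Gal

set_option autoImplicit false
set_option maxHeartbeats 4000000
set_option synthInstance.maxHeartbeats 400000

open MeasureTheory Set Filter Topology
open scoped ENNReal NNReal ContDiff

namespace Pool.Agent.H356R3.NS.X

open Pool.Agent.H3NS
open H459R3.NS (fr ee SP IsSol cube)

/-- removal of the zero mode -/
noncomputable def nz (x : K → C3) : K → C3 := fun k => if k = 0 then 0 else x k

lemma Bf_split {x : K → C3} (hx : SN x) {k : K} (hk : k ≠ 0) (hdiv : ∑ j, (k j : ℂ) * x k j = 0) (i : Fin 3) :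
    Bf x x k i = Bf (nz x) (nz x) k i - (2 * Real.pi * Complex.I * ∑ j, (k j : ℂ) * x 0 j) * x k i := by
  have hn : SN (nz x) := by
    refine Summable.of_nonneg_of_le (fun _ => norm_nonneg _) (fun l => ?_) hx
    unfold nz
    split_ifs with h
    · rw [norm_zero]; exact norm_nonneg _
    · exact le_rfl
  have hcv : ∀ j m, cv x x k j m = cv (nz x) (nz x) k j m + (x 0 j * x k m + x k j * x 0 m) := by
    intro j m
    have hs : Summable fun l => nz x l j * nz x (k - l) m := by
      have h1 : Summable fun l => ‖nz x l‖ * (∑' l', ‖nz x l'‖) := hn.mul_right _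
      refine Summable.of_norm_bounded h1 fun l => ?_
      rw [norm_mul]
      refine mul_le_mul (norm_le_pi_norm _ j) ?_ (norm_nonneg _) (norm_nonneg _)
      exact (norm_le_pi_norm _ m).trans (hn.le_tsum _ fun _ _ => norm_nonneg _)
    have h0 : Summable fun l : K => if l = 0 then x 0 j * x k m else 0 :=
      summable_of_ne_finset_zero (s := {0}) fun l hl => if_neg (by simpa using hl)
    have hk' : Summable fun l : K => if l = k then x k j * x 0 m else 0 :=
      summable_of_ne_finset_zero (s := {k}) fun l hl => if_neg (by simpa using hl)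
    have e : ∀ l, x l j * x (k - l) m = nz x l j * nz x (k - l) m
        + ((if l = 0 then x 0 j * x k m else 0) + (if l = k then x k j * x 0 m else 0)) := by
      intro l
      unfold nz
      by_cases h1 : l = 0
      · subst h1
        have hk0 : ¬ ((0 : K) = k) := fun h => hk h.symm
        rw [sub_zero]
        simp [hk0]
      · by_cases h2 : l = k
        · subst h2
          rw [if_neg h1, if_neg h1, if_pos rfl, sub_self, if_pos rfl]
          simp
        · have h3 : k - l ≠ 0 := fun h => h2 (sub_eq_zero.1 h).symm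
          rw [if_neg h1, if_neg h1, if_neg h2, if_neg h3]
          simp
    unfold cv
    simp only [e]
    rw [hs.tsum_add (h0.add hk'), h0.tsum_add hk', tsum_ite_eq, tsum_ite_eq]
  have hsq : ((sq k : ℝ) : ℂ) ≠ 0 := by exact_mod_cast (sq_pos hk).ne'
  unfold Bf
  simp only [hcv, mul_add, Finset.sum_add_distrib]
  have e1 : ∑ j, ∑ m, coef k i j m * (x 0 j * x k m)
      = -((2 * Real.pi * Complex.I * ∑ j, (k j : ℂ) * x 0 j) * x k i) := by
    have h1 : ∀ j, ∑ m, coef k i j m * (x 0 j * x k m) = -(2 * Real.pi * Complex.I) * (k j : ℂ) * x 0 j * x k i := by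
      intro j
      have h2 : ∀ m, coef k i j m * (x 0 j * x k m)
          = -(2 * Real.pi * Complex.I) * (k j : ℂ) * x 0 j * (if m = i then x k m else 0)
            + (2 * Real.pi * Complex.I) * (k j : ℂ) * x 0 j * (k i : ℂ) / ((sq k : ℝ) : ℂ) * ((k m : ℂ) * x k m) := by
        intro m
        unfold coef
        split_ifs <;> ring
      simp only [h2]
      rw [Finset.sum_add_distrib, ← Finset.mul_sum, ← Finset.mul_sum, hdiv, mul_zero, add_zero]
      congr 1
      simp
    simp only [h1]
    rw [Finset.mul_sum, Finset.sum_mul, ← Finset.sum_neg_distrib]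
    exact Finset.sum_congr rfl fun j _ => by ring
  have e2 : ∑ j, ∑ m, coef k i j m * (x k j * x 0 m) = 0 := by
    rw [Finset.sum_comm]
    refine Finset.sum_eq_zero fun m _ => ?_
    have h2 : ∀ j, coef k i j m * (x k j * x 0 m)
        = -(2 * Real.pi * Complex.I) * ((if m = i then 1 else 0) - (k i : ℂ) * (k m : ℂ) / ((sq k : ℝ) : ℂ)) * x 0 m
          * ((k j : ℂ) * x k j) := by
      intro j
      unfold coef
      ring
    simp only [h2]
    rw [← Finset.mul_sum, hdiv, mul_zero]
  rw [e1, e2, add_zero, sub_eq_add_neg]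

lemma Bf_ph {x : K → C3} (m : E3) (t : ℝ) (k : K) : Bf (ph m t x) (ph m t x) k = ph m t (Bf x x) k := by
  funext i
  have hcv : ∀ j l, cv (ph m t x) (ph m t x) k j l = cv x x k j l * ex k (-(t • m)) := by
    intro j l
    unfold cv ph
    rw [← tsum_mul_right]
    refine tsum_congr fun k' => ?_
    have : ex k (-(t • m)) = ex k' (-(t • m)) * ex (k - k') (-(t • m)) := by
      rw [← ex_add, add_sub_cancel]
    rw [this]
    ring
  unfold Bf
  simp only [hcv]
  show _ = (∑ j, ∑ l, coef k i j l * cv x x k j l) * ex k (-(t • m))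
  rw [Finset.sum_mul]
  refine Finset.sum_congr rfl fun j _ => ?_
  rw [Finset.sum_mul]
  exact Finset.sum_congr rfl fun l _ => by ring

/-- Duhamel's formula from the differential equation. -/
lemma eqn_of_deriv {c : ℝ} {y G : Fam} (hy : CF y) (hG : CF G)
    (hd : ∀ k t, 0 < t → HasDerivAt (y k) (-(c * sq k) • y k t + G k t) t) (h0 : ∀ k t, t ≤ 0 → y k t = y k 0) :
    Eqn c (at' y 0) G y := by
  intro k t
  rcases le_total t 0 with ht | ht
  · rw [h0 k t ht, max_eq_right ht, Duh_eq, max_eq_right ht]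
    simp [at']
  rw [max_eq_left ht]
  have h1 : ∫ s in (0 : ℝ)..t, Real.exp (c * sq k * s) • G k s
      = Real.exp (c * sq k * t) • y k t - Real.exp (c * sq k * 0) • y k 0 := by
    refine intervalIntegral.integral_eq_sub_of_hasDerivAt_of_le (f := fun s => Real.exp (c * sq k * s) • y k s)
      ht ?_ (fun s hs => ?_) ?_
    · have := hy k
      exact (by fun_prop : Continuous fun s => Real.exp (c * sq k * s) • y k s).continuousOn
    · have h2 : HasDerivAt (fun s => Real.exp (c * sq k * s)) (Real.exp (c * sq k * s) * (c * sq k)) s := by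
        have : HasDerivAt (fun s : ℝ => c * sq k * s) (c * sq k) s := by
          simpa using (hasDerivAt_id' s).const_mul (c * sq k)
        exact this.exp
      have h3 := h2.smul (hd k s hs.1)
      refine h3.congr_deriv ?_
      rw [smul_add, smul_smul]
      have e : Real.exp (c * sq k * s) * -(c * sq k) = -(Real.exp (c * sq k * s) * (c * sq k)) := by ring
      rw [e, neg_smul]
      abel
    · exact (cont_inner hG c k).intervalIntegrable _ _
  rw [Duh_eq, max_eq_left ht, h1, smul_sub, smul_smul, smul_smul, ← Real.exp_add, ← Real.exp_add]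
  simp [at']

section
variable {ν : ℝ} {u : ℝ → R3 → R3} {p : ℝ → R3 → ℝ}

/-- a global smooth periodic solution -/
def Glob (ν : ℝ) (u : ℝ → R3 → R3) (p : ℝ → R3 → ℝ) : Prop := ∀ T : ℝ, IsSol ν T u p

/-- the coefficients in the moving frame -/
noncomputable def yv (m : E3) (u : ℝ → R3 → R3) : Fam := fun k t =>
  ph m (-(max t 0)) (nz (fc (u (max t 0)))) k

lemma norm_ph (m : E3) (t : ℝ) (x : K → C3) (k : K) : ‖ph m t x k‖ = ‖x k‖ := by
  have := enorm_ph m t x k
  rw [← ofReal_norm, ← ofReal_norm] at this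
  exact (ENNReal.ofReal_eq_ofReal_iff (norm_nonneg _) (norm_nonneg _)).1 this

lemma yv_zero (m : E3) (u : ℝ → R3 → R3) (t : ℝ) : yv m u 0 t = 0 := by
  funext i
  simp [yv, ph, nz]

lemma yv_sym (m : E3) (u : ℝ → R3 → R3) : SymF (yv m u) := by
  intro t k i
  show nz _ (-k) i * ex (-k) _ = star (nz _ k i * ex k _)
  unfold nz
  by_cases hk : k = 0
  · subst hk; simp
  · rw [if_neg hk, if_neg (neg_ne_zero.2 hk), fc_sym, ex_neg, star_mul']

lemma yv_bound (h : Glob ν u p) (m : E3) (T : ℝ) (n : ℕ) : ∃ C : ℝ, 0 ≤ C ∧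
    ∀ t ≤ T, ∀ k, ‖yv m u k t‖ ≤ C * (1 / nk k) ^ n := by
  obtain ⟨C, hC, hb⟩ := fc_bound (h (max T 0 + 1)) (show max T 0 < max T 0 + 1 by linarith) n
  refine ⟨C, hC, fun t ht k => ?_⟩
  show ‖ph m _ _ k‖ ≤ _
  rw [norm_ph]
  unfold nz
  by_cases hk : k = 0
  · subst hk
    rw [if_pos rfl, norm_zero, nk_zero]
    positivity
  · rw [if_neg hk]
    have hn := nk_pos hk
    have h1 := hb (max t 0) ⟨le_max_right _ _, max_le_max ht le_rfl⟩ k
    rw [one_div, inv_pow, ← div_eq_mul_inv, le_div_iff₀ (by positivity)]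
    linarith

lemma yv_sn (h : Glob ν u p) (m : E3) (t : ℝ) : SN (at' (yv m u) t) := by
  obtain ⟨C, hC, hb⟩ := yv_bound h m t 4
  exact Summable.of_nonneg_of_le (fun _ => norm_nonneg _) (fun k => hb t le_rfl k) (summ_nk4.mul_left C)

lemma fc_sn (h : Glob ν u p) (t : ℝ) (ht : 0 ≤ t) : SN (fc (u t)) := by
  have h1 := yv_sn h 0 t
  have h2 : Summable fun k : K => if k = 0 then ‖fc (u t) 0‖ else 0 :=
    summable_of_ne_finset_zero (s := {0}) fun l hl => if_neg (by simpa using hl)
  refine Summable.of_nonneg_of_le (fun _ => norm_nonneg _) (fun k => ?_) (Summable.add h1 h2)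
  by_cases hk : k = 0
  · subst hk
    rw [if_pos rfl]
    have := norm_nonneg (at' (yv 0 u) t 0)
    linarith
  · rw [if_neg hk, add_zero]
    show _ ≤ ‖ph 0 _ _ k‖
    rw [norm_ph]
    unfold nz
    rw [if_neg hk, max_eq_left ht]

lemma yv_cf (h : Glob ν u p) (m : E3) : CF (yv m u) := by
  intro k
  refine continuous_pi fun i => ?_
  show Continuous fun t => nz (fc (u (max t 0))) k i * ex k (-((-(max t 0)) • m))
  have h2 : Continuous fun t : ℝ => ex k (-((-(max t 0)) • m)) := (ex_cont k).comp (by fun_prop)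
  refine Continuous.mul ?_ h2
  unfold nz
  by_cases hk : k = 0
  · simp only [if_pos hk]
    exact continuous_const
  · simp only [if_neg hk]
    rw [continuous_iff_continuousAt]
    intro t
    have h1 := fc_contOn (h (max t 0 + 1)) k i
    have h3 : ContinuousOn (fun s : ℝ => fc (u (max s 0)) k i) (Iio (max t 0 + 1)) := by
      refine h1.comp (by fun_prop) fun s hs => ⟨le_max_right _ _, ?_⟩
      have : s < max t 0 + 1 := hs
      exact max_lt this (by have := le_max_right t 0; linarith)
    exact h3.continuousAt (Iio_mem_nhds (by have := le_max_left t 0; linarith))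

lemma ex_deriv (k : K) (m : E3) (t : ℝ) :
    HasDerivAt (fun s : ℝ => ex k (s • m)) ((2 * Real.pi * Complex.I * ∑ j, (k j : ℂ) * (m j : ℂ)) * ex k (t • m)) t := by
  have h1 : ∀ s : ℝ, (2 * Real.pi * Complex.I * ∑ j, (k j : ℂ) * (((s • m) j : ℝ) : ℂ))
      = (2 * Real.pi * Complex.I * ∑ j, (k j : ℂ) * (m j : ℂ)) * (s : ℂ) := by
    intro s
    rw [mul_assoc (2 * Real.pi * Complex.I), Finset.sum_mul]
    congr 1
    refine Finset.sum_congr rfl fun j _ => ?_
    simp only [Pi.smul_apply, smul_eq_mul]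
    push_cast
    ring
  unfold ex
  simp only [h1]
  have h2 : HasDerivAt (fun s : ℝ => (2 * Real.pi * Complex.I * ∑ j, (k j : ℂ) * (m j : ℂ)) * (s : ℂ))
      (2 * Real.pi * Complex.I * ∑ j, (k j : ℂ) * (m j : ℂ)) t := by
    have := (Complex.ofRealCLM.hasDerivAt (x := t)).const_mul (2 * Real.pi * Complex.I * ∑ j, (k j : ℂ) * (m j : ℂ))
    simpa using this
  have h3 := h2.cexp
  refine h3.congr_deriv ?_
  ring

lemma yv_deriv (h : Glob ν u p) {m : E3} (hm : ∀ i, fc (u 0) 0 i = (m i : ℂ)) (k : K) {t : ℝ} (ht : 0 < t) :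
    HasDerivAt (yv m u k) (-((4 * Real.pi ^ 2 * ν) * sq k) • yv m u k t + Bt (yv m u) k t) t := by
  have hB : Bt (yv m u) k t = ph m (-t) (Bf (nz (fc (u t))) (nz (fc (u t)))) k := by
    have e : at' (yv m u) t = ph m (-t) (nz (fc (u t))) := by
      funext l
      simp only [at', yv, max_eq_left ht.le]
    show Bf (at' (yv m u) t) (at' (yv m u) t) k = _
    rw [e, Bf_ph]
  rw [hasDerivAt_pi]
  intro i
  by_cases hk : k = 0
  · subst hk
    have e1 : (fun s => yv m u 0 s i) = fun _ => 0 := by funext s; rw [yv_zero]; rfl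
    have e2 : (-((4 * Real.pi ^ 2 * ν) * sq 0) • yv m u 0 t + Bt (yv m u) 0 t) i = 0 := by
      rw [yv_zero, smul_zero, zero_add]
      show Bf _ _ 0 i = 0
      simp [Bf, coef]
    rw [e1, e2]
    exact hasDerivAt_const _ _
  have hT : t ∈ Ioo 0 (t + 1) := ⟨ht, by linarith⟩
  have hI : t ∈ Ico 0 (t + 1) := ⟨ht.le, by linarith⟩
  have hs := h (t + 1)
  have h1 := ode_coef hs hT hk i
  have hdv : ∑ j, (k j : ℂ) * fc (u t) k j = 0 := by
    simp only [fc_fr]
    exact H459R3.NS.fr_div (v := fun i y => u t y i) (fun i => hs.sp hI i) (hs.divfree t hI) k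
  have hmm : ∀ j, fc (u t) 0 j = (m j : ℂ) := fun j => by rw [mean_const hs hI, hm]
  rw [Bf_split (fc_sn h t ht.le) hk hdv i] at h1
  simp only [hmm] at h1
  have h2 := h1.mul (ex_deriv k m t)
  have e1 : (fun s => yv m u k s i) =ᶠ[𝓝 t] (fun s => fc (u s) k i) * fun s : ℝ => ex k (s • m) := by
    filter_upwards [lt_mem_nhds ht] with s hs'
    show nz (fc (u (max s 0))) k i * ex k (-((-(max s 0)) • m)) = fc (u s) k i * ex k (s • m)
    rw [max_eq_left hs'.le]
    unfold nz
    rw [if_neg hk, neg_smul, neg_neg]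
  refine (h2.congr_of_eventuallyEq e1).congr_deriv ?_
  rw [hB]
  show _ = (-((4 * Real.pi ^ 2 * ν) * sq k) • yv m u k t) i + ph m (-t) (Bf (nz (fc (u t))) (nz (fc (u t)))) k i
  have e3 : yv m u k t i = fc (u t) k i * ex k (t • m) := by
    show nz (fc (u (max t 0))) k i * ex k (-((-(max t 0)) • m)) = _
    rw [max_eq_left ht.le]
    unfold nz
    rw [if_neg hk, neg_smul, neg_neg]
  have e4 : ph m (-t) (Bf (nz (fc (u t))) (nz (fc (u t)))) k i
      = Bf (nz (fc (u t))) (nz (fc (u t))) k i * ex k (t • m) := by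
    show _ * ex k (-((-t) • m)) = _
    rw [neg_smul, neg_neg]
  rw [Pi.smul_apply, e3, e4, Complex.real_smul]
  push_cast
  ring

/-- the nonlinear term is continuous -/
lemma Bt_yv_cf (h : Glob ν u p) (m : E3) : CF (Bt (yv m u)) := by
  intro k
  rw [continuous_iff_continuousAt]
  intro t
  obtain ⟨z, hz⟩ : ∃ z : Fam, z = fun k s => yv m u k (min s (t + 1)) := ⟨_, rfl⟩
  have hzc : CF z := by
    intro l
    rw [hz]
    exact (yv_cf h m l).comp (by fun_prop)
  have hzd : Dom z := by
    obtain ⟨C, hC, hb⟩ := yv_bound h m (t + 1) 4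
    refine ⟨fun k => C * (1 / nk k) ^ 4, summ_nk4.mul_left C, fun k s => ?_⟩
    rw [hz]
    exact hb _ (min_le_right _ _) k
  have h1 := (Bt_cont hzc hzd k).continuousAt (x := t)
  refine h1.congr ?_
  filter_upwards [gt_mem_nhds (show t < t + 1 by linarith)] with s hs
  have e : at' z s = at' (yv m u) s := by
    funext l
    rw [hz]
    simp only [at']
    rw [min_eq_left (le_of_lt hs)]
  show Bf (at' z s) (at' z s) k = Bf (at' (yv m u) s) (at' (yv m u) s) k
  rw [e]

lemma yv_eqn (h : Glob ν u p) {m : E3} (hm : ∀ i, fc (u 0) 0 i = (m i : ℂ)) :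
    Eqn (4 * Real.pi ^ 2 * ν) (at' (yv m u) 0) (Bt (yv m u)) (yv m u) :=
  eqn_of_deriv (yv_cf h m) (Bt_yv_cf h m) (fun k t ht => yv_deriv h hm k ht) fun k t ht => by
    simp only [yv, max_eq_right ht, max_self]

lemma yv_div (h : Glob ν u p) (m : E3) (k : K) (t : ℝ) : dt k (yv m u k t) = 0 := by
  have hI : max t 0 ∈ Ico 0 (max t 0 + 1) := ⟨le_max_right _ _, by linarith⟩
  have hs := h (max t 0 + 1)
  have hdv : ∑ j, (k j : ℂ) * fc (u (max t 0)) k j = 0 := by
    simp only [fc_fr]
    exact H459R3.NS.fr_div (v := fun i y => u (max t 0) y i) (fun i => hs.sp hI i) (hs.divfree _ hI) k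
  show ∑ j, (k j : ℂ) * (nz (fc (u (max t 0))) k j * ex k _) = 0
  unfold nz
  by_cases hk : k = 0
  · subst hk; simp
  · simp only [if_neg hk]
    have : ∀ z : ℂ, ∑ j, (k j : ℂ) * (fc (u (max t 0)) k j * z) = (∑ j, (k j : ℂ) * fc (u (max t 0)) k j) * z := by
      intro z
      rw [Finset.sum_mul]
      exact Finset.sum_congr rfl fun j _ => by ring
    rw [this, hdv, zero_mul]

/-- the coefficients of `u` from those in the moving frame -/
lemma cof_yv (h : Glob ν u p) {m : E3} (hm : ∀ i, fc (u 0) 0 i = (m i : ℂ)) {t : ℝ} (ht : 0 ≤ t) :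
    cof m (yv m u) t = fc (u t) := by
  funext k i
  unfold cof
  by_cases hk : k = 0
  · subst hk
    rw [if_pos rfl, mean_const (h (t + 1)) ⟨ht, by linarith⟩, hm]
  · rw [if_neg hk]
    show nz (fc (u (max t 0))) k i * ex k (-((-(max t 0)) • m)) * ex k (-(t • m)) = _
    rw [max_eq_left ht]
    unfold nz
    rw [if_neg hk, mul_assoc, neg_smul, neg_neg]
    have : ex k (t • m) * ex k (-(t • m)) = 1 := by
      have h1 := ex_sub k (t • m) (t • m)
      rw [sub_self] at h1
      have h2 : ex k (0 : E3) = 1 := by simp [ex]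
      rw [h2] at h1
      rw [mul_comm, ← h1]
    rw [this, mul_one]

/-- the velocity from the coefficients in the moving frame -/
lemma fld_yv (h : Glob ν u p) {m : E3} (hm : ∀ i, fc (u 0) 0 i = (m i : ℂ)) {t : ℝ} (ht : 0 ≤ t) :
    fld m (yv m u) t = u t := by
  have hs := h (t + 1)
  have hI : t ∈ Ico 0 (t + 1) := ⟨ht, by linarith⟩
  -- both have the same Fourier coefficients
  have e1 := fc_fld (yv_sn h m t) (yv_sym m u t) (yv_zero m u t) m
  rw [cof_yv h hm ht] at e1
  funext x i
  have hi := H459R3.NS.S_fr (hs.sp hI i) x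
  unfold H459R3.NS.S at hi
  have e2 : ∀ k, fr (fun y => u t y i) k * ee k x = fc (u t) k i * ex k x := fun k => by rw [fc_fr, ee_ex]
  simp only [e2] at hi
  have hsn := yv_sn h m t
  have hs1 : Summable fun k => yv m u k t i * ex k (x - t • m) := by
    refine Summable.of_norm_bounded hsn fun k => ?_
    rw [norm_mul, norm_ex, mul_one]
    exact norm_le_pi_norm _ i
  have hs2 : Summable fun k : K => (if k = 0 then (m i : ℂ) else 0) := by
    refine summable_of_ne_finset_zero (s := {0}) fun k hk => ?_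
    rw [if_neg (by simpa using hk)]
  have e4 : ∀ k, fc (u t) k i * ex k x = (if k = 0 then (m i : ℂ) else 0) + yv m u k t i * ex k (x - t • m) := by
    intro k
    rw [← cof_yv h hm ht]
    unfold cof
    by_cases h : k = 0
    · subst h
      rw [yv_zero]
      simp [ex]
    · rw [if_neg h, if_neg h, zero_add]
      rw [ex_sub]
      ring
  simp only [e4] at hi
  rw [hs2.tsum_add hs1, tsum_ite_eq] at hi
  have h5 := congrArg Complex.re hi
  rw [Complex.add_re, Complex.ofReal_re, Complex.ofReal_re] at h5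
  exact h5

end

end Pool.Agent.H356R3.NS.X
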