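import Mathlib

set_option autoImplicit false
set_option maxHeartbeats 4000000
set_option synthInstance.maxHeartbeats 400000

/-!
Regular gauges: `g` is nondecreasing, of moderate growth, and `∫ g(t)² dt / t = ∞` near zero.
-/

open MeasureTheory Set Filter Topology
open scoped ENNReal NNReal

namespace Pool.Agent.H356R3.NS.X

/-- regular gauges with a divergent integral -/
def Gau (g : ℝ → ℝ) : Prop := ∃ t0 : ℝ, 0 < t0 ∧ (∀ t, 0 < t → t ≤ t0 → 0 < g t) ∧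
  (∀ s t, 0 < s → s ≤ t → t ≤ t0 → g s ≤ g t ∧ g t ≤ √(t / s) * g s) ∧
  ∀ Λ i0 : ℕ, 2 ≤ Λ → 1 / ((Λ : ℝ) ^ i0) ^ 2 ≤ t0 → ¬ Summable fun j : ℕ => g (1 / ((Λ : ℝ) ^ (i0 + j)) ^ 2) ^ 2

lemma Gau.half {g : ℝ → ℝ} (h : Gau g) : Gau fun t => g t / 2 := by
  obtain ⟨t0, h0, h3, h4, h5⟩ := h
  refine ⟨t0, h0, fun t ht ht1 => half_pos (h3 t ht ht1), fun s t hs hst ht => ?_, fun Λ i0 hΛ hi => ?_⟩
  · obtain ⟨a1, a2⟩ := h4 s t hs hst ht
    exact ⟨by linarith, by linarith⟩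
  · have e1 : (fun j : ℕ => (g (1 / ((Λ : ℝ) ^ (i0 + j)) ^ 2) / 2) ^ 2)
        = fun j : ℕ => (1 / 4) * g (1 / ((Λ : ℝ) ^ (i0 + j)) ^ 2) ^ 2 := by
      funext j
      ring
    rw [e1, summable_mul_left_iff (by norm_num)]
    exact h5 Λ i0 hΛ hi

lemma gau_one : Gau fun _ => 1 := by
  refine ⟨1, one_pos, fun _ _ _ => one_pos, fun s t hs hst _ => ⟨le_rfl, ?_⟩, fun Λ i0 _ _ => ?_⟩
  · rw [mul_one, Real.one_le_sqrt, one_le_div hs]
    exact hst
  · simp only [one_pow, summable_const_iff]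
    norm_num

lemma ev_small (t0 : ℝ) (h0 : 0 < t0) : ∀ᶠ t in 𝓝[>] (0 : ℝ), t ≤ t0 := by
  filter_upwards [Ioo_mem_nhdsGT h0] with t ht
  exact ht.2.le

/-- A regular gauge dominates `√t`. -/
lemma Gau.sqrt_le {g : ℝ → ℝ} (h : Gau g) (M : ℝ) : ∀ᶠ t in 𝓝[>] (0 : ℝ), √t * M ≤ g t := by
  obtain ⟨t0, h0, h3, h4, h5⟩ := h
  by_cases hex : ∃ t1, 0 < t1 ∧ t1 ≤ t0 ∧ √t1 * M ≤ g t1
  · obtain ⟨t1, ht1, ht10, hM⟩ := hex
    filter_upwards [Ioo_mem_nhdsGT ht1] with t ht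
    have htp : 0 < t := ht.1
    have h6 := (h4 t t1 htp ht.2.le ht10).2
    have hst : 0 < √t := Real.sqrt_pos.2 htp
    have hst1 : 0 < √t1 := Real.sqrt_pos.2 ht1
    rw [Real.sqrt_div ht1.le, div_mul_eq_mul_div, le_div_iff₀ hst] at h6
    have h7 : √t1 * (√t * M) ≤ √t1 * g t := by
      calc √t1 * (√t * M) = (√t1 * M) * √t := by ring
        _ ≤ g t1 * √t := mul_le_mul_of_nonneg_right hM hst.le
        _ ≤ √t1 * g t := h6
    exact le_of_mul_le_mul_left h7 hst1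
  · exfalso
    push Not at hex
    obtain ⟨i0, hi0⟩ : ∃ i0 : ℕ, 1 / (((2 : ℕ) : ℝ) ^ i0) ^ 2 ≤ t0 := by
      obtain ⟨n, hn⟩ := exists_nat_gt (1 / t0)
      refine ⟨n, ?_⟩
      rw [div_le_iff₀ (by positivity)]
      rw [div_lt_iff₀ h0] at hn
      have e1 : (n : ℝ) ≤ ((2 : ℕ) : ℝ) ^ n := by exact_mod_cast (Nat.lt_two_pow_self (n := n)).le
      have e2 : (1 : ℝ) ≤ ((2 : ℕ) : ℝ) ^ n := one_le_pow₀ (by norm_num)
      have e3 : ((2 : ℕ) : ℝ) ^ n ≤ (((2 : ℕ) : ℝ) ^ n) ^ 2 := by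
        rw [pow_two]; exact le_mul_of_one_le_left (by positivity) e2
      have e4 : (n : ℝ) * t0 ≤ (((2 : ℕ) : ℝ) ^ n) ^ 2 * t0 := mul_le_mul_of_nonneg_right (e1.trans e3) h0.le
      linarith
    refine h5 2 i0 le_rfl hi0 ?_
    have hq : Summable fun j : ℕ => M ^ 2 * (1 / 4 : ℝ) ^ j :=
      (summable_geometric_of_lt_one (by norm_num) (by norm_num)).mul_left _
    refine Summable.of_nonneg_of_le (fun j => sq_nonneg _) (fun j => ?_) hq
    obtain ⟨τ, hτ⟩ : ∃ τ : ℝ, τ = 1 / (((2 : ℕ) : ℝ) ^ (i0 + j)) ^ 2 := ⟨_, rfl⟩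
    rw [← hτ]
    have hτ0 : 0 < τ := by rw [hτ]; positivity
    have hτ1 : τ ≤ t0 := by
      refine le_trans ?_ hi0
      rw [hτ]
      apply one_div_le_one_div_of_le (by positivity)
      apply pow_le_pow_left₀ (by positivity)
      exact pow_le_pow_right₀ (by norm_num) (by omega)
    have h6 := hex τ hτ0 hτ1
    have h7 := h3 τ hτ0 hτ1
    have h8 : g τ ^ 2 ≤ (√τ * M) ^ 2 := pow_le_pow_left₀ h7.le h6.le 2
    rw [mul_pow, Real.sq_sqrt hτ0.le] at h8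
    have h9 : τ ≤ (1 / 4) ^ j := by
      rw [hτ, one_div_pow]
      apply one_div_le_one_div_of_le (by positivity)
      have e1 : (4 : ℝ) ^ j = (((2 : ℕ) : ℝ) ^ j) ^ 2 := by
        rw [← pow_mul, mul_comm, pow_mul]; norm_num
      rw [e1]
      apply pow_le_pow_left₀ (by positivity)
      exact pow_le_pow_right₀ (by norm_num) (by omega)
    calc g τ ^ 2 ≤ τ * M ^ 2 := h8
      _ ≤ (1 / 4) ^ j * M ^ 2 := mul_le_mul_of_nonneg_right h9 (sq_nonneg _)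
      _ = _ := mul_comm _ _

/-- Gauges from rates. -/
lemma gau_of {m : ℝ → ℝ} {t0 : ℝ} (ht0 : 0 < t0) (hm : ∀ t ∈ Ioc 0 t0, 0 < m t)
    (h1 : MonotoneOn (fun t => √t * m t) (Ioc 0 t0)) (h2 : AntitoneOn m (Ioc 0 t0))
    (h3 : ∫⁻ t in Ioc 0 t0, ENNReal.ofReal (m t ^ 2) = ⊤) : Gau fun t => √t * m t := by
  refine ⟨t0, ht0, fun t ht ht1 =>
    mul_pos (Real.sqrt_pos.2 ht) (hm t ⟨ht, ht1⟩), fun s t hs hst ht => ⟨h1 ⟨hs, hst.trans ht⟩ ⟨hs.trans_le hst, ht⟩ hst, ?_⟩,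
    fun Λ i0 hΛ hi hsum => ?_⟩
  · have hss : 0 < √s := Real.sqrt_pos.2 hs
    have e2 : m t ≤ m s := h2 ⟨hs, hst.trans ht⟩ ⟨hs.trans_le hst, ht⟩ hst
    show √t * m t ≤ √(t / s) * (√s * m s)
    rw [Real.sqrt_div (hs.le.trans hst)]
    calc √t * m t ≤ √t * m s := mul_le_mul_of_nonneg_left e2 (Real.sqrt_nonneg _)
      _ = _ := by field_simp
  · -- the divergence
    have hΛ1 : (2 : ℝ) ≤ Λ := by exact_mod_cast hΛ
    have hΛ0 : (0 : ℝ) < Λ := by linarith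
    obtain ⟨τ, hτ⟩ : ∃ τ : ℕ → ℝ, τ = fun j : ℕ => 1 / ((Λ : ℝ) ^ (i0 + j)) ^ 2 := ⟨_, rfl⟩
    have hτj : ∀ j : ℕ, 1 / ((Λ : ℝ) ^ (i0 + j)) ^ 2 = τ j := fun j => by rw [hτ]
    have hτ0 : ∀ j, 0 < τ j := fun j => by rw [hτ]; positivity
    have hτs : ∀ j, τ j = (Λ : ℝ) ^ 2 * τ (j + 1) := fun j => by
      rw [hτ]
      simp only
      rw [← add_assoc]
      field_simp
      ring
    have hτa : Antitone τ := by
      refine antitone_nat_of_succ_le fun j => ?_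
      rw [hτs j]
      have : (1 : ℝ) ≤ (Λ : ℝ) ^ 2 := one_le_pow₀ (by linarith)
      exact le_mul_of_one_le_left (hτ0 _).le this
    have hτ00 : τ 0 ≤ t0 := by rw [hτ]; simpa using hi
    have hτlim : Tendsto τ atTop (𝓝 0) := by
      have e1 : ∀ j : ℕ, τ j ≤ (1 / 2 : ℝ) ^ j := by
        intro j
        rw [hτ]
        simp only
        rw [one_div_pow]
        apply one_div_le_one_div_of_le (by positivity)
        have e2 : (2 : ℝ) ^ j ≤ (Λ : ℝ) ^ (i0 + j) := by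
          calc (2 : ℝ) ^ j ≤ (Λ : ℝ) ^ j := pow_le_pow_left₀ (by norm_num) hΛ1 j
            _ ≤ (Λ : ℝ) ^ (i0 + j) := pow_le_pow_right₀ (by linarith) (by omega)
        have e3 : (1 : ℝ) ≤ (Λ : ℝ) ^ (i0 + j) := one_le_pow₀ (by linarith)
        nlinarith
      exact squeeze_zero (fun j => (hτ0 j).le) e1 (tendsto_pow_atTop_nhds_zero_of_lt_one (by norm_num) (by norm_num))
    simp only [hτj] at hsum
    obtain ⟨G, hG⟩ : ∃ G : ℕ → ℝ, G = fun j => (√(τ j) * m (τ j)) ^ 2 := ⟨_, rfl⟩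
    have hGs : Summable G := by rw [hG]; exact hsum
    have hG0 : ∀ j, 0 ≤ G j := fun j => by rw [hG]; positivity
    have hpt : ∀ j, ∀ t ∈ Ioc (τ (j + 1)) (τ j), m t ^ 2 ≤ G j / τ (j + 1) := by
      intro j t ht
      have htp : 0 < t := (hτ0 _).trans ht.1
      have htt : t ≤ t0 := ht.2.trans ((hτa (Nat.zero_le j)).trans hτ00)
      have e1 : √t * m t ≤ √(τ j) * m (τ j) := h1 ⟨htp, htt⟩ ⟨hτ0 j, (hτa (Nat.zero_le j)).trans hτ00⟩ ht.2
      have e2 : 0 ≤ √t * m t := mul_nonneg (Real.sqrt_nonneg _) (hm t ⟨htp, htt⟩).le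
      have e3 : (√t * m t) ^ 2 ≤ G j := by rw [hG]; exact pow_le_pow_left₀ e2 e1 2
      rw [mul_pow, Real.sq_sqrt htp.le] at e3
      rw [le_div_iff₀ (hτ0 _)]
      have e4 : m t ^ 2 * τ (j + 1) ≤ m t ^ 2 * t := mul_le_mul_of_nonneg_left ht.1.le (sq_nonneg _)
      linarith
    have hint : ∀ j, ∫⁻ t in Ioc (τ (j + 1)) (τ j), ENNReal.ofReal (m t ^ 2) ≤ ENNReal.ofReal (G j * (Λ : ℝ) ^ 2) := by
      intro j
      calc ∫⁻ t in Ioc (τ (j + 1)) (τ j), ENNReal.ofReal (m t ^ 2)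
          ≤ ∫⁻ _ in Ioc (τ (j + 1)) (τ j), ENNReal.ofReal (G j / τ (j + 1)) :=
            setLIntegral_mono' measurableSet_Ioc fun t ht => ENNReal.ofReal_le_ofReal (hpt j t ht)
        _ = ENNReal.ofReal (G j / τ (j + 1)) * ENNReal.ofReal (τ j - τ (j + 1)) := by
            rw [setLIntegral_const, Real.volume_Ioc]
        _ ≤ _ := by
            have hp := hτ0 (j + 1)
            have := hG0 j
            rw [← ENNReal.ofReal_mul (by positivity)]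
            apply ENNReal.ofReal_le_ofReal
            calc G j / τ (j + 1) * (τ j - τ (j + 1)) ≤ G j / τ (j + 1) * τ j :=
                  mul_le_mul_of_nonneg_left (by linarith) (by positivity)
              _ = _ := by rw [hτs j]; field_simp
    have hcov : Ioc 0 t0 ⊆ (⋃ j, Ioc (τ (j + 1)) (τ j)) ∪ Ioc (τ 0) t0 := by
      intro t ht
      rcases le_or_gt t (τ 0) with h5 | h5
      · left
        have hex : ∃ j, τ (j + 1) < t := by
          obtain ⟨j, hj⟩ := (hτlim.eventually (gt_mem_nhds ht.1)).exists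
          exact ⟨j, (hτa (Nat.le_succ j)).trans_lt hj⟩
        classical
        rw [mem_iUnion]
        refine ⟨Nat.find hex, Nat.find_spec hex, ?_⟩
        rcases Nat.eq_zero_or_pos (Nat.find hex) with h6 | h6
        · rw [h6]; exact h5
        · obtain ⟨n, hn⟩ : ∃ n, Nat.find hex = n + 1 := ⟨Nat.find hex - 1, by omega⟩
          have := Nat.find_min hex (m := n) (by omega)
          rw [hn]
          exact not_lt.1 this
      · exact Or.inr ⟨h5, ht.2⟩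
    have hfin : ∫⁻ t in Ioc 0 t0, ENNReal.ofReal (m t ^ 2) < ⊤ := by
      refine (lintegral_mono_set hcov).trans_lt ((lintegral_union_le _ _ _).trans_lt (ENNReal.add_lt_top.2 ⟨?_, ?_⟩))
      · refine (lintegral_iUnion_le _ _).trans_lt ((ENNReal.tsum_le_tsum hint).trans_lt ?_)
        rw [← ENNReal.ofReal_tsum_of_nonneg (fun j => mul_nonneg (hG0 j) (by positivity)) (hGs.mul_right _)]
        exact ENNReal.ofReal_lt_top
      · have hb0 : ∀ t ∈ Ioc (τ 0) t0, ENNReal.ofReal (m t ^ 2) ≤ ENNReal.ofReal ((√t0 * m t0) ^ 2 / τ 0) := by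
          intro t ht
          have htp : 0 < t := (hτ0 _).trans ht.1
          apply ENNReal.ofReal_le_ofReal
          have e1 : √t * m t ≤ √t0 * m t0 := h1 ⟨htp, ht.2⟩ ⟨ht0, le_rfl⟩ ht.2
          have e2 : 0 ≤ √t * m t := mul_nonneg (Real.sqrt_nonneg _) (hm t ⟨htp, ht.2⟩).le
          have e3 : (√t * m t) ^ 2 ≤ (√t0 * m t0) ^ 2 := pow_le_pow_left₀ e2 e1 2
          rw [le_div_iff₀ (hτ0 0)]
          have e4 : m t ^ 2 * τ 0 ≤ m t ^ 2 * t := mul_le_mul_of_nonneg_left ht.1.le (sq_nonneg _)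
          have e5 : (√t * m t) ^ 2 = m t ^ 2 * t := by rw [mul_pow, Real.sq_sqrt htp.le]; ring
          linarith
        refine (setLIntegral_mono' measurableSet_Ioc hb0).trans_lt ?_
        rw [setLIntegral_const, Real.volume_Ioc]
        exact ENNReal.mul_lt_top ENNReal.ofReal_lt_top ENNReal.ofReal_lt_top
    exact absurd h3 hfin.ne

end Pool.Agent.H356R3.NS.X
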