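import Pool.Agent.H3NX.StepK

set_option autoImplicit false
set_option maxHeartbeats 4000000
set_option synthInstance.maxHeartbeats 400000

open MeasureTheory Set Filter Topology
open scoped ENNReal NNReal

namespace Pool.Agent.H356R3.NS.X

open Pool.Agent.H356R3.NS.H3

variable {q cc η : K}

/-- A correction `W` of the datum `V + X` and the new solution. -/
structure NearX (χ : ℝ → ℝ) (c r p dl κ : ℝ) (K0 : ℕ) (ε : ℝ) (V : K → C3) (u : Fam) (β : K → ℝ)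
    (X W : K → C3) : Prop where
  fin : (Function.support W).Finite
  cut : ∀ k : K, (∀ i, |k i| ≤ K0) → W k = 0
  small : crit r W ≤ ENNReal.ofReal ε
  div : ∀ k, dt k (W k) = 0
  sym : Sym W
  good : ∃ a : ℝ, 0 < a ∧ ∃ u' : Fam, SolX χ c a (V + (X + W)) u' ∧ LNd dl (u' - u) ≤ ENNReal.ofReal ε ∧
    LP p (u' - u) ≤ ENNReal.ofReal ε ∧
    (∀ t, dl ≤ t → NW (Wa 0) (at' (u' - u) t) ≤ ENNReal.ofReal ε) ∧
    (∀ k, ∫⁻ t in Ioi 0, ‖(Bx χ u' - Bx χ u) k t‖ₑ ≤ ENNReal.ofReal (β k + nk k * ε)) ∧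
    (∀ t, 0 < t → KA (u' - u) t ≤ ENNReal.ofReal (κ + ε)) ∧
    ∃ E : Fam, (∀ k t, ‖E k t‖ ≤ β k) ∧ ∀ t, NW (Wm 0) (at' (u' - u - Ht c W - E) t) ≤ ENNReal.ofReal ε

lemma nearX_zero {χ : ℝ → ℝ} {c r p dl κ a0 : ℝ} (hr : 0 < r) (hp : 0 < p) (K0 : ℕ) {ε : ℝ} {V : K → C3}
    {u : Fam} (ha0 : 0 < a0) (hS : SolX χ c a0 V u) :
    ∃ W, NearX χ c r p dl κ K0 ε V u (fun _ => 0) 0 W := by
  have h0 : ∀ W : K → ℝ≥0∞, ∀ t, NW W (at' (0 : Fam) t) = 0 := fun W t => NW_zero _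
  refine ⟨0, by simp, fun _ _ => rfl, by rw [crit_zero hr]; exact zero_le, fun k => by simp [dt],
    fun k i => by simp, a0, ha0, u, ?_, ?_, ?_, ?_, fun k => ?_, fun t _ => ?_, 0, fun k t => by simp, fun t => ?_⟩
  · rw [add_zero, add_zero]; exact hS
  · have : LNd dl (u - u) = 0 := by
      unfold LNd LN
      simp [h0]
    rw [this]; exact zero_le
  · have : LP p (u - u) = 0 := by
      unfold LP
      simp [h0, hp]
    rw [this]; exact zero_le
  · intro t _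
    rw [sub_self, h0]; exact zero_le
  · rw [sub_self]
    simp
  · rw [sub_self, KA_zero]; exact zero_le
  · have : u - u - Ht c 0 - (0 : Fam) = 0 := by
      funext k t
      simp [Ht]
    rw [this, h0]; exact zero_le

lemma NearX.mono {χ : ℝ → ℝ} {c r p dl κ ε ε' : ℝ} {K0 : ℕ} {V : K → C3} {u : Fam} {β β' : K → ℝ}
    {X W : K → C3} (hε : ε ≤ ε') (hβ : ∀ k, β k ≤ β' k)
    (h : NearX χ c r p dl κ K0 ε V u β X W) : NearX χ c r p dl κ K0 ε' V u β' X W := by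
  refine ⟨h.fin, h.cut, h.small.trans (ENNReal.ofReal_le_ofReal hε), h.div, h.sym, ?_⟩
  obtain ⟨a, ha, u', hu, h1, h2, h3, h5, h6, E, hE, h4⟩ := h.good
  exact ⟨a, ha, u', hu, h1.trans (ENNReal.ofReal_le_ofReal hε), h2.trans (ENNReal.ofReal_le_ofReal hε),
    fun t ht => (h3 t ht).trans (ENNReal.ofReal_le_ofReal hε), fun k => (h5 k).trans (ENNReal.ofReal_le_ofReal
      (add_le_add (hβ k) (mul_le_mul_of_nonneg_left hε (nk_nonneg k)))),
    fun t ht => (h6 t ht).trans (ENNReal.ofReal_le_ofReal (by linarith)), E, fun k t => (hE k t).trans (hβ k),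
    fun t => (h4 t).trans (ENNReal.ofReal_le_ofReal hε)⟩

lemma LNd_anti {δ δ' : ℝ} (h : δ ≤ δ') (x : Fam) : LNd δ' x ≤ LNd δ x := by
  unfold LNd
  refine LN_mono fun t _ => ?_
  by_cases ht : t ∈ Ioi δ'
  · rw [indicator_of_mem ht, indicator_of_mem (show t ∈ Ioi δ from lt_of_le_of_lt h ht)]
  · rw [indicator_of_notMem ht]; exact zero_le

lemma nearX_add1 {χ : ℝ → ℝ} {h : ℝ} (hχ : CutH χ h) {c r p dl κ δ : ℝ} (hc : 0 < c) (hr : 1 ≤ r)
    (hp1 : 1 ≤ p) (hp2 : p < 2) (hdl : 0 < dl) (hδ : 0 ≤ δ) (hκ : 0 < κ)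
    (hκ2 : √2 / √c * C0 * (2 * κ) ≤ 1 / 8)
    {K0 : ℕ} {V : K → C3} {u : Fam} (hu : CF u) {Mu : ℝ} (hMu : 0 ≤ Mu)
    (hub : ∀ t, NW (Wa 0) (at' u t) ≤ ENNReal.ofReal Mu) {β : K → ℝ} {X : K → C3}
    (hN : ∃ W, NearX χ c r p dl κ K0 δ V u β X W) (hG : Geo q cc η) (γ : ℂ) {t : ℝ} (ht : 0 < t)
    (hκ1 : Cv c q cc η γ (nk η * t) / √c + Cv c q cc η γ (nk η * t)
      + √2 / √c * (C0 * (5 * (Cv c q cc η γ (nk η * t) / √c) ^ 2)) ≤ κ / 2) :
    ∃ W, NearX χ c r p dl κ K0 (δ + (4 * (t * ‖cK q‖ + c * ‖γ‖ / (Real.pi * sq q * t) * ‖cK cc‖)) ^ r)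
      V u (fun k => β k + ‖E0 q cc γ k‖) (X + E0 q cc γ) W := by
  have hQ := sq_pos hG.hq
  have hsη := sq_pos hG.hη
  have hnη : 0 < nk η := nk_pos' hG.hη
  have hpi := Real.pi_pos
  have hlm : 0 < nk η * t := mul_pos hnη ht
  have hqn : 0 < ‖cK q‖ := by
    rw [norm_pos_iff]
    intro h0
    apply hG.hq
    funext i
    have := congrFun h0 i
    simpa [cK] using this
  obtain ⟨l1, hl1d⟩ : ∃ l1, l1 = 4 * (t * ‖cK q‖ + c * ‖γ‖ / (Real.pi * sq q * t) * ‖cK cc‖) := ⟨_, rfl⟩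
  have hl1 : 0 < l1 := by rw [hl1d]; positivity
  obtain ⟨e, hed⟩ : ∃ e, e = l1 ^ r := ⟨_, rfl⟩
  have he : 0 < e := by rw [hed]; positivity
  obtain ⟨W, hW⟩ := hN
  obtain ⟨a, ha, u', hu', h1, h2, h3, h6, h7, E, hE, h4⟩ := hW.good
  obtain ⟨M1, hM1, hub1⟩ := solX_bdd ha.le hu'
  obtain ⟨y0, hy0⟩ : ∃ y0, y0 = e / (Mu + M1 + 1) := ⟨_, rfl⟩
  have hy0p : 0 < y0 := by rw [hy0]; positivity
  obtain ⟨dl', hdl'⟩ : ∃ dl', dl' = min dl (y0 ^ 2) := ⟨_, rfl⟩
  have hdlp : 0 < dl' := by rw [hdl']; positivity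
  have hdl1 : dl' ≤ dl := by rw [hdl']; exact min_le_left _ _
  have hdl2 : dl' ≤ y0 ^ 2 := by rw [hdl']; exact min_le_right _ _
  have hst := step2K hχ hc ha hlm hdlp he hp1 hp2 hκ hG γ hκ1 hκ2 hu'
  -- the support of `W`
  obtain ⟨J, hJ⟩ : ∃ J : ℕ, ∀ k, (4 : ℝ) ^ J ≤ sq k → W k = 0 := by
    obtain ⟨B, hB⟩ := (hW.fin.image sq).bddAbove
    obtain ⟨J, hJ⟩ := pow_unbounded_of_one_lt B (by norm_num : (1 : ℝ) < 4)
    refine ⟨J, fun k hk => ?_⟩
    by_contra hne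
    have := hB (mem_image_of_mem sq (show k ∈ Function.support W from hne))
    linarith
  obtain ⟨N, hstN, n1, n2, hN1⟩ := (hst.and ((eventually_ge_atTop (2 ^ J)).and
    ((eventually_gt_atTop (2 * K0)).and (eventually_ge_atTop 1)))).exists
  have hNJ : (4 : ℝ) ^ J ≤ (N : ℝ) ^ 2 := by
    have h3 : ((2 : ℝ) ^ J) ≤ N := by exact_mod_cast n1
    calc (4 : ℝ) ^ J = (2 ^ J) ^ 2 := by rw [← pow_mul, mul_comm, pow_mul]; norm_num
      _ ≤ _ := pow_le_pow_left₀ (by positivity) h3 2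
  obtain ⟨a', ha', rr, hsol, hvc, hrc, g1, g2, g3, g4, g6, g7⟩ := hstN
  rw [← hl1d, ← hed]
  obtain ⟨lm, hlmd⟩ : ∃ lm, lm = nk η * t := ⟨_, rfl⟩
  rw [← hlmd] at hsol hvc g1 g2 g3 g6 g7
  obtain ⟨v, hvd⟩ : ∃ v, v = wF c q cc η γ lm N + IF c q cc η γ N := ⟨_, rfl⟩
  rw [← hvd] at hsol hvc g1 g2 g3 g6 g7
  have hdc : CF (u' - u) := CF.sub' hu'.cf hu
  have hvr : CF (v + rr) := fun k => (hvc k).add (hrc k)
  have ed : u' + v + rr - u = (u' - u) + (v + rr) := by abel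
  refine ⟨W + W0 c q cc η γ lm N, supp_add hW.fin (W0_fin c γ _ N), fun k hk => ?_, ?_,
    fun k => ?_, hW.sym.add (W0_sym c q cc η γ _ N), a', ha', u' + v + rr, ?_, ?_, ?_, ?_, fun k => ?_,
    fun t ht => ?_, E + IF c q cc η γ N, fun k t => ?_, fun t => ?_⟩
  · rw [Pi.add_apply, hW.cut k hk, W0_cut hG c γ _ n2 hk, add_zero]
  · rw [crit_add (by linarith) hJ fun k hk => W0_cut' hG c γ _ (hk.trans_le hNJ),
      ENNReal.ofReal_add hδ he.le, hlmd]
    have h5 := W0_critE hc ht hG γ hr hN1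
    rw [← hl1d, ← hed] at h5
    exact add_le_add hW.small h5
  · rw [Pi.add_apply, dt_add, hW.div, W0_div hG, add_zero]
  · have : V + (X + E0 q cc γ + (W + W0 c q cc η γ lm N))
        = V + (X + W) + (E0 q cc γ + W0 c q cc η γ lm N) := by abel
    rw [this]; exact hsol
  · rw [ed, ENNReal.ofReal_add hδ he.le]
    exact (LNd_add hdc hvr).trans (add_le_add h1 ((LNd_anti hdl1 _).trans g1))
  · rw [ed, ENNReal.ofReal_add hδ he.le]
    exact (LP_add hp1 hdc hvr).trans (add_le_add h2 g2)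
  · intro t ht
    rw [ed, ENNReal.ofReal_add hδ he.le]
    exact (NW_add_le _ _ _).trans (add_le_add (h3 t ht) (g3 t (hdl1.trans ht)))
  · have e0 : Bx χ (u' + v + rr) - Bx χ u = (Bx χ (u' + v + rr) - Bx χ u') + (Bx χ u' - Bx χ u) := by abel
    have hβ0 : 0 ≤ β k := (norm_nonneg _).trans (hE k 0)
    have hnk := nk_nonneg k
    have c1 : CF (Bx χ (u' + v + rr) - Bx χ u') :=
      CF.sub' (Bx_cont hχ.toCutT hsol.cf (SolX.dom' ha' hsol)) (Bx_cont hχ.toCutT hu'.cf (SolX.dom' ha hu'))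
    calc ∫⁻ t in Ioi 0, ‖(Bx χ (u' + v + rr) - Bx χ u) k t‖ₑ
        ≤ ∫⁻ t in Ioi 0, (‖(Bx χ (u' + v + rr) - Bx χ u') k t‖ₑ + ‖(Bx χ u' - Bx χ u) k t‖ₑ) := by
          refine lintegral_mono fun t => ?_
          rw [e0]
          exact enorm_add_le _ _
      _ = (∫⁻ t in Ioi 0, ‖(Bx χ (u' + v + rr) - Bx χ u') k t‖ₑ) + ∫⁻ t in Ioi 0, ‖(Bx χ u' - Bx χ u) k t‖ₑ :=
          lintegral_add_left (c1 k).measurable.enorm _
      _ ≤ (‖E0 q cc γ k‖ₑ + ENNReal.ofReal (nk k * e)) + ENNReal.ofReal (β k + nk k * δ) :=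
          add_le_add (g6 k) (h6 k)
      _ = ENNReal.ofReal (β k + ‖E0 q cc γ k‖ + nk k * (δ + e)) := by
          rw [← ofReal_norm, ← ENNReal.ofReal_add (norm_nonneg _) (by positivity),
            ← ENNReal.ofReal_add (by positivity) (by positivity)]
          congr 1
          ring
  · rw [ed]
    rcases le_or_gt dl' t with h8 | h8
    · have e3 : κ + (δ + e) = (κ + δ) + e := by ring
      rw [e3, ENNReal.ofReal_add (by positivity) he.le]
      exact (KA_add_le _ _ _).trans (add_le_add (h7 t ht) ((KA_le _ _).trans (g3 t h8)))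
    · have h9 : √t ≤ y0 := by
        rw [Real.sqrt_le_left hy0p.le]
        exact h8.le.trans hdl2
      have h10 : KA (u' - u) t ≤ ENNReal.ofReal e := by
        refine KA_small (M := M1 + Mu) (by positivity) ?_ ?_
        · rw [ENNReal.ofReal_add hM1 hMu]
          exact (NW_sub_le _ _ _).trans (add_le_add (hub1 t) (hub t))
        · calc √t * (M1 + Mu) ≤ y0 * (M1 + Mu) := mul_le_mul_of_nonneg_right h9 (by positivity)
            _ ≤ y0 * (Mu + M1 + 1) := mul_le_mul_of_nonneg_left (by linarith) hy0p.le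
            _ = e := by rw [hy0]; field_simp
      refine (KA_add_le _ _ _).trans ((add_le_add h10 (g7 t ht)).trans ?_)
      rw [← ENNReal.ofReal_add he.le hκ.le]
      exact ENNReal.ofReal_le_ofReal (by linarith)
  · refine (norm_add_le _ _).trans (add_le_add (hE k t) ?_)
    have hmu : 0 ≤ muF c q η N := by
      have h5 : 0 ≤ c * sq ((N : ℤ) • η) := mul_nonneg hc.le (sq_nonneg' _)
      have h6 : 0 ≤ c * sq ((N : ℤ) • η + q) := mul_nonneg hc.le (sq_nonneg' _)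
      unfold muF
      linarith
    have e1 : IF c q cc η γ N k t = Real.exp (-(muF c q η N * max t 0)) • E0 q cc γ k := by
      show Mo q _ _ k t + Mo (-q) _ _ k t = _
      unfold Mo E0 Sg
      simp only [Pi.add_apply]
      split_ifs <;> simp
    rw [e1, norm_smul, Real.norm_of_nonneg (Real.exp_pos _).le]
    apply mul_le_of_le_one_left (norm_nonneg _)
    rw [Real.exp_le_one_iff]
    have := mul_nonneg hmu (le_max_right t 0)
    linarith
  · have e1 : u' + v + rr - u - Ht c (W + W0 c q cc η γ lm N) - (E + IF c q cc η γ N)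
        = (u' - u - Ht c W - E) + rr := by
      have e2 : Ht c (W + W0 c q cc η γ lm N) = Ht c W + wF c q cc η γ lm N := by
        funext k t
        show _ = Ht c W k t + wF c q cc η γ lm N k t
        rw [w_init]
        simp [Ht]
      rw [e2, hvd]
      abel
    rw [e1, ENNReal.ofReal_add hδ he.le]
    exact (NW_add_le _ _ _).trans (add_le_add (h4 t) (g4 t))

lemma norm_E0_smul (γ : ℂ) (n : ℕ) (k : K) : n * ‖E0 q cc (γ / n) k‖ = ‖E0 q cc γ k‖ ∨ n = 0 := by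
  rcases Nat.eq_zero_or_pos n with h | h
  · exact Or.inr h
  · left
    have hn : (n : ℂ) ≠ 0 := by exact_mod_cast h.ne'
    have e1 : E0 q cc γ k = (n : ℂ) • E0 q cc (γ / n) k := by
      unfold E0 Sg
      simp only [Pi.add_apply, smul_add, smul_ite, smul_smul, smul_zero]
      have h1 : (n : ℂ) * (γ / n) = γ := by field_simp
      have h2 : (n : ℂ) * star (γ / n) = star γ := by
        rw [star_div₀]
        have : star (n : ℂ) = n := by simp
        rw [this]; field_simp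
      rw [h1, h2]
    rw [e1, norm_smul, Complex.norm_natCast]

lemma nearX_iter {χ : ℝ → ℝ} {h : ℝ} (hχ : CutH χ h) {c r p dl κ δ : ℝ} (hc : 0 < c) (hr : 1 ≤ r)
    (hp1 : 1 ≤ p) (hp2 : p < 2) (hdl : 0 < dl) (hδ : 0 ≤ δ) (hκ : 0 < κ)
    (hκ2 : √2 / √c * C0 * (2 * κ) ≤ 1 / 8)
    {K0 : ℕ} {V : K → C3} {u : Fam} (hu : CF u) {Mu : ℝ} (hMu : 0 ≤ Mu)
    (hub : ∀ t, NW (Wa 0) (at' u t) ≤ ENNReal.ofReal Mu) {β : K → ℝ} {X : K → C3}
    (hN : ∃ W, NearX χ c r p dl κ K0 δ V u β X W) (hG : Geo q cc η) (γ : ℂ) {t : ℝ} (ht : 0 < t)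
    (hκ1 : Cv c q cc η γ (nk η * t) / √c + Cv c q cc η γ (nk η * t)
      + √2 / √c * (C0 * (5 * (Cv c q cc η γ (nk η * t) / √c) ^ 2)) ≤ κ / 2) (n : ℕ) :
    ∃ W, NearX χ c r p dl κ K0
      (δ + n * (4 * (t * ‖cK q‖ + c * ‖γ‖ / (Real.pi * sq q * t) * ‖cK cc‖)) ^ r)
      V u (fun k => β k + n * ‖E0 q cc γ k‖) (X + E0 q cc (n * γ)) W := by
  have hQ := sq_pos hG.hq
  have hpi := Real.pi_pos
  induction n with
  | zero => simpa [E0_zero] using hN
  | succ n ih =>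
    have h1 := nearX_add1 hχ hc hr hp1 hp2 hdl (by positivity) hκ hκ2 hu hMu hub ih hG γ ht hκ1
    have e1 : E0 q cc ((n + 1 : ℕ) * γ) = E0 q cc (n * γ) + E0 q cc γ := by
      rw [← E0_add]; congr 1; push_cast; ring
    rw [e1, ← add_assoc X]
    obtain ⟨W, hW⟩ := h1
    refine ⟨W, ?_⟩
    have h2 := hW.mono (ε' := δ + ((n + 1 : ℕ) : ℝ) *
      (4 * (t * ‖cK q‖ + c * ‖γ‖ / (Real.pi * sq q * t) * ‖cK cc‖)) ^ r)
      (β' := fun k => β k + ((n + 1 : ℕ) : ℝ) * ‖E0 q cc γ k‖)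
      (by push_cast; linarith) (fun k => by push_cast; linarith)
    exact h2

lemma nearX_add {χ : ℝ → ℝ} {h : ℝ} (hχ : CutH χ h) {c r p dl κ : ℝ} (hc : 0 < c) (hr : 2 < r)
    (hp1 : 1 ≤ p) (hp2 : p < 2) (hdl : 0 < dl) (hκ : 0 < κ)
    (hκ2 : √2 / √c * C0 * (2 * κ) ≤ 1 / 8)
    {K0 : ℕ} {V : K → C3} {u : Fam} (hu : CF u) {Mu : ℝ} (hMu : 0 ≤ Mu)
    (hub : ∀ t, NW (Wa 0) (at' u t) ≤ ENNReal.ofReal Mu) {β : K → ℝ} {X : K → C3}
    (hN : ∀ ε : ℝ, 0 < ε → ∃ W, NearX χ c r p dl κ K0 ε V u β X W) (hG : Geo q cc η) (γ : ℂ)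
    (ε : ℝ) (hε : 0 < ε) :
    ∃ W, NearX χ c r p dl κ K0 ε V u (fun k => β k + ‖E0 q cc γ k‖) (X + E0 q cc γ) W := by
  have hQ := sq_pos hG.hq
  have hnq := nk_pos' hG.hq
  have hpi := Real.pi_pos
  obtain ⟨C, hCd⟩ : ∃ C, C = 4 * (1 * ‖cK q‖ + c * ‖γ‖ / (Real.pi * sq q * 1) * ‖cK cc‖) := ⟨_, rfl⟩
  have hC : 0 ≤ C := by rw [hCd]; positivity
  have hlim : Tendsto (fun n : ℕ => C ^ r * (n : ℝ) ^ (-(r / 2 - 1))) atTop (𝓝 0) := by
    have h1 := (tendsto_rpow_neg_atTop (by linarith : 0 < r / 2 - 1)).comp tendsto_natCast_atTop_atTop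
    simpa using h1.const_mul (C ^ r)
  -- the size of one piece
  have hnη : 0 < nk η := nk_pos' hG.hη
  have hsη := sq_pos hG.hη
  obtain ⟨cv, hcv⟩ : ∃ cv : ℕ → ℝ, cv = fun n : ℕ => Cv c q cc η (γ / n) (nk η * (1 / √n)) := ⟨_, rfl⟩
  have hcvn : ∀ n : ℕ, 1 ≤ n → cv n = (C * nk η) * (1 / √n) + (4 * (‖γ‖ * ‖cK cc‖)) * (1 / n) := by
    intro n hn
    have hnp : (0 : ℝ) < n := by exact_mod_cast hn
    have hsn : 0 < √(n : ℝ) := Real.sqrt_pos.2 hnp
    rw [hcv, hCd]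
    show Cv c q cc η (γ / n) (nk η * (1 / √n)) = _
    unfold Cv
    rw [norm_div, Complex.norm_natCast, ← nk_sq' η]
    have h2 : √(n : ℝ) ^ 2 = n := Real.sq_sqrt hnp.le
    field_simp
    rw [h2]
    ring
  have hcvlim : Tendsto cv atTop (𝓝 0) := by
    have h1 : Tendsto (fun n : ℕ => 1 / √(n : ℝ)) atTop (𝓝 0) := by
      have := Real.tendsto_sqrt_atTop.comp (tendsto_natCast_atTop_atTop (R := ℝ))
      refine this.inv_tendsto_atTop.congr fun n => ?_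
      rw [one_div]
      rfl
    have h2 : Tendsto (fun n : ℕ => 1 / (n : ℝ)) atTop (𝓝 0) := tendsto_one_div_atTop_nhds_zero_nat
    have h3 := (h1.const_mul (C * nk η)).add (h2.const_mul (4 * (‖γ‖ * ‖cK cc‖)))
    rw [mul_zero, mul_zero, add_zero] at h3
    exact h3.congr' ((eventually_ge_atTop 1).mono fun n hn => (hcvn n hn).symm)
  have hsm : Tendsto (fun n => cv n / √c + cv n + √2 / √c * (C0 * (5 * (cv n / √c) ^ 2))) atTop (𝓝 0) := by
    have h1 : Tendsto (fun x : ℝ => x / √c + x + √2 / √c * (C0 * (5 * (x / √c) ^ 2))) (𝓝 0) (𝓝 0) := by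
      have h2 : Continuous fun x : ℝ => x / √c + x + √2 / √c * (C0 * (5 * (x / √c) ^ 2)) := by fun_prop
      have h3 := h2.tendsto 0
      simpa using h3
    exact h1.comp hcvlim
  obtain ⟨n, ⟨hlt, hn1⟩, hsn'⟩ := (((hlim.eventually (gt_mem_nhds (half_pos hε))).and
    (eventually_ge_atTop 1)).and (hsm.eventually (gt_mem_nhds (half_pos hκ)))).exists
  have hnp : (0 : ℝ) < n := by exact_mod_cast hn1
  obtain ⟨t, htd⟩ : ∃ t, t = 1 / Real.sqrt n := ⟨_, rfl⟩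
  have hsn : 0 < Real.sqrt n := Real.sqrt_pos.2 hnp
  have ht : 0 < t := by rw [htd]; positivity
  have hκ1 : Cv c q cc η (γ / n) (nk η * t) / √c + Cv c q cc η (γ / n) (nk η * t)
      + √2 / √c * (C0 * (5 * (Cv c q cc η (γ / n) (nk η * t) / √c) ^ 2)) ≤ κ / 2 := by
    rw [hcv] at hsn'
    rw [htd]
    exact hsn'.le
  have h1 := nearX_iter hχ hc (by linarith : (1 : ℝ) ≤ r) hp1 hp2 hdl (half_pos hε).le hκ hκ2 hu hMu hub
    (hN (ε / 2) (half_pos hε)) hG (γ / n) ht hκ1 n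
  have e1 : (n : ℂ) * (γ / n) = γ := by
    have : (n : ℂ) ≠ 0 := by exact_mod_cast hnp.ne'
    field_simp
  rw [e1] at h1
  obtain ⟨W, hW⟩ := h1
  have e2 : 4 * (t * ‖cK q‖ + c * ‖γ / (n : ℂ)‖ / (Real.pi * sq q * t) * ‖cK cc‖)
      = C * (n : ℝ) ^ (-(1 / 2 : ℝ)) := by
    rw [Real.rpow_neg hnp.le, ← Real.sqrt_eq_rpow, norm_div, Complex.norm_natCast, hCd, htd]
    have h2 : Real.sqrt n ^ 2 = n := Real.sq_sqrt hnp.le
    field_simp
    rw [h2]
    ring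
  rw [e2] at hW
  have e5 : (n : ℝ) * (C * (n : ℝ) ^ (-(1 / 2 : ℝ))) ^ r = C ^ r * (n : ℝ) ^ (-(r / 2 - 1)) := by
    rw [Real.mul_rpow hC (Real.rpow_nonneg hnp.le _), ← Real.rpow_mul hnp.le]
    rw [show -(r / 2 - 1) = 1 + (-(1 / 2 : ℝ) * r) by ring, Real.rpow_add hnp, Real.rpow_one]
    ring
  rw [e5] at hW
  refine ⟨W, hW.mono (by linarith) fun k => ?_⟩
  rcases norm_E0_smul (q := q) (cc := cc) γ n k with h2 | h2
  · rw [h2]
  · omega

theorem nearX_target {χ : ℝ → ℝ} {h : ℝ} (hχ : CutH χ h) {c r p κ a0 : ℝ} (hc : 0 < c) (hr : 2 < r)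
    (hp1 : 1 ≤ p) (hp2 : p < 2) (hκ : 0 < κ) (hκ2 : √2 / √c * C0 * (2 * κ) ≤ 1 / 8) (K0 : ℕ) {V : K → C3} {u : Fam} (ha0 : 0 < a0) (hS : SolX χ c a0 V u)
    {V0 : K → C3} (hfin : (Function.support V0).Finite) (h0 : V0 0 = 0) (hdiv : ∀ k, dt k (V0 k) = 0)
    (hsym : Sym V0) {dl : ℝ} (hdl : 0 < dl) {ε : ℝ} (hε : 0 < ε) :
    ∃ W, NearX χ c r p dl κ K0 ε V u (fun k => 4 * ‖V0 k‖) V0 W := by
  classical
  have hu := hS.cf
  have hpi := Real.pi_pos
  obtain ⟨Mu, hMu, hub⟩ := solX_bdd ha0.le hS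
  have hP : ∀ q : K, ∃ (d : K) (γ1 γ2 : ℂ), q ≠ 0 → d ≠ 0 ∧ ip q d = 0 ∧
      (1 / 2 : ℂ) • V0 q = γ1 • cK d + γ2 • cK (crs q d) := by
    intro q
    by_cases hq : q = 0
    · exact ⟨0, 0, 0, fun h => absurd hq h⟩
    · obtain ⟨d, hd, hqd⟩ := exists_perp hq
      have hv : dt q ((1 / 2 : ℂ) • V0 q) = 0 := by rw [dt_smul', hdiv, mul_zero]
      obtain ⟨γ1, γ2, h⟩ := decomp hq hd hqd hv
      exact ⟨d, γ1, γ2, fun _ => ⟨hd, hqd, h⟩⟩
  choose d γ1 γ2 hP using hP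
  set P : K → K → C3 := fun q => E0 q (d q) (γ1 q) + E0 q (crs q (d q)) (γ2 q)
  set Q : K → K → ℝ := fun q k => ‖E0 q (d q) (γ1 q) k‖ + ‖E0 q (crs q (d q)) (γ2 q) k‖
  have hnear : ∀ T : Finset K, (∀ q ∈ T, q ≠ 0) → ∀ ε : ℝ, 0 < ε →
      ∃ W, NearX χ c r p dl κ K0 ε V u (fun k => ∑ q ∈ T, Q q k) (∑ q ∈ T, P q) W := by
    intro T
    induction T using Finset.induction_on with
    | empty =>
      intro _ ε hε
      simp only [Finset.sum_empty]
      exact nearX_zero (by linarith) (by linarith) K0 ha0 hS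
    | insert q T hqT ih =>
      intro hT
      have hq := hT q (Finset.mem_insert_self _ _)
      have ih' := ih (fun q' h' => hT q' (Finset.mem_insert_of_mem h'))
      obtain ⟨hd, hqd, hdec⟩ := hP q hq
      have g1 := geo_crs hq hd hqd
      have hqc : ip q (crs q (d q)) = 0 := by rw [ip_comm]; exact g1.ηq
      have g2 := geo_crs hq g1.hη hqc
      have h1 := nearX_add hχ hc hr hp1 hp2 hdl hκ hκ2 hu hMu hub ih' g1 (γ1 q)
      have h2 := nearX_add hχ hc hr hp1 hp2 hdl hκ hκ2 hu hMu hub h1 g2 (γ2 q)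
      have e : P q + ∑ x ∈ T, P x = ∑ x ∈ T, P x + E0 q (d q) (γ1 q) + E0 q (crs q (d q)) (γ2 q) := by
        simp only [P]; abel
      intro ε hε
      obtain ⟨W, hW⟩ := h2 ε hε
      refine ⟨W, ?_⟩
      rw [Finset.sum_insert hqT, e]
      refine hW.mono le_rfl fun k => ?_
      rw [Finset.sum_insert hqT]
      simp only [Q]
      linarith
  set S := hfin.toFinset
  have hS0 : ∀ q ∈ S, q ≠ 0 := by
    intro q hq h
    rw [Set.Finite.mem_toFinset, Function.mem_support, h] at hq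
    exact hq h0
  have hPq : ∀ q, q ≠ 0 → P q = Sg q ((1 / 2 : ℂ) • V0 q) + Sg (-q) ((1 / 2 : ℂ) • V0 (-q)) := by
    intro q hq
    obtain ⟨-, -, h⟩ := hP q hq
    have h' : (1 / 2 : ℂ) • V0 (-q) = star (γ1 q) • cK (d q) + star (γ2 q) • cK (crs q (d q)) := by
      funext i
      have h1 := congrFun h i
      simp only [Pi.smul_apply, Pi.add_apply, smul_eq_mul] at h1 ⊢
      rw [hsym q i]
      have h2 := congrArg star h1
      simp only [star_mul', star_add] at h2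
      have h3 : star (1 / 2 : ℂ) = 1 / 2 := by simp
      have h4 : ∀ l : K, star (cK l i) = cK l i := by intro l; simp [cK]
      rw [h3, h4, h4] at h2
      exact h2
    simp only [P]
    rw [h, h', Sg_add, Sg_add]
    unfold E0
    abel
  have mem : ∀ k, k ∉ S → V0 k = 0 := by
    intro k hk
    by_contra h
    exact hk (by rw [Set.Finite.mem_toFinset]; exact h)
  have hneg : ∀ k, ‖V0 (-k)‖ = ‖V0 k‖ := by
    intro k
    have e : V0 (-k) = star (V0 k) := by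
      funext i
      exact hsym k i
    rw [e, norm_star]
  have hsum : ∑ q ∈ S, P q = V0 := by
    rw [Finset.sum_congr rfl fun q hq => hPq q (hS0 q hq), Finset.sum_add_distrib]
    funext k
    rw [Pi.add_apply, Finset.sum_apply, Finset.sum_apply]
    have h1 : ∑ q ∈ S, Sg q ((1 / 2 : ℂ) • V0 q) k = (1 / 2 : ℂ) • V0 k := by
      unfold Sg
      rw [Finset.sum_ite_eq]
      split_ifs with h
      · rfl
      · rw [mem k h, smul_zero]
    have h2 : ∑ q ∈ S, Sg (-q) ((1 / 2 : ℂ) • V0 (-q)) k = (1 / 2 : ℂ) • V0 k := by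
      unfold Sg
      have e : ∀ q, (if k = -q then (1 / 2 : ℂ) • V0 (-q) else 0)
          = if -k = q then (1 / 2 : ℂ) • V0 k else 0 := by
        intro q
        by_cases h : k = -q
        · rw [if_pos h, if_pos (by rw [h, neg_neg]), h]
        · rw [if_neg h, if_neg (fun h' => h (by rw [← h', neg_neg]))]
      simp only [e]
      rw [Finset.sum_ite_eq]
      split_ifs with h
      · rfl
      · have h3 := mem _ h
        have h4 : V0 k = 0 := by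
          rw [← norm_eq_zero, ← hneg, h3, norm_zero]
        rw [h4, smul_zero]
    rw [h1, h2, ← add_smul]
    norm_num
  -- the bound for the low modes
  have hE0 : ∀ (q' d' : K) (γ' : ℂ) (k : K), ‖E0 q' d' γ' k‖ ≤
      (if k = q' then ‖γ'‖ * ‖cK d'‖ else 0) + (if k = -q' then ‖γ'‖ * ‖cK d'‖ else 0) := by
    intro q' d' γ' k
    unfold E0 Sg
    simp only [Pi.add_apply]
    refine (norm_add_le _ _).trans (add_le_add ?_ ?_)
    · split_ifs
      · rw [norm_smul]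
      · simp
    · split_ifs
      · rw [norm_smul, norm_star]
      · simp
  have hQ : ∀ k, ∑ q ∈ S, Q q k ≤ 4 * ‖V0 k‖ := by
    intro k
    have h1 : ∀ q ∈ S, Q q k ≤ (if k = q then 2 * ‖V0 k‖ else 0) + (if -k = q then 2 * ‖V0 k‖ else 0) := by
      intro q hqS
      have hq := hS0 q hqS
      obtain ⟨hd, hqd, hdec⟩ := hP q hq
      have g1 := geo_crs hq hd hqd
      have hn : ‖(1 / 2 : ℂ) • V0 q‖ = ‖V0 q‖ / 2 := by
        rw [norm_smul]; norm_num; ring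
      have c1 : ‖γ1 q‖ * ‖cK (d q)‖ ≤ ‖V0 q‖ := by
        have : ‖γ1 q‖ * ‖cK (d q)‖ ≤ 2 * (‖V0 q‖ / 2) := by
          rw [← hn]
          apply coef_le hd
          rw [hdec, dt_add, dt_smul, dt_smul, ip_comm (d q) (crs q (d q)), g1.ηc]
          simp
        linarith
      have c2 : ‖γ2 q‖ * ‖cK (crs q (d q))‖ ≤ ‖V0 q‖ := by
        have : ‖γ2 q‖ * ‖cK (crs q (d q))‖ ≤ 2 * (‖V0 q‖ / 2) := by
          rw [← hn]
          apply coef_le g1.hη
          rw [hdec, dt_add, dt_smul, dt_smul, g1.ηc]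
          simp
        linarith
      have hk1 : k = q → ‖V0 q‖ = ‖V0 k‖ := fun h => by rw [h]
      have hk2 : k = -q → ‖V0 q‖ = ‖V0 k‖ := fun h => by rw [h, hneg]
      have e : (if -k = q then 2 * ‖V0 k‖ else 0) = (if k = -q then 2 * ‖V0 k‖ else 0) := by
        by_cases h : k = -q
        · rw [if_pos h, if_pos (by rw [h, neg_neg])]
        · rw [if_neg h, if_neg (fun h' => h (by rw [← h', neg_neg]))]
      simp only [Q]
      refine (add_le_add (hE0 q (d q) (γ1 q) k) (hE0 q (crs q (d q)) (γ2 q) k)).trans ?_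
      rw [e]
      have b0 := norm_nonneg (V0 k)
      split_ifs with ha hb hb
      · have := hk1 ha; linarith
      · have := hk1 ha; linarith
      · have := hk2 hb; linarith
      · linarith
    refine (Finset.sum_le_sum h1).trans ?_
    rw [Finset.sum_add_distrib, Finset.sum_ite_eq, Finset.sum_ite_eq]
    have b0 := norm_nonneg (V0 k)
    split_ifs <;> linarith
  obtain ⟨W, hW⟩ := hnear S hS0 ε hε
  rw [hsum] at hW
  exact ⟨W, hW.mono le_rfl hQ⟩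

end Pool.Agent.H356R3.NS.X
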