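import Pool.Agent.H3NX.Step5
import Pool.Agent.H3NS.Near2
import Pool.Agent.H356R3.NS.Dens4

set_option autoImplicit false
set_option maxHeartbeats 4000000
set_option synthInstance.maxHeartbeats 400000

open MeasureTheory Set Filter Topology
open scoped ENNReal NNReal

namespace Pool.Agent.H356R3.NS.X

open Pool.Agent.H356R3.NS.H3

variable {q cc η : K}

/-- the norm in `L^p((0,1); ℓ¹)` -/
noncomputable def LP (p : ℝ) (x : Fam) : ℝ≥0∞ :=
  (∫⁻ t in Ioc 0 1, NW (Wa 0) (at' x t) ^ p) ^ (1 / p)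

lemma LP_add {p : ℝ} (hp : 1 ≤ p) {x y : Fam} (hx : CF x) (hy : CF y) : LP p (x + y) ≤ LP p x + LP p y := by
  unfold LP
  refine le_trans ?_ (ENNReal.lintegral_Lp_add_le (μ := volume.restrict (Ioc (0 : ℝ) 1))
    (NW_meas (Wa 0) hx).aemeasurable (NW_meas (Wa 0) hy).aemeasurable hp)
  apply ENNReal.rpow_le_rpow _ (by positivity)
  exact lintegral_mono fun t => ENNReal.rpow_le_rpow (NW_add_le _ _ _) (by linarith)

lemma Lp_mono_exp {p q' : ℝ} (hp : 0 < p) (hpq : p ≤ q') {φ : ℝ → ℝ≥0∞} (hφ : Measurable φ) :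
    (∫⁻ t in Ioc (0 : ℝ) 1, φ t ^ p) ^ (1 / p) ≤ (∫⁻ t in Ioc (0 : ℝ) 1, φ t ^ q') ^ (1 / q') := by
  have h := eLpNorm'_le_eLpNorm'_mul_rpow_measure_univ (μ := volume.restrict (Ioc (0 : ℝ) 1)) (f := φ) hp hpq
    hφ.aestronglyMeasurable
  simpa [eLpNorm'] using h

lemma LP_mono {p p' : ℝ} (hp : 0 < p) (hpp : p ≤ p') {x : Fam} (hx : CF x) : LP p x ≤ LP p' x :=
  Lp_mono_exp hp hpp (NW_meas _ hx)

lemma LP_le_LN {p : ℝ} (hp : 0 < p) (hp2 : p ≤ 2) {x : Fam} (hx : CF x) :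
    LP p x ≤ LN (fun t => NW (Wa 0) (at' x t)) := by
  refine (Lp_mono_exp hp hp2 (NW_meas (Wa 0) hx)).trans ?_
  unfold LN
  exact ENNReal.rpow_le_rpow (lintegral_mono_set Ioc_subset_Ioi_self) (by norm_num)

lemma LP_exp {p : ℝ} (hp : 0 < p) {x : Fam} {B σ ε : ℝ} (hB : 0 ≤ B) (hσ : 0 < σ) (hε : 0 ≤ ε)
    (h : ∀ t, NW (Wa 0) (at' x t) ≤ ENNReal.ofReal (B * Real.exp (-(σ * max t 0))))
    (hs : B ^ p / (p * σ) ≤ ε ^ p) : LP p x ≤ ENNReal.ofReal ε := by
  unfold LP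
  have h1 : ∫⁻ t in Ioc 0 1, NW (Wa 0) (at' x t) ^ p ≤ ENNReal.ofReal (ε ^ p) := by
    calc ∫⁻ t in Ioc 0 1, NW (Wa 0) (at' x t) ^ p
        ≤ ∫⁻ t in Ioi 0, NW (Wa 0) (at' x t) ^ p := lintegral_mono_set Ioc_subset_Ioi_self
      _ ≤ ∫⁻ t in Ioi 0, ENNReal.ofReal (B ^ p) * ENNReal.ofReal (Real.exp (-(p * σ * max t 0))) := by
          refine lintegral_mono fun t => ?_
          refine (ENNReal.rpow_le_rpow (h t) hp.le).trans (le_of_eq ?_)
          have e0 := (Real.exp_pos (-(σ * max t 0))).le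
          rw [ENNReal.ofReal_rpow_of_nonneg (mul_nonneg hB e0) hp.le, Real.mul_rpow hB e0,
            ENNReal.ofReal_mul (Real.rpow_nonneg hB _), ← Real.exp_mul]
          congr 3
          ring
      _ = ENNReal.ofReal (B ^ p) * ENNReal.ofReal (1 / (p * σ)) := by
          rw [lintegral_const_mul _ (by fun_prop), lint_e (by positivity)]
      _ ≤ _ := by
          rw [← ENNReal.ofReal_mul (Real.rpow_nonneg hB _)]
          apply ENNReal.ofReal_le_ofReal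
          rw [mul_one_div]
          exact hs
  refine (ENNReal.rpow_le_rpow h1 (by positivity)).trans (le_of_eq ?_)
  rw [ENNReal.ofReal_rpow_of_nonneg (by positivity) (by positivity), ← Real.rpow_mul hε,
    mul_one_div_cancel hp.ne', Real.rpow_one]

lemma Wm_le_Wa (k : K) : Wm 0 k ≤ Wa 0 k := by
  unfold Wm Wa
  apply ENNReal.ofReal_le_ofReal
  by_cases hk : k = 0
  · subst hk
    rw [nk_zero, div_zero]
    exact (om_pos _ _).le
  · exact div_le_self (om_pos _ _).le (one_le_nk hk)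

theorem step2X {χ : ℝ → ℝ} {h : ℝ} (hχ : CutH χ h) {c a0 lm δ ee p : ℝ} (hc : 0 < c) (ha0 : 0 < a0)
    (hlm : 0 < lm) (hδ : 0 < δ) (hee : 0 < ee) (hp1 : 1 ≤ p) (hp2 : p < 2)
    (hG : Geo q cc η) (γ : ℂ) {V : K → C3} {u : Fam}
    (hS : SolX χ c a0 V u) : ∀ᶠ N : ℕ in atTop, ∃ a : ℝ, 0 < a ∧ ∃ r : Fam,
      SolX χ c a (V + (E0 q cc γ + W0 c q cc η γ lm N))
        (u + (wF c q cc η γ lm N + IF c q cc η γ N) + r) ∧ CF (wF c q cc η γ lm N + IF c q cc η γ N) ∧ CF r ∧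
      LNd δ (wF c q cc η γ lm N + IF c q cc η γ N + r) ≤ ENNReal.ofReal ee ∧
      LP p (wF c q cc η γ lm N + IF c q cc η γ N + r) ≤ ENNReal.ofReal ee ∧
      (∀ t, δ ≤ t → NW (Wm 0) (at' (wF c q cc η γ lm N + IF c q cc η γ N + r) t) ≤ ENNReal.ofReal ee) ∧
      (∀ t, NW (Wm 0) (at' r t) ≤ ENNReal.ofReal ee) ∧
      (∀ k, ∫⁻ t in Ioi 0, ‖(Bx χ (u + (wF c q cc η γ lm N + IF c q cc η γ N) + r) - Bx χ u) k t‖ₑ ≤
        ‖E0 q cc γ k‖ₑ + ENNReal.ofReal (nk k * ee)) ∧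
      (∀ t, NW (Wa 0) (at' (wF c q cc η γ lm N + IF c q cc η γ N) t) ≤
        ENNReal.ofReal (Cv c q cc η γ lm * N * Real.exp (-(c * N ^ 2 * max t 0)))) ∧
      LN (fun t => NW (Wa 0) (at' r t)) ≤ ENNReal.ofReal ee := by
  obtain ⟨C, hCd⟩ : ∃ C, C = Cv c q cc η γ lm := ⟨_, rfl⟩
  have hC : 0 < C := by rw [hCd]; exact Cv_pos hc hG γ hlm
  obtain ⟨N0, hN0⟩ := step_coreX hχ hc ha0 hlm (half_pos hee) hG γ hS
  have hp0 : 0 < p := by linarith
  have ev1 : ∀ᶠ N : ℕ in atTop, C / Real.sqrt c * (2 / (c * δ)) / (ee / 2) ≤ N :=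
    tendsto_natCast_atTop_atTop.eventually_ge_atTop _
  have ev2 : ∀ᶠ N : ℕ in atTop, C / (c * δ) / (ee / 2) ≤ N :=
    tendsto_natCast_atTop_atTop.eventually_ge_atTop _
  have ev3 : ∀ᶠ N : ℕ in atTop, C ^ p / (p * c) * (N : ℝ) ^ (-(2 - p)) ≤ (ee / 2) ^ p := by
    have h1 := ((tendsto_rpow_neg_atTop (by linarith : 0 < 2 - p)).comp tendsto_natCast_atTop_atTop).const_mul
      (C ^ p / (p * c))
    rw [mul_zero] at h1
    exact (h1.eventually (gt_mem_nhds (show 0 < (ee / 2) ^ p by positivity))).mono fun N hN => hN.le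
  filter_upwards [eventually_ge_atTop N0, eventually_ge_atTop 1, ev1, ev2, ev3] with N m0 m1 m2 m3 m4
  have hN1 : (1 : ℝ) ≤ N := by exact_mod_cast m1
  have hNp : (0 : ℝ) < N := by linarith
  obtain ⟨a, ha, r, hsol, hrc, hv, hrm, hr, hnl⟩ := hN0 N m0
  rw [← hCd] at hv
  obtain ⟨v, hvd⟩ : ∃ v, v = wF c q cc η γ lm N + IF c q cc η γ N := ⟨_, rfl⟩
  rw [← hvd] at hsol hv hnl ⊢
  have hvc : CF v := by
    rw [hvd]
    exact fun k => (((Mo_cf _ _ _ k).add (Mo_cf _ _ _ k)).add ((Mo_cf _ _ _ k).add (Mo_cf _ _ _ k))).add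
      ((Mo_cf _ _ _ k).add (Mo_cf _ _ _ k))
  refine ⟨a, ha, r, hsol, hvc, hrc, ?_, ?_, ?_, fun t => (hrm t).trans (ENNReal.ofReal_le_ofReal (by linarith)),
    fun k => (hnl k).trans (add_le_add le_rfl (ENNReal.ofReal_le_ofReal
      (mul_le_mul_of_nonneg_left (by linarith) (nk_nonneg k)))), fun t => by rw [← hCd]; exact hv t,
    hr.trans (ENNReal.ofReal_le_ofReal (by linarith))⟩
  · refine (LNd_add hvc hrc).trans ?_
    have h2 : LNd δ v ≤ ENNReal.ofReal (ee / 2) :=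
      (LNd_exp (B := C * N) (σ := c * N ^ 2) (by positivity) (by positivity) hv).trans
        (ENNReal.ofReal_le_ofReal (num_small hc hδ hC.le hN1 hee m2))
    have h3 : LNd δ r ≤ ENNReal.ofReal (ee / 2) := (LNd_le_LN δ r).trans hr
    refine (add_le_add h2 h3).trans ?_
    rw [← ENNReal.ofReal_add (half_pos hee).le (half_pos hee).le, add_halves]
  · refine (LP_add hp1 hvc hrc).trans ?_
    have h2 : LP p v ≤ ENNReal.ofReal (ee / 2) := by
      refine LP_exp hp0 (B := C * N) (σ := c * N ^ 2) (by positivity) (by positivity) (half_pos hee).le hv ?_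
      refine le_trans (le_of_eq ?_) m4
      rw [Real.mul_rpow hC.le hNp.le, show -(2 - p) = p + (-2) by ring, Real.rpow_add hNp,
        Real.rpow_neg hNp.le, Real.rpow_two]
      field_simp
    have h3 : LP p r ≤ ENNReal.ofReal (ee / 2) := (LP_le_LN hp0 hp2.le hrc).trans hr
    refine (add_le_add h2 h3).trans ?_
    rw [← ENNReal.ofReal_add (half_pos hee).le (half_pos hee).le, add_halves]
  · intro t ht
    have e0 : at' (v + r) t = at' v t + at' r t := rfl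
    rw [e0]
    refine (NW_add_le _ _ _).trans ?_
    have h2 : NW (Wm 0) (at' v t) ≤ ENNReal.ofReal (ee / 2) := by
      refine (NW_mono Wm_le_Wa _).trans ((hv t).trans (ENNReal.ofReal_le_ofReal ?_))
      have h4 : Real.exp (-(c * N ^ 2 * max t 0)) ≤ 1 / (c * N ^ 2 * δ) := by
        have h5 : c * N ^ 2 * δ ≤ c * N ^ 2 * max t 0 := by
          have := le_max_left t 0
          gcongr
          linarith
        have h6 := Real.add_one_le_exp (c * N ^ 2 * max t 0)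
        rw [Real.exp_neg, inv_le_comm₀ (Real.exp_pos _) (by positivity), one_div, inv_inv]
        linarith
      calc C * N * Real.exp (-(c * N ^ 2 * max t 0)) ≤ C * N * (1 / (c * N ^ 2 * δ)) := by gcongr
        _ = C / (c * δ) / N := by field_simp
        _ ≤ ee / 2 := by
            rw [div_le_iff₀ hNp]
            rw [div_le_iff₀ (by positivity)] at m3
            linarith
    refine (add_le_add h2 (hrm t)).trans ?_
    rw [← ENNReal.ofReal_add (half_pos hee).le (half_pos hee).le, add_halves]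

/-- heat flow -/
noncomputable def Ht (c : ℝ) (W : K → C3) : Fam := fun k t => Real.exp (-(c * sq k * max t 0)) • W k

lemma SolX.dom' {χ : ℝ → ℝ} {c a : ℝ} (ha : 0 < a) {V : K → C3} {u : Fam} (h : SolX χ c a V u) : Dom u := by
  obtain ⟨b, hb, hb'⟩ := h.dom
  have hb0 : ∀ k, 0 ≤ b k := fun k => (norm_nonneg _).trans (hb' k 0)
  refine ⟨b, hb.of_nonneg_of_le hb0 fun k => ?_, hb'⟩
  calc b k = 1 * b k := (one_mul _).symm
    _ ≤ _ := mul_le_mul_of_nonneg_right (one_le_om ha.le k) (hb0 k)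

lemma CF.sub' {x y : Fam} (hx : CF x) (hy : CF y) : CF (x - y) := fun k => (hx k).sub (hy k)

end Pool.Agent.H356R3.NS.X
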