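import Pool.Agent.H3NX.StepK
import Pool.Agent.H3NX.NearX

set_option autoImplicit false
set_option maxHeartbeats 4000000
set_option synthInstance.maxHeartbeats 400000

/-!
The norm in `L^p_t`, `p < 2`, is controlled by the critical bound and the size for late times.
-/

open MeasureTheory Set Filter Topology
open scoped ENNReal NNReal

namespace Pool.Agent.H356R3.NS.X

lemma LP_of_KA {p ε ε' : ℝ} (hp1 : 1 ≤ p) (hp2 : p < 2) (hε : 0 < ε) (hε' : 0 < ε') :
    ∃ η0 : ℝ, 0 < η0 ∧ ∀ η : ℝ, 0 < η → η ≤ η0 → ∀ x : Fam, (∀ t, 0 < t → KA x t ≤ ENNReal.ofReal ε) →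
      (∀ t, η ≤ t → NW (Wa 0) (at' x t) ≤ ENNReal.ofReal (ε' / 2)) → LP p x ≤ ENNReal.ofReal ε' := by
  have hp0 : 0 < p := by linarith
  have ha : 0 < 1 - p / 2 := by linarith
  obtain ⟨A, hA⟩ : ∃ A, A = ε ^ p / (1 - p / 2) := ⟨_, rfl⟩
  have hAp : 0 < A := by rw [hA]; positivity
  have lim : Tendsto (fun t : ℝ => A * t ^ (1 - p / 2)) (𝓝[>] 0) (𝓝 0) := by
    have h5 : ContinuousAt (fun t : ℝ => t ^ (1 - p / 2)) 0 := Real.continuousAt_rpow_const _ _ (Or.inr ha.le)
    have h6 := h5.tendsto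
    rw [Real.zero_rpow ha.ne'] at h6
    have h7 := (h6.mono_left (nhdsWithin_le_nhds (s := Ioi (0 : ℝ)))).const_mul A
    rwa [mul_zero] at h7
  have hpos : 0 < (ε' / 2) ^ p := by positivity
  obtain ⟨η0, ⟨h1, h2⟩, h3⟩ := ((lim.eventually (gt_mem_nhds hpos)).and
    (Ioo_mem_nhdsGT (one_pos : (0 : ℝ) < 1)) |>.and self_mem_nhdsWithin).exists
  refine ⟨η0, h2.1, fun η hη hηη x hK hl => ?_⟩
  have hη1 : η < 1 := hηη.trans_lt h2.2
  have hAη : A * η ^ (1 - p / 2) ≤ (ε' / 2) ^ p := by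
    refine le_trans ?_ h1.le
    exact mul_le_mul_of_nonneg_left (Real.rpow_le_rpow hη.le hηη ha.le) hAp.le
  unfold LP
  have hsplit : Ioc (0 : ℝ) 1 = Ioc 0 η ∪ Ioc η 1 := (Ioc_union_Ioc_eq_Ioc hη.le hη1.le).symm
  have e1 : ∫⁻ t in Ioc 0 η, NW (Wa 0) (at' x t) ^ p ≤ ENNReal.ofReal ((ε' / 2) ^ p) := by
    have hint : IntervalIntegrable (fun t : ℝ => ε ^ p * t ^ (-(p / 2))) volume 0 η :=
      (intervalIntegral.intervalIntegrable_rpow' (by linarith)).const_mul _
    have hval : ∫ t in (0 : ℝ)..η, ε ^ p * t ^ (-(p / 2)) = A * η ^ (1 - p / 2) := by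
      rw [intervalIntegral.integral_const_mul, integral_rpow (Or.inl (by linarith)),
        Real.zero_rpow (by linarith), sub_zero, hA, show -(p / 2) + 1 = 1 - p / 2 by ring]
      ring
    calc ∫⁻ t in Ioc 0 η, NW (Wa 0) (at' x t) ^ p
        ≤ ∫⁻ t in Ioc 0 η, ENNReal.ofReal (ε ^ p * t ^ (-(p / 2))) := by
          refine setLIntegral_mono' measurableSet_Ioc fun t ht => ?_
          have ht0 : 0 < t := ht.1
          have hst : 0 < √t := Real.sqrt_pos.2 ht0
          have h4 := hK t ht0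
          unfold KA at h4
          rw [min_eq_left (ht.2.trans hη1.le)] at h4
          have h5 : NW (Wa 0) (at' x t) ≤ ENNReal.ofReal (ε / √t) := by
            rw [ENNReal.ofReal_div_of_pos hst, ENNReal.le_div_iff_mul_le (Or.inl (by
              rw [Ne, ENNReal.ofReal_eq_zero, not_le]; exact hst)) (Or.inl ENNReal.ofReal_ne_top), mul_comm]
            exact h4
          refine (ENNReal.rpow_le_rpow h5 hp0.le).trans (le_of_eq ?_)
          rw [ENNReal.ofReal_rpow_of_nonneg (by positivity) hp0.le]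
          congr 1
          rw [Real.div_rpow hε.le hst.le, Real.sqrt_eq_rpow, ← Real.rpow_mul ht0.le,
            Real.rpow_neg ht0.le, show 1 / 2 * p = p / 2 by ring]
          rfl
      _ = ENNReal.ofReal (∫ t in (0 : ℝ)..η, ε ^ p * t ^ (-(p / 2))) := by
          rw [intervalIntegral.integral_of_le hη.le]
          rw [intervalIntegrable_iff_integrableOn_Ioc_of_le hη.le] at hint
          rw [ofReal_integral_eq_lintegral_ofReal hint]
          filter_upwards [ae_restrict_mem measurableSet_Ioc] with t ht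
          have : 0 < t := ht.1
          show 0 ≤ ε ^ p * t ^ (-(p / 2))
          positivity
      _ ≤ _ := by rw [hval]; exact ENNReal.ofReal_le_ofReal hAη
  have e2 : ∫⁻ t in Ioc η 1, NW (Wa 0) (at' x t) ^ p ≤ ENNReal.ofReal ((ε' / 2) ^ p) := by
    calc ∫⁻ t in Ioc η 1, NW (Wa 0) (at' x t) ^ p ≤ ∫⁻ _ in Ioc η 1, ENNReal.ofReal ((ε' / 2) ^ p) := by
          refine setLIntegral_mono' measurableSet_Ioc fun t ht => ?_
          rw [← ENNReal.ofReal_rpow_of_nonneg (by positivity) hp0.le]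
          exact ENNReal.rpow_le_rpow (hl t ht.1.le) hp0.le
      _ = ENNReal.ofReal ((ε' / 2) ^ p) * ENNReal.ofReal (1 - η) := by
          rw [setLIntegral_const, Real.volume_Ioc]
      _ ≤ ENNReal.ofReal ((ε' / 2) ^ p) * 1 := by
          apply mul_le_mul' le_rfl
          rw [ENNReal.ofReal_le_one]
          linarith
      _ = _ := mul_one _
  have e3 : ∫⁻ t in Ioc 0 1, NW (Wa 0) (at' x t) ^ p ≤ ENNReal.ofReal (ε' ^ p) := by
    calc ∫⁻ t in Ioc 0 1, NW (Wa 0) (at' x t) ^ p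
        = ∫⁻ t in Ioc 0 η ∪ Ioc η 1, NW (Wa 0) (at' x t) ^ p := by rw [← hsplit]
      _ ≤ (∫⁻ t in Ioc 0 η, NW (Wa 0) (at' x t) ^ p) + ∫⁻ t in Ioc η 1, NW (Wa 0) (at' x t) ^ p :=
          lintegral_union_le _ _ _
      _ ≤ ENNReal.ofReal ((ε' / 2) ^ p) + ENNReal.ofReal ((ε' / 2) ^ p) := add_le_add e1 e2
      _ ≤ _ := by
          rw [← ENNReal.ofReal_add hpos.le hpos.le]
          apply ENNReal.ofReal_le_ofReal
          have h5 : (2 : ℝ) ≤ 2 ^ p := by
            calc (2 : ℝ) = 2 ^ (1 : ℝ) := (Real.rpow_one _).symm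
              _ ≤ 2 ^ p := Real.rpow_le_rpow_of_exponent_le (by norm_num) hp1
          have h6 : (ε' / 2) ^ p * 2 ^ p = ε' ^ p := by
            rw [← Real.mul_rpow (by positivity) (by norm_num)]
            congr 1
            ring
          calc (ε' / 2) ^ p + (ε' / 2) ^ p = (ε' / 2) ^ p * 2 := by ring
            _ ≤ (ε' / 2) ^ p * 2 ^ p := mul_le_mul_of_nonneg_left h5 hpos.le
            _ = _ := h6
  calc (∫⁻ t in Ioc 0 1, NW (Wa 0) (at' x t) ^ p) ^ (1 / p) ≤ ENNReal.ofReal (ε' ^ p) ^ (1 / p) :=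
        ENNReal.rpow_le_rpow e3 (by positivity)
    _ = ENNReal.ofReal ε' := by
        rw [ENNReal.ofReal_rpow_of_nonneg (by positivity) (by positivity), ← Real.rpow_mul hε'.le,
          mul_one_div_cancel hp0.ne', Real.rpow_one]

end Pool.Agent.H356R3.NS.X
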