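import Pool.Agent.H3NX.Smooth
import Pool.Agent.H3NX.KBd

set_option autoImplicit false
set_option maxHeartbeats 4000000
set_option synthInstance.maxHeartbeats 400000

/-!
One step of the construction, with bounds of the form `√t ‖u(t)‖ ≤ κ`.
-/

open MeasureTheory Set Filter Topology
open scoped ENNReal NNReal

namespace Pool.Agent.H356R3.NS.X

open Pool.Agent.H356R3.NS.H3

lemma NW_ws_ge {s : ℕ} {x : K → C3} (h0 : x 0 = 0) : NW (Wa 0) x ≤ NW (ws s) x := by
  unfold NW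
  refine ENNReal.tsum_le_tsum fun k => ?_
  by_cases hk : k = 0
  · subst hk
    rw [h0]; simp
  · apply mul_le_mul' _ le_rfl
    unfold Wa ws
    apply ENNReal.ofReal_le_ofReal
    have o : om 0 k = 1 := by simp [om]
    rw [o]
    exact one_le_pow₀ (one_le_nk hk)

/-- interpolation between the Lei-Lin norm and a high norm -/
lemma interp_s (s : ℕ) {x : K → C3} (h0 : x 0 = 0) :
    NW (ws s) x * NW (ws s) x ≤ NW (Wm 0) x * NW (ws (2 * s + 1)) x := by
  have key : ∀ k l, (ws s k * ‖x k‖ₑ) * (ws s l * ‖x l‖ₑ) + (ws s k * ‖x k‖ₑ) * (ws s l * ‖x l‖ₑ)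
      ≤ (Wm 0 k * ‖x k‖ₑ) * (ws (2 * s + 1) l * ‖x l‖ₑ) + (ws (2 * s + 1) k * ‖x k‖ₑ) * (Wm 0 l * ‖x l‖ₑ) := by
    intro k l
    by_cases hk : k = 0
    · subst hk; simp [h0]
    by_cases hl : l = 0
    · subst hl; simp [h0]
    have p1 := nk_pos hk
    have p2 := nk_pos hl
    have o : ∀ k, om 0 k = 1 := fun k => by simp [om]
    have e1 : (ws s k * ‖x k‖ₑ) * (ws s l * ‖x l‖ₑ) + (ws s k * ‖x k‖ₑ) * (ws s l * ‖x l‖ₑ)
        = ENNReal.ofReal (nk k ^ s * nk l ^ s + nk k ^ s * nk l ^ s) * (‖x k‖ₑ * ‖x l‖ₑ) := by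
      unfold ws
      rw [ENNReal.ofReal_add (by positivity) (by positivity), ENNReal.ofReal_mul (by positivity)]
      ring
    have e2 : (Wm 0 k * ‖x k‖ₑ) * (ws (2 * s + 1) l * ‖x l‖ₑ) + (ws (2 * s + 1) k * ‖x k‖ₑ) * (Wm 0 l * ‖x l‖ₑ)
        = ENNReal.ofReal (1 / nk k * nk l ^ (2 * s + 1) + nk k ^ (2 * s + 1) * (1 / nk l)) * (‖x k‖ₑ * ‖x l‖ₑ) := by
      unfold ws Wm
      rw [o, o, ENNReal.ofReal_add (by positivity) (by positivity), ENNReal.ofReal_mul (by positivity),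
        ENNReal.ofReal_mul (by positivity)]
      ring
    rw [e1, e2]
    apply mul_le_mul' _ le_rfl
    apply ENNReal.ofReal_le_ofReal
    have h1 : 1 / nk k * nk l ^ (2 * s + 1) + nk k ^ (2 * s + 1) * (1 / nk l)
        = ((nk l ^ (s + 1)) ^ 2 + (nk k ^ (s + 1)) ^ 2) / (nk k * nk l) := by
      field_simp
      ring
    have h2 : nk k ^ s * nk l ^ s + nk k ^ s * nk l ^ s
        = (2 * (nk k ^ (s + 1) * nk l ^ (s + 1))) / (nk k * nk l) := by
      field_simp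
      ring
    rw [h1, h2]
    apply div_le_div_of_nonneg_right _ (by positivity)
    nlinarith [sq_nonneg (nk l ^ (s + 1) - nk k ^ (s + 1))]
  have h1 : NW (ws s) x * NW (ws s) x + NW (ws s) x * NW (ws s) x
      ≤ NW (Wm 0) x * NW (ws (2 * s + 1)) x + NW (Wm 0) x * NW (ws (2 * s + 1)) x := by
    calc NW (ws s) x * NW (ws s) x + NW (ws s) x * NW (ws s) x
        = ∑' k, ∑' l, ((ws s k * ‖x k‖ₑ) * (ws s l * ‖x l‖ₑ) + (ws s k * ‖x k‖ₑ) * (ws s l * ‖x l‖ₑ)) := by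
          unfold NW
          simp only [ENNReal.tsum_add, ENNReal.tsum_mul_left, ENNReal.tsum_mul_right]
      _ ≤ ∑' k, ∑' l, ((Wm 0 k * ‖x k‖ₑ) * (ws (2 * s + 1) l * ‖x l‖ₑ)
            + (ws (2 * s + 1) k * ‖x k‖ₑ) * (Wm 0 l * ‖x l‖ₑ)) :=
          ENNReal.tsum_le_tsum fun k => ENNReal.tsum_le_tsum fun l => key k l
      _ = _ := by
          unfold NW
          simp only [ENNReal.tsum_add, ENNReal.tsum_mul_left, ENNReal.tsum_mul_right]
          rw [mul_comm (∑' k, ws (2 * s + 1) k * ‖x k‖ₑ)]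
  by_cases ht : NW (Wm 0) x * NW (ws (2 * s + 1)) x = ⊤
  · rw [ht]; exact le_top
  rw [← two_mul, ← two_mul] at h1
  exact (ENNReal.mul_le_mul_iff_right (by norm_num) (by norm_num)).1 h1

lemma solX_bdd {χ : ℝ → ℝ} {c a : ℝ} (ha : 0 ≤ a) {V : K → C3} {u : Fam} (h : SolX χ c a V u) :
    ∃ Mu : ℝ, 0 ≤ Mu ∧ ∀ t, NW (Wa 0) (at' u t) ≤ ENNReal.ofReal Mu := by
  obtain ⟨b, hb, hb'⟩ := h.dom
  have hb0 : ∀ k, 0 ≤ b k := fun k => (norm_nonneg _).trans (hb' k 0)
  refine ⟨∑' k, om a k * b k, tsum_nonneg fun k => mul_nonneg (om_pos _ _).le (hb0 k), fun t => ?_⟩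
  rw [ENNReal.ofReal_tsum_of_nonneg (fun k => mul_nonneg (om_pos _ _).le (hb0 k)) hb]
  unfold NW Wa at'
  refine ENNReal.tsum_le_tsum fun k => ?_
  rw [ENNReal.ofReal_mul (om_pos _ _).le, ← ofReal_norm]
  exact mul_le_mul' (ENNReal.ofReal_le_ofReal (om_mono ha k)) (ENNReal.ofReal_le_ofReal (hb' k t))


/-- `√(min t 1) ‖x(t)‖` in the Wiener algebra -/
noncomputable def KA (x : Fam) (t : ℝ) : ℝ≥0∞ := ENNReal.ofReal (√(min t 1)) * NW (Wa 0) (at' x t)

lemma KA_add_le (x y : Fam) (t : ℝ) : KA (x + y) t ≤ KA x t + KA y t := by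
  unfold KA
  rw [← mul_add]
  exact mul_le_mul' le_rfl (NW_add_le _ _ _)

lemma KA_zero (t : ℝ) : KA (0 : Fam) t = 0 := by
  unfold KA
  have h : NW (Wa 0) (at' (0 : Fam) t) = 0 := NW_zero _
  rw [h, mul_zero]

lemma KA_neg (x : Fam) (t : ℝ) : KA (-x) t = KA x t := by
  unfold KA
  congr 1
  exact NW_neg _ _

lemma KA_sub_le (x y : Fam) (t : ℝ) : KA (x - y) t ≤ KA x t + KA y t := by
  rw [sub_eq_add_neg, ← KA_neg y]
  exact KA_add_le _ _ _

lemma KA_le (x : Fam) (t : ℝ) : KA x t ≤ NW (Wa 0) (at' x t) := by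
  unfold KA
  calc _ ≤ 1 * NW (Wa 0) (at' x t) := by
        apply mul_le_mul' _ le_rfl
        rw [ENNReal.ofReal_le_one]
        exact Real.sqrt_le_one.2 (min_le_right _ _)
    _ = _ := one_mul _

lemma KA_small {x : Fam} {M : ℝ} (hM : 0 ≤ M) {t ε : ℝ} (h : NW (Wa 0) (at' x t) ≤ ENNReal.ofReal M)
    (ht : √t * M ≤ ε) : KA x t ≤ ENNReal.ofReal ε := by
  unfold KA
  refine (mul_le_mul' le_rfl h).trans ?_
  rw [← ENNReal.ofReal_mul (Real.sqrt_nonneg _)]
  refine ENNReal.ofReal_le_ofReal (le_trans ?_ ht)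
  exact mul_le_mul_of_nonneg_right (Real.sqrt_le_sqrt (min_le_left _ _)) hM

/-- closeness in the Wiener algebra by interpolation -/
lemma A_of_Wm {x : K → C3} (h0 : x 0 = 0) {e B ε : ℝ} (he : 0 ≤ e) (hε : 0 ≤ ε)
    (h1 : NW (Wm 0) x ≤ ENNReal.ofReal e) (h2 : NW (ws 1) x ≤ ENNReal.ofReal B) (h : e * B ≤ ε ^ 2) :
    NW (Wa 0) x ≤ ENNReal.ofReal ε := by
  refine (NW_ws_ge (s := 0) h0).trans ?_
  have h3 := (interp_s 0 h0).trans (mul_le_mul' h1 h2)
  rw [← ENNReal.ofReal_mul he] at h3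
  have h4 : ENNReal.ofReal (e * B) ≤ ENNReal.ofReal ε * ENNReal.ofReal ε := by
    rw [← ENNReal.ofReal_mul hε]
    apply ENNReal.ofReal_le_ofReal
    rw [← pow_two]
    exact h
  have h5 := h3.trans h4
  by_contra h6
  push Not at h6
  exact absurd h5 (not_le.2 (ENNReal.mul_lt_mul h6 h6))

variable {q cc η : K}

lemma NW_E0 (γ : ℂ) : NW (Wa 0) (E0 q cc γ) ≤ ENNReal.ofReal (2 * (‖γ‖ * ‖cK cc‖)) := by
  have o : ∀ k : K, Wa 0 k = 1 := fun k => by unfold Wa; simp [om]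
  unfold E0
  refine (NW_add_le _ _ _).trans ?_
  rw [NW_Sg, NW_Sg, o, o, one_mul, one_mul, two_mul, ENNReal.ofReal_add (by positivity) (by positivity),
    ← ofReal_norm, ← ofReal_norm, norm_smul, norm_smul, norm_star]

lemma NW_expE (f : K → ℝ) (hf : ∀ k, 0 ≤ f k) (x : K → C3) :
    NW (Wa 0) (fun k => Real.exp (-(f k)) • x k) ≤ NW (Wa 0) x := by
  unfold NW
  refine ENNReal.tsum_le_tsum fun k => mul_le_mul' le_rfl ?_
  rw [enorm_smul, Real.enorm_of_nonneg (Real.exp_pos _).le]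
  calc ENNReal.ofReal (Real.exp (-(f k))) * ‖x k‖ₑ ≤ 1 * ‖x k‖ₑ := by
        apply mul_le_mul' _ le_rfl
        rw [ENNReal.ofReal_le_one, Real.exp_le_one_iff]
        linarith [hf k]
    _ = _ := one_mul _

/-- `√t C N exp(-c N² t) ≤ C / √c` -/
lemma sqrt_exp_le {c C N t : ℝ} (hc : 0 < c) (hC : 0 ≤ C) (ht : 0 ≤ t) :
    √t * (C * N * Real.exp (-(c * N ^ 2 * t))) ≤ C / √c := by
  have hsc : 0 < √c := Real.sqrt_pos.2 hc
  have e1 : c * N ^ 2 * t = (√c * N * √t) ^ 2 := by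
    rw [mul_pow, mul_pow, Real.sq_sqrt hc.le, Real.sq_sqrt ht]
  rw [e1, le_div_iff₀ hsc]
  obtain ⟨y, hy⟩ : ∃ y, y = √c * N * √t := ⟨_, rfl⟩
  rw [← hy]
  have h1 := Real.add_one_le_exp (y ^ 2)
  have h2 := Real.exp_pos (y ^ 2)
  have h3 : y * Real.exp (-(y ^ 2)) ≤ 1 := by
    rw [Real.exp_neg, ← div_eq_mul_inv, div_le_one h2]
    nlinarith [sq_nonneg (y - 1)]
  calc √t * (C * N * Real.exp (-y ^ 2)) * √c = C * (y * Real.exp (-(y ^ 2))) := by rw [hy]; ring
    _ ≤ C * 1 := mul_le_mul_of_nonneg_left h3 hC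
    _ = C := mul_one C

theorem step2K {χ : ℝ → ℝ} {h : ℝ} (hχ : CutH χ h) {c a0 lm δ ee p κ : ℝ} (hc : 0 < c) (ha0 : 0 < a0)
    (hlm : 0 < lm) (hδ : 0 < δ) (hee : 0 < ee) (hp1 : 1 ≤ p) (hp2 : p < 2) (hκ : 0 < κ)
    (hG : Geo q cc η) (γ : ℂ)
    (hκ1 : Cv c q cc η γ lm / √c + Cv c q cc η γ lm + √2 / √c * (C0 * (5 * (Cv c q cc η γ lm / √c) ^ 2)) ≤ κ / 2)
    (hκ2 : √2 / √c * C0 * (2 * κ) ≤ 1 / 8) {V : K → C3} {u : Fam}
    (hS : SolX χ c a0 V u) : ∀ᶠ N : ℕ in atTop, ∃ a : ℝ, 0 < a ∧ ∃ r : Fam,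
      SolX χ c a (V + (E0 q cc γ + W0 c q cc η γ lm N))
        (u + (wF c q cc η γ lm N + IF c q cc η γ N) + r) ∧ CF (wF c q cc η γ lm N + IF c q cc η γ N) ∧ CF r ∧
      LNd δ (wF c q cc η γ lm N + IF c q cc η γ N + r) ≤ ENNReal.ofReal ee ∧
      LP p (wF c q cc η γ lm N + IF c q cc η γ N + r) ≤ ENNReal.ofReal ee ∧
      (∀ t, δ ≤ t → NW (Wa 0) (at' (wF c q cc η γ lm N + IF c q cc η γ N + r) t) ≤ ENNReal.ofReal ee) ∧
      (∀ t, NW (Wm 0) (at' r t) ≤ ENNReal.ofReal ee) ∧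
      (∀ k, ∫⁻ t in Ioi 0, ‖(Bx χ (u + (wF c q cc η γ lm N + IF c q cc η γ N) + r) - Bx χ u) k t‖ₑ ≤
        ‖E0 q cc γ k‖ₑ + ENNReal.ofReal (nk k * ee)) ∧
      ∀ t, 0 < t → KA (wF c q cc η γ lm N + IF c q cc η γ N + r) t ≤ ENNReal.ofReal κ := by
  obtain ⟨C, hCd⟩ : ∃ C, C = Cv c q cc η γ lm := ⟨_, rfl⟩
  have hC : 0 < C := by rw [hCd]; exact Cv_pos hc hG γ hlm
  rw [← hCd] at hκ1
  have hC0 := C0_pos
  have hsc : 0 < √c := Real.sqrt_pos.2 hc
  obtain ⟨Q, hQ⟩ : ∃ Q, Q = √2 / √c := ⟨_, rfl⟩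
  have hQ0 : 0 < Q := by rw [hQ]; positivity
  obtain ⟨Mu, hMu, hub⟩ := solX_bdd ha0.le hS
  obtain ⟨x0, hx0⟩ : ∃ x0, x0 = min 1 (1 / (16 * Q * C0 * (Mu + 1))) := ⟨_, rfl⟩
  have hx0p : 0 < x0 := by rw [hx0]; positivity
  have hx01 : x0 ≤ 1 := by rw [hx0]; exact min_le_left _ _
  have hx02 : x0 ≤ 1 / (16 * Q * C0 * (Mu + 1)) := by rw [hx0]; exact min_le_right _ _
  obtain ⟨η0, hη0⟩ : ∃ η0, η0 = x0 ^ 2 := ⟨_, rfl⟩
  have hη0p : 0 < η0 := by rw [hη0]; positivity
  have hη01 : η0 ≤ 1 := by rw [hη0]; exact pow_le_one₀ hx0p.le hx01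
  have hη0s : √η0 = x0 := by rw [hη0]; exact Real.sqrt_sq hx0p.le
  obtain ⟨δ2, hδ2⟩ : ∃ δ2, δ2 = min δ η0 := ⟨_, rfl⟩
  have hδ2p : 0 < δ2 := by rw [hδ2]; exact lt_min hδ hη0p
  have hδ21 : δ2 ≤ δ := by rw [hδ2]; exact min_le_left _ _
  have hδ22 : δ2 ≤ η0 := by rw [hδ2]; exact min_le_right _ _
  obtain ⟨L, hL⟩ : ∃ L, L = (LNd (δ2 / 2) u).toReal + 1 := ⟨_, rfl⟩
  have hLfin : LNd (δ2 / 2) u ≠ ⊤ :=
    ne_top_of_le_ne_top hS.l2 ((LNd_le_LN _ u).trans (LN_mono fun t _ => NW_mono (fun k => Wa_mono ha0.le k) _))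
  have hL0 : 0 ≤ L := by rw [hL]; positivity
  obtain ⟨B, hB, hsm⟩ := smoothing hc hL0 1 (δ2 / 2) δ2 (by positivity) (by linarith)
  obtain ⟨e2, he2⟩ : ∃ e2, e2 = min ee κ := ⟨_, rfl⟩
  have he2p : 0 < e2 := by rw [he2]; exact lt_min hee hκ
  obtain ⟨L2, hL2⟩ : ∃ L2, L2 = (LN fun t => NW (Wa 0) (at' u t)).toReal := ⟨_, rfl⟩
  have hL2fin : (LN fun t => NW (Wa 0) (at' u t)) ≠ ⊤ :=
    ne_top_of_le_ne_top hS.l2 (LN_mono fun t _ => NW_mono (fun k => Wa_mono ha0.le k) _)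
  have hL2' : (LN fun t => NW (Wa 0) (at' u t)) = ENNReal.ofReal L2 := by rw [hL2, ENNReal.ofReal_toReal hL2fin]
  have hL20 : 0 ≤ L2 := by rw [hL2]; exact ENNReal.toReal_nonneg
  obtain ⟨X, hX⟩ : ∃ X, X = C / √c := ⟨_, rfl⟩
  have hXp : 0 < X := by rw [hX]; positivity
  obtain ⟨e', he'⟩ : ∃ e', e' = min (min ee 1) (min (min X (X ^ 2 / (4 * (L2 + 1)))) (e2 ^ 2 / (2 * B + 1))) := ⟨_, rfl⟩
  have he'p : 0 < e' := by rw [he']; positivity
  have he'1 : e' ≤ ee := by rw [he']; exact (min_le_left _ _).trans (min_le_left _ _)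
  have he'2 : e' ≤ 1 := by rw [he']; exact (min_le_left _ _).trans (min_le_right _ _)
  have he'3 : e' ≤ X := by rw [he']; exact (min_le_right _ _).trans ((min_le_left _ _).trans (min_le_left _ _))
  have he'4 : e' ≤ X ^ 2 / (4 * (L2 + 1)) := by
    rw [he']; exact (min_le_right _ _).trans ((min_le_left _ _).trans (min_le_right _ _))
  have he'5 : e' ≤ e2 ^ 2 / (2 * B + 1) := by rw [he']; exact (min_le_right _ _).trans (min_le_right _ _)
  have ev1 : ∀ᶠ N : ℕ in atTop, 4 * (Mu * C / c) / X ^ 2 ≤ N := tendsto_natCast_atTop_atTop.eventually_ge_atTop _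
  filter_upwards [step2X hχ hc ha0 hlm (half_pos hδ2p) he'p hp1 hp2 hG γ hS, ev1, eventually_ge_atTop 1]
    with N hN hN1 hN2
  obtain ⟨a, ha, r, hsol, hvc, hrc, h1, h2, h3, h4, h5, h6, h7⟩ := hN
  have hNr : (1 : ℝ) ≤ N := by exact_mod_cast hN2
  have hNp : (0 : ℝ) < N := by linarith
  rw [← hCd] at h6
  obtain ⟨v, hvd⟩ : ∃ v, v = wF c q cc η γ lm N + IF c q cc η γ N := ⟨_, rfl⟩
  have hvI : ∀ t, at' v t = at' (wF c q cc η γ lm N) t + at' (IF c q cc η γ N) t := fun t => by rw [hvd]; rfl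
  rw [← hvd] at hsol hvc h1 h2 h3 h5 h6 ⊢
  refine ⟨a, ha, r, ?_⟩
  obtain ⟨d, hd⟩ : ∃ d, d = v + r := ⟨_, rfl⟩
  have hud : u + v + r = u + d := by rw [hd, add_assoc]
  have hdc : CF d := by rw [hd]; exact fun k => (hvc k).add (hrc k)
  rw [← hd] at h1 h2 h3 ⊢
  rw [hud] at hsol h5 ⊢
  have hd0 : ∀ t, at' d t 0 = 0 := fun t => by
    have e1 := hsol.z t
    have e2 := hS.z t
    have e3 : (u + d) 0 t = u 0 t + d 0 t := rfl
    rw [e3, e2, zero_add] at e1
    exact e1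
  have hudom := SolX.dom' ha0 hS
  have hsdom := SolX.dom' ha hsol
  have hddom : Dom d := by
    obtain ⟨b1, hb1, hb1'⟩ := hudom
    obtain ⟨b2, hb2, hb2'⟩ := hsdom
    refine ⟨fun k => b1 k + b2 k, hb1.add hb2, fun k t => ?_⟩
    have e1 : d k t = (u + d) k t - u k t := by
      show d k t = (u k t + d k t) - u k t
      abel
    rw [e1]
    refine (norm_sub_le _ _).trans ?_
    have := hb1' k t
    have := hb2' k t
    linarith
  -- late times
  have hlate : ∀ t, δ2 ≤ t → NW (Wa 0) (at' d t) ≤ ENNReal.ofReal e2 := by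
    intro t ht
    have w1 : NW (ws 1) (at' u t) ≤ ENNReal.ofReal B := hsm χ hχ.toCutT a0 ha0 V u hS (by
      rw [hL, ENNReal.ofReal_add ENNReal.toReal_nonneg zero_le_one, ENNReal.ofReal_toReal hLfin]
      exact le_self_add) t ht
    have w2 : NW (ws 1) (at' (u + d) t) ≤ ENNReal.ofReal B := hsm χ hχ.toCutT a ha _ _ hsol (by
      rw [hL, ENNReal.ofReal_add ENNReal.toReal_nonneg zero_le_one, ENNReal.ofReal_toReal hLfin]
      exact (LNd_add hS.cf hdc).trans (add_le_add le_rfl (h1.trans (ENNReal.ofReal_le_ofReal he'2)))) t ht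
    have w3 : NW (ws 1) (at' d t) ≤ ENNReal.ofReal (2 * B) := by
      have e1 : at' d t = at' (u + d) t - at' u t := by
        funext k
        show d k t = (u k t + d k t) - u k t
        abel
      rw [e1, two_mul, ENNReal.ofReal_add hB hB]
      exact (NW_sub_le _ _ _).trans (add_le_add w2 w1)
    refine A_of_Wm (hd0 t) he'p.le he2p.le (h3 t (by linarith)) w3 ?_
    rw [le_div_iff₀ (by positivity)] at he'5
    nlinarith
  -- small times
  have hLv : LN (fun t => NW (Wa 0) (at' v t)) ≤ ENNReal.ofReal X := by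
    have hσ : 0 < c * (N : ℝ) ^ 2 := by positivity
    refine (LN_mono (ψ := fun t => ENNReal.ofReal (C * N) * ENNReal.ofReal (Real.exp (-(c * N ^ 2 * max t 0))))
      fun t _ => ?_).trans ?_
    · rw [← ENNReal.ofReal_mul (by positivity)]
      exact h6 t
    · rw [LN_const_mul _ (by fun_prop), LN_e hσ, ← ENNReal.ofReal_mul (by positivity)]
      apply ENNReal.ofReal_le_ofReal
      have e1 : √(1 / (2 * (c * (N : ℝ) ^ 2))) ≤ 1 / (√c * N) := by
        rw [Real.sqrt_le_left (by positivity), div_pow, one_pow, mul_pow, Real.sq_sqrt hc.le]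
        apply one_div_le_one_div_of_le hσ
        linarith
      calc C * N * √(1 / (2 * (c * (N : ℝ) ^ 2))) ≤ C * N * (1 / (√c * N)) :=
            mul_le_mul_of_nonneg_left e1 (by positivity)
        _ = X := by rw [hX]; field_simp
  have mv : Measurable fun t => NW (Wa 0) (at' v t) := NW_meas _ hvc
  have mr : Measurable fun t => NW (Wa 0) (at' r t) := NW_meas _ hrc
  have mu : Measurable fun t => NW (Wa 0) (at' u t) := NW_meas _ hS.cf
  have md : Measurable fun t => NW (Wa 0) (at' d t) := NW_meas _ hdc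
  have hdle : ∀ t, NW (Wa 0) (at' d t) ≤ NW (Wa 0) (at' v t) + NW (Wa 0) (at' r t) := fun t => by
    rw [hd]; exact NW_add_le _ _ _
  have hLd : LN (fun t => NW (Wa 0) (at' d t)) ≤ ENNReal.ofReal (2 * X) := by
    refine (LN_mono fun t _ => hdle t).trans ((LN_add_le mv mr).trans ((add_le_add hLv h7).trans ?_))
    rw [← ENNReal.ofReal_add hXp.le he'p.le]
    exact ENNReal.ofReal_le_ofReal (by linarith)
  have hmix : ∫⁻ t in Ioi 0, NW (Wa 0) (at' u t) * NW (Wa 0) (at' d t) ≤ ENNReal.ofReal (X ^ 2 / 2) := by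
    have hσ : 0 < c * (N : ℝ) ^ 2 := by positivity
    calc ∫⁻ t in Ioi 0, NW (Wa 0) (at' u t) * NW (Wa 0) (at' d t)
        ≤ ∫⁻ t in Ioi 0, (ENNReal.ofReal (Mu * (C * N)) * ENNReal.ofReal (Real.exp (-(c * N ^ 2 * max t 0)))
            + NW (Wa 0) (at' u t) * NW (Wa 0) (at' r t)) := by
          refine lintegral_mono fun t => (mul_le_mul' le_rfl (hdle t)).trans ?_
          rw [mul_add]
          refine add_le_add ?_ le_rfl
          rw [← ENNReal.ofReal_mul (by positivity), mul_assoc, ENNReal.ofReal_mul hMu]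
          exact mul_le_mul' (hub t) (h6 t)
      _ = ENNReal.ofReal (Mu * (C * N)) * ENNReal.ofReal (1 / (c * N ^ 2))
            + ∫⁻ t in Ioi 0, NW (Wa 0) (at' u t) * NW (Wa 0) (at' r t) := by
          rw [lintegral_add_left (by fun_prop), lintegral_const_mul' _ _ ENNReal.ofReal_ne_top, lint_e hσ]
      _ ≤ ENNReal.ofReal (X ^ 2 / 4) + ENNReal.ofReal (X ^ 2 / 4) := by
          refine add_le_add ?_ ?_
          · rw [← ENNReal.ofReal_mul (by positivity)]
            apply ENNReal.ofReal_le_ofReal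
            rw [div_le_iff₀ (by positivity)] at hN1
            have e1 : Mu * (C * N) * (1 / (c * (N : ℝ) ^ 2)) = (Mu * C / c) / N := by field_simp
            rw [e1, div_le_iff₀ hNp]
            linarith
          · refine (LN_cs mu mr).trans ((mul_le_mul' (le_of_eq hL2') h7).trans ?_)
            rw [← ENNReal.ofReal_mul hL20]
            apply ENNReal.ofReal_le_ofReal
            rw [le_div_iff₀ (by positivity)] at he'4
            nlinarith
      _ = _ := by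
          rw [← ENNReal.ofReal_add (by positivity) (by positivity)]
          congr 1
          ring
  have hP : ∫⁻ t in Ioi 0, (2 * (NW (Wa 0) (at' u t) * NW (Wa 0) (at' d t)) + NW (Wa 0) (at' d t) * NW (Wa 0) (at' d t))
      ≤ ENNReal.ofReal (5 * X ^ 2) := by
    rw [lintegral_add_left (by fun_prop), lintegral_const_mul' _ _ (by norm_num)]
    calc _ ≤ 2 * ENNReal.ofReal (X ^ 2 / 2) + ENNReal.ofReal (2 * X) * ENNReal.ofReal (2 * X) :=
          add_le_add (mul_le_mul' le_rfl hmix) ((LN_cs md md).trans (mul_le_mul' hLd hLd))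
      _ = ENNReal.ofReal (5 * X ^ 2) := by
          rw [← ENNReal.ofReal_ofNat, ← ENNReal.ofReal_mul (by norm_num), ← ENNReal.ofReal_mul (by positivity),
            ← ENNReal.ofReal_add (by positivity) (by positivity)]
          congr 1
          ring
  have hBc : CF (Bx χ (u + d) - Bx χ u) := CF.sub' (Bx_cont hχ.toCutT hsol.cf hsdom) (Bx_cont hχ.toCutT hS.cf hudom)
  have hfix : ∀ k t, d k t = Real.exp (-(c * sq k * max t 0)) • (E0 q cc γ + W0 c q cc η γ lm N) k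
      + Duh c ((0 : Fam) + (Bx χ (u + d) - Bx χ u)) k t := by
    intro k t
    rw [zero_add, Duh_sub (Bx_cont hχ.toCutT hsol.cf hsdom) (Bx_cont hχ.toCutT hS.cf hudom)]
    have e1 := hsol.eq k t
    have e2 := hS.eq k t
    have e3 : (u + d) k t = u k t + d k t := rfl
    rw [e3, e2] at e1
    have e4 : d k t = (Real.exp (-(c * sq k * max t 0)) • V k + Duh c (Bx χ u) k t + d k t)
        - (Real.exp (-(c * sq k * max t 0)) • V k + Duh c (Bx χ u) k t) := by abel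
    rw [e4, e1]
    show Real.exp (-(c * sq k * max t 0)) • (V k + (E0 q cc γ + W0 c q cc η γ lm N) k) + Duh c (Bx χ (u + d)) k t
      - (Real.exp (-(c * sq k * max t 0)) • V k + Duh c (Bx χ u) k t)
      = Real.exp (-(c * sq k * max t 0)) • (E0 q cc γ + W0 c q cc η γ lm N) k
        + (Duh c (Bx χ (u + d)) k t - Duh c (Bx χ u) k t)
    rw [smul_add]
    abel
  have hcont : Continuous fun t => ∑' k, ‖d k t‖ := by
    obtain ⟨b, hb, hb'⟩ := hddom
    exact continuous_tsum (fun k => (hdc k).norm) hb fun k t => by rw [norm_norm]; exact hb' k t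
  have hCI : 4 * (‖γ‖ * ‖cK cc‖) ≤ C := by
    rw [hCd]
    unfold Cv
    have := sq_pos hG.hq
    have := sq_pos hG.hη
    have := Real.pi_pos
    have : 0 ≤ 4 * (lm * ‖cK q‖) + 4 * (c * sq η * ‖γ‖ / (Real.pi * sq q * lm) * ‖cK cc‖) := by positivity
    linarith
  have hinit : ∀ t, 0 < t → NW (Wa 0) (fun k => Real.exp (-(c * sq k * max t 0)) • (E0 q cc γ + W0 c q cc η γ lm N) k)
      ≤ ENNReal.ofReal (C * N * Real.exp (-(c * N ^ 2 * max t 0)) + C) := by
    intro t ht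
    have e1 : (fun k => Real.exp (-(c * sq k * max t 0)) • (E0 q cc γ + W0 c q cc η γ lm N) k)
        = at' v t + ((fun k => Real.exp (-(c * sq k * max t 0)) • E0 q cc γ k)
          - (fun k => Real.exp (-(muF c q η N * max t 0)) • E0 q cc γ k)) := by
      funext k
      have e2 : IF c q cc η γ N k t = Real.exp (-(muF c q η N * max t 0)) • E0 q cc γ k := by
        show Mo q _ _ k t + Mo (-q) _ _ k t = _
        unfold Mo E0 Sg
        simp only [Pi.add_apply]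
        split_ifs <;> simp
      rw [hvI]
      show Real.exp (-(c * sq k * max t 0)) • (E0 q cc γ k + W0 c q cc η γ lm N k)
        = (wF c q cc η γ lm N k t + IF c q cc η γ N k t) + (Real.exp (-(c * sq k * max t 0)) • E0 q cc γ k
          - Real.exp (-(muF c q η N * max t 0)) • E0 q cc γ k)
      rw [e2, w_init, smul_add]
      abel
    have hmx : 0 ≤ max t 0 := le_max_right _ _
    have hmu : 0 ≤ muF c q η N := by
      have h5 : 0 ≤ c * sq ((N : ℤ) • η) := mul_nonneg hc.le (sq_nonneg' _)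
      have h6 : 0 ≤ c * sq ((N : ℤ) • η + q) := mul_nonneg hc.le (sq_nonneg' _)
      unfold muF
      linarith
    rw [e1, ENNReal.ofReal_add (by positivity) hC.le]
    refine (NW_add_le _ _ _).trans (add_le_add (h6 t) ((NW_sub_le _ _ _).trans ((add_le_add
      ((NW_expE (fun k => c * sq k * max t 0) (fun k => mul_nonneg (mul_nonneg hc.le (sq_nonneg' k)) hmx) _).trans
        (NW_E0 γ))
      ((NW_expE (fun _ => muF c q η N * max t 0) (fun k => mul_nonneg hmu hmx) _).trans (NW_E0 γ))).trans ?_)))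
    rw [← ENNReal.ofReal_add (by positivity) (by positivity)]
    exact ENNReal.ofReal_le_ofReal (by linarith)
  have hKb := kbound hχ.toCutT hc (U := u) (r := d) (FE := 0) (r0 := E0 q cc γ + W0 c q cc η γ lm N)
    (fun k => continuous_const) hBc (fun t => hudom.sn t) (fun t => hddom.sn t) (fun t => rfl) hfix
    (T := δ2) hcont.continuousOn (η0 := η0) (m := √η0 * Mu) (P := 5 * X ^ 2) (G := 0) (H := C / √c + C) (s0 := κ / 2)
    hη0p (by positivity) (by positivity) le_rfl (by positivity) (half_pos hκ)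
    (fun t ht _ => by
      refine (mul_le_mul' le_rfl (hinit t ht)).trans ?_
      rw [← ENNReal.ofReal_mul (Real.sqrt_nonneg _)]
      apply ENNReal.ofReal_le_ofReal
      rw [mul_add, max_eq_left ht.le]
      have e0 : 0 ≤ C * N * Real.exp (-(c * N ^ 2 * t)) := by positivity
      refine add_le_add ?_ ?_
      · exact (mul_le_mul_of_nonneg_right (Real.sqrt_le_sqrt (min_le_left t η0)) e0).trans
          (sqrt_exp_le hc hC.le ht.le)
      · apply mul_le_of_le_one_left hC.le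
        exact Real.sqrt_le_one.2 ((min_le_right _ _).trans hη01))
    (fun t _ _ => by
      refine (mul_le_mul' (ENNReal.ofReal_le_ofReal (Real.sqrt_le_sqrt (min_le_right t η0))) (hub t)).trans ?_
      rw [← ENNReal.ofReal_mul (Real.sqrt_nonneg _)])
    hP
    (by
      have : ∀ t, NW (Wm 0) (at' (0 : Fam) t) = 0 := fun t => NW_zero _
      simp [this])
    (fun t s _ _ _ _ => by
      have : NW (Wm 0) (at' (0 : Fam) s) = 0 := NW_zero _
      rw [this, mul_zero]; exact zero_le)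
    (by rw [← hX, mul_zero, zero_add]; rw [← hX] at hκ1; exact hκ1)
    (by
      rw [hη0s, ← hQ]
      have e1 : x0 * (16 * Q * C0 * (Mu + 1)) ≤ 1 := by
        rw [le_div_iff₀ (by positivity)] at hx02
        exact hx02
      have e2 : 0 ≤ x0 * (16 * Q * C0) := by positivity
      nlinarith)
    (by
      have e1 : √2 / √c * C0 * (2 * (2 * (κ / 2))) = √2 / √c * C0 * (2 * κ) := by ring
      rw [e1]; exact hκ2)
  refine ⟨hsol, hvc, hrc, ?_, h2.trans (ENNReal.ofReal_le_ofReal he'1), fun t ht => ?_,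
    fun t => (h4 t).trans (ENNReal.ofReal_le_ofReal he'1), fun k => (h5 k).trans (add_le_add le_rfl
      (ENNReal.ofReal_le_ofReal (mul_le_mul_of_nonneg_left he'1 (nk_nonneg k)))), fun t ht => ?_⟩
  · refine le_trans ?_ (h1.trans (ENNReal.ofReal_le_ofReal he'1))
    unfold LNd
    refine LN_mono fun t _ => ?_
    by_cases ht : t ∈ Ioi δ
    · have h9 : δ2 / 2 ≤ δ := by linarith
      have h10 : t ∈ Ioi (δ2 / 2) := lt_of_le_of_lt h9 ht
      rw [indicator_of_mem ht, indicator_of_mem h10]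
    · rw [indicator_of_notMem ht]; exact zero_le
  · exact (hlate t (hδ21.trans ht)).trans (ENNReal.ofReal_le_ofReal (by rw [he2]; exact min_le_left _ _))
  · rcases le_or_gt t δ2 with h8 | h8
    · have h9 := hKb t ht h8
      have e1 : min t η0 = min t 1 := by
        rw [min_eq_left (h8.trans hδ22), min_eq_left (h8.trans (hδ22.trans hη01))]
      rw [e1] at h9
      refine h9.trans (ENNReal.ofReal_le_ofReal (by linarith))
    · exact (KA_le d t).trans ((hlate t h8.le).trans (ENNReal.ofReal_le_ofReal (by rw [he2]; exact min_le_right _ _)))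

end Pool.Agent.H356R3.NS.X
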