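import Pool.Agent.H3NX.KBd
import Pool.Agent.H3NX.StepK

set_option autoImplicit false
set_option maxHeartbeats 4000000
set_option synthInstance.maxHeartbeats 400000

/-!
High and low frequencies; smoothing estimates for the high frequencies.
-/

open MeasureTheory Set Filter Topology
open scoped ENNReal NNReal

namespace Pool.Agent.H356R3.NS.X

open Pool.Agent.H356R3.NS.H3

/-- the part with frequencies at least `R` -/
noncomputable def hpF (R : ℝ) (F : Fam) : Fam := fun k t => if R ≤ nk k then F k t else 0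

/-- the part with frequencies below `R` -/
noncomputable def lpF (R : ℝ) (F : Fam) : Fam := fun k t => if R ≤ nk k then 0 else F k t

lemma hp_lp (R : ℝ) (F : Fam) : F = hpF R F + lpF R F := by
  funext k t
  show F k t = (if R ≤ nk k then F k t else 0) + (if R ≤ nk k then 0 else F k t)
  split_ifs <;> simp

lemma hpF_cf (R : ℝ) {F : Fam} (h : CF F) : CF (hpF R F) := by
  intro k
  unfold hpF
  by_cases hk : R ≤ nk k
  · simp only [if_pos hk]; exact h k
  · simp only [if_neg hk]; exact continuous_const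

lemma lpF_cf (R : ℝ) {F : Fam} (h : CF F) : CF (lpF R F) := by
  intro k
  unfold lpF
  by_cases hk : R ≤ nk k
  · simp only [if_pos hk]; exact continuous_const
  · simp only [if_neg hk]; exact h k

lemma hpF_le (W : K → ℝ≥0∞) (R : ℝ) (F : Fam) (t : ℝ) : NW W (at' (hpF R F) t) ≤ NW W (at' F t) := by
  unfold NW at' hpF
  refine ENNReal.tsum_le_tsum fun k => mul_le_mul' le_rfl ?_
  split_ifs
  · exact le_rfl
  · simp

lemma lpF_le (W : K → ℝ≥0∞) (R : ℝ) (F : Fam) (t : ℝ) : NW W (at' (lpF R F) t) ≤ NW W (at' F t) := by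
  unfold NW at' lpF
  refine ENNReal.tsum_le_tsum fun k => mul_le_mul' le_rfl ?_
  split_ifs
  · simp
  · exact le_rfl

lemma hpF_sym (R : ℝ) {F : Fam} (h : SymF F) : SymF (hpF R F) := by
  intro t k i
  show hpF R F (-k) t i = star (hpF R F k t i)
  unfold hpF
  rw [nk_neg]
  by_cases hk : R ≤ nk k
  · rw [if_pos hk, if_pos hk]
    exact h t k i
  · rw [if_neg hk, if_neg hk]
    simp

lemma hpF_zero {R : ℝ} {F : Fam} (h : ∀ t, F 0 t = 0) (t : ℝ) : hpF R F 0 t = 0 := by
  unfold hpF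
  rw [h]
  simp

lemma Duh_nonpos (c : ℝ) (F : Fam) {t : ℝ} (ht : t ≤ 0) : at' (Duh c F) t = 0 := by
  funext k
  show Duh c F k t = 0
  unfold Duh
  rw [max_eq_right ht]
  simp

/-- smoothing by the heat semigroup, for high frequencies -/
lemma A_Duh_hi {c R a : ℝ} (hc : 0 < c) (hR : 0 ≤ R) {F : Fam} (hF : CF F) (hF0 : ∀ t, F 0 t = 0)
    (hs : ∀ k t, nk k < R → F k t = 0) {t : ℝ} (ht : 0 < t) :
    NW (Wa a) (at' (Duh c F) t) ≤ ∫⁻ s in Ioo 0 t,
      ENNReal.ofReal (1 / √(c * (t - s)) * Real.exp (-(c * R ^ 2 / 2 * (t - s)))) * NW (Wm a) (at' F s) := by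
  have hm : ∀ k, Measurable fun s =>
      ENNReal.ofReal (1 / √(c * (t - s)) * Real.exp (-(c * R ^ 2 / 2 * (t - s)))) * (Wm a k * ‖F k s‖ₑ) := fun k =>
    (by fun_prop : Measurable fun s : ℝ =>
      ENNReal.ofReal (1 / √(c * (t - s)) * Real.exp (-(c * R ^ 2 / 2 * (t - s))))).mul
      (((hF k).enorm.measurable).const_mul _)
  have hk : ∀ k, Wa a k * ‖Duh c F k t‖ₑ ≤ ∫⁻ s in Ioo 0 t,
      ENNReal.ofReal (1 / √(c * (t - s)) * Real.exp (-(c * R ^ 2 / 2 * (t - s)))) * (Wm a k * ‖F k s‖ₑ) := by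
    intro k
    by_cases hk0 : k = 0 ∨ nk k < R
    · have hz : ∀ s, F k s = 0 := by
        rcases hk0 with h1 | h1
        · rw [h1]; exact hF0
        · exact fun s => hs k s h1
      have h1 : ‖Duh c F k t‖ₑ = 0 := by
        refine le_antisymm ((enorm_Duh_le c F k ht.le).trans ?_) zero_le
        simp [hz]
      rw [h1, mul_zero]
      exact zero_le
    · push Not at hk0
      obtain ⟨hk1, hk2⟩ := hk0
      have hn := nk_pos hk1
      refine (mul_le_mul' le_rfl (enorm_Duh_le c F k ht.le)).trans ?_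
      rw [← setLIntegral_congr (Ioo_ae_eq_Ioc (μ := volume) (a := (0 : ℝ)) (b := t))]
      have hWt : Wa a k ≠ ⊤ := Wa_ne_top a k
      rw [← lintegral_const_mul' _ _ hWt]
      refine setLIntegral_mono' measurableSet_Ioo fun s hs => ?_
      rw [← mul_assoc, ← mul_assoc]
      apply mul_le_mul' _ le_rfl
      unfold Wm Wa
      have hts : 0 < t - s := sub_pos.2 hs.2
      have hom := om_pos a k
      rw [← ENNReal.ofReal_mul hom.le, ← ENNReal.ofReal_mul (by positivity)]
      apply ENNReal.ofReal_le_ofReal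
      obtain ⟨y, hyd⟩ : ∃ y, y = √(c * (t - s)) * nk k := ⟨_, rfl⟩
      have hsq : 0 < √(c * (t - s)) := Real.sqrt_pos.2 (by positivity)
      have hy : 0 < y := by rw [hyd]; exact mul_pos hsq hn
      have hy2 : y ^ 2 = c * (t - s) * nk k ^ 2 := by
        rw [hyd, mul_pow, Real.sq_sqrt (by positivity)]
      have e1 : c * sq k * (t - s) = y ^ 2 / 2 + y ^ 2 / 2 := by
        rw [hy2, pow_two (nk k), nk_mul_self]
        ring
      have e2 : c * R ^ 2 / 2 * (t - s) ≤ y ^ 2 / 2 := by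
        rw [hy2]
        have h1 : R ^ 2 ≤ nk k ^ 2 := pow_le_pow_left₀ hR hk2 2
        have h2 : c * (t - s) * R ^ 2 ≤ c * (t - s) * nk k ^ 2 := mul_le_mul_of_nonneg_left h1 (by positivity)
        linarith
      have e3 : y * Real.exp (-(y ^ 2 / 2)) ≤ 1 := by
        have h1 := Real.add_one_le_exp (y ^ 2 / 2)
        rw [Real.exp_neg, ← div_eq_mul_inv, div_le_one (Real.exp_pos _)]
        nlinarith [sq_nonneg (y - 1)]
      have e4 : Real.exp (-(y ^ 2 / 2)) ≤ 1 / √(c * (t - s)) * (1 / nk k) := by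
        rw [one_div_mul_one_div, ← hyd, le_div_iff₀ hy]
        linarith
      rw [e1, neg_add, Real.exp_add]
      have h5 : Real.exp (-(y ^ 2 / 2)) ≤ Real.exp (-(c * R ^ 2 / 2 * (t - s))) :=
        Real.exp_le_exp.2 (by linarith)
      calc om a k * (Real.exp (-(y ^ 2 / 2)) * Real.exp (-(y ^ 2 / 2)))
          ≤ om a k * ((1 / √(c * (t - s)) * (1 / nk k)) * Real.exp (-(c * R ^ 2 / 2 * (t - s)))) := by
            apply mul_le_mul_of_nonneg_left _ hom.le
            exact mul_le_mul e4 h5 (Real.exp_pos _).le (by positivity)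
        _ = _ := by ring
  calc NW (Wa a) (at' (Duh c F) t)
      ≤ ∑' k, ∫⁻ s in Ioo 0 t,
        ENNReal.ofReal (1 / √(c * (t - s)) * Real.exp (-(c * R ^ 2 / 2 * (t - s)))) * (Wm a k * ‖F k s‖ₑ) :=
        ENNReal.tsum_le_tsum hk
    _ = ∫⁻ s in Ioo 0 t, ∑' k,
        ENNReal.ofReal (1 / √(c * (t - s)) * Real.exp (-(c * R ^ 2 / 2 * (t - s)))) * (Wm a k * ‖F k s‖ₑ) :=
        (lintegral_tsum fun k => (hm k).aemeasurable).symm
    _ = _ := by
        refine lintegral_congr fun s => ?_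
        rw [ENNReal.tsum_mul_left]
        rfl

lemma lint_sqrt_full {c t : ℝ} (hc : 0 < c) (ht : 0 ≤ t) :
    ∫⁻ s in Ioo 0 t, ENNReal.ofReal (1 / √(c * (t - s))) ≤ ENNReal.ofReal (2 * √t / √c) := by
  have := lint_sqrt (c := c) (t := t) (θ := t) hc ht
  rwa [sub_self] at this

lemma lint_kern {c μ t : ℝ} (hc : 0 < c) (hμ : 0 < μ) (ht : 0 < t) :
    ∫⁻ s in Ioo 0 t, ENNReal.ofReal (1 / √(c * (t - s)) * Real.exp (-(μ * (t - s))))
      ≤ ENNReal.ofReal (3 / √(c * μ)) := by
  have hscm : 0 < √(c * μ) := Real.sqrt_pos.2 (by positivity)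
  obtain ⟨θ, hθ⟩ : ∃ θ, θ = 1 / μ := ⟨_, rfl⟩
  have hθp : 0 < θ := by rw [hθ]; positivity
  have hsub : Ioo 0 t ⊆ Iic (t - θ) ∪ Ioo (t - θ) t := by
    intro s hs
    rcases le_or_gt s (t - θ) with h | h
    · exact Or.inl h
    · exact Or.inr ⟨h, hs.2⟩
  refine (lintegral_mono_set hsub).trans ((lintegral_union_le _ _ _).trans ?_)
  have h1 : ∫⁻ s in Iic (t - θ), ENNReal.ofReal (1 / √(c * (t - s)) * Real.exp (-(μ * (t - s))))
      ≤ ENNReal.ofReal (1 / √(c * μ)) := by
    have hb : ∀ s ∈ Iic (t - θ), ENNReal.ofReal (1 / √(c * (t - s)) * Real.exp (-(μ * (t - s)))) ≤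
        ENNReal.ofReal (1 / √(c * θ)) * ENNReal.ofReal (Real.exp (-(μ * (t - s)))) := by
      intro s hs
      rw [mem_Iic] at hs
      rw [← ENNReal.ofReal_mul (by positivity)]
      apply ENNReal.ofReal_le_ofReal
      apply mul_le_mul_of_nonneg_right _ (Real.exp_pos _).le
      apply one_div_le_one_div_of_le (Real.sqrt_pos.2 (by positivity))
      apply Real.sqrt_le_sqrt
      exact mul_le_mul_of_nonneg_left (by linarith) hc.le
    refine (setLIntegral_mono' measurableSet_Iic hb).trans ?_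
    rw [lintegral_const_mul' _ _ ENNReal.ofReal_ne_top]
    have h2 : ∫⁻ s in Iic (t - θ), ENNReal.ofReal (Real.exp (-(μ * (t - s)))) ≤ ENNReal.ofReal (1 / μ) := by
      have h3 := lint_exp hμ 0
      have h4 : ∫⁻ s in Iic t, ENNReal.ofReal (Real.exp (-(μ * (t - s)))) =
          ∫⁻ s in Ici 0, ENNReal.ofReal (Real.exp (-(μ * (s - 0)))) := by
        rw [← lintegral_indicator measurableSet_Iic, ← lintegral_indicator measurableSet_Ici]
        refine Eq.trans ?_ (lintegral_sub_left_eq_self (μ := volume)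
          (fun s => (Ici (0 : ℝ)).indicator (fun s => ENNReal.ofReal (Real.exp (-(μ * (s - 0))))) s) t)
        refine lintegral_congr fun s => ?_
        by_cases h : s ≤ t
        · rw [indicator_of_mem (show s ∈ Iic t from h), indicator_of_mem (show t - s ∈ Ici (0 : ℝ) from by
            rw [mem_Ici]; linarith), sub_zero]
        · rw [indicator_of_notMem (show s ∉ Iic t from h), indicator_of_notMem (show t - s ∉ Ici (0 : ℝ) from by
            rw [mem_Ici]; intro h'; exact h (by linarith))]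
      rw [← h3, ← h4]
      exact lintegral_mono_set (Iic_subset_Iic.2 (by linarith))
    refine (mul_le_mul' le_rfl h2).trans ?_
    rw [← ENNReal.ofReal_mul (by positivity)]
    apply ENNReal.ofReal_le_ofReal
    apply le_of_eq
    have e1 : √(c * θ) = √(c * μ) / μ := by
      have : c * θ = c * μ / μ ^ 2 := by rw [hθ]; field_simp
      rw [this, Real.sqrt_div (by positivity), Real.sqrt_sq hμ.le]
    rw [e1]
    field_simp
  have h2 : ∫⁻ s in Ioo (t - θ) t, ENNReal.ofReal (1 / √(c * (t - s)) * Real.exp (-(μ * (t - s))))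
      ≤ ENNReal.ofReal (2 / √(c * μ)) := by
    refine (setLIntegral_mono' measurableSet_Ioo (g := fun s => ENNReal.ofReal (1 / √(c * (t - s)))) fun s hs => ?_).trans
      ((lint_sqrt hc hθp.le).trans (ENNReal.ofReal_le_ofReal (le_of_eq ?_)))
    · apply ENNReal.ofReal_le_ofReal
      apply mul_le_of_le_one_right (by positivity)
      rw [Real.exp_le_one_iff]
      have : 0 ≤ μ * (t - s) := mul_nonneg hμ.le (by linarith [hs.2])
      linarith
    · rw [hθ, Real.sqrt_div zero_le_one, Real.sqrt_one, Real.sqrt_mul hc.le]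
      field_simp
  refine (add_le_add h1 h2).trans ?_
  rw [← ENNReal.ofReal_add (by positivity) (by positivity)]
  apply ENNReal.ofReal_le_ofReal
  apply le_of_eq
  field_simp
  norm_num

/-- the linear response at high frequencies -/
lemma zA {c a N B : ℝ} (hc : 0 < c) (hN : 0 < N) (hB : 0 ≤ B) {F : Fam} (hF : CF F) (hF0 : ∀ t, F 0 t = 0)
    (hs : ∀ k t, nk k < N / 2 → F k t = 0)
    (hb : ∀ t, NW (Wm a) (at' F t) ≤ ENNReal.ofReal (B * Real.exp (-(c * N ^ 2 * max t 0)))) (t : ℝ) :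
    NW (Wa a) (at' (Duh c F) t) ≤ ENNReal.ofReal (12 * B / (c * N) * Real.exp (-(c / 16 * N ^ 2 * max t 0))) := by
  rcases le_or_gt t 0 with ht | ht
  · rw [Duh_nonpos c F ht, NW_zero]
    exact zero_le
  rw [max_eq_left ht.le]
  obtain ⟨μ, hμd⟩ : ∃ μ, μ = c / 16 * N ^ 2 := ⟨_, rfl⟩
  have hμ : 0 < μ := by rw [hμd]; positivity
  refine (A_Duh_hi hc (by positivity : 0 ≤ N / 2) hF hF0 hs ht).trans ?_
  have h1 : ∀ s ∈ Ioo 0 t, ENNReal.ofReal (1 / √(c * (t - s)) * Real.exp (-(c * (N / 2) ^ 2 / 2 * (t - s)))) *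
      NW (Wm a) (at' F s) ≤ ENNReal.ofReal (B * Real.exp (-(μ * t))) *
        ENNReal.ofReal (1 / √(c * (t - s)) * Real.exp (-(μ * (t - s)))) := by
    intro s hs'
    have hts : 0 < t - s := sub_pos.2 hs'.2
    refine (mul_le_mul' le_rfl (hb s)).trans ?_
    rw [← ENNReal.ofReal_mul (by positivity), ← ENNReal.ofReal_mul (by positivity)]
    apply ENNReal.ofReal_le_ofReal
    rw [max_eq_left hs'.1.le]
    have e1 : Real.exp (-(c * (N / 2) ^ 2 / 2 * (t - s))) * Real.exp (-(c * N ^ 2 * s))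
        ≤ Real.exp (-(μ * t)) * Real.exp (-(μ * (t - s))) := by
      rw [← Real.exp_add, ← Real.exp_add]
      apply Real.exp_le_exp.2
      rw [hμd]
      have h2 : 0 ≤ c * N ^ 2 * s := mul_nonneg (by positivity) hs'.1.le
      have h3 : c / 16 * N ^ 2 * t = c / 16 * N ^ 2 * (t - s) + c * N ^ 2 * s / 16 := by ring
      have h4 : c * (N / 2) ^ 2 / 2 * (t - s) = 2 * (c / 16 * N ^ 2 * (t - s)) := by ring
      rw [h3, h4]
      linarith
    have h5 : 0 ≤ 1 / √(c * (t - s)) := by positivity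
    calc 1 / √(c * (t - s)) * Real.exp (-(c * (N / 2) ^ 2 / 2 * (t - s))) * (B * Real.exp (-(c * N ^ 2 * s)))
        = B * (1 / √(c * (t - s))) * (Real.exp (-(c * (N / 2) ^ 2 / 2 * (t - s))) * Real.exp (-(c * N ^ 2 * s))) := by
          ring
      _ ≤ B * (1 / √(c * (t - s))) * (Real.exp (-(μ * t)) * Real.exp (-(μ * (t - s)))) :=
          mul_le_mul_of_nonneg_left e1 (by positivity)
      _ = _ := by ring
  refine (setLIntegral_mono' measurableSet_Ioo h1).trans ?_
  rw [lintegral_const_mul' _ _ ENNReal.ofReal_ne_top]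
  refine (mul_le_mul' le_rfl (lint_kern hc hμ ht)).trans ?_
  rw [← ENNReal.ofReal_mul (by positivity)]
  apply ENNReal.ofReal_le_ofReal
  apply le_of_eq
  have e2 : √(c * μ) = c * N / 4 := by
    have : c * μ = (c * N / 4) ^ 2 := by rw [hμd]; ring
    rw [this, Real.sqrt_sq (by positivity)]
  rw [e2, ← hμd]
  field_simp
  ring

lemma zM {c a N B : ℝ} (hc : 0 < c) (hN : 0 < N) (hB : 0 ≤ B) {F : Fam} (hF : CF F)
    (hb : ∀ t, NW (Wm a) (at' F t) ≤ ENNReal.ofReal (B * Real.exp (-(c * N ^ 2 * max t 0)))) (t : ℝ) :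
    NW (Wm a) (at' (Duh c F) t) ≤ ENNReal.ofReal (B / (c * N ^ 2)) := by
  rcases le_or_gt t 0 with ht | ht
  · rw [Duh_nonpos c F ht, NW_zero]
    exact zero_le
  have hσ : 0 < c * N ^ 2 := by positivity
  refine (NW_Duh_le hc.le _ hF ht.le).trans ?_
  calc ∫⁻ s in Ioc 0 t, NW (Wm a) (at' F s)
      ≤ ∫⁻ s in Ioi 0, ENNReal.ofReal B * ENNReal.ofReal (Real.exp (-(c * N ^ 2 * max s 0))) := by
        refine (lintegral_mono_set Ioc_subset_Ioi_self).trans (lintegral_mono fun s => ?_)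
        rw [← ENNReal.ofReal_mul hB]
        exact hb s
    _ = _ := by
        rw [lintegral_const_mul' _ _ ENNReal.ofReal_ne_top, lint_e hσ, ← ENNReal.ofReal_mul hB]
        congr 1
        ring

lemma NW_Bx_le {χ : ℝ → ℝ} (hχ : CutT χ) {a : ℝ} (ha : 0 ≤ a) (u : Fam) (t : ℝ) :
    NW (Wm a) (at' (Bx χ u) t) ≤ ENNReal.ofReal C0 * (NW (Wa a) (at' u t) * NW (Wa a) (at' u t)) :=
  (NW_smul_le (Wm a) (hχ.nn t) (hχ.le t) _).trans (NW_Bf_le ha _ _)

/-- the high frequencies of a solution with data of low frequencies -/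
lemma tailA {χ : ℝ → ℝ} (hχ : CutT χ) {c a R Mu : ℝ} (hc : 0 < c) (ha : 0 ≤ a) (hR : 0 ≤ R) (hMu : 0 ≤ Mu)
    {V : K → C3} {u : Fam} (hu : CF u) (hd : Dom u)
    (heq : ∀ k t, u k t = Real.exp (-(c * sq k * max t 0)) • V k + Duh c (Bx χ u) k t)
    (hV : ∀ k, R ≤ nk k → V k = 0) (hM : ∀ t, NW (Wa a) (at' u t) ≤ ENNReal.ofReal Mu) (t : ℝ) :
    NW (Wa a) (at' (hpF R u) t) ≤ ENNReal.ofReal (2 * C0 * Mu ^ 2 / √c * √(max t 0)) := by
  have hC := C0_pos
  have hsc : 0 < √c := Real.sqrt_pos.2 hc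
  have e0 : at' (hpF R u) t = at' (Duh c (hpF R (Bx χ u))) t := by
    funext k
    show hpF R u k t = Duh c (hpF R (Bx χ u)) k t
    unfold hpF
    by_cases hk : R ≤ nk k
    · simp only [if_pos hk]
      rw [heq k t, hV k hk, smul_zero, zero_add]
      unfold Duh
      simp only [if_pos hk]
    · simp only [if_neg hk]
      unfold Duh
      simp only [if_neg hk, smul_zero, intervalIntegral.integral_zero]
  rw [e0]
  rcases le_or_gt t 0 with ht | ht
  · rw [Duh_nonpos c _ ht, NW_zero]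
    exact zero_le
  rw [max_eq_left ht.le]
  have hBc : CF (Bx χ u) := Bx_cont hχ hu hd
  have hB0 : ∀ t, Bx χ u 0 t = 0 := fun t => by
    simp only [Bx, Bt, Bf_zero, smul_zero]
  refine (A_Duh_hi hc hR (hpF_cf R hBc) (hpF_zero hB0) (fun k s hk => by
    unfold hpF; rw [if_neg (not_le.2 hk)]) ht).trans ?_
  have h1 : ∀ s ∈ Ioo 0 t, ENNReal.ofReal (1 / √(c * (t - s)) * Real.exp (-(c * R ^ 2 / 2 * (t - s)))) *
      NW (Wm a) (at' (hpF R (Bx χ u)) s) ≤ ENNReal.ofReal (C0 * Mu ^ 2) * ENNReal.ofReal (1 / √(c * (t - s))) := by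
    intro s hs
    rw [mul_comm]
    apply mul_le_mul'
    · refine (hpF_le _ _ _ _).trans ((NW_Bx_le hχ ha u s).trans ?_)
      rw [ENNReal.ofReal_mul hC.le, pow_two, ENNReal.ofReal_mul hMu]
      exact mul_le_mul' le_rfl (mul_le_mul' (hM s) (hM s))
    · apply ENNReal.ofReal_le_ofReal
      apply mul_le_of_le_one_right (by positivity)
      rw [Real.exp_le_one_iff]
      have : 0 ≤ c * R ^ 2 / 2 * (t - s) := mul_nonneg (by positivity) (by linarith [hs.2])
      linarith
  refine (setLIntegral_mono' measurableSet_Ioo h1).trans ?_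
  rw [lintegral_const_mul' _ _ ENNReal.ofReal_ne_top]
  refine (mul_le_mul' le_rfl (lint_sqrt_full hc ht.le)).trans ?_
  rw [← ENNReal.ofReal_mul (by positivity)]
  apply ENNReal.ofReal_le_ofReal
  apply le_of_eq
  ring

/-- Products of a field of low frequencies and a field of high frequencies have high frequencies. -/
lemma Bf_lohi {R : ℝ} {x y : K → C3} (hx : ∀ k, R ≤ nk k → x k = 0) (hy : ∀ k, nk k < 2 * R → y k = 0) {k : K}
    (hk : nk k < R) : Bf x y k = 0 ∧ Bf y x k = 0 := by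
  have key : ∀ l : K, x l = 0 ∨ y (k - l) = 0 := by
    intro l
    by_contra hcon
    push Not at hcon
    obtain ⟨h1, h2⟩ := hcon
    have h3 : nk l < R := by
      by_contra h; exact h1 (hx l (not_lt.1 h))
    have h4 : 2 * R ≤ nk (k - l) := by
      by_contra h; exact h2 (hy _ (not_le.1 h))
    have h5 : nk (k - l) ≤ nk k + nk l := by
      have := nk_add k (-l)
      rw [nk_neg] at this
      rwa [← sub_eq_add_neg] at this
    linarith
  have key2 : ∀ l : K, y l = 0 ∨ x (k - l) = 0 := by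
    intro l
    have := key (k - l)
    rw [sub_sub_cancel] at this
    exact this.symm
  have c1 : ∀ j m, cv x y k j m = 0 := by
    intro j m
    unfold cv
    rw [show (fun l => x l j * y (k - l) m) = fun _ => 0 from funext fun l => ?_, tsum_zero]
    rcases key l with h | h <;> rw [h] <;> simp
  have c2 : ∀ j m, cv y x k j m = 0 := by
    intro j m
    unfold cv
    rw [show (fun l => y l j * x (k - l) m) = fun _ => 0 from funext fun l => ?_, tsum_zero]
    rcases key2 l with h | h <;> rw [h] <;> simp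
  constructor
  · funext i
    unfold Bf
    simp [c1]
  · funext i
    unfold Bf
    simp [c2]

end Pool.Agent.H356R3.NS.X
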