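import Pool.Agent.H3NX.HiF2

set_option autoImplicit false
set_option maxHeartbeats 4000000
set_option synthInstance.maxHeartbeats 400000

/-!
The linear response at high frequencies.
-/

open MeasureTheory Set Filter Topology
open scoped ENNReal NNReal

namespace Pool.Agent.H356R3.NS.X

open Pool.Agent.H356R3.NS.H3

/-- `√s e^{- c N² s}` -/
lemma sqrt_exp_half {c N t : ℝ} (hc : 0 < c) (hN : 0 < N) :
    √(max t 0) * Real.exp (-(c * N ^ 2 * max t 0)) ≤ 1 / (√c * N) * Real.exp (-(c / 16 * N ^ 2 * max t 0)) := by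
  have hsc : 0 < √c := Real.sqrt_pos.2 hc
  have hm : 0 ≤ max t 0 := le_max_right _ _
  obtain ⟨y, hy⟩ : ∃ y, y = √c * N * √(max t 0) := ⟨_, rfl⟩
  have hy0 : 0 ≤ y := by rw [hy]; positivity
  have hy2 : y ^ 2 = c * N ^ 2 * max t 0 := by
    rw [hy, mul_pow, mul_pow, Real.sq_sqrt hc.le, Real.sq_sqrt hm]
  have h1 : y * Real.exp (-(y ^ 2 / 2)) ≤ 1 := by
    have h1 := Real.add_one_le_exp (y ^ 2 / 2)
    rw [Real.exp_neg, ← div_eq_mul_inv, div_le_one (Real.exp_pos _)]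
    nlinarith [sq_nonneg (y - 1)]
  have h2 : Real.exp (-(c * N ^ 2 * max t 0)) = Real.exp (-(y ^ 2 / 2)) * Real.exp (-(y ^ 2 / 2)) := by
    rw [← Real.exp_add, hy2]
    congr 1
    ring
  have h3 : Real.exp (-(y ^ 2 / 2)) ≤ Real.exp (-(c / 16 * N ^ 2 * max t 0)) := by
    apply Real.exp_le_exp.2
    have e1 : c / 16 * N ^ 2 * max t 0 = y ^ 2 / 16 := by rw [hy2]; ring
    rw [e1]
    nlinarith [sq_nonneg y]
  have h4 : √(max t 0) = 1 / (√c * N) * y := by rw [hy]; field_simp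
  rw [h2]
  nth_rw 1 [h4]
  have h5 : (0 : ℝ) ≤ 1 / (√c * N) := by positivity
  calc 1 / (√c * N) * y * (Real.exp (-(y ^ 2 / 2)) * Real.exp (-(y ^ 2 / 2)))
      = 1 / (√c * N) * (y * Real.exp (-(y ^ 2 / 2))) * Real.exp (-(y ^ 2 / 2)) := by ring
    _ ≤ 1 / (√c * N) * 1 * Real.exp (-(c / 16 * N ^ 2 * max t 0)) := by
        apply mul_le_mul _ h3 (Real.exp_pos _).le (by positivity)
        exact mul_le_mul_of_nonneg_left h1 h5
    _ = _ := by ring

/-- The response at high frequencies to the interaction of `u` and `w`. -/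
theorem resp {χ : ℝ → ℝ} (hχ : CutT χ) {c a Mu Cw N : ℝ} (hc : 0 < c) (ha : 0 < a) (hMu : 0 ≤ Mu) (hCw : 0 ≤ Cw)
    (hN : 0 < N) {u w : Fam} {V : K → C3} (hu : CF u) (hw : CF w) (hud : Dom u) (hwd : Dom w) (hus : SymF u)
    (hws : SymF w) (heq : ∀ k t, u k t = Real.exp (-(c * sq k * max t 0)) • V k + Duh c (Bx χ u) k t)
    (hV : ∀ k, N / 2 ≤ nk k → V k = 0) (hwsupp : ∀ k t, nk k < N → w k t = 0)
    (hxa : ∀ t, NW (Wa a) (at' u t) ≤ ENNReal.ofReal Mu)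
    (hwb : ∀ t, NW (Wa a) (at' w t) ≤ ENNReal.ofReal (Cw * N * Real.exp (-(c * N ^ 2 * max t 0)))) :
    ∃ G z : Fam, CF G ∧ SymF G ∧ (∀ t, G 0 t = 0) ∧
      (∀ t, at' G t = χ t • (Bf (at' u t) (at' w t) + Bf (at' w t) (at' u t))) ∧
      (∀ t, NW (Wm a) (at' (hpF (N / 2) G) t) ≤
        ENNReal.ofReal (2 * C0 * (Mu * (Cw * N)) * Real.exp (-(c * N ^ 2 * max t 0)))) ∧
      (∀ t, NW (Wm a) (at' (lpF (N / 2) G) t) ≤
        ENNReal.ofReal (4 * C0 ^ 2 / c * Mu ^ 2 * Cw * Real.exp (-(c / 16 * N ^ 2 * max t 0)))) ∧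
      z = Duh c (hpF (N / 2) G) ∧ CF z ∧ SymF z ∧ (∀ t, z 0 t = 0) ∧
      (∀ t, NW (Wa a) (at' z t) ≤
        ENNReal.ofReal (24 * C0 / c * (Mu * Cw) * Real.exp (-(c / 16 * N ^ 2 * max t 0)))) ∧
      (∀ t, NW (Wm a) (at' z t) ≤ ENNReal.ofReal (2 * C0 / c * (Mu * Cw / N))) ∧ WDom (a / 2) z := by
  have hC := C0_pos
  have hsc : 0 < √c := Real.sqrt_pos.2 hc
  obtain ⟨G, hGd⟩ : ∃ G : Fam, G = Bx χ (u + w) - Bx χ u - Bx χ w := ⟨_, rfl⟩
  have huwc : CF (u + w) := fun k => (hu k).add (hw k)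
  have huwd : Dom (u + w) := hud.add hwd
  have hGc : CF G := fun k => by
    rw [hGd]
    exact ((Bx_cont hχ huwc huwd k).sub (Bx_cont hχ hu hud k)).sub (Bx_cont hχ hw hwd k)
  have hGs : SymF G := fun t => by
    rw [hGd]
    exact ((Bx_sym χ (fun t => (hus t).add (hws t)) t).sub (Bx_sym χ hus t)).sub (Bx_sym χ hws t)
  have hG0 : ∀ t, G 0 t = 0 := by
    intro t
    rw [hGd]
    simp only [Pi.sub_apply, Bx, Bt, Bf_zero, sub_self, smul_zero]
  have hGe : ∀ t, at' G t = χ t • (Bf (at' u t) (at' w t) + Bf (at' w t) (at' u t)) := by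
    intro t
    have nx : SN (at' u t) := hud.sn t
    have nw : SN (at' w t) := hwd.sn t
    have h1 : at' G t = χ t • Bf (at' u t + at' w t) (at' u t + at' w t)
        - χ t • Bf (at' u t) (at' u t) - χ t • Bf (at' w t) (at' w t) := by
      rw [hGd]; rfl
    rw [h1, Bf_add_left nx nw (nx.add nw), Bf_add_right nx nx nw, Bf_add_right nw nx nw]
    simp only [smul_add]
    abel
  obtain ⟨BG, hBG⟩ : ∃ BG, BG = 2 * C0 * (Mu * (Cw * N)) := ⟨_, rfl⟩
  have hBG0 : 0 ≤ BG := by rw [hBG]; positivity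
  have hGb : ∀ t, NW (Wm a) (at' G t) ≤ ENNReal.ofReal (BG * Real.exp (-(c * N ^ 2 * max t 0))) := by
    intro t
    rw [hGe]
    refine (NW_smul_le _ (hχ.nn t) (hχ.le t) _).trans ((Bf_b2 ha.le hMu (by positivity) (hxa t) (hwb t)).trans
      (ENNReal.ofReal_le_ofReal (le_of_eq ?_)))
    rw [hBG]
    ring
  -- the response
  obtain ⟨z, hzd⟩ : ∃ z : Fam, z = Duh c (hpF (N / 2) G) := ⟨_, rfl⟩
  have hHc : CF (hpF (N / 2) G) := hpF_cf _ hGc
  have hH0 : ∀ t, hpF (N / 2) G 0 t = 0 := hpF_zero hG0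
  have hHb : ∀ t, NW (Wm a) (at' (hpF (N / 2) G) t) ≤ ENNReal.ofReal (BG * Real.exp (-(c * N ^ 2 * max t 0))) :=
    fun t => (hpF_le _ _ _ t).trans (hGb t)
  have hHs : ∀ k t, nk k < N / 2 → hpF (N / 2) G k t = 0 := fun k t hk => by
    unfold hpF; rw [if_neg (not_le.2 hk)]
  have hz0 : ∀ t, z 0 t = 0 := by
    intro t
    rw [hzd]
    unfold Duh
    simp [hH0]
  have hzM : ∀ t, NW (Wm a) (at' z t) ≤ ENNReal.ofReal (2 * C0 / c * (Mu * Cw / N)) := by
    intro t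
    rw [hzd]
    refine (zM hc hN hBG0 hHc hHb t).trans (ENNReal.ofReal_le_ofReal (le_of_eq ?_))
    rw [hBG]
    field_simp
  refine ⟨G, z, hGc, hGs, hG0, hGe, fun t => by rw [← hBG]; exact hHb t, fun t => ?_, hzd,
    by rw [hzd]; exact Duh_cont hHc c, by rw [hzd]; exact Duh_sym (hpF_sym _ hGs) hHc, hz0, fun t => ?_, hzM, ?_⟩
  · -- low frequencies
    obtain ⟨x, hx⟩ : ∃ x, x = at' u t := ⟨_, rfl⟩
    obtain ⟨xh, hxh⟩ : ∃ xh, xh = at' (hpF (N / 2) u) t := ⟨_, rfl⟩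
    obtain ⟨xl, hxl⟩ : ∃ xl, xl = at' (lpF (N / 2) u) t := ⟨_, rfl⟩
    obtain ⟨y, hyd⟩ : ∃ y, y = at' w t := ⟨_, rfl⟩
    have hxx : x = xh + xl := by
      rw [hx, hxh, hxl]
      conv_lhs => rw [hp_lp (N / 2) u]
      rfl
    have nw : SN y := by rw [hyd]; exact hwd.sn t
    have nh : SN xh := by
      refine Summable.of_nonneg_of_le (fun _ => norm_nonneg _) (fun k => ?_) (hud.sn t)
      rw [hxh]
      show ‖hpF (N / 2) u k t‖ ≤ ‖u k t‖
      unfold hpF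
      split_ifs
      · exact le_rfl
      · rw [norm_zero]; exact norm_nonneg _
    have nl : SN xl := by
      refine Summable.of_nonneg_of_le (fun _ => norm_nonneg _) (fun k => ?_) (hud.sn t)
      rw [hxl]
      show ‖lpF (N / 2) u k t‖ ≤ ‖u k t‖
      unfold lpF
      split_ifs
      · rw [norm_zero]; exact norm_nonneg _
      · exact le_rfl
    have hwz : ∀ k, nk k < 2 * (N / 2) → y k = 0 := by
      intro k hk
      rw [hyd]
      exact hwsupp k t (by linarith)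
    have hlz : ∀ k, N / 2 ≤ nk k → xl k = 0 := by
      intro k hk
      rw [hxl]
      show lpF (N / 2) u k t = 0
      unfold lpF
      rw [if_pos hk]
    have hle : NW (Wm a) (at' (lpF (N / 2) G) t) ≤ NW (Wm a) (χ t • (Bf xh y + Bf y xh)) := by
      unfold NW
      refine ENNReal.tsum_le_tsum fun k => mul_le_mul' le_rfl ?_
      show ‖lpF (N / 2) G k t‖ₑ ≤ _
      unfold lpF
      split_ifs with hk
      · simp
      · push Not at hk
        have h1 : G k t = (χ t • (Bf x y + Bf y x)) k := by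
          rw [hx, hyd, ← hGe t]
          rfl
        obtain ⟨h2, h3⟩ := Bf_lohi hlz hwz hk
        rw [h1, hxx, Bf_add_left nh nl nw, Bf_add_right nw nh nl]
        simp only [Pi.smul_apply, Pi.add_apply, h2, h3, add_zero, le_refl]
    have hA := tailA hχ hc ha.le (by positivity : (0 : ℝ) ≤ N / 2) hMu hu hud heq hV hxa t
    rw [← hxh] at hA
    have hwt := hwb t
    rw [← hyd] at hwt
    refine hle.trans ((NW_smul_le _ (hχ.nn t) (hχ.le t) _).trans ((Bf_b2 ha.le (by positivity) (by positivity)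
      hA hwt).trans (ENNReal.ofReal_le_ofReal ?_)))
    have h1 := sqrt_exp_half (t := t) hc hN
    have hsc2 : √c * √c = c := Real.mul_self_sqrt hc.le
    calc 2 * C0 * (2 * C0 * Mu ^ 2 / √c * √(max t 0) * (Cw * N * Real.exp (-(c * N ^ 2 * max t 0))))
        = 4 * C0 ^ 2 * Mu ^ 2 * Cw * N / √c * (√(max t 0) * Real.exp (-(c * N ^ 2 * max t 0))) := by ring
      _ ≤ 4 * C0 ^ 2 * Mu ^ 2 * Cw * N / √c * (1 / (√c * N) * Real.exp (-(c / 16 * N ^ 2 * max t 0))) :=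
          mul_le_mul_of_nonneg_left h1 (by positivity)
      _ = 4 * C0 ^ 2 * Mu ^ 2 * Cw / (√c * √c) * Real.exp (-(c / 16 * N ^ 2 * max t 0)) := by field_simp
      _ = _ := by rw [hsc2]; ring
  · rw [hzd]
    refine (zA hc hN hBG0 hHc hH0 hHs hHb t).trans (ENNReal.ofReal_le_ofReal (le_of_eq ?_))
    rw [hBG]
    field_simp
    ring
  · obtain ⟨M, hM⟩ : ∃ M, M = 2 * C0 / c * (Mu * Cw / N) := ⟨_, rfl⟩
    have hM0 : 0 ≤ M := by rw [hM]; positivity
    refine ⟨fun k => M * (nk k * Real.exp (-(a * l1 k))), ?_, fun k t =>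
      norm_le_of_NWm hM0 (hz0 t) (by rw [hM]; exact hzM t) k⟩
    refine ((summ_nk (half_pos ha)).mul_left M).congr fun k => ?_
    unfold om
    have : Real.exp (-(a / 2 * l1 k)) = Real.exp (a / 2 * l1 k) * Real.exp (-(a * l1 k)) := by
      rw [← Real.exp_add]; congr 1; ring
    rw [this]; ring

end Pool.Agent.H356R3.NS.X
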