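import Pool.Agent.H3NX.NearX
import Pool.Agent.H356R3.NS.Late

set_option autoImplicit false
set_option maxHeartbeats 4000000
set_option synthInstance.maxHeartbeats 400000

open MeasureTheory Set Filter Topology
open scoped ENNReal NNReal

namespace Pool.Agent.H356R3.NS.X

/-- the weight `w(k)|k|` -/
noncomputable def W1 (w : K → ℝ≥0∞) (k : K) : ℝ≥0∞ := w k * ENNReal.ofReal (nk k)

/-- the weight `w(k)|k|²` -/
noncomputable def W2 (w : K → ℝ≥0∞) (k : K) : ℝ≥0∞ := w k * ENNReal.ofReal (sq k)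

lemma interp_w (w : K → ℝ≥0∞) (x : K → C3) :
    NW (W1 w) x * NW (W1 w) x ≤ NW w x * NW (W2 w) x := by
  have key : ∀ k l, (W1 w k * ‖x k‖ₑ) * (W1 w l * ‖x l‖ₑ) + (W1 w k * ‖x k‖ₑ) * (W1 w l * ‖x l‖ₑ)
      ≤ (w k * ‖x k‖ₑ) * (W2 w l * ‖x l‖ₑ) + (W2 w k * ‖x k‖ₑ) * (w l * ‖x l‖ₑ) := by
    intro k l
    have p1 := nk_nonneg k
    have p2 := nk_nonneg l
    have e1 : (W1 w k * ‖x k‖ₑ) * (W1 w l * ‖x l‖ₑ) + (W1 w k * ‖x k‖ₑ) * (W1 w l * ‖x l‖ₑ)
        = ENNReal.ofReal (nk k * nk l + nk k * nk l) * ((w k * ‖x k‖ₑ) * (w l * ‖x l‖ₑ)) := by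
      unfold W1
      rw [ENNReal.ofReal_add (by positivity) (by positivity), ENNReal.ofReal_mul p1]
      ring
    have e2 : (w k * ‖x k‖ₑ) * (W2 w l * ‖x l‖ₑ) + (W2 w k * ‖x k‖ₑ) * (w l * ‖x l‖ₑ)
        = ENNReal.ofReal (sq l + sq k) * ((w k * ‖x k‖ₑ) * (w l * ‖x l‖ₑ)) := by
      unfold W2
      rw [ENNReal.ofReal_add (sq_nonneg' _) (sq_nonneg' _)]
      ring
    rw [e1, e2]
    apply mul_le_mul' _ le_rfl
    apply ENNReal.ofReal_le_ofReal
    rw [← nk_mul_self, ← nk_mul_self]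
    nlinarith [sq_nonneg (nk k - nk l)]
  have h2 : NW (W1 w) x * NW (W1 w) x + NW (W1 w) x * NW (W1 w) x
      ≤ NW w x * NW (W2 w) x + NW (W2 w) x * NW w x := by
    have e : ∀ f g : K → ℝ≥0∞, (∑' k, f k) * (∑' l, g l) = ∑' k, ∑' l, f k * g l := by
      intro f g
      rw [← ENNReal.tsum_mul_right]
      exact tsum_congr fun k => ENNReal.tsum_mul_left.symm
    unfold NW
    rw [e, e, e, ← ENNReal.tsum_add, ← ENNReal.tsum_add]
    refine ENNReal.tsum_le_tsum fun k => ?_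
    rw [← ENNReal.tsum_add, ← ENNReal.tsum_add]
    exact ENNReal.tsum_le_tsum fun l => key k l
  rw [mul_comm (NW (W2 w) x), ← two_mul, ← two_mul] at h2
  exact (ENNReal.mul_le_mul_iff_right (by norm_num) (by norm_num)).1 h2

lemma L1w {c : ℝ} (hc : 0 < c) (w : K → ℝ≥0∞) {F : Fam} (hF : CF F) {g : ℝ → ℝ} (hg : Monotone g) :
    ENNReal.ofReal c * ∫⁻ t in Ioi 0, ENNReal.ofReal (Real.exp (-g t)) * NW (W2 w) (at' (Duh c F) t)
      ≤ ∫⁻ s in Ioi 0, ENNReal.ofReal (Real.exp (-g s)) * NW w (at' F s) := by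
  have hgm : Measurable fun t => ENNReal.ofReal (Real.exp (-g t)) :=
    ENNReal.measurable_ofReal.comp (Real.measurable_exp.comp hg.measurable.neg)
  -- one mode
  have hk : ∀ k : K, k ≠ 0 → ENNReal.ofReal (c * sq k) *
      ∫⁻ t in Ioi 0, ENNReal.ofReal (Real.exp (-g t)) * ‖Duh c F k t‖ₑ
      ≤ ∫⁻ s in Ioi 0, ENNReal.ofReal (Real.exp (-g s)) * ‖F k s‖ₑ := by
    intro k hk0
    have hlam : 0 < c * sq k := mul_pos hc (sq_pos hk0)
    set H : ℝ → ℝ → ℝ≥0∞ := fun t s => (Ici s).indicator (fun t =>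
      ENNReal.ofReal (Real.exp (-g s)) * (ENNReal.ofReal (Real.exp (-(c * sq k * (t - s)))) * ‖F k s‖ₑ)) t
    have h1 : ∀ t ∈ Ioi (0 : ℝ), ENNReal.ofReal (Real.exp (-g t)) * ‖Duh c F k t‖ₑ
        ≤ ∫⁻ s in Ioi 0, H t s := by
      intro t ht
      have ht' : 0 < t := ht
      calc ENNReal.ofReal (Real.exp (-g t)) * ‖Duh c F k t‖ₑ
          ≤ ENNReal.ofReal (Real.exp (-g t)) * ∫⁻ s in Ioc 0 t,
            ENNReal.ofReal (Real.exp (-(c * sq k * (t - s)))) * ‖F k s‖ₑ :=
            mul_le_mul' le_rfl (enorm_Duh_le c F k ht'.le)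
        _ = ∫⁻ s in Ioc 0 t, ENNReal.ofReal (Real.exp (-g t)) *
            (ENNReal.ofReal (Real.exp (-(c * sq k * (t - s)))) * ‖F k s‖ₑ) := by
            rw [lintegral_const_mul]
            have := (hF k).enorm.measurable
            fun_prop
        _ ≤ ∫⁻ s in Ioc 0 t, H t s := by
            refine setLIntegral_mono' measurableSet_Ioc fun s hs => ?_
            simp only [H]
            rw [indicator_of_mem (show t ∈ Ici s from hs.2)]
            apply mul_le_mul' _ le_rfl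
            apply ENNReal.ofReal_le_ofReal
            apply Real.exp_le_exp.2
            have := hg hs.2
            linarith
        _ ≤ ∫⁻ s in Ioi 0, H t s := lintegral_mono_set fun s hs => hs.1
    have hH : Measurable (Function.uncurry H) := by
      have e : Function.uncurry H = {p : ℝ × ℝ | p.2 ≤ p.1}.indicator (fun p =>
        ENNReal.ofReal (Real.exp (-g p.2)) *
          (ENNReal.ofReal (Real.exp (-(c * sq k * (p.1 - p.2)))) * ‖F k p.2‖ₑ)) := by
        funext ⟨t, s⟩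
        simp only [Function.uncurry, H, indicator, mem_Ici, mem_ofPred_eq]
      rw [e]
      refine Measurable.indicator ?_ (measurableSet_le measurable_snd measurable_fst)
      have m1 := hgm.comp (measurable_snd : Measurable (Prod.snd : ℝ × ℝ → ℝ))
      have m2 := (hF k).enorm.measurable.comp (measurable_snd : Measurable (Prod.snd : ℝ × ℝ → ℝ))
      refine m1.mul (Measurable.mul ?_ m2)
      fun_prop
    calc ENNReal.ofReal (c * sq k) *
          ∫⁻ t in Ioi 0, ENNReal.ofReal (Real.exp (-g t)) * ‖Duh c F k t‖ₑ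
        ≤ ENNReal.ofReal (c * sq k) * ∫⁻ t in Ioi 0, ∫⁻ s in Ioi 0, H t s :=
          mul_le_mul' le_rfl (setLIntegral_mono' measurableSet_Ioi h1)
      _ = ENNReal.ofReal (c * sq k) * ∫⁻ s in Ioi 0, ∫⁻ t in Ioi 0, H t s := by
          rw [lintegral_lintegral_swap hH.aemeasurable]
      _ = ∫⁻ s in Ioi 0, ENNReal.ofReal (c * sq k) * ∫⁻ t in Ioi 0, H t s := by
          have mH : Measurable fun s => ∫⁻ t in Ioi 0, H t s := Measurable.lintegral_prod_left' hH
          rw [lintegral_const_mul _ mH]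
      _ ≤ ∫⁻ s in Ioi 0, ENNReal.ofReal (Real.exp (-g s)) * ‖F k s‖ₑ := by
          refine lintegral_mono fun s => ?_
          have h3 : ∫⁻ t in Ioi 0, H t s ≤ ENNReal.ofReal (Real.exp (-g s)) * ‖F k s‖ₑ *
              ENNReal.ofReal (1 / (c * sq k)) := by
            calc ∫⁻ t in Ioi 0, H t s ≤ ∫⁻ t, H t s := setLIntegral_le_lintegral _ _
              _ = ∫⁻ t in Ici s, ENNReal.ofReal (Real.exp (-g s)) *
                  (ENNReal.ofReal (Real.exp (-(c * sq k * (t - s)))) * ‖F k s‖ₑ) :=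
                  lintegral_indicator measurableSet_Ici _
              _ = ∫⁻ t in Ici s, (ENNReal.ofReal (Real.exp (-g s)) * ‖F k s‖ₑ) *
                  ENNReal.ofReal (Real.exp (-(c * sq k * (t - s)))) := by
                  refine lintegral_congr fun t => ?_
                  ring
              _ = _ := by
                  rw [lintegral_const_mul _ (by fun_prop), lint_exp hlam]
          calc ENNReal.ofReal (c * sq k) * ∫⁻ t in Ioi 0, H t s
              ≤ ENNReal.ofReal (c * sq k) * (ENNReal.ofReal (Real.exp (-g s)) * ‖F k s‖ₑ *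
              ENNReal.ofReal (1 / (c * sq k))) := mul_le_mul' le_rfl h3
            _ = (ENNReal.ofReal (c * sq k) * ENNReal.ofReal (1 / (c * sq k))) *
                (ENNReal.ofReal (Real.exp (-g s)) * ‖F k s‖ₑ) := by ring
            _ = _ := by
                rw [← ENNReal.ofReal_mul hlam.le, mul_one_div_cancel hlam.ne', ENNReal.ofReal_one,
                  one_mul]
  unfold NW
  simp_rw [← ENNReal.tsum_mul_left]
  rw [lintegral_tsum, lintegral_tsum, ← ENNReal.tsum_mul_left]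
  · refine ENNReal.tsum_le_tsum fun k => ?_
    by_cases hk0 : k = 0
    · subst hk0
      simp [W2, sq_zero]
    have m1 : Measurable fun s => ENNReal.ofReal (Real.exp (-g s)) * ‖F k s‖ₑ :=
      hgm.mul (hF k).enorm.measurable
    have m2 : Measurable fun s => ENNReal.ofReal (Real.exp (-g s)) * ‖Duh c F k s‖ₑ :=
      hgm.mul (Duh_cont hF c k).enorm.measurable
    have e1 : ∫⁻ s in Ioi 0, ENNReal.ofReal (Real.exp (-g s)) * (w k * ‖at' F s k‖ₑ)
        = w k * ∫⁻ s in Ioi 0, ENNReal.ofReal (Real.exp (-g s)) * ‖F k s‖ₑ := by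
      rw [← lintegral_const_mul _ m1]
      refine lintegral_congr fun s => ?_
      simp only [at']; ring
    have e2 : ∫⁻ s in Ioi 0, ENNReal.ofReal (Real.exp (-g s)) * (W2 w k * ‖at' (Duh c F) s k‖ₑ)
        = W2 w k * ∫⁻ s in Ioi 0, ENNReal.ofReal (Real.exp (-g s)) * ‖Duh c F k s‖ₑ := by
      rw [← lintegral_const_mul _ m2]
      refine lintegral_congr fun s => ?_
      simp only [at']; ring
    rw [e1, e2]
    calc ENNReal.ofReal c * (W2 w k * ∫⁻ s in Ioi 0, ENNReal.ofReal (Real.exp (-g s)) * ‖Duh c F k s‖ₑ)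
        = w k * (ENNReal.ofReal (c * sq k) *
          ∫⁻ s in Ioi 0, ENNReal.ofReal (Real.exp (-g s)) * ‖Duh c F k s‖ₑ) := by
          rw [ENNReal.ofReal_mul hc.le]
          unfold W2
          ring
      _ ≤ _ := mul_le_mul' le_rfl (hk k hk0)
  · intro k
    have m1 : Measurable fun s => w k * ‖at' F s k‖ₑ := ((hF k).enorm.measurable).const_mul _
    exact (hgm.mul m1).aemeasurable
  · intro k
    have m1 : Measurable fun s => W2 w k * ‖at' (Duh c F) s k‖ₑ :=
      ((Duh_cont hF c k).enorm.measurable).const_mul _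
    exact (hgm.mul m1).aemeasurable

/-- The weighted norm of a family. -/
noncomputable def LG (g : ℝ → ℝ) (W : K → ℝ≥0∞) (x : Fam) : ℝ≥0∞ :=
  LN fun t => ENNReal.ofReal (Real.exp (-g t)) * NW W (at' x t)

lemma LG_sq (g : ℝ → ℝ) (W : K → ℝ≥0∞) (x : Fam) : LG g W x ^ 2 =
    ∫⁻ t in Ioi 0, (ENNReal.ofReal (Real.exp (-g t)) * NW W (at' x t)) *
      (ENNReal.ofReal (Real.exp (-g t)) * NW W (at' x t)) := by
  unfold LG LN
  rw [← ENNReal.rpow_two, ← ENNReal.rpow_mul]
  norm_num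
  refine lintegral_congr fun t => ?_
  rw [pow_two]

lemma key_w {c : ℝ} (hc : 0 < c) (w : K → ℝ≥0∞) {F : Fam} (hF : CF F)
    {g : ℝ → ℝ} (hg : Monotone g) {P Q : ℝ≥0∞}
    (hP : ∀ t, 0 < t → ENNReal.ofReal (Real.exp (-g t)) * ∫⁻ s in Ioc 0 t, NW w (at' F s) ≤ P)
    (hQ : ∫⁻ s in Ioi 0, ENNReal.ofReal (Real.exp (-g s)) * NW w (at' F s) ≤ Q) :
    ENNReal.ofReal c * LG g (W1 w) (Duh c F) ^ 2 ≤ P * Q := by
  have hgm : Measurable fun t => ENNReal.ofReal (Real.exp (-g t)) :=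
    ENNReal.measurable_ofReal.comp (Real.measurable_exp.comp hg.measurable.neg)
  have h1 : LG g (W1 w) (Duh c F) ^ 2 ≤
      P * ∫⁻ t in Ioi 0, ENNReal.ofReal (Real.exp (-g t)) * NW (W2 w) (at' (Duh c F) t) := by
    have mm : Measurable fun t => ENNReal.ofReal (Real.exp (-g t)) * NW (W2 w) (at' (Duh c F) t) :=
      hgm.mul (NW_meas _ (Duh_cont hF c))
    rw [LG_sq, ← lintegral_const_mul _ mm]
    refine setLIntegral_mono' measurableSet_Ioi fun t ht => ?_
    have ht' : (0 : ℝ) < t := ht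
    calc ENNReal.ofReal (Real.exp (-g t)) * NW (W1 w) (at' (Duh c F) t) *
          (ENNReal.ofReal (Real.exp (-g t)) * NW (W1 w) (at' (Duh c F) t))
        = ENNReal.ofReal (Real.exp (-g t)) * ENNReal.ofReal (Real.exp (-g t)) *
          (NW (W1 w) (at' (Duh c F) t) * NW (W1 w) (at' (Duh c F) t)) := by ring
      _ ≤ ENNReal.ofReal (Real.exp (-g t)) * ENNReal.ofReal (Real.exp (-g t)) *
          (NW w (at' (Duh c F) t) * NW (W2 w) (at' (Duh c F) t)) :=
          mul_le_mul' le_rfl (interp_w w _)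
      _ = (ENNReal.ofReal (Real.exp (-g t)) * NW w (at' (Duh c F) t)) *
          (ENNReal.ofReal (Real.exp (-g t)) * NW (W2 w) (at' (Duh c F) t)) := by ring
      _ ≤ P * (ENNReal.ofReal (Real.exp (-g t)) * NW (W2 w) (at' (Duh c F) t)) := by
          apply mul_le_mul' _ le_rfl
          exact (mul_le_mul' le_rfl (NW_Duh_le hc.le w hF ht'.le)).trans (hP t ht')
  calc ENNReal.ofReal c * LG g (W1 w) (Duh c F) ^ 2
      ≤ ENNReal.ofReal c * (P * ∫⁻ t in Ioi 0,
        ENNReal.ofReal (Real.exp (-g t)) * NW (W2 w) (at' (Duh c F) t)) := mul_le_mul' le_rfl h1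
    _ = P * (ENNReal.ofReal c * ∫⁻ t in Ioi 0,
        ENNReal.ofReal (Real.exp (-g t)) * NW (W2 w) (at' (Duh c F) t)) := by ring
    _ ≤ P * Q := mul_le_mul' le_rfl ((L1w hc w hF hg).trans hQ)

/-- The linear part. -/
lemma lin_w {c : ℝ} (hc : 0 < c) (w : K → ℝ≥0∞) (V : K → C3) :
    ENNReal.ofReal c * LN (fun t => NW (W1 w) (at' (Ht c V) t)) ^ 2 ≤ NW w V ^ 2 := by
  have hle : ∀ (W : K → ℝ≥0∞) t, NW W (at' (Ht c V) t) ≤ NW W V := by
    intro W t
    unfold NW
    refine ENNReal.tsum_le_tsum fun k => mul_le_mul' le_rfl ?_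
    show ‖Real.exp (-(c * sq k * max t 0)) • V k‖ₑ ≤ _
    rw [enorm_smul, Real.enorm_of_nonneg (Real.exp_pos _).le]
    calc _ ≤ 1 * ‖V k‖ₑ := by
          apply mul_le_mul' _ le_rfl
          rw [ENNReal.ofReal_le_one, Real.exp_le_one_iff]
          have := sq_nonneg' k
          have h2 : 0 ≤ max t 0 := le_max_right _ _
          have : 0 ≤ c * sq k * max t 0 := by positivity
          linarith
      _ = _ := one_mul _
  have hm : ∀ (W : K → ℝ≥0∞), Measurable fun t => NW W (at' (Ht c V) t) := fun W =>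
    NW_meas W (F := Ht c V) fun k => by unfold Ht; fun_prop
  have e1 : LN (fun t => NW (W1 w) (at' (Ht c V) t)) ^ 2
      = ∫⁻ t in Ioi 0, NW (W1 w) (at' (Ht c V) t) * NW (W1 w) (at' (Ht c V) t) := by
    unfold LN
    rw [← ENNReal.rpow_two, ← ENNReal.rpow_mul]
    norm_num
    refine lintegral_congr fun t => ?_
    rw [pow_two]
  have h1 : LN (fun t => NW (W1 w) (at' (Ht c V) t)) ^ 2
      ≤ NW w V * ∫⁻ t in Ioi 0, NW (W2 w) (at' (Ht c V) t) := by
    rw [e1, ← lintegral_const_mul _ (hm _)]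
    refine lintegral_mono fun t => ?_
    exact (interp_w w _).trans (mul_le_mul' (hle w t) le_rfl)
  have h2 : ENNReal.ofReal c * ∫⁻ t in Ioi 0, NW (W2 w) (at' (Ht c V) t) ≤ NW w V := by
    unfold NW
    rw [lintegral_tsum, ← ENNReal.tsum_mul_left]
    · refine ENNReal.tsum_le_tsum fun k => ?_
      by_cases hk0 : k = 0
      · subst hk0
        simp [W2, sq_zero]
      have hlam : 0 < c * sq k := mul_pos hc (sq_pos hk0)
      have e2 : ∀ t, W2 w k * ‖at' (Ht c V) t k‖ₑ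
          = (W2 w k * ‖V k‖ₑ) * ENNReal.ofReal (Real.exp (-(c * sq k * max t 0))) := by
        intro t
        show W2 w k * ‖Real.exp (-(c * sq k * max t 0)) • V k‖ₑ = _
        rw [enorm_smul, Real.enorm_of_nonneg (Real.exp_pos _).le]
        ring
      simp only [e2]
      rw [lintegral_const_mul _ (by fun_prop), lint_e hlam]
      have e3 : ENNReal.ofReal c * (W2 w k * ‖V k‖ₑ * ENNReal.ofReal (1 / (c * sq k)))
          = (ENNReal.ofReal (c * sq k) * ENNReal.ofReal (1 / (c * sq k))) * (w k * ‖V k‖ₑ) := by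
        rw [ENNReal.ofReal_mul hc.le]
        unfold W2
        ring
      rw [e3, ← ENNReal.ofReal_mul hlam.le, mul_one_div_cancel hlam.ne', ENNReal.ofReal_one, one_mul]
    · intro k
      have : Continuous (Ht c V k) := by unfold Ht; fun_prop
      exact (this.enorm.measurable.const_mul _).aemeasurable
  calc ENNReal.ofReal c * LN (fun t => NW (W1 w) (at' (Ht c V) t)) ^ 2
      ≤ ENNReal.ofReal c * (NW w V * ∫⁻ t in Ioi 0, NW (W2 w) (at' (Ht c V) t)) := mul_le_mul' le_rfl h1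
    _ = NW w V * (ENNReal.ofReal c * ∫⁻ t in Ioi 0, NW (W2 w) (at' (Ht c V) t)) := by ring
    _ ≤ NW w V * NW w V := mul_le_mul' le_rfl h2
    _ = _ := (pow_two _).symm

end Pool.Agent.H356R3.NS.X
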