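import Pool.Agent.H3NX.Run

set_option autoImplicit false
set_option maxHeartbeats 4000000
set_option synthInstance.maxHeartbeats 400000

open MeasureTheory Set Filter Topology
open scoped ENNReal NNReal

namespace Pool.Agent.H356R3.NS.X

open Pool.Agent.H3NS

lemma exists_shell {k : K} (hk : k ≠ 0) : ∃ j : ℕ, (4 : ℝ) ^ j ≤ sq k ∧ sq k < 4 ^ (j + 1) :=
  exists_nat_pow_near (one_le_sq hk) (by norm_num)

lemma enorm_le_crit {r : ℝ} (hr : 1 ≤ r) (x : K → C3) {k : K} (hk : k ≠ 0) :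
    ‖x k‖ₑ ≤ ENNReal.ofReal (nk k) * critNorm r x := by
  have hr0 : 0 < r := by linarith
  obtain ⟨j, h1, h2⟩ := exists_shell hk
  have h3 : ‖x k‖ₑ / 2 ^ j ≤ critNorm r x := by
    unfold critNorm
    calc ‖x k‖ₑ / 2 ^ j ≤ shellSum x j / 2 ^ j := by
          apply ENNReal.div_le_div_right
          rw [shellSum_eq]
          unfold shell
          refine le_trans (le_of_eq ?_) (ENNReal.le_tsum k)
          rw [if_pos ⟨h1, h2⟩]
      _ = ((shellSum x j / 2 ^ j) ^ r) ^ (1 / r) := by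
          rw [← ENNReal.rpow_mul, mul_one_div_cancel hr0.ne', ENNReal.rpow_one]
      _ ≤ _ := ENNReal.rpow_le_rpow (ENNReal.le_tsum j) (by positivity)
  have h4 : (2 : ℝ) ^ j ≤ nk k := by
    unfold nk
    apply Real.le_sqrt_of_sq_le
    calc ((2 : ℝ) ^ j) ^ 2 = 4 ^ j := by rw [← pow_mul, mul_comm, pow_mul]; norm_num
      _ ≤ _ := h1
  have h5 : (2 : ℝ≥0∞) ^ j ≤ ENNReal.ofReal (nk k) := by
    have : (2 : ℝ≥0∞) ^ j = ENNReal.ofReal (2 ^ j) := by
      rw [ENNReal.ofReal_pow (by norm_num)]; simp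
    rw [this]
    exact ENNReal.ofReal_le_ofReal h4
  calc ‖x k‖ₑ = 2 ^ j * (‖x k‖ₑ / 2 ^ j) := by
        rw [ENNReal.mul_div_cancel (by positivity) (by simp)]
    _ ≤ _ := mul_le_mul' h5 h3

/-- lower semicontinuity of the critical norm -/
lemma critNorm_le_of_tendsto {r : ℝ} (hr : 1 ≤ r) {x : ℕ → K → C3} {y : K → C3}
    (h : ∀ k, Tendsto (fun n => x n k) atTop (𝓝 (y k))) {C : ℝ≥0∞} (hC : ∀ᶠ n in atTop, critNorm r (x n) ≤ C) :
    critNorm r y ≤ C := by
  have hr0 : 0 < r := by linarith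
  have hsh : ∀ (z : K → C3) (j : ℕ), shellSum z j =
      NW (fun k => if (4 : ℝ) ^ j ≤ sq k ∧ sq k < 4 ^ (j + 1) then 1 else 0) z := by
    intro z j
    rw [shellSum_eq]
    unfold shell NW
    refine tsum_congr fun k => ?_
    by_cases hc : (4 : ℝ) ^ j ≤ sq k ∧ sq k < 4 ^ (j + 1)
    · simp only [if_pos hc, one_mul]
    · simp only [if_neg hc, zero_mul]
  have hfat : ∀ φ : ℕ → ℕ → ℝ≥0∞, ∑' j, liminf (fun n => φ n j) atTop ≤ liminf (fun n => ∑' j, φ n j) atTop := by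
    intro φ
    have h3 := lintegral_liminf_le (μ := (Measure.count : Measure ℕ)) (f := φ) (u := atTop)
      (fun n => measurable_of_countable _)
    rw [lintegral_count] at h3
    simp only [lintegral_count] at h3
    exact h3
  have h1 : ∀ j, (shellSum y j / 2 ^ j) ^ r ≤ liminf (fun n => (shellSum (x n) j / 2 ^ j) ^ r) atTop := by
    intro j
    have hmono : Monotone fun z : ℝ≥0∞ => (z / 2 ^ j) ^ r := fun a b hab =>
      ENNReal.rpow_le_rpow (ENNReal.div_le_div_right hab _) hr0.le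
    have hcont : Continuous fun z : ℝ≥0∞ => (z / 2 ^ j) ^ r :=
      (ENNReal.continuous_rpow_const).comp (ENNReal.continuous_div_const _ (by positivity))
    have h5 := hmono.map_liminf_of_continuousAt (F := atTop) (fun n => shellSum (x n) j) hcont.continuousAt
    have h6 : shellSum y j ≤ liminf (fun n => shellSum (x n) j) atTop := by
      simp only [hsh]
      exact NW_le_liminf (fun k => by split_ifs <;> simp) h
    exact (hmono h6).trans (le_of_eq h5)
  have h2 : ∑' j, (shellSum y j / 2 ^ j) ^ r ≤ C ^ r := by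
    calc ∑' j, (shellSum y j / 2 ^ j) ^ r
        ≤ ∑' j, liminf (fun n => (shellSum (x n) j / 2 ^ j) ^ r) atTop := ENNReal.tsum_le_tsum h1
      _ ≤ liminf (fun n => ∑' j, (shellSum (x n) j / 2 ^ j) ^ r) atTop :=
          hfat fun n j => (shellSum (x n) j / 2 ^ j) ^ r
      _ ≤ liminf (fun _ : ℕ => C ^ r) atTop := by
          refine liminf_le_liminf (hC.mono fun n hn => ?_)
          have := ENNReal.rpow_le_rpow hn hr0.le
          unfold critNorm at this
          rw [← ENNReal.rpow_mul, one_div_mul_cancel hr0.ne', ENNReal.rpow_one] at this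
          exact this
      _ = _ := liminf_const _
  unfold critNorm
  calc _ ≤ (C ^ r) ^ (1 / r) := ENNReal.rpow_le_rpow h2 (by positivity)
    _ = C := by rw [← ENNReal.rpow_mul, mul_one_div_cancel hr0.ne', ENNReal.rpow_one]

lemma LP_le_of_tendsto {p : ℝ} (hp : 0 < p) {x : ℕ → Fam} {y : Fam} (hx : ∀ n, CF (x n))
    (h : ∀ k t, Tendsto (fun n => x n k t) atTop (𝓝 (y k t))) {C : ℝ≥0∞}
    (hC : ∀ᶠ n in atTop, LP p (x n) ≤ C) : LP p y ≤ C := by
  have h2 : ∫⁻ t in Ioc 0 1, NW (Wa 0) (at' y t) ^ p ≤ C ^ p := by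
    calc ∫⁻ t in Ioc 0 1, NW (Wa 0) (at' y t) ^ p
        ≤ ∫⁻ t in Ioc 0 1, liminf (fun n => NW (Wa 0) (at' (x n) t) ^ p) atTop := by
          refine lintegral_mono fun t => ?_
          have hmono : Monotone fun z : ℝ≥0∞ => z ^ p := fun a b hab => ENNReal.rpow_le_rpow hab hp.le
          have h5 := hmono.map_liminf_of_continuousAt (F := atTop) (fun n => NW (Wa 0) (at' (x n) t))
            (ENNReal.continuous_rpow_const).continuousAt
          have h6 : NW (Wa 0) (at' y t) ≤ liminf (fun n => NW (Wa 0) (at' (x n) t)) atTop :=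
            NW_le_liminf (Wa_ne_top 0) (x := fun n => at' (x n) t) (fun k => h k t)
          exact (hmono h6).trans (le_of_eq h5)
      _ ≤ liminf (fun n => ∫⁻ t in Ioc 0 1, NW (Wa 0) (at' (x n) t) ^ p) atTop :=
          lintegral_liminf_le fun n => (NW_meas _ (hx n)).pow_const _
      _ ≤ liminf (fun _ : ℕ => C ^ p) atTop := by
          refine liminf_le_liminf (hC.mono fun n hn => ?_)
          have := ENNReal.rpow_le_rpow hn hp.le
          unfold LP at this
          rw [← ENNReal.rpow_mul, one_div_mul_cancel hp.ne', ENNReal.rpow_one] at this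
          exact this
      _ = _ := liminf_const _
  unfold LP
  calc _ ≤ (C ^ p) ^ (1 / p) := ENNReal.rpow_le_rpow h2 (by positivity)
    _ = C := by rw [← ENNReal.rpow_mul, mul_one_div_cancel hp.ne', ENNReal.rpow_one]

lemma norm_le_of_ws {x : K → C3} (h0 : x 0 = 0) {B : ℝ} (hB : 0 ≤ B) {s : ℕ}
    (h : NW (ws s) x ≤ ENNReal.ofReal B) (k : K) : ‖x k‖ ≤ B * (1 / nk k) ^ s := by
  by_cases hk : k = 0
  · subst hk
    rw [h0, norm_zero, nk_zero]
    positivity
  have hn := nk_pos hk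
  have h1 : ws s k * ‖x k‖ₑ ≤ ENNReal.ofReal B := (ENNReal.le_tsum k).trans h
  unfold ws at h1
  rw [← ofReal_norm, ← ENNReal.ofReal_mul (by positivity)] at h1
  have h2 := (ENNReal.ofReal_le_ofReal_iff hB).1 h1
  rw [one_div, inv_pow, ← div_eq_mul_inv, le_div_iff₀ (by positivity)]
  linarith

/-- telescoping -/
lemma tele {u : ℕ → Fam} (hu : ∀ n, CF (u n)) {N : Fam → ℝ≥0∞}
    (hN : ∀ x y, CF x → CF y → N (x + y) ≤ N x + N y) (hN0 : N 0 = 0) {e : ℝ} (he : 0 ≤ e) {j : ℕ}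
    (h : ∀ i, j ≤ i → N (u (i + 1) - u i) ≤ ENNReal.ofReal (e * (1 / 2) ^ i)) (n : ℕ) (hn : j ≤ n) :
    N (u n - u j) ≤ ENNReal.ofReal (2 * e * (1 / 2) ^ j) := by
  have key : N (u n - u j) ≤ ENNReal.ofReal (2 * e * ((1 / 2) ^ j - (1 / 2) ^ n)) := by
    induction n, hn using Nat.le_induction with
    | base => rw [sub_self, hN0]; exact zero_le
    | succ n hn ih =>
      have e1 : u (n + 1) - u j = (u (n + 1) - u n) + (u n - u j) := by abel
      have p1 : (1 / 2 : ℝ) ^ n ≤ (1 / 2) ^ j := pow_le_pow_of_le_one (by norm_num) (by norm_num) hn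
      rw [e1]
      refine (hN _ _ (CF.sub' (hu _) (hu _)) (CF.sub' (hu _) (hu _))).trans ((add_le_add (h n hn) ih).trans ?_)
      rw [← ENNReal.ofReal_add (by positivity) (mul_nonneg (by positivity) (by linarith))]
      apply ENNReal.ofReal_le_ofReal
      rw [pow_succ]
      apply le_of_eq
      ring
  refine key.trans (ENNReal.ofReal_le_ofReal ?_)
  have p1 : (0 : ℝ) ≤ (1 / 2) ^ n := by positivity
  nlinarith

section
variable {χ : ℝ → ℝ} {c : ℝ} {b : K → C3} {S0 : StX χ c} {ρ p dl : ℕ → ℝ} {e : ℝ} {g : ℝ → ℝ}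
    {S : ℕ → StX χ c} {W D : ℕ → K → C3}

lemma Run.crd (h : Run χ c b S0 ρ p dl e g S W D) (he : 0 ≤ e) (hρ2 : ∀ j, 2 < ρ j) (hρ : Antitone ρ) {r : ℝ} {j : ℕ}
    (hj : ρ j ≤ r) (t : ℝ) :
    critNorm r (at' ((S (j + 1 + 1)).u - (S (j + 1)).u) t) ≤ ENNReal.ofReal (24 * e * (1 / 2) ^ (j + 1)) := by
  have hr : 1 ≤ r := by linarith [hρ2 j]
  have hj1 : ρ (j + 1) ≤ r := (hρ (Nat.le_succ j)).trans hj
  have q : ∀ i, 1 ≤ ρ i := fun i => by linarith [hρ2 i]
  have w1 : critNorm r (W (j + 1)) ≤ ENNReal.ofReal (e * (1 / 2) ^ (j + 1)) :=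
    (critNorm_anti (q _) hj1 _).trans (h.wn (j + 1))
  have w0 : critNorm r (W j) ≤ ENNReal.ofReal (e * (1 / 2) ^ j) :=
    (critNorm_anti (q _) hj _).trans (h.wn j)
  have d1 : critNorm r (b - D (j + 1)) ≤ ENNReal.ofReal (e * (1 / 2) ^ (j + 1)) :=
    (critNorm_anti (q _) hj1 _).trans (h.dn (j + 1))
  have d0 : critNorm r (b - D j) ≤ ENNReal.ofReal (e * (1 / 2) ^ j) :=
    (critNorm_anti (q _) hj _).trans (h.dn j)
  have e1 : D (j + 1) - (S (j + 1)).V = ((b - D j) - (b - D (j + 1))) - W j := by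
    rw [h.sV j]; abel
  have h1 : critNorm r (D (j + 1) - (S (j + 1)).V) ≤ ENNReal.ofReal (e * (1 / 2) ^ j) +
      ENNReal.ofReal (e * (1 / 2) ^ (j + 1)) + ENNReal.ofReal (e * (1 / 2) ^ j) := by
    rw [e1]
    exact (critNorm_sub' hr _ _).trans (add_le_add ((critNorm_sub' hr _ _).trans (add_le_add d0 d1)) w0)
  have p0 : (0 : ℝ) ≤ (1 / 2) ^ j := by positivity
  refine (h.cr (j + 1) r t hr).trans ((add_le_add (add_le_add w1 (mul_le_mul' le_rfl h1)) le_rfl).trans ?_)
  rw [← ENNReal.ofReal_add (by positivity) (by positivity), ← ENNReal.ofReal_add (by positivity) (by positivity),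
    show (4 : ℝ≥0∞) = ENNReal.ofReal 4 by simp, show (2 : ℝ≥0∞) = ENNReal.ofReal 2 by simp,
    ← ENNReal.ofReal_mul (by norm_num), ← ENNReal.ofReal_mul (by norm_num),
    ← ENNReal.ofReal_add (by positivity) (by positivity), ← ENNReal.ofReal_add (by positivity) (by positivity)]
  apply ENNReal.ofReal_le_ofReal
  have p1 : 0 ≤ e * (1 / 2) ^ j := by positivity
  rw [pow_succ]
  nlinarith

/-- The limit of a run. -/
noncomputable def lim (S : ℕ → StX χ c) : Fam := fun k t =>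
  (S 1).u k t + ∑' j, ((S (j + 1 + 1)).u k t - (S (j + 1)).u k t)

lemma Run.diff (h : Run χ c b S0 ρ p dl e g S W D) (he : 0 ≤ e) (hρ2 : ∀ j, 2 < ρ j) (hρ : Antitone ρ)
    (k : K) (t : ℝ) (j : ℕ) : ‖(S (j + 1 + 1)).u k t - (S (j + 1)).u k t‖ ≤ nk k * (24 * e * (1 / 2) ^ (j + 1)) := by
  by_cases hk : k = 0
  · subst hk
    rw [(S (j + 1 + 1)).sol.z, (S (j + 1)).sol.z, sub_self, norm_zero, nk_zero]
    simp
  have h1 := h.crd he hρ2 hρ (r := ρ 0) (j := j) (hρ (Nat.zero_le j)) t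
  have h2 := enorm_le_crit (by linarith [hρ2 0] : 1 ≤ ρ 0) (at' ((S (j + 1 + 1)).u - (S (j + 1)).u) t) hk
  have h3 := h2.trans (mul_le_mul' le_rfl h1)
  rw [← ENNReal.ofReal_mul (nk_nonneg k), ← ofReal_norm] at h3
  exact (ENNReal.ofReal_le_ofReal_iff (mul_nonneg (nk_nonneg k) (by positivity))).1 h3

lemma summ_geo (x e : ℝ) : Summable fun j : ℕ => x * (24 * e * (1 / 2) ^ (j + 1)) := by
  have h1 := (summable_geometric_of_lt_one (by norm_num) (by norm_num : (1 / 2 : ℝ) < 1)).mul_left (x * (24 * e) * (1 / 2))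
  refine h1.congr fun j => ?_
  rw [pow_succ]; ring

lemma Run.tends (h : Run χ c b S0 ρ p dl e g S W D) (he : 0 ≤ e) (hρ2 : ∀ j, 2 < ρ j) (hρ : Antitone ρ)
    (k : K) (t : ℝ) : Tendsto (fun n => (S n).u k t) atTop (𝓝 (lim S k t)) := by
  have hs : Summable fun j => (S (j + 1 + 1)).u k t - (S (j + 1)).u k t :=
    Summable.of_norm_bounded (summ_geo (nk k) e) fun j => h.diff he hρ2 hρ k t j
  have h1 := hs.hasSum.tendsto_sum_nat
  have h2 : ∀ n, ∑ j ∈ Finset.range n, ((S (j + 1 + 1)).u k t - (S (j + 1)).u k t)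
      = (S (n + 1)).u k t - (S 1).u k t := by
    intro n
    rw [Finset.sum_range_sub (fun j => (S (j + 1)).u k t)]
  simp only [h2] at h1
  have h3 := h1.const_add ((S 1).u k t)
  simp only [add_sub_cancel] at h3
  exact (tendsto_add_atTop_iff_nat 1).1 h3

lemma Run.cf (h : Run χ c b S0 ρ p dl e g S W D) (he : 0 ≤ e) (hρ2 : ∀ j, 2 < ρ j) (hρ : Antitone ρ) :
    CF (lim S) := by
  intro k
  refine ((S 1).sol.cf k).add (continuous_tsum (fun n => ?_) (summ_geo (nk k) e) fun n t => h.diff he hρ2 hρ k t n)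
  exact ((S (n + 1 + 1)).sol.cf k).sub ((S (n + 1)).sol.cf k)

lemma lim_z (S : ℕ → StX χ c) (t : ℝ) : lim S 0 t = 0 := by
  unfold lim
  simp only [(S _).sol.z, sub_self, tsum_zero, add_zero]

lemma Run.sym (h : Run χ c b S0 ρ p dl e g S W D) (he : 0 ≤ e) (hρ2 : ∀ j, 2 < ρ j) (hρ : Antitone ρ) :
    SymF (lim S) := by
  intro t k i
  have h1 : Tendsto (fun n => (S n).u (-k) t i) atTop (𝓝 (lim S (-k) t i)) :=
    ((continuous_apply i).tendsto _).comp (h.tends he hρ2 hρ (-k) t)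
  have h2 : Tendsto (fun n => star ((S n).u k t i)) atTop (𝓝 (star (lim S k t i))) :=
    ((continuous_star.comp (continuous_apply i)).tendsto _).comp (h.tends he hρ2 hρ k t)
  have h3 : (fun n => (S n).u (-k) t i) = fun n => star ((S n).u k t i) := by
    funext n
    exact (S n).sol.sym t k i
  rw [h3] at h1
  exact tendsto_nhds_unique h1 h2

/-- critical closeness -/
lemma Run.crlim (h : Run χ c b S0 ρ p dl e g S W D) (he : 0 ≤ e) (hρ2 : ∀ j, 2 < ρ j) (hρ : Antitone ρ) {r : ℝ}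
    {j : ℕ} (hj : ρ j ≤ r) (t : ℝ) :
    critNorm r (at' (lim S - (S (j + 1)).u) t) ≤ ENNReal.ofReal (48 * e * (1 / 2) ^ (j + 1)) := by
  have hr : 1 ≤ r := by linarith [hρ2 j]
  have h1 : ∀ n, j + 1 ≤ n → critNorm r (at' ((S n).u - (S (j + 1)).u) t) ≤
      ENNReal.ofReal (2 * (24 * e) * (1 / 2) ^ (j + 1)) := by
    intro n hn
    refine tele (u := fun n => (S n).u) (fun n => (S n).sol.cf) (N := fun x => critNorm r (at' x t))
      (fun x y _ _ => critNorm_add' hr _ _) ?_ (by positivity) (fun i hi => ?_) n hn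
    · have := critNorm_le_NW hr (at' (0 : Fam) t)
      have h0 : NW (Wm 0) (at' (0 : Fam) t) = 0 := NW_zero _
      rw [h0, mul_zero] at this
      exact le_antisymm this zero_le
    · obtain ⟨i', rfl⟩ : ∃ i', i = i' + 1 := ⟨i - 1, by omega⟩
      exact h.crd he hρ2 hρ ((hρ (by omega : j ≤ i')).trans hj) t
  refine critNorm_le_of_tendsto hr (x := fun n => at' ((S n).u - (S (j + 1)).u) t) (fun k => ?_)
    ((eventually_ge_atTop (j + 1)).mono fun n hn => (h1 n hn).trans (ENNReal.ofReal_le_ofReal (by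
      apply le_of_eq; ring)))
  exact (h.tends he hρ2 hρ k t).sub_const _

end

end Pool.Agent.H356R3.NS.X
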