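import Pool.Agent.H3NX.Lim

set_option autoImplicit false
set_option maxHeartbeats 4000000
set_option synthInstance.maxHeartbeats 400000

open MeasureTheory Set Filter Topology
open scoped ENNReal NNReal

namespace Pool.Agent.H356R3.NS.X

open Pool.Agent.H3NS

/-- A solution with a trigonometric polynomial as datum is continuous at `t = 0`. -/
lemma sol_init {χ : ℝ → ℝ} (hχ : CutT χ) {c : ℝ} (hc : 0 < c) (S : StX χ c) : ∃ A : ℝ, 0 ≤ A ∧
    ∀ t, 0 ≤ t → NW (Wm 0) (at' S.u t - S.V) ≤ ENNReal.ofReal (A * t) := by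
  have hC := C0_pos
  obtain ⟨Mu, hMu, hb⟩ := solX_bdd S.ha.le S.sol
  obtain ⟨F, hF⟩ : ∃ F : Finset K, ∀ k, k ∉ F → S.V k = 0 :=
    ⟨S.fin.toFinset, fun k hk => by
      by_contra h
      exact hk (by rw [Set.Finite.mem_toFinset]; exact h)⟩
  have hBc : CF (Bx χ S.u) := Bx_cont hχ S.sol.cf (S.sol.dom' S.ha)
  refine ⟨(∑ k ∈ F, c * nk k * ‖S.V k‖) + C0 * Mu ^ 2, by
    have : 0 ≤ ∑ k ∈ F, c * nk k * ‖S.V k‖ := Finset.sum_nonneg fun k _ =>
      mul_nonneg (mul_nonneg hc.le (nk_nonneg k)) (norm_nonneg _)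
    positivity, fun t ht => ?_⟩
  have e1 : at' S.u t - S.V = (at' (Ht c S.V) t - S.V) + at' (Duh c (Bx χ S.u)) t := by
    funext k
    have := S.sol.eq k t
    simp only [at', Ht, Pi.sub_apply, Pi.add_apply]
    rw [this]
    abel
  rw [e1, add_mul, ENNReal.ofReal_add (mul_nonneg (Finset.sum_nonneg fun k _ =>
      mul_nonneg (mul_nonneg hc.le (nk_nonneg k)) (norm_nonneg _)) ht) (by positivity)]
  refine (NW_add_le _ _ _).trans (add_le_add ?_ ?_)
  · unfold NW
    rw [tsum_eq_sum (s := F) fun k hk => by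
      simp only [Pi.sub_apply, at', Ht, hF k hk, smul_zero, sub_zero, enorm_zero, mul_zero],
      Finset.sum_mul, ENNReal.ofReal_sum_of_nonneg fun k _ =>
        mul_nonneg (mul_nonneg (mul_nonneg hc.le (nk_nonneg k)) (norm_nonneg _)) ht]
    refine Finset.sum_le_sum fun k _ => ?_
    by_cases hk : k = 0
    · subst hk
      simp [at', Ht, S.z]
    have hn := nk_pos hk
    have e2 : (at' (Ht c S.V) t - S.V) k = (Real.exp (-(c * sq k * t)) - 1) • S.V k := by
      simp only [at', Ht, Pi.sub_apply]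
      rw [max_eq_left ht, sub_smul, one_smul]
    rw [e2, ← ofReal_norm, norm_smul]
    unfold Wm
    rw [← ENNReal.ofReal_mul (div_nonneg (om_pos _ _).le hn.le)]
    apply ENNReal.ofReal_le_ofReal
    have h1 : ‖Real.exp (-(c * sq k * t)) - 1‖ ≤ c * sq k * t := by
      have h2 := sq_nonneg' k
      have h3 : 0 ≤ c * sq k * t := by positivity
      have h4 := Real.add_one_le_exp (-(c * sq k * t))
      have h5 : Real.exp (-(c * sq k * t)) ≤ 1 := Real.exp_le_one_iff.2 (by linarith)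
      rw [Real.norm_eq_abs, abs_le]
      constructor <;> linarith
    have e3 : om 0 k = 1 := by simp [om]
    rw [e3]
    calc 1 / nk k * (‖Real.exp (-(c * sq k * t)) - 1‖ * ‖S.V k‖)
        ≤ 1 / nk k * (c * sq k * t * ‖S.V k‖) := by
          apply mul_le_mul_of_nonneg_left _ (by positivity)
          exact mul_le_mul_of_nonneg_right h1 (norm_nonneg _)
      _ = c * nk k * ‖S.V k‖ * t := by
          rw [← nk_mul_self k]
          field_simp
  · refine (NW_Duh_le hc.le _ hBc ht).trans ?_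
    calc ∫⁻ s in Ioc 0 t, NW (Wm 0) (at' (Bx χ S.u) s)
        ≤ ∫⁻ s in Ioc 0 t, ENNReal.ofReal (C0 * Mu ^ 2) := by
          refine lintegral_mono fun s => ?_
          rw [at'_Bx]
          refine (NW_smul_le _ (hχ.nn s) (hχ.le s) _).trans ((NW_Bf_le le_rfl _ _).trans ?_)
          rw [ENNReal.ofReal_mul hC.le, pow_two, ENNReal.ofReal_mul hMu]
          exact mul_le_mul' le_rfl (mul_le_mul' (hb s) (hb s))
      _ = _ := by
          rw [setLIntegral_const, Real.volume_Ioc, sub_zero, ← ENNReal.ofReal_mul (by positivity)]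

lemma LNd_ne_top {χ : ℝ → ℝ} {c a : ℝ} (ha : 0 < a) {V : K → C3} {u : Fam} (h : SolX χ c a V u) (δ : ℝ) :
    LNd δ u ≠ ⊤ :=
  ne_top_of_le_ne_top h.l2 ((LNd_le_LN δ u).trans (LN_mono fun t _ => NW_mono (fun k => Wa_mono ha.le k) _))

section
variable {χ : ℝ → ℝ} {c : ℝ} {b : K → C3} {S0 : StX χ c} {ρ p dl : ℕ → ℝ} {e : ℝ} {g : ℝ → ℝ}
    {S : ℕ → StX χ c} {W D : ℕ → K → C3}

lemma Run.lnd (h : Run χ c b S0 ρ p dl e g S W D) (he : 0 ≤ e) (hdl : Antitone dl) {δ : ℝ} {j : ℕ}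
    (hj : dl j ≤ δ) (n : ℕ) (hn : j ≤ n) :
    LNd δ ((S n).u - (S j).u) ≤ ENNReal.ofReal (2 * e * (1 / 2) ^ j) := by
  refine tele (u := fun n => (S n).u) (fun n => (S n).sol.cf) (N := LNd δ)
    (fun x y hx hy => LNd_add hx hy) ?_ he (fun i hi => ?_) n hn
  · have h0 : ∀ W : K → ℝ≥0∞, ∀ t, NW W (at' (0 : Fam) t) = 0 := fun W t => NW_zero _
    unfold LNd LN
    simp [h0]
  · exact (LNd_anti ((hdl hi).trans hj) _).trans (h.ln i)

lemma Run.wsb' (h : Run χ c b S0 ρ p dl e g S W D) (hχ : CutT χ) (hc : 0 < c) (he : 0 ≤ e) (hdl : Antitone dl)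
    {δ δ' L : ℝ} (hδ : 0 ≤ δ) (hδ' : δ < δ') {j : ℕ} (hj : dl j ≤ δ) (hL : 0 ≤ L)
    (hL' : LNd δ (S j).u ≤ ENNReal.ofReal L) {s : ℕ} {B : ℝ}
    (hB : ∀ (χ : ℝ → ℝ), CutT χ → ∀ a : ℝ, 0 < a → ∀ (V : K → C3) (u : Fam), SolX χ c a V u →
      LNd δ u ≤ ENNReal.ofReal (L + 2 * e) → ∀ t, δ' ≤ t → NW (ws s) (at' u t) ≤ ENNReal.ofReal B) (n : ℕ) (hn : j ≤ n)
    (t : ℝ) (ht : δ' ≤ t) : NW (ws s) (at' (S n).u t) ≤ ENNReal.ofReal B := by
  refine hB χ hχ (S n).a (S n).ha (S n).V (S n).u (S n).sol ?_ t ht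
  have e1 : (S n).u = ((S n).u - (S j).u) + (S j).u := by abel
  rw [e1]
  refine (LNd_add (CF.sub' (S n).sol.cf (S j).sol.cf) (S j).sol.cf).trans ?_
  refine (add_le_add (h.lnd he hdl hj n hn) hL').trans ?_
  rw [← ENNReal.ofReal_add (by positivity) hL]
  apply ENNReal.ofReal_le_ofReal
  have : (1 / 2 : ℝ) ^ j ≤ 1 := pow_le_one₀ (by norm_num) (by norm_num)
  nlinarith

lemma Run.wsb (h : Run χ c b S0 ρ p dl e g S W D) (hχ : CutT χ) (hc : 0 < c) (he : 0 ≤ e) (hdl : Antitone dl)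
    (hdl0 : Tendsto dl atTop (𝓝 0)) {δ : ℝ} (hδ : 0 < δ) (s : ℕ) : ∃ B : ℝ, 0 ≤ B ∧ ∃ j, ∀ n, j ≤ n →
      ∀ t, δ ≤ t → NW (ws s) (at' (S n).u t) ≤ ENNReal.ofReal B := by
  obtain ⟨j, hj⟩ := (hdl0.eventually (gt_mem_nhds (half_pos hδ))).exists
  set L := (LNd (δ / 2) (S j).u).toReal
  have hL : 0 ≤ L := ENNReal.toReal_nonneg
  have hL' : LNd (δ / 2) (S j).u ≤ ENNReal.ofReal L := by
    rw [ENNReal.ofReal_toReal (LNd_ne_top (S j).ha (S j).sol _)]
  obtain ⟨B, hB, hB'⟩ := smoothing hc (L := L + 2 * e) (by positivity) s (δ / 2) δ (by positivity) (by linarith)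
  exact ⟨B, hB, j, h.wsb' hχ hc he hdl (by positivity) (by linarith) hj.le hL hL' hB'⟩

lemma Run.wslim (h : Run χ c b S0 ρ p dl e g S W D) (he : 0 ≤ e) (hρ2 : ∀ j, 2 < ρ j) (hρ : Antitone ρ)
    {w : K → ℝ≥0∞} (hw : ∀ k, w k ≠ ⊤) {C : ℝ≥0∞} {j : ℕ} {t : ℝ} (hC : ∀ n, j ≤ n → NW w (at' (S n).u t) ≤ C) :
    NW w (at' (lim S) t) ≤ C :=
  NW_le_of_tendsto hw (x := fun n => at' (S (n + j)).u t)
    (fun k => (h.tends he hρ2 hρ k t).comp (tendsto_add_atTop_nat j)) fun n => hC _ (Nat.le_add_left _ _)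

/-- Duhamel's formula for the limit. -/
lemma Run.eqn (h : Run χ c b S0 ρ p dl e g S W D) (hχ : CutT χ) (hc : 0 < c) (he : 0 ≤ e) (hρ2 : ∀ j, 2 < ρ j)
    (hρ : Antitone ρ) (hdl : Antitone dl) (hdl0 : Tendsto dl atTop (𝓝 0)) {t0 : ℝ} (ht0 : 0 < t0) :
    Eqn c (at' (lim S) t0) (shf t0 (Bx χ (lim S))) (shf t0 (lim S)) := by
  obtain ⟨B, hB, j, hj⟩ := h.wsb hχ hc he hdl hdl0 ht0 4
  obtain ⟨bd, hbd⟩ : ∃ bd : K → ℝ, bd = fun k => B * (1 / nk k) ^ 4 := ⟨_, rfl⟩
  have hbs : Summable bd := by rw [hbd]; exact summ_nk4.mul_left B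
  have hbn : ∀ n k t, t0 ≤ t → ‖(S (n + j)).u k t‖ ≤ bd k := by
    intro n k t ht
    rw [hbd]
    exact norm_le_of_ws ((S (n + j)).sol.z t) hB (hj (n + j) (Nat.le_add_left _ _) t ht) k
  have htn : ∀ k t, Tendsto (fun n => (S (n + j)).u k t) atTop (𝓝 (lim S k t)) := fun k t =>
    (h.tends he hρ2 hρ k t).comp (tendsto_add_atTop_nat j)
  intro k t
  have hm : 0 ≤ max t 0 := le_max_right _ _
  have h1 : Tendsto (fun n => shf t0 (S (n + j)).u k t) atTop (𝓝 (shf t0 (lim S) k t)) := htn k _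
  have h2 : Tendsto (fun n => Real.exp (-(c * sq k * max t 0)) • at' (S (n + j)).u t0 k
      + Duh c (shf t0 (Bx χ (S (n + j)).u)) k t) atTop
      (𝓝 (Real.exp (-(c * sq k * max t 0)) • at' (lim S) t0 k + Duh c (shf t0 (Bx χ (lim S))) k t)) := by
    refine Tendsto.add ((htn k t0).const_smul _) ?_
    unfold Duh
    refine intervalIntegral.tendsto_integral_filter_of_dominated_convergence
      (bound := fun s => C0 * nk k * ((∑' k, bd k) * ∑' k, bd k)) ?_ ?_ ?_ ?_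
    · refine Filter.Eventually.of_forall fun n => Continuous.aestronglyMeasurable ?_
      have h3 := shf_cf (t0 := t0) (Bx_cont hχ (S (n + j)).sol.cf ((S (n + j)).sol.dom' (S (n + j)).ha)) k
      fun_prop
    · refine Filter.Eventually.of_forall fun n => Filter.Eventually.of_forall fun s hs => ?_
      rw [uIoc_of_le hm] at hs
      rw [norm_smul, Real.norm_of_nonneg (Real.exp_pos _).le]
      have h4 : Real.exp (-(c * sq k * (max t 0 - s))) ≤ 1 := by
        rw [Real.exp_le_one_iff]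
        have h5 := sq_nonneg' k
        have h6 : 0 ≤ max t 0 - s := sub_nonneg.2 hs.2
        have : 0 ≤ c * sq k * (max t 0 - s) := by positivity
        linarith
      have h7 : ‖shf t0 (Bx χ (S (n + j)).u) k s‖ ≤ C0 * nk k * ((∑' k, bd k) * ∑' k, bd k) := by
        show ‖χ _ • Bt (S (n + j)).u k _‖ ≤ _
        rw [norm_smul, Real.norm_of_nonneg (hχ.nn _)]
        refine (mul_le_of_le_one_left (norm_nonneg _) (hχ.le _)).trans ?_
        exact norm_Bf_le hbs (fun k => hbn n k _ (by have := le_max_right s 0; linarith)) k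
      calc _ ≤ 1 * ‖shf t0 (Bx χ (S (n + j)).u) k s‖ :=
            mul_le_mul_of_nonneg_right h4 (norm_nonneg _)
        _ ≤ _ := by rw [one_mul]; exact h7
    · exact intervalIntegrable_const
    · refine Filter.Eventually.of_forall fun s _ => ?_
      refine Tendsto.const_smul ?_ _
      refine Tendsto.const_smul ?_ (χ _)
      exact Bf_tendsto hbs (fun n k => hbn n k _ (by have := le_max_right s 0; linarith)) (fun k => htn k _) k
  have h3 : (fun n => shf t0 (S (n + j)).u k t) = fun n => Real.exp (-(c * sq k * max t 0)) • at' (S (n + j)).u t0 k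
      + Duh c (shf t0 (Bx χ (S (n + j)).u)) k t := by
    funext n
    have hBc : CF (Bx χ (S (n + j)).u) := Bx_cont hχ (S (n + j)).sol.cf ((S (n + j)).sol.dom' (S (n + j)).ha)
    have hE : Eqn c (S (n + j)).V (Bx χ (S (n + j)).u) (S (n + j)).u := (S (n + j)).sol.eq
    exact hE.shift hBc ht0.le k t
  rw [h3] at h1
  exact tendsto_nhds_unique h1 h2

lemma Run.lplim (h : Run χ c b S0 ρ p dl e g S W D) (he : 0 ≤ e) (hρ2 : ∀ j, 2 < ρ j) (hρ : Antitone ρ) {q : ℝ}
    (hq : 1 ≤ q) {j : ℕ} (hj : ∀ i, j ≤ i → q ≤ p i) :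
    LP q (lim S - (S j).u) ≤ ENNReal.ofReal (2 * e * (1 / 2) ^ j) := by
  have hq0 : 0 < q := by linarith
  refine LP_le_of_tendsto hq0 (x := fun n => (S n).u - (S j).u) (fun n => CF.sub' (S n).sol.cf (S j).sol.cf)
    (fun k t => (h.tends he hρ2 hρ k t).sub_const _) ((eventually_ge_atTop j).mono fun n hn => ?_)
  refine tele (u := fun n => (S n).u) (fun n => (S n).sol.cf) (N := LP q)
    (fun x y hx hy => LP_add hq hx hy) ?_ he (fun i hi => ?_) n hn
  · have h0 : ∀ W : K → ℝ≥0∞, ∀ t, NW W (at' (0 : Fam) t) = 0 := fun W t => NW_zero _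
    unfold LP
    simp [h0, hq0]
  · exact (LP_mono hq0 (hj i hi) (CF.sub' (S (i + 1)).sol.cf (S i).sol.cf)).trans (h.lp i)

lemma Run.nmlim (h : Run χ c b S0 ρ p dl e g S W D) (he : 0 ≤ e) (hρ2 : ∀ j, 2 < ρ j) (hρ : Antitone ρ)
    (hdl : Antitone dl) {j : ℕ} {t : ℝ} (ht : dl j ≤ t) :
    NW (Wm 0) (at' (lim S - (S j).u) t) ≤ ENNReal.ofReal (2 * e * (1 / 2) ^ j) := by
  refine NW_le_of_tendsto (Wm_ne_top 0) (x := fun n => at' ((S (n + j)).u - (S j).u) t)
    (fun k => ((h.tends he hρ2 hρ k t).comp (tendsto_add_atTop_nat j)).sub_const _) fun n => ?_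
  refine tele (u := fun n => (S n).u) (fun n => (S n).sol.cf) (N := fun x => NW (Wm 0) (at' x t))
    (fun x y hx hy => NW_add_le _ _ _) (NW_zero _) he (fun i hi => ?_) (n + j) (Nat.le_add_left _ _)
  exact h.nm i t ((hdl hi).trans ht)

lemma KA_eq_NW (x : Fam) (t : ℝ) : KA x t = NW (fun k => ENNReal.ofReal (√(min t 1)) * Wa 0 k) (at' x t) := by
  unfold KA NW
  rw [← ENNReal.tsum_mul_left]
  exact tsum_congr fun k => by ring

lemma Run.kklim (h : Run χ c b S0 ρ p dl e g S W D) (he : 0 ≤ e) (hρ2 : ∀ j, 2 < ρ j) (hρ : Antitone ρ)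
    (j : ℕ) {t : ℝ} (ht : 0 < t) :
    KA (lim S - (S j).u) t ≤ ENNReal.ofReal (4 * e * (1 / 2) ^ j) := by
  rw [KA_eq_NW]
  refine NW_le_of_tendsto (W := fun k => ENNReal.ofReal (√(min t 1)) * Wa 0 k)
    (fun k => ENNReal.mul_ne_top ENNReal.ofReal_ne_top (by unfold Wa; exact ENNReal.ofReal_ne_top))
    (x := fun n => at' ((S (n + j)).u - (S j).u) t)
    (fun k => ((h.tends he hρ2 hρ k t).comp (tendsto_add_atTop_nat j)).sub_const _) fun n => ?_
  have h1 := tele (u := fun n => (S n).u) (fun n => (S n).sol.cf) (N := fun x => KA x t) (e := 2 * e)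
    (fun x y hx hy => KA_add_le _ _ _) (KA_zero t) (by positivity) (fun i hi => by
      have := h.kk i t ht
      rwa [← mul_assoc] at this) (n + j) (Nat.le_add_left _ _)
  rw [← KA_eq_NW]
  refine h1.trans (le_of_eq ?_)
  congr 1
  ring

/-- The solution is bounded by the gauge for small times. -/
lemma Run.kg (h : Run χ c b S0 ρ p dl e g S W D) (he : 0 ≤ e) (hρ2 : ∀ j, 2 < ρ j) (hρ : Antitone ρ)
    (hdl0 : Tendsto dl atTop (𝓝 0)) :
    ∀ᶠ t in 𝓝[>] (0 : ℝ), KA (lim S) t ≤ ENNReal.ofReal (g t) := by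
  obtain ⟨th, h1, hgm, h2, h3, h4⟩ := h.gg
  have hanti : Antitone th := antitone_nat_of_succ_le h2
  have hth0 : Tendsto th atTop (𝓝 0) :=
    squeeze_zero (fun j => (h1 j).1.le) (fun j => (h1 j).2) hdl0
  filter_upwards [Ioo_mem_nhdsGT (h1 0).1] with t ht2
  obtain ⟨ht, ht0⟩ := ht2
  have hex : ∃ j, th j < t := (hth0.eventually (gt_mem_nhds ht)).exists
  classical
  obtain ⟨j, hj1, hj2⟩ : ∃ j, t ≤ th j ∧ th (j + 1) < t := by
    have hf := Nat.find_spec hex
    have hne : Nat.find hex ≠ 0 := by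
      intro h0
      rw [h0] at hf
      exact absurd hf (not_lt.2 ht0.le)
    obtain ⟨j, hj⟩ := Nat.exists_eq_succ_of_ne_zero hne
    refine ⟨j, ?_, ?_⟩
    · have := Nat.find_min hex (m := j) (by omega)
      exact not_lt.1 this
    · rw [hj] at hf
      exact hf
  have hlt : 0 < g t := (hgm t t ht le_rfl ht0.le).1
  have e1 : lim S = (lim S - (S (j + 1)).u) + (S (j + 1)).u := by abel
  have b1 : KA (lim S - (S (j + 1)).u) t ≤ ENNReal.ofReal (g t / 2) := by
    rw [KA_eq_NW]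
    refine NW_le_of_tendsto (W := fun k => ENNReal.ofReal (√(min t 1)) * Wa 0 k)
      (fun k => ENNReal.mul_ne_top ENNReal.ofReal_ne_top (by unfold Wa; exact ENNReal.ofReal_ne_top))
      (x := fun n => at' ((S (n + (j + 1))).u - (S (j + 1)).u) t)
      (fun k => ((h.tends he hρ2 hρ k t).comp (tendsto_add_atTop_nat (j + 1))).sub_const _) fun n => ?_
    have h5 := tele (u := fun n => (S n).u) (fun n => (S n).sol.cf) (N := fun x => KA x t) (e := g t / 4)
      (fun x y hx hy => KA_add_le _ _ _) (KA_zero t) (by positivity) (j := j + 1) (fun i hi => by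
        have hti : th i ≤ t := (hanti hi).trans hj2.le
        refine (h4 i t hti).trans (ENNReal.ofReal_le_ofReal ?_)
        have h6 := (hgm (th i) t (h1 i).1 hti ht0.le).2
        rw [pow_add]
        have h7 : (0 : ℝ) < (1 / 2) ^ i := by positivity
        nlinarith) (n + (j + 1)) (Nat.le_add_left _ _)
    rw [← KA_eq_NW]
    refine h5.trans (ENNReal.ofReal_le_ofReal ?_)
    have h8 : (1 / 2 : ℝ) ^ (j + 1) ≤ 1 := pow_le_one₀ (by norm_num) (by norm_num)
    nlinarith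
  rw [e1]
  have hg0 : 0 ≤ g t := by linarith
  refine (KA_add_le _ _ _).trans ((add_le_add b1 (h3 j t ht hj1)).trans ?_)
  rw [← ENNReal.ofReal_add (by positivity) (by positivity)]
  exact ENNReal.ofReal_le_ofReal (by linarith)

/-- Critical closeness to the first solution. -/
lemma Run.crlim0 (h : Run χ c b S0 ρ p dl e g S W D) (he : 0 ≤ e) (hρ2 : ∀ j, 2 < ρ j) (hρ : Antitone ρ) {r : ℝ}
    (hr : ρ 0 ≤ r) (t : ℝ) :
    critNorm r (at' (lim S - S0.u) t) ≤ 4 * critNorm r (b - S0.V) + ENNReal.ofReal (31 * e) := by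
  have hr1 : 1 ≤ r := by linarith [hρ2 0]
  have h1 := h.crlim he hρ2 hρ hr t
  have h2 := h.cr 0 r t hr1
  have q : ∀ i, 1 ≤ ρ i := fun i => by linarith [hρ2 i]
  have w0 : critNorm r (W 0) ≤ ENNReal.ofReal (e * (1 / 2) ^ 0) :=
    (critNorm_anti (q _) hr _).trans (h.wn 0)
  have d0 : critNorm r (b - D 0) ≤ ENNReal.ofReal (e * (1 / 2) ^ 0) :=
    (critNorm_anti (q _) hr _).trans (h.dn 0)
  have h3 : critNorm r (D 0 - (S 0).V) ≤ critNorm r (b - S0.V) + ENNReal.ofReal (e * (1 / 2) ^ 0) := by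
    have e1 : D 0 - (S 0).V = (b - S0.V) - (b - D 0) := by rw [h.s0]; abel
    rw [e1]
    exact (critNorm_sub' hr1 _ _).trans (add_le_add le_rfl d0)
  have e2 : at' (lim S - S0.u) t = at' (lim S - (S (0 + 1)).u) t + at' ((S (0 + 1)).u - (S 0).u) t := by
    funext k
    simp only [at', Pi.sub_apply, Pi.add_apply, h.s0]
    abel
  rw [e2]
  refine (critNorm_add' hr1 _ _).trans ((add_le_add h1 (h2.trans (add_le_add (add_le_add w0
    (mul_le_mul' le_rfl h3)) le_rfl))).trans ?_)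
  simp only [pow_zero, mul_one, zero_add, pow_one]
  rw [mul_add, show (4 : ℝ≥0∞) * ENNReal.ofReal e = ENNReal.ofReal (4 * e) by
      rw [ENNReal.ofReal_mul (by norm_num)]; simp,
    show (2 : ℝ≥0∞) * ENNReal.ofReal e = ENNReal.ofReal (2 * e) by
      rw [ENNReal.ofReal_mul (by norm_num)]; simp]
  have e3 : ENNReal.ofReal (31 * e) = ENNReal.ofReal (48 * e * (1 / 2)) + ENNReal.ofReal e
      + ENNReal.ofReal (4 * e) + ENNReal.ofReal (2 * e) := by
    rw [← ENNReal.ofReal_add (by positivity) he, ← ENNReal.ofReal_add (by positivity) (by positivity),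
      ← ENNReal.ofReal_add (by positivity) (by positivity)]
    congr 1
    ring
  rw [e3]
  apply le_of_eq
  ring

lemma Run.init (h : Run χ c b S0 ρ p dl e g S W D) (he : 0 ≤ e) (hρ2 : ∀ j, 2 < ρ j) (hρ : Antitone ρ)
    (hb0 : b 0 = 0) (k : K) : lim S k 0 = b k := by
  by_cases hk : k = 0
  · subst hk; rw [lim_z, hb0]
  have h1 : Tendsto (fun n => (S (n + 1)).u k 0) atTop (𝓝 (lim S k 0)) :=
    (h.tends he hρ2 hρ k 0).comp (tendsto_add_atTop_nat 1)
  have h2 : Tendsto (fun n => (S (n + 1)).u k 0) atTop (𝓝 (b k)) := by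
    rw [tendsto_iff_norm_sub_tendsto_zero]
    have h3 : ∀ n, ‖(S (n + 1)).u k 0 - b k‖ ≤ nk k * (24 * (2 * e / 24) * (1 / 2) ^ n) := by
      intro n
      have hr : 1 ≤ ρ n := by linarith [hρ2 n]
      have e1 : (S (n + 1)).u k 0 - b k = (W n - (b - D n)) k := by
        rw [(S (n + 1)).sol.eq, h.sV n]
        simp only [max_self, mul_zero, neg_zero, Real.exp_zero, one_smul, Duh_at_zero, add_zero, Pi.sub_apply,
          Pi.add_apply]
        abel
      have h4 := (enorm_le_crit hr (W n - (b - D n)) hk).trans (mul_le_mul' le_rfl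
        ((critNorm_sub' hr _ _).trans (add_le_add (h.wn n) (h.dn n))))
      rw [← ENNReal.ofReal_add (by positivity) (by positivity), ← ENNReal.ofReal_mul (nk_nonneg k), ← ofReal_norm] at h4
      rw [e1]
      refine ((ENNReal.ofReal_le_ofReal_iff (mul_nonneg (nk_nonneg k) (by positivity))).1 h4).trans (le_of_eq ?_)
      ring
    have h5 : Tendsto (fun n : ℕ => nk k * (24 * (2 * e / 24) * (1 / 2) ^ n)) atTop (𝓝 0) := by
      have := ((tendsto_pow_atTop_nhds_zero_of_lt_one (by norm_num : (0 : ℝ) ≤ 1 / 2)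
        (by norm_num : (1 / 2 : ℝ) < 1)).const_mul (24 * (2 * e / 24))).const_mul (nk k)
      simpa using this
    exact squeeze_zero (fun n => norm_nonneg _) h3 h5
  exact tendsto_nhds_unique h1 h2

/-- The datum is attained in the critical norm. -/
lemma Run.attain (h : Run χ c b S0 ρ p dl e g S W D) (hχ : CutT χ) (hc : 0 < c) (he : 0 ≤ e) (hρ2 : ∀ j, 2 < ρ j)
    (hρ : Antitone ρ) {r : ℝ} (hr : ∃ j, ρ j ≤ r) :
    Tendsto (fun t => critNorm r (at' (lim S) t - b)) (𝓝[>] 0) (𝓝 0) := by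
  obtain ⟨j0, hj0⟩ := hr
  have hr1 : 1 ≤ r := by linarith [hρ2 j0]
  rw [ENNReal.tendsto_nhds_zero]
  intro η hη
  -- the level
  have hlev : Tendsto (fun n : ℕ => ENNReal.ofReal (50 * e * (1 / 2) ^ n)) atTop (𝓝 0) := by
    have := ENNReal.tendsto_ofReal ((tendsto_pow_atTop_nhds_zero_of_lt_one (by norm_num : (0 : ℝ) ≤ 1 / 2)
        (by norm_num : (1 / 2 : ℝ) < 1)).const_mul (50 * e))
    simpa using this
  have hη2 : 0 < η / 2 := ENNReal.half_pos hη.ne'
  obtain ⟨j, hj1, hj2⟩ := ((hlev.eventually (gt_mem_nhds hη2)).and (eventually_ge_atTop j0)).exists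
  have hρj : ρ j ≤ r := (hρ hj2).trans hj0
  obtain ⟨A, hA, hin⟩ := sol_init hχ hc (S (j + 1))
  have ht : Tendsto (fun t : ℝ => ENNReal.ofReal (2 * (A * t))) (𝓝[>] 0) (𝓝 0) := by
    have h1 : Tendsto (fun t : ℝ => 2 * (A * t)) (𝓝[>] 0) (𝓝 0) := by
      have : Continuous fun t : ℝ => 2 * (A * t) := by fun_prop
      have h2 := (this.tendsto 0).mono_left (nhdsWithin_le_nhds (s := Ioi (0 : ℝ)))
      simpa using h2
    simpa using ENNReal.tendsto_ofReal h1
  filter_upwards [ht.eventually (gt_mem_nhds hη2), self_mem_nhdsWithin] with t h3 h4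
  have h4' : (0 : ℝ) < t := h4
  have e1 : at' (lim S) t - b = at' (lim S - (S (j + 1)).u) t + ((at' (S (j + 1)).u t - (S (j + 1)).V)
      + (W j - (b - D j))) := by
    rw [h.sV j]
    funext k
    simp only [at', Pi.sub_apply, Pi.add_apply]
    abel
  have q : 1 ≤ ρ j := by linarith [hρ2 j]
  rw [e1]
  have b1 := h.crlim he hρ2 hρ hρj t
  have b2 : critNorm r (at' (S (j + 1)).u t - (S (j + 1)).V) ≤ ENNReal.ofReal (2 * (A * t)) := by
    refine (critNorm_le_NW hr1 _).trans ((mul_le_mul' le_rfl (hin t h4'.le)).trans ?_)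
    rw [ENNReal.ofReal_mul (p := 2) (by norm_num), ENNReal.ofReal_ofNat]
  have b3 : critNorm r (W j - (b - D j)) ≤ ENNReal.ofReal (e * (1 / 2) ^ j) + ENNReal.ofReal (e * (1 / 2) ^ j) :=
    (critNorm_sub' hr1 _ _).trans (add_le_add ((critNorm_anti q hρj _).trans (h.wn j))
      ((critNorm_anti q hρj _).trans (h.dn j)))
  refine (critNorm_add' hr1 _ _).trans ((add_le_add b1 ((critNorm_add' hr1 _ _).trans (add_le_add b2 b3))).trans ?_)
  have p0 : (0 : ℝ) ≤ (1 / 2) ^ j := by positivity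
  have e2 : ENNReal.ofReal (48 * e * (1 / 2) ^ (j + 1)) + (ENNReal.ofReal (e * (1 / 2) ^ j) + ENNReal.ofReal (e * (1 / 2) ^ j))
      ≤ ENNReal.ofReal (50 * e * (1 / 2) ^ j) := by
    rw [← ENNReal.ofReal_add (by positivity) (by positivity), ← ENNReal.ofReal_add (by positivity) (by positivity)]
    apply ENNReal.ofReal_le_ofReal
    have : 0 ≤ e * (1 / 2) ^ j := by positivity
    rw [pow_succ]
    nlinarith
  calc ENNReal.ofReal (48 * e * (1 / 2) ^ (j + 1)) + (ENNReal.ofReal (2 * (A * t)) +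
        (ENNReal.ofReal (e * (1 / 2) ^ j) + ENNReal.ofReal (e * (1 / 2) ^ j)))
      = (ENNReal.ofReal (48 * e * (1 / 2) ^ (j + 1)) + (ENNReal.ofReal (e * (1 / 2) ^ j) +
        ENNReal.ofReal (e * (1 / 2) ^ j))) + ENNReal.ofReal (2 * (A * t)) := by ring
    _ ≤ η / 2 + η / 2 := add_le_add (e2.trans hj1.le) h3.le
    _ = η := ENNReal.add_halves η

end

end Pool.Agent.H356R3.NS.X
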