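import Pool.Agent.H3NX.GaugeR
import Pool.Agent.H3NX.Base

set_option autoImplicit false
set_option maxHeartbeats 4000000
set_option synthInstance.maxHeartbeats 400000

open MeasureTheory Set Filter Topology
open scoped ENNReal NNReal ContDiff

namespace Pool.Agent.H356R3.NS.X

open Pool.Agent.H3NS
open H459R3.NS (fr ee SP IsSol cube)

/-- A bound of the form `√t ‖S(t) - y(t)‖` for a solution `S` near a path `y` with a small residual. -/
theorem base_K {c : ℝ} (hc : 0 < c) {D A C2 Kb : ℝ} (hD : 0 ≤ D) (hA : 0 ≤ A) (hC2 : 0 ≤ C2) (hKb : 1 ≤ Kb) :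
    ∃ Kk η1 : ℝ, 1 ≤ Kk ∧ 0 < η1 ∧ ∀ η : ℝ, 0 < η → η ≤ η1 → ∀ (χ : ℝ → ℝ), CutT χ → ∀ y G : Fam, CF y →
      (∀ t, SN (at' y t)) → CF (Bx χ y) → CF G → (∀ t, G 0 t = 0) → Eqn c (at' y 0) G y →
      LN (fun t => NW (Wa 0) (at' y t)) ≤ ENNReal.ofReal D →
      ∀ T : ℝ, (∃ b : K → ℝ, Summable b ∧ ∀ k t, t ≤ T → ‖y k t‖ ≤ b k) →
      (∀ t, 0 < t → t ≤ T → NW (Wa 0) (at' y t) ≤ ENNReal.ofReal A) →
      (∀ t, 0 < t → t ≤ T → NW (Wm 0) (at' (Bx χ y) t - at' G t) ≤ ENNReal.ofReal C2) →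
      ∫⁻ t in Ioi 0, NW (Wm 0) (at' (Bx χ y) t - at' G t) ≤ ENNReal.ofReal η →
      ∀ S : StX χ c, LN (fun t => NW (Wa 0) (at' (S.u - y) t)) ≤ ENNReal.ofReal (Kb * η) →
      NW (Wa 0) (at' y 0 - S.V) ≤ ENNReal.ofReal η →
      ∀ t, 0 < t → t ≤ T → KA (S.u - y) t ≤ ENNReal.ofReal (Kk * √η) := by
  have hC := C0_pos
  have hsc : 0 < √c := Real.sqrt_pos.2 hc
  obtain ⟨Q, hQ⟩ : ∃ Q, Q = √2 / √c := ⟨_, rfl⟩
  have hQ0 : 0 < Q := by rw [hQ]; positivity
  -- the constants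
  obtain ⟨P, hP⟩ : ∃ P, P = (2 * D + 1) * Kb := ⟨_, rfl⟩
  have hP0 : 0 < P := by rw [hP]; positivity
  obtain ⟨K0, hK0⟩ : ∃ K0, K0 = 1 + Q * (2 * (1 + C2) + C0 * P) := ⟨_, rfl⟩
  have hK00 : 0 < K0 := by rw [hK0]; positivity
  have hK01 : 1 ≤ K0 := by
    rw [hK0]
    have : 0 ≤ Q * (2 * (1 + C2) + C0 * P) := by positivity
    linarith
  obtain ⟨x1, hx1⟩ : ∃ x1, x1 = min 1 (1 / (16 * Q * C0 * (A + 1))) := ⟨_, rfl⟩
  have hx1p : 0 < x1 := by rw [hx1]; positivity
  refine ⟨2 * K0, min (min 1 (1 / Kb)) (min (x1 ^ 2) (1 / (32 * Q * C0 * K0))), by linarith, by positivity,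
    fun η hη hηle χ hχ y G hy hysn hcB hcG hG0 heq hyD T hyb hyA hres1 hres S hSL hSV t ht htT => ?_⟩
  have g1 : η ≤ 1 := hηle.trans ((min_le_left _ _).trans (min_le_left _ _))
  have g2 : Kb * η ≤ 1 := by
    have h1 : η ≤ 1 / Kb := hηle.trans ((min_le_left _ _).trans (min_le_right _ _))
    rw [le_div_iff₀ (by linarith)] at h1
    linarith
  have g3 : √η ≤ x1 := by
    rw [Real.sqrt_le_left hx1p.le]
    exact hηle.trans ((min_le_right _ _).trans (min_le_left _ _))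
  have g4 : 32 * Q * C0 * K0 * η ≤ 1 := by
    have h1 : η ≤ 1 / (32 * Q * C0 * K0) := hηle.trans ((min_le_right _ _).trans (min_le_right _ _))
    rw [le_div_iff₀ (by positivity)] at h1
    linarith
  have hsη : 0 < √η := Real.sqrt_pos.2 hη
  have hsη1 : √η ≤ 1 := Real.sqrt_le_one.2 g1
  have hKη : 0 ≤ Kb * η := by positivity
  obtain ⟨r, hr⟩ : ∃ r, r = S.u - y := ⟨_, rfl⟩
  have hyr : y + r = S.u := by rw [hr]; abel
  have hSd := SolX.dom' S.ha S.sol
  have hrc : CF r := by rw [hr]; exact CF.sub' S.sol.cf hy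
  have hrs : ∀ t, SN (at' r t) := fun t => by
    rw [hr]
    exact (Summable.add (f := fun k => ‖S.u k t‖) (g := fun k => ‖y k t‖) (hSd.sn t) (hysn t)).of_nonneg_of_le
      (fun _ => norm_nonneg _) fun k => norm_sub_le (S.u k t) (y k t)
  have hBc : CF (Bx χ (y + r) - Bx χ y) := by
    rw [hyr]
    exact CF.sub' (Bx_cont hχ S.sol.cf hSd) hcB
  have hFEc : CF (Bx χ y - G) := CF.sub' hcB hcG
  have hcont : ContinuousOn (fun t => ∑' k, ‖r k t‖) (Icc 0 T) := by
    obtain ⟨b1, hb1, hb1'⟩ := hSd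
    obtain ⟨b2, hb2, hb2'⟩ := hyb
    refine continuousOn_tsum (u := fun k => b1 k + b2 k) (fun k => (hrc k).norm.continuousOn) (hb1.add hb2)
      fun k t ht => ?_
    rw [norm_norm, hr]
    exact (norm_sub_le _ _).trans (add_le_add (hb1' k t) (hb2' k t ht.2))
  have hfix : ∀ k t, r k t = Real.exp (-(c * sq k * max t 0)) • (S.V - at' y 0) k
      + Duh c ((Bx χ y - G) + (Bx χ (y + r) - Bx χ y)) k t := by
    intro k t
    have e0 : (Bx χ y - G) + (Bx χ (y + r) - Bx χ y) = Bx χ S.u - G := by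
      rw [hyr]; abel
    rw [e0, Duh_sub (Bx_cont hχ S.sol.cf hSd) hcG, hr]
    show S.u k t - y k t = Real.exp (-(c * sq k * max t 0)) • (S.V k - at' y 0 k)
      + (Duh c (Bx χ S.u) k t - Duh c G k t)
    rw [S.sol.eq k t, heq k t, smul_sub]
    abel
  have hmr : Measurable fun t => NW (Wa 0) (at' r t) := NW_meas _ hrc
  have hmy : Measurable fun t => NW (Wa 0) (at' y t) := NW_meas _ hy
  have hPb : ∫⁻ t in Ioi 0, (2 * (NW (Wa 0) (at' y t) * NW (Wa 0) (at' r t)) + NW (Wa 0) (at' r t) * NW (Wa 0) (at' r t))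
      ≤ ENNReal.ofReal (P * η) := by
    rw [← hr] at hSL
    rw [lintegral_add_left (by fun_prop), lintegral_const_mul' _ _ (by norm_num)]
    calc _ ≤ 2 * (ENNReal.ofReal D * ENNReal.ofReal (Kb * η)) + ENNReal.ofReal (Kb * η) * ENNReal.ofReal (Kb * η) :=
          add_le_add (mul_le_mul' le_rfl ((LN_cs hmy hmr).trans (mul_le_mul' hyD hSL)))
            ((LN_cs hmr hmr).trans (mul_le_mul' hSL hSL))
      _ = ENNReal.ofReal (2 * (D * (Kb * η)) + Kb * η * (Kb * η)) := by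
          rw [ENNReal.ofReal_add (by positivity) (by positivity), ENNReal.ofReal_mul (p := 2) (by norm_num),
            ENNReal.ofReal_mul hD, ENNReal.ofReal_mul (p := Kb * η) hKη, ENNReal.ofReal_ofNat]
      _ ≤ _ := by
          apply ENNReal.ofReal_le_ofReal
          rw [hP]
          have : Kb * η * (Kb * η) ≤ Kb * η * 1 := mul_le_mul_of_nonneg_left g2 hKη
          linarith
  have hV : ∀ t, NW (Wa 0) (fun k => Real.exp (-(c * sq k * max t 0)) • (S.V - at' y 0) k) ≤ ENNReal.ofReal η := by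
    intro t
    refine (NW_expE (fun k => c * sq k * max t 0) (fun k => mul_nonneg (mul_nonneg hc.le (sq_nonneg' k))
      (le_max_right _ _)) _).trans (le_trans (le_of_eq ?_) hSV)
    unfold NW
    refine tsum_congr fun k => ?_
    rw [Pi.sub_apply, Pi.sub_apply, ← enorm_neg, neg_sub]
  have key := kbound hχ hc (U := y) (r := r) (FE := Bx χ y - G) (r0 := S.V - at' y 0) hFEc hBc hysn hrs
    (fun t => by
      show χ t • Bf _ _ 0 - G 0 t = 0
      rw [Bf_zero, smul_zero, hG0, sub_zero])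
    hfix (T := T) hcont (η0 := η) (m := √η * A) (P := P * η) (G := (1 + C2) * η) (H := η) (s0 := K0 * η)
    hη (by positivity) (by positivity) (by positivity) hη.le (by positivity)
    (fun t _ _ => by
      refine (mul_le_mul' le_rfl (hV t)).trans ?_
      rw [← ENNReal.ofReal_mul (Real.sqrt_nonneg _)]
      apply ENNReal.ofReal_le_ofReal
      exact mul_le_of_le_one_left hη.le (Real.sqrt_le_one.2 ((min_le_right _ _).trans g1)))
    (fun t h1 h2 => by
      refine (mul_le_mul' (ENNReal.ofReal_le_ofReal (Real.sqrt_le_sqrt (min_le_right t η))) (hyA t h1 h2)).trans ?_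
      rw [← ENNReal.ofReal_mul (Real.sqrt_nonneg _)])
    hPb
    (hres.trans (ENNReal.ofReal_le_ofReal (by
      have : 0 ≤ C2 * η := by positivity
      linarith)))
    (fun t s h1 h2 h3 h4 => by
      have h5 : NW (Wm 0) (at' (Bx χ y - G) s) ≤ ENNReal.ofReal C2 := hres1 s (by linarith) (h4.trans h2)
      refine (mul_le_mul' (ENNReal.ofReal_le_ofReal (min_le_right t η)) h5).trans ?_
      rw [← ENNReal.ofReal_mul hη.le]
      apply ENNReal.ofReal_le_ofReal
      linarith)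
    (by
      rw [← hQ, hK0]
      apply le_of_eq
      ring)
    (by
      rw [← hQ]
      have h1 : x1 ≤ 1 / (16 * Q * C0 * (A + 1)) := by rw [hx1]; exact min_le_right _ _
      have h2 := g3.trans h1
      rw [le_div_iff₀ (by positivity)] at h2
      have h3 : 0 ≤ √η * (16 * Q * C0) := by positivity
      nlinarith)
    (by
      rw [← hQ]
      nlinarith)
    t ht htT
  rw [← hr]
  -- from `min t η` to `min t 1`
  have hle : √(min t 1) ≤ √(min t η) / √η := by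
    rw [le_div_iff₀ hsη, ← Real.sqrt_mul (le_min ht.le zero_le_one)]
    apply Real.sqrt_le_sqrt
    apply le_min
    · calc min t 1 * η ≤ t * 1 := mul_le_mul (min_le_left _ _) g1 hη.le ht.le
        _ = t := mul_one t
    · calc min t 1 * η ≤ 1 * η := mul_le_mul_of_nonneg_right (min_le_right _ _) hη.le
        _ = η := one_mul η
  unfold KA
  calc ENNReal.ofReal (√(min t 1)) * NW (Wa 0) (at' r t)
      ≤ ENNReal.ofReal (1 / √η * √(min t η)) * NW (Wa 0) (at' r t) := by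
        apply mul_le_mul' _ le_rfl
        apply ENNReal.ofReal_le_ofReal
        refine hle.trans (le_of_eq ?_)
        ring
    _ = ENNReal.ofReal (1 / √η) * (ENNReal.ofReal (√(min t η)) * NW (Wa 0) (at' r t)) := by
        rw [ENNReal.ofReal_mul (by positivity), mul_assoc]
    _ ≤ ENNReal.ofReal (1 / √η) * ENNReal.ofReal (2 * (K0 * η)) := mul_le_mul' le_rfl key
    _ = _ := by
        rw [← ENNReal.ofReal_mul (by positivity)]
        congr 1
        have : η = √η * √η := (Real.mul_self_sqrt hη.le).symm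
        calc 1 / √η * (2 * (K0 * η)) = 2 * K0 * (η / √η) := by ring
          _ = 2 * K0 * √η := by rw [Real.div_sqrt]

lemma CutH_one : CutH (fun _ => (1 : ℝ)) 1 :=
  ⟨⟨continuous_const, fun _ => zero_le_one, fun _ => le_rfl⟩, one_pos, fun _ _ => rfl⟩

lemma NW_neg (w : K → ℝ≥0∞) (x : K → C3) : NW w (-x) = NW w x := by
  unfold NW
  refine tsum_congr fun k => ?_
  rw [Pi.neg_apply, enorm_neg]

lemma NW_sub_le (w : K → ℝ≥0∞) (x y : K → C3) : NW w (x - y) ≤ NW w x + NW w y := by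
  rw [sub_eq_add_neg]
  refine (NW_add_le _ _ _).trans ?_
  rw [NW_neg]

lemma ws_ne_top (s : ℕ) (k : K) : ws s k ≠ ⊤ := by unfold ws; exact ENNReal.ofReal_ne_top

section
variable {c : ℝ} {y : Fam}

lemma LNd_le_of (δ : ℝ) (x : Fam) : LNd δ x ≤ LN (fun t => NW (Wa 0) (at' x t)) := LNd_le_LN δ x

/-- bounds for the global solution -/
lemma GS0.wsb (h : GS0 c y) {δ : ℝ} (hδ : 0 < δ) (s : ℕ) : ∃ B : ℝ, 0 ≤ B ∧
    (∀ t, δ ≤ t → NW (ws s) (at' y t) ≤ ENNReal.ofReal B) ∧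
    ∀ S : StX (fun _ => 1) c, LN (fun t => NW (Wa 0) (at' (S.u - y) t)) ≤ 1 →
      ∀ t, δ ≤ t → NW (ws s) (at' S.u t) ≤ ENNReal.ofReal B := by
  have hχ : CutT fun _ => (1 : ℝ) := CutH_one.toCutT
  obtain ⟨L, hL⟩ : ∃ L, L = (LN (fun t => NW (Wa 0) (at' y t))).toReal + 1 := ⟨_, rfl⟩
  have hL0 : 0 ≤ L := by rw [hL]; positivity
  obtain ⟨B, hB, hB'⟩ := smoothing h.hc hL0 s (δ / 2) δ (by positivity) (by linarith)
  have key : ∀ S : StX (fun _ => 1) c, LN (fun t => NW (Wa 0) (at' (S.u - y) t)) ≤ 1 →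
      ∀ t, δ ≤ t → NW (ws s) (at' S.u t) ≤ ENNReal.ofReal B := by
    intro S hS t ht
    refine hB' _ hχ S.a S.ha S.V S.u S.sol ?_ t ht
    refine (LNd_le_LN _ _).trans ?_
    have e : ∀ t, NW (Wa 0) (at' S.u t) ≤ NW (Wa 0) (at' y t) + NW (Wa 0) (at' (S.u - y) t) := by
      intro t
      have e1 : at' S.u t = at' y t + at' (S.u - y) t := by
        funext k
        simp only [at', Pi.sub_apply, Pi.add_apply]
        abel
      conv_lhs => rw [e1]
      exact NW_add_le _ _ _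
    refine (LN_mono fun t _ => e t).trans ((LN_add_le (NW_meas _ h.cf)
      (NW_meas _ (CF.sub' S.sol.cf h.cf))).trans ?_)
    rw [hL, ENNReal.ofReal_add ENNReal.toReal_nonneg zero_le_one, ENNReal.ofReal_toReal h.l2, ENNReal.ofReal_one]
    exact add_le_add le_rfl hS
  refine ⟨B, hB, fun t ht => ?_, key⟩
  have hseq : ∀ n : ℕ, ∃ S : StX (fun _ => 1) c, (∀ t, NW (Wm 0) (at' (S.u - y) t) ≤ ENNReal.ofReal (1 / ((n : ℝ) + 1))) ∧
      LN (fun t => NW (Wa 0) (at' (S.u - y) t)) ≤ 1 := by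
    intro n
    obtain ⟨S, M, h1, h2, h3, h4, -⟩ := base_appr h (ε := 1 / ((n : ℝ) + 1)) (by positivity)
    refine ⟨S, h2, h4.trans ?_⟩
    rw [ENNReal.ofReal_le_one, div_le_one (by positivity)]
    linarith [(Nat.cast_nonneg n : (0 : ℝ) ≤ n)]
  choose S hS1 hS2 using hseq
  refine NW_le_of_tendsto (ws_ne_top s) (x := fun n => at' (S n).u t) (fun k => ?_) fun n => key (S n) (hS2 n) t ht
  rw [tendsto_iff_norm_sub_tendsto_zero]
  have h3 : ∀ n, ‖(S n).u k t - y k t‖ ≤ nk k * (1 / ((n : ℝ) + 1)) := by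
    intro n
    have h4 := norm_le_of_NWm (a := 0) (x := at' ((S n).u - y) t) (M := 1 / ((n : ℝ) + 1)) (by positivity) (by
      show (S n).u 0 t - y 0 t = 0
      rw [(S n).sol.z, h.z, sub_zero]) (hS1 n t) k
    have h5 : ‖(S n).u k t - y k t‖ ≤ 1 / ((n : ℝ) + 1) * nk k := by simpa [at'] using h4
    linarith
  refine squeeze_zero (fun n => norm_nonneg _) h3 ?_
  have := (tendsto_one_div_add_atTop_nhds_zero_nat (𝕜 := ℝ)).const_mul (nk k)
  simpa using this

/-- What the construction gives near a global solution. -/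
structure OutY (ga : ℝ → ℝ) (c : ℝ) (b : K → C3) (y : Fam) (r p δ ε : ℝ) (s : ℕ) (u : Fam) : Prop where
  cf : CF u
  reg : RegP c (fun _ => 1) u
  sym : SymF u
  z : ∀ t, u 0 t = 0
  sn : ∀ t, 0 < t → SN (at' u t)
  att : ∀ r', 2 < r' → critNorm r' b ≠ ⊤ → Tendsto (fun t => critNorm r' (at' u t - b)) (𝓝[>] 0) (𝓝 0)
  lq : ∀ q, 1 ≤ q → q < 2 → LP q u ≠ ⊤
  lp : LP p (u - y) ≤ ENNReal.ofReal ε
  cl : ∀ t, δ ≤ t → NW (ws s) (at' (u - y) t) ≤ ENNReal.ofReal ε
  cr : ∀ t, critNorm r (at' (u - y) t) ≤ 4 * critNorm r (b - at' y 0) + ENNReal.ofReal ε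
  nl : ∃ C : ℝ, 0 ≤ C ∧ ∀ k, ∫⁻ t in Ioi 0, ‖Bt u k t‖ₑ ≤ ENNReal.ofReal (C * nk k)
  kt : ∀ t, 0 < t → KA (u - y) t ≤ ENNReal.ofReal ε
  kg : ∀ᶠ t in 𝓝[>] (0 : ℝ), KA u t ≤ ENNReal.ofReal (ga t)

theorem coreY {ga : ℝ → ℝ} (hga : Gau ga) (h : GS0 c y) {b : K → C3} (hb0 : b 0 = 0) (hbd : ∀ k, dt k (b k) = 0) (hbs : Sym b) {r : ℝ} (hr : 2 < r)
    (hbr : critNorm r b ≠ ⊤) {p δ ε : ℝ} (hp1 : 1 ≤ p) (hp2 : p < 2) (hδ : 0 < δ) (hε : 0 < ε) (s : ℕ) :
    ∃ u : Fam, OutY ga c b y r p δ ε s u := by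
  obtain ⟨B, hB, hBy, hBS⟩ := h.wsb hδ (2 * s + 1)
  -- bounds for the path up to the time `δ`
  obtain ⟨Cy, hCy, hyb⟩ := h.lb δ
  obtain ⟨D, hD⟩ : ∃ D, D = (LN (fun t => NW (Wa 0) (at' y t))).toReal := ⟨_, rfl⟩
  have hD0 : 0 ≤ D := by rw [hD]; exact ENNReal.toReal_nonneg
  have hyD : LN (fun t => NW (Wa 0) (at' y t)) ≤ ENNReal.ofReal D := by rw [hD, ENNReal.ofReal_toReal h.l2]
  have hS4 := S4_nonneg
  have hyA : ∀ t, 0 < t → t ≤ δ → NW (Wa 0) (at' y t) ≤ ENNReal.ofReal (Cy * S4) := fun t _ ht => by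
    rw [NW_Wa_zero]
    refine (NW_one_le (summ_nk4.mul_left Cy) fun k => hyb t ht k).trans (le_of_eq ?_)
    rw [tsum_mul_left]
    rfl
  obtain ⟨Kk, η1, hKk, hη1, hbK⟩ := base_K h.hc hD0 (show 0 ≤ Cy * S4 by positivity) le_rfl le_rfl
  obtain ⟨e, he⟩ : ∃ e, e = min (min (min 1 (ε / 20)) ((ε / 2) ^ 2 / (2 * B + 1))) (min η1 ((ε / (2 * Kk)) ^ 2)) := ⟨_, rfl⟩
  have he0 : 0 < e := by rw [he]; positivity
  have he1 : e ≤ 1 := by rw [he]; exact (min_le_left _ _).trans ((min_le_left _ _).trans (min_le_left _ _))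
  have he2 : 20 * e ≤ ε := by
    have : e ≤ ε / 20 := by rw [he]; exact (min_le_left _ _).trans ((min_le_left _ _).trans (min_le_right _ _))
    linarith
  have he3 : (2 * B + 1) * e ≤ (ε / 2) ^ 2 := by
    have : e ≤ (ε / 2) ^ 2 / (2 * B + 1) := by rw [he]; exact (min_le_left _ _).trans (min_le_right _ _)
    rw [le_div_iff₀ (by positivity)] at this
    linarith
  have he4 : e ≤ η1 := by rw [he]; exact (min_le_right _ _).trans (min_le_left _ _)
  have he5 : Kk * √e ≤ ε / 2 := by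
    have h1 : e ≤ (ε / (2 * Kk)) ^ 2 := by rw [he]; exact (min_le_right _ _).trans (min_le_right _ _)
    have h2 : √e ≤ ε / (2 * Kk) := (Real.sqrt_le_left (by positivity)).2 h1
    rw [le_div_iff₀ (by positivity)] at h2
    linarith
  obtain ⟨S, M, hV, h1, h2, h3, h2'⟩ := base_appr h he0
  have hr1 : 1 ≤ r := by linarith
  obtain ⟨u, hu⟩ := coreN hga CutH_one TF_one h.hc S hb0 hbd hbs hr hbr hp1 hp2 hδ (half_pos hε) s
  have hdec : ∀ t, at' (u - y) t = at' (u - S.u) t + at' (S.u - y) t := by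
    intro t
    funext k
    simp only [at', Pi.sub_apply, Pi.add_apply]
    abel
  have hSy : CF (S.u - y) := CF.sub' S.sol.cf h.cf
  have hcl : ∀ t, δ ≤ t → NW (ws s) (at' (u - y) t) ≤ ENNReal.ofReal ε := by
    intro t ht
    rw [hdec]
    refine (NW_add_le _ _ _).trans ((add_le_add (hu.cl t ht) (?_ : _ ≤ ENNReal.ofReal (ε / 2))).trans ?_)
    · have h4 : NW (ws (2 * s + 1)) (at' (S.u - y) t) ≤ ENNReal.ofReal (2 * B) := by
        have e1 : at' (S.u - y) t = at' S.u t - at' y t := rfl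
        rw [e1, show 2 * B = B + B by ring, ENNReal.ofReal_add hB hB]
        refine (NW_sub_le _ _ _).trans (add_le_add (hBS S (h3.trans ?_) t ht) (hBy t ht))
        rw [ENNReal.ofReal_le_one]
        exact he1
      have h5 := (interp_s s (x := at' (S.u - y) t) (by
        show S.u 0 t - y 0 t = 0
        rw [h.z, S.sol.z, sub_self])).trans (mul_le_mul' (h1 t) h4)
      rw [← ENNReal.ofReal_mul he0.le] at h5
      have h6 : ENNReal.ofReal (e * (2 * B)) ≤ ENNReal.ofReal (ε / 2) * ENNReal.ofReal (ε / 2) := by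
        rw [← ENNReal.ofReal_mul (by positivity)]
        apply ENNReal.ofReal_le_ofReal
        nlinarith
      have h7 := h5.trans h6
      by_contra h8
      push Not at h8
      exact absurd h7 (not_le.2 (ENNReal.mul_lt_mul h8 h8))
    · rw [← ENNReal.ofReal_add (by positivity) (by positivity)]
      exact ENNReal.ofReal_le_ofReal (by linarith)
  have hkt : ∀ t, 0 < t → KA (u - y) t ≤ ENNReal.ofReal ε := by
    intro t ht
    rcases le_total t δ with h8 | h8
    · have e1 : u - y = (u - S.u) + (S.u - y) := by abel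
      rw [e1]
      have e2 : Bx (fun _ => (1 : ℝ)) y = Bt y := by
        funext k t
        exact one_smul _ _
      have e3 : ∀ t, NW (Wm 0) (at' (Bx (fun _ => (1 : ℝ)) y) t - at' (Bt y) t) = 0 := fun t => by
        rw [e2, sub_self, NW_zero]
      have h9 := hbK e he0 he4 (fun _ => 1) CutH_one.toCutT y (Bt y) h.cf h.lb.sn (by rw [e2]; exact h.cfB) h.cfB
        (fun t => Bf_zero _ _) h.eqn hyD δ ⟨fun k => Cy * (1 / nk k) ^ 4, summ_nk4.mul_left Cy, fun k t ht => hyb t ht k⟩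
        hyA (fun t _ _ => by rw [e3]; exact zero_le) (by simp [e3]) S (by rw [one_mul]; exact h3)
        (by rw [hV]; exact h2') t ht h8
      refine (KA_add_le _ _ _).trans ((add_le_add (hu.kt t ht) (h9.trans (ENNReal.ofReal_le_ofReal he5))).trans ?_)
      rw [← ENNReal.ofReal_add (by positivity) (by positivity), add_halves]
    · refine (KA_le _ _).trans ((NW_ws_ge ?_).trans (hcl t h8))
      show u 0 t - y 0 t = 0
      rw [hu.z, h.z, sub_self]
  refine ⟨u, hu.cf, hu.reg, hu.sym, hu.z, hu.sn, hu.att, hu.lq, ?_, hcl, fun t => ?_, ?_, hkt, hu.kg⟩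
  rotate_right
  · obtain ⟨C, hC, h1⟩ := hu.nl
    refine ⟨C, hC, fun k => ?_⟩
    have e1 : ∀ t, Bx (fun _ => (1 : ℝ)) u k t = Bt u k t := fun t => one_smul _ _
    have := h1 k
    simp only [e1] at this
    exact this
  · have e1 : u - y = (u - S.u) + (S.u - y) := by abel
    rw [e1]
    refine (LP_add hp1 (CF.sub' hu.cf S.sol.cf) hSy).trans ((add_le_add hu.lp
      ((LP_le_LN (by linarith) hp2.le hSy).trans h3)).trans ?_)
    rw [← ENNReal.ofReal_add (by positivity) he0.le]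
    exact ENNReal.ofReal_le_ofReal (by linarith)
  · rw [hdec]
    have h4 : critNorm r (at' (S.u - y) t) ≤ ENNReal.ofReal (2 * e) := by
      refine (critNorm_le_NW hr1 _).trans ((mul_le_mul' le_rfl (h1 t)).trans (le_of_eq ?_))
      rw [ENNReal.ofReal_mul (by norm_num), ENNReal.ofReal_ofNat]
    have h5 : critNorm r (b - S.V) ≤ critNorm r (b - at' y 0) + ENNReal.ofReal (2 * e) := by
      have e1 : b - S.V = (b - at' y 0) + (at' y 0 - tru M (at' y 0)) := by rw [hV]; abel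
      rw [e1]
      refine (critNorm_add' hr1 _ _).trans (add_le_add le_rfl ?_)
      refine (critNorm_le_NW hr1 _).trans ((mul_le_mul' le_rfl h2).trans (le_of_eq ?_))
      rw [ENNReal.ofReal_mul (by norm_num), ENNReal.ofReal_ofNat]
    refine (critNorm_add' hr1 _ _).trans ((add_le_add ((hu.cr t).trans (add_le_add (mul_le_mul' le_rfl h5) le_rfl))
      h4).trans ?_)
    rw [mul_add, show (4 : ℝ≥0∞) * ENNReal.ofReal (2 * e) = ENNReal.ofReal (8 * e) by
      rw [← ENNReal.ofReal_ofNat, ← ENNReal.ofReal_mul (by norm_num)]; congr 1; ring]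
    have e2 : ENNReal.ofReal (8 * e) + ENNReal.ofReal (ε / 2) + ENNReal.ofReal (2 * e) ≤ ENNReal.ofReal ε := by
      rw [← ENNReal.ofReal_add (by positivity) (by positivity), ← ENNReal.ofReal_add (by positivity) (by positivity)]
      exact ENNReal.ofReal_le_ofReal (by linarith)
    calc 4 * critNorm r (b - at' y 0) + ENNReal.ofReal (8 * e) + ENNReal.ofReal (ε / 2) + ENNReal.ofReal (2 * e)
        = 4 * critNorm r (b - at' y 0) + (ENNReal.ofReal (8 * e) + ENNReal.ofReal (ε / 2) + ENNReal.ofReal (2 * e)) := by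
          ring
      _ ≤ _ := add_le_add le_rfl e2

end

section
variable {ν : ℝ} {v : ℝ → R3 → R3} {q : ℝ → R3 → ℝ}

lemma glob_GS0 (hν : 0 < ν) (h : Glob ν v q) {m : E3} (hm : ∀ i, fc (v 0) 0 i = (m i : ℂ)) :
    GS0 (4 * Real.pi ^ 2 * ν) (yv m v) where
  hc := by positivity
  lb := fun T => yv_bound h m T 4
  cf := yv_cf h m
  cfB := Bt_yv_cf h m
  z := yv_zero m v
  eqn := yv_eqn h hm
  l2 := glob_l2 hν h hm
  sym := yv_sym m v
  dv := yv_div h m

lemma yv_at_zero (m : E3) (v : ℝ → R3 → R3) : at' (yv m v) 0 = nz (fc (v 0)) := by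
  funext k i
  show nz (fc (v (max 0 0))) k i * ex k (-((-(max 0 0)) • m)) = _
  simp [ex]

lemma sym_re {a : K → C3} (h : Sym a) (i : Fin 3) : a 0 i = (((a 0 i).re : ℝ) : ℂ) := by
  have := h 0 i
  rw [neg_zero, Complex.star_def] at this
  exact (Complex.conj_eq_iff_re.1 this.symm).symm

lemma nz_sym {a : K → C3} (h : Sym a) : Sym (nz a) := by
  intro k i
  unfold nz
  by_cases hk : k = 0
  · subst hk; simp
  · rw [if_neg hk, if_neg (neg_ne_zero.2 hk), h k i]

lemma nz_div {a : K → C3} (h : ∀ k, dt k (a k) = 0) (k : K) : dt k (nz a k) = 0 := by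
  unfold nz
  split_ifs
  · simp [dt]
  · exact h k

lemma nz_zero (a : K → C3) : nz a 0 = 0 := by simp [nz]

lemma critNorm_nz (r : ℝ) (a : K → C3) : critNorm r (nz a) = critNorm r a :=
  critNorm_congr fun k hk => by simp [nz, hk]

/-- **Main theorem**, on physical space. -/
theorem mainN (hν : 0 < ν) (hv : Glob ν v q) {a : K → C3} (has : Sym a) (had : ∀ k, dt k (a k) = 0)
    (ham : a 0 = fc (v 0) 0) {r : ℝ} (hr : 2 < r) (har : critNorm r a ≠ ⊤) {p δ ε : ℝ} (hp1 : 1 ≤ p) (hp2 : p < 2)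
    (hδ : 0 < δ) (hε : 0 < ε) (s : ℕ) :
    ∃ (u : ℝ → R3 → R3) (P : ℝ → R3 → ℝ),
      ContDiffOn ℝ ∞ (fun z : ℝ × R3 => u z.1 z.2) (Ioi 0 ×ˢ univ) ∧
      ContDiffOn ℝ ∞ (fun z : ℝ × R3 => P z.1 z.2) (Ioi 0 ×ˢ univ) ∧
      (∀ t, Pe (u t)) ∧ (∀ t, Pe (P t)) ∧
      (∀ t, 0 < t → ∀ x i, deriv (fun s => u s x i) t + ∑ j, u t x j * pd j (fun y => u t y i) x
        = ν * ∑ j, pd j (pd j fun y => u t y i) x - pd i (P t) x) ∧
      (∀ t, 0 < t → ∀ x, ∑ i, pd i (fun y => u t y i) x = 0) ∧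
      (∀ t, 0 < t → fc (u t) 0 = a 0) ∧
      (∀ r' : ℝ, 2 < r' → critNorm r' a ≠ ⊤ →
        Tendsto (fun t => critNorm r' (fun k => fc (u t) k - a k)) (𝓝[>] 0) (𝓝 0)) ∧
      (∀ p' : ℝ, 1 ≤ p' → p' < 2 → ∫⁻ t in Ioc 0 1, (⨆ x, ‖u t x‖ₑ) ^ p' ≠ ⊤) ∧
      (∫⁻ t in Ioc 0 1, (⨆ x, ‖u t x - v t x‖ₑ) ^ p ≤ ENNReal.ofReal ε) ∧
      (∀ t, δ ≤ t → ∑' k, (1 + ENNReal.ofReal (nk k ^ s)) * ‖fc (u t) k - fc (v t) k‖ₑ ≤ ENNReal.ofReal ε) ∧
      (∀ t, δ ≤ t → ∀ x, ‖u t x - v t x‖ₑ ≤ ENNReal.ofReal ε) ∧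
      (∀ t, 0 < t → critNorm r (fun k => fc (u t) k - fc (v t) k) ≤
        4 * critNorm r (fun k => a k - fc (v 0) k) + ENNReal.ofReal ε) := by
  obtain ⟨m, hm⟩ : ∃ m : E3, m = fun i => (a 0 i).re := ⟨_, rfl⟩
  have hmv : ∀ i, fc (v 0) 0 i = (m i : ℂ) := fun i => by rw [← ham, hm]; exact sym_re has i
  have hG := glob_GS0 hν hv hmv
  obtain ⟨e, he⟩ : ∃ e, e = min (ε / 2) (min 1 (ε)) := ⟨_, rfl⟩
  have he0 : 0 < e := by rw [he]; positivity
  have he1 : e ≤ ε / 2 := by rw [he]; exact min_le_left _ _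
  have he2 : e ≤ 1 := by rw [he]; exact (min_le_right _ _).trans (min_le_left _ _)
  have he3 : e ≤ ε := by linarith
  obtain ⟨e', he'⟩ : ∃ e', e' = min e (e ^ (1 / p)) := ⟨_, rfl⟩
  have he'0 : 0 < e' := by rw [he']; positivity
  have he'1 : e' ≤ e := by rw [he']; exact min_le_left _ _
  have he'2 : e' ^ p ≤ e := by
    have h1 : e' ≤ e ^ (1 / p) := by rw [he']; exact min_le_right _ _
    calc e' ^ p ≤ (e ^ (1 / p)) ^ p := Real.rpow_le_rpow he'0.le h1 (by linarith)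
      _ = e := by rw [← Real.rpow_mul he0.le, one_div_mul_cancel (by linarith), Real.rpow_one]
  obtain ⟨u, hu⟩ := coreY gau_one hG (nz_zero a) (nz_div had) (nz_sym has) hr
    (by rw [critNorm_nz]; exact har) hp1 hp2 hδ he'0 s
  have hysn : ∀ t, SN (at' (yv m v) t) := yv_sn hv m
  have hsup : ∀ t, 0 < t → ⨆ x, ‖fld m u t x - v t x‖ₑ ≤ NW (Wa 0) (at' (u - yv m v) t) := by
    intro t ht
    refine iSup_le fun x => ?_
    rw [← fld_yv hv hmv ht.le]
    exact fld_sub_le (hu.sn t ht) (hysn t) m x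
  have hle0 : ∀ t, δ ≤ t → NW (Wa 0) (at' (u - yv m v) t) ≤ NW (ws s) (at' (u - yv m v) t) := by
    intro t _
    unfold NW
    refine ENNReal.tsum_le_tsum fun k => ?_
    by_cases hk : k = 0
    · subst hk
      have : at' (u - yv m v) t 0 = 0 := by
        show u 0 t - yv m v 0 t = 0
        rw [hu.z, yv_zero, sub_self]
      rw [this]; simp
    · apply mul_le_mul' _ le_rfl
      unfold Wa ws
      apply ENNReal.ofReal_le_ofReal
      have o : om 0 k = 1 := by simp [om]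
      rw [o]
      exact one_le_pow₀ (one_le_nk hk)
  have hdf : ∀ t, 0 < t → ∀ k, ‖fc (fld m u t) k - fc (v t) k‖ₑ = ‖at' (u - yv m v) t k‖ₑ := by
    intro t ht k
    rw [← fld_yv hv hmv ht.le]
    exact fc_fld_sub (hu.sn t ht) (hysn t) (hu.sym t) (yv_sym m v t) (hu.z t) (yv_zero m v t) m k
  refine ⟨fld m u, prs m u, hu.reg.smooth m, hu.reg.smooth_p m, fld_per m u, prs_per m u,
    fun t ht x i => hu.reg.mom m ht rfl x i, fun t ht x => hu.reg.divf m ht x, fun t ht => ?_, fun r' hr' hr'' => ?_,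
    fun p' h1 h2 => ?_, ?_, fun t ht => ?_, fun t ht x => ?_, fun t ht => ?_⟩
  · rw [fc_fld_zero (hu.sn t ht) (hu.sym t) (hu.z t) m]
    funext i
    rw [sym_re has i, hm]
  · refine att_phys (by linarith) (b := nz a) (fun k hk => by simp [nz, hk]) (by rw [critNorm_nz]; exact hr'') m hu.sn
      hu.sym hu.z (hu.att r' hr' (by rw [critNorm_nz]; exact hr''))
  · -- `L^p` in time
    have h3 := hu.lq p' h1 h2
    have hp0 : 0 < p' := by linarith
    have h4 : ∀ t ∈ Ioc (0 : ℝ) 1, (⨆ x, ‖fld m u t x‖ₑ) ^ p' ≤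
        2 ^ (p' - 1) * (ENNReal.ofReal ‖m‖ ^ p' + NW (Wa 0) (at' u t) ^ p') := by
      intro t ht
      have h5 : ⨆ x, ‖fld m u t x‖ₑ ≤ ENNReal.ofReal ‖m‖ + NW (Wa 0) (at' u t) := by
        refine iSup_le fun x => ?_
        have h6 := fld_sub_le (u := u) (v := 0) (hu.sn t ht.1) (by
          show Summable fun k => ‖at' (0 : Fam) t k‖
          simp [at']) m x
        have e0 : fld m 0 t x = m := by
          funext i
          unfold fld GS SF
          simp [cf']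
        rw [e0, sub_zero] at h6
        calc ‖fld m u t x‖ₑ = ‖m + (fld m u t x - m)‖ₑ := by congr 1; abel
          _ ≤ ‖m‖ₑ + ‖fld m u t x - m‖ₑ := enorm_add_le _ _
          _ ≤ _ := add_le_add (by rw [ofReal_norm]) h6
      exact (ENNReal.rpow_le_rpow h5 hp0.le).trans (ENNReal.rpow_add_le_mul_rpow_add_rpow _ _ h1)
    refine ne_top_of_le_ne_top ?_ (setLIntegral_mono' measurableSet_Ioc h4)
    rw [lintegral_const_mul' _ _ (by simp), lintegral_add_left measurable_const]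
    refine ENNReal.mul_ne_top (by simp) (ENNReal.add_ne_top.2 ⟨?_, ?_⟩)
    · rw [setLIntegral_const, Real.volume_Ioc]
      exact ENNReal.mul_ne_top (ENNReal.rpow_ne_top_of_nonneg hp0.le ENNReal.ofReal_ne_top) ENNReal.ofReal_ne_top
    · intro h7
      apply h3
      unfold LP
      rw [h7, ENNReal.top_rpow_of_pos (by positivity)]
  · have h3 := hu.lp
    have hp0 : 0 < p := by linarith
    calc ∫⁻ t in Ioc 0 1, (⨆ x, ‖fld m u t x - v t x‖ₑ) ^ p
        ≤ ∫⁻ t in Ioc 0 1, NW (Wa 0) (at' (u - yv m v) t) ^ p :=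
          setLIntegral_mono' measurableSet_Ioc fun t ht => ENNReal.rpow_le_rpow (hsup t ht.1) hp0.le
      _ = (LP p (u - yv m v)) ^ p := by
          unfold LP
          rw [← ENNReal.rpow_mul, one_div_mul_cancel hp0.ne', ENNReal.rpow_one]
      _ ≤ ENNReal.ofReal e' ^ p := ENNReal.rpow_le_rpow h3 hp0.le
      _ = ENNReal.ofReal (e' ^ p) := ENNReal.ofReal_rpow_of_nonneg he'0.le hp0.le
      _ ≤ _ := ENNReal.ofReal_le_ofReal (he'2.trans he3)
  · have ht0 : 0 < t := by linarith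
    have h3 := hu.cl t ht
    calc ∑' k, (1 + ENNReal.ofReal (nk k ^ s)) * ‖fc (fld m u t) k - fc (v t) k‖ₑ
        = ∑' k, (1 + ENNReal.ofReal (nk k ^ s)) * ‖at' (u - yv m v) t k‖ₑ :=
          tsum_congr fun k => by rw [hdf t ht0 k]
      _ = NW (Wa 0) (at' (u - yv m v) t) + NW (ws s) (at' (u - yv m v) t) := by
          rw [NW_Wa_zero]
          unfold NW ws
          rw [← ENNReal.tsum_add]
          exact tsum_congr fun k => by rw [add_mul, one_mul]
      _ ≤ ENNReal.ofReal e + ENNReal.ofReal e :=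
          add_le_add ((hle0 t ht).trans (h3.trans (ENNReal.ofReal_le_ofReal he'1)))
            (h3.trans (ENNReal.ofReal_le_ofReal he'1))
      _ ≤ _ := by
          rw [← ENNReal.ofReal_add he0.le he0.le]
          exact ENNReal.ofReal_le_ofReal (by linarith)
  · have ht0 : 0 < t := by linarith
    refine (le_iSup (fun x => ‖fld m u t x - v t x‖ₑ) x).trans ((hsup t ht0).trans ((hle0 t ht).trans
      ((hu.cl t ht).trans (ENNReal.ofReal_le_ofReal (he'1.trans he3)))))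
  · have h3 := hu.cr t
    have e1 : critNorm r (fun k => fc (fld m u t) k - fc (v t) k) = critNorm r (at' (u - yv m v) t) := by
      apply le_antisymm
      · exact critNorm_mono (by linarith) fun k _ => (hdf t ht k).le
      · exact critNorm_mono (by linarith) fun k _ => (hdf t ht k).ge
    have e2 : critNorm r (nz a - at' (yv m v) 0) = critNorm r (fun k => a k - fc (v 0) k) := by
      rw [yv_at_zero]
      exact critNorm_congr fun k hk => by simp [nz, hk]
    rw [e1]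
    rw [e2] at h3
    exact h3.trans (add_le_add le_rfl (ENNReal.ofReal_le_ofReal (he'1.trans he3)))

end

end Pool.Agent.H356R3.NS.X
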