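import Pool.Agent.H3NX.BlockU

set_option autoImplicit false
set_option maxHeartbeats 4000000
set_option synthInstance.maxHeartbeats 400000

/-!
Smooth paths of periodic fields on the Fourier side.
-/

open MeasureTheory Set Filter Topology
open scoped ENNReal NNReal ContDiff

namespace Pool.Agent.H356R3.NS.X

open Pool.Agent.H3NS
open H459R3.NS (fr ee SP IsSol cube)

section
variable {T : ℝ} {w : ℝ → R3 → R3}

lemma SV.sp (h : SV (Ico 0 T) w) {t : ℝ} (ht : t ∈ Ico 0 T) (i : Fin 3) : SP (fun y => w t y i) :=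
  ⟨(h.sm i).slice ht, fun j x => h.peri ht i x j⟩

lemma fcS_cont (h : SV (Ico 0 T) w) (k : K) (i : Fin 3) : ContinuousOn (fun s => fc (w s) k i) (Ico 0 T) := by
  simp only [fc_fr]
  refine continuousOn_intC (F := fun s x => ee (-k) x * (w s x i : ℂ)) ?_
  refine ContinuousOn.mul ?_ ?_
  · exact ((H459R3.NS.ee_continuous (-k)).comp continuous_snd).continuousOn
  · exact Complex.continuous_ofReal.comp_continuousOn (h.sm i).continuousOn

/-- rapid decrease of the Fourier coefficients, locally uniformly in time -/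
lemma fcS_bound (h : SV (Ico 0 T) w) {T' : ℝ} (hT : T' < T) (n : ℕ) : ∃ C : ℝ, 0 ≤ C ∧
    ∀ t ∈ Icc 0 T', ∀ k, nk k ^ n * ‖fc (w t) k‖ ≤ C := by
  have key : ∀ i j : Fin 3, ∃ C : ℝ, 0 ≤ C ∧ ∀ t ∈ Icc 0 T', ∀ k : K, |(k j : ℝ)| ^ n * ‖fc (w t) k i‖ ≤ C := by
    intro i j
    have hc := (pd_iter_smooth (T := T) (f := fun t y => w t y i) (h.sm i) j n).continuousOn
    have hK : IsCompact (Icc 0 T' ×ˢ cube) := isCompact_Icc.prod isCompact_Icc
    have hsub : Icc 0 T' ×ˢ cube ⊆ Ico 0 T ×ˢ (univ : Set R3) :=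
      prod_mono (fun s hs => ⟨hs.1, hs.2.trans_lt hT⟩) (subset_univ _)
    obtain ⟨C, hC⟩ := hK.exists_bound_of_continuousOn (hc.mono hsub)
    refine ⟨max C 0, le_max_right _ _, fun t ht k => ?_⟩
    have hI : t ∈ Ico 0 T := ⟨ht.1, ht.2.trans_lt hT⟩
    have e1 := H459R3.NS.fr_iter (SV.sp h hI i) j n k
    have h2 : ‖fr ((H459R3.NS.pd j)^[n] (fun y => w t y i)) k‖ ≤ max C 0 := by
      unfold H459R3.NS.fr H459R3.NS.fc
      have hv : (volume : Measure R3) cube < ⊤ := isCompact_Icc.measure_lt_top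
      have h3 := norm_setIntegral_le_of_norm_le_const (μ := (volume : Measure R3)) (s := cube) (C := max C 0) hv
        (f := fun x => ee (-k) x * ((((H459R3.NS.pd j)^[n] (fun y => w t y i)) x : ℝ) : ℂ)) fun x hx => by
          rw [norm_mul, H459R3.NS.norm_ee, one_mul, Complex.norm_real]
          exact (hC (t, x) ⟨ht, hx⟩).trans (le_max_left _ _)
      refine h3.trans (le_of_eq ?_)
      rw [Measure.real, H459R3.NS.volume_cube]
      simp
    rw [e1, norm_mul, norm_pow] at h2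
    rw [fc_fr]
    refine le_trans ?_ h2
    apply mul_le_mul_of_nonneg_right _ (norm_nonneg _)
    apply pow_le_pow_left₀ (abs_nonneg _)
    rw [norm_mul, norm_mul, norm_mul, Complex.norm_I, mul_one, Complex.norm_real,
      Real.norm_eq_abs, abs_of_pos Real.pi_pos, Complex.norm_ofNat, Complex.norm_intCast]
    have h0 : 0 ≤ |(k j : ℝ)| := abs_nonneg _
    have := Real.pi_gt_three
    nlinarith
  choose C hC0 hC using key
  refine ⟨2 ^ n * ∑ i, ∑ j, C i j, mul_nonneg (by positivity) (Finset.sum_nonneg fun i _ =>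
    Finset.sum_nonneg fun j _ => hC0 i j), fun t ht k => ?_⟩
  have h1 : nk k ^ n ≤ 2 ^ n * ∑ j, |(k j : ℝ)| ^ n := by
    obtain ⟨j, -, hj⟩ := Finset.exists_max_image Finset.univ (fun j : Fin 3 => |(k j : ℝ)|) Finset.univ_nonempty
    have h2 : nk k ≤ 2 * |(k j : ℝ)| := by
      unfold nk Pool.Agent.H356R3.NS.sq
      rw [Real.sqrt_le_left (by positivity)]
      have h3 : ∀ l : Fin 3, (k l : ℝ) ^ 2 ≤ |(k j : ℝ)| ^ 2 := fun l => by
        rw [← sq_abs (k l : ℝ)]
        exact pow_le_pow_left₀ (abs_nonneg _) (hj l (Finset.mem_univ l)) 2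
      rw [Fin.sum_univ_three]
      have := h3 0
      have := h3 1
      have := h3 2
      nlinarith [sq_nonneg (|(k j : ℝ)|)]
    calc nk k ^ n ≤ (2 * |(k j : ℝ)|) ^ n := pow_le_pow_left₀ (nk_nonneg k) h2 n
      _ = 2 ^ n * |(k j : ℝ)| ^ n := mul_pow _ _ _
      _ ≤ _ := by
          apply mul_le_mul_of_nonneg_left _ (by positivity)
          exact Finset.single_le_sum (f := fun j => |(k j : ℝ)| ^ n) (fun j _ => by positivity) (Finset.mem_univ j)
  have h2 : ‖fc (w t) k‖ ≤ ∑ i, ‖fc (w t) k i‖ := by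
    rw [pi_norm_le_iff_of_nonneg (Finset.sum_nonneg fun i _ => norm_nonneg _)]
    intro i
    exact Finset.single_le_sum (f := fun i => ‖fc (w t) k i‖) (fun i _ => norm_nonneg _) (Finset.mem_univ i)
  calc nk k ^ n * ‖fc (w t) k‖ ≤ (2 ^ n * ∑ j, |(k j : ℝ)| ^ n) * ∑ i, ‖fc (w t) k i‖ :=
        mul_le_mul h1 h2 (norm_nonneg _) (by positivity)
    _ = 2 ^ n * ∑ i, ∑ j, |(k j : ℝ)| ^ n * ‖fc (w t) k i‖ := by
        rw [mul_assoc, Finset.sum_mul_sum, Finset.sum_comm]
    _ ≤ _ := by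
        apply mul_le_mul_of_nonneg_left _ (by positivity)
        exact Finset.sum_le_sum fun i _ => Finset.sum_le_sum fun j _ => hC i j t ht k

/-- the time derivative of a path -/
noncomputable def dwt (w : ℝ → R3 → R3) (t : ℝ) (x : R3) (i : Fin 3) : ℝ := derivWithin (fun s => w s x i) (Ici 0) t

lemma dwt_eq {t : ℝ} (ht : t < T) (x : R3) (i : Fin 3) : dwt w t x i = derivWithin (fun s => w s x i) (Ico 0 T) t := by
  unfold dwt
  apply derivWithin_congr_set
  filter_upwards [gt_mem_nhds ht] with s hs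
  apply propext
  exact ⟨fun h => ⟨h, hs⟩, fun h => h.1⟩

lemma dwt_sv (h : SV (Ico 0 T) w) : SV (Ico 0 T) (dwt w) := by
  refine ⟨fun i => ?_, fun t ht x j => ?_⟩
  · have h1 := (h.sm i).dtw (uniqueDiffOn_Ico 0 T)
    exact h1.congr fun t ht x => dwt_eq ht.2 x i
  · funext i
    rw [dwt_eq ht.2, dwt_eq ht.2]
    refine derivWithin_congr (fun s hs => ?_) ?_
    · exact congrFun (h.per s hs x j) i
    · exact congrFun (h.per t ht x j) i

lemma fcS_deriv (h : SV (Ico 0 T) w) {t : ℝ} (ht : t ∈ Ioo 0 T) (k : K) (i : Fin 3) :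
    HasDerivAt (fun s => fc (w s) k i) (fc (dwt w t) k i) t := by
  have h1 := fr_hasDerivAt (f := fun s y => w s y i)
    (H459R3.NS.mono_Ioo (f := fun s y => w s y i) (h.sm i) (by norm_cast)) ht k
  simp only [fc_fr]
  refine h1.congr_deriv ?_
  congr 1
  funext x
  show deriv (fun s => w s x i) t = derivWithin (fun s => w s x i) (Ici 0) t
  rw [derivWithin_of_mem_nhds (Ici_mem_nhds ht.1)]

/-- clamping of times -/
def clt (H0 t : ℝ) : ℝ := min (max t 0) H0

lemma clt_cont (H0 : ℝ) : Continuous (clt H0) := by unfold clt; fun_prop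

lemma clt_nonneg {H0 : ℝ} (hH : 0 ≤ H0) (t : ℝ) : 0 ≤ clt H0 t := le_min (le_max_right _ _) hH

lemma clt_le (H0 t : ℝ) : clt H0 t ≤ H0 := min_le_right _ _

lemma clt_eq {H0 t : ℝ} (h0 : 0 ≤ t) (h1 : t ≤ H0) : clt H0 t = t := by
  unfold clt
  rw [max_eq_left h0, min_eq_left h1]

/-- the coefficients of the path in the moving frame, from the time `τ` on -/
noncomputable def yb (m : E3) (w : ℝ → R3 → R3) (τ H0 : ℝ) : Fam := fun k t =>
  ph m (-(clt H0 t)) (nz (fc (w (τ + clt H0 t)))) k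

/-- the right side of the equation for the coefficients -/
noncomputable def gb (c : ℝ) (m : E3) (w : ℝ → R3 → R3) (τ H0 : ℝ) : Fam := fun k t i =>
  if k = 0 then 0 else (fc (dwt w (τ + clt H0 t)) k i
    + (2 * Real.pi * Complex.I * (∑ j, (k j : ℂ) * (m j : ℂ)) + ((c * sq k : ℝ) : ℂ)) * fc (w (τ + clt H0 t)) k i)
    * ex k (clt H0 t • m)

lemma yb_apply {m : E3} {τ H0 : ℝ} {k : K} (hk : k ≠ 0) (t : ℝ) (i : Fin 3) :
    yb m w τ H0 k t i = fc (w (τ + clt H0 t)) k i * ex k (clt H0 t • m) := by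
  show nz (fc (w (τ + clt H0 t))) k i * ex k (-((-(clt H0 t)) • m)) = _
  unfold nz
  rw [if_neg hk, neg_smul, neg_neg]

lemma yb_zero (m : E3) (τ H0 t : ℝ) : yb m w τ H0 0 t = 0 := by
  funext i
  simp [yb, ph, nz]

lemma gb_zero (c : ℝ) (m : E3) (τ H0 t : ℝ) : gb c m w τ H0 0 t = 0 := by
  funext i
  simp [gb]

lemma yb_sym (m : E3) (τ H0 : ℝ) : SymF (yb m w τ H0) := by
  intro t k i
  show nz _ (-k) i * ex (-k) _ = star (nz _ k i * ex k _)
  unfold nz
  by_cases hk : k = 0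
  · subst hk; simp
  · rw [if_neg hk, if_neg (neg_ne_zero.2 hk), fc_sym, ex_neg, star_mul']

lemma gb_sym (c : ℝ) (m : E3) (τ H0 : ℝ) : SymF (gb c m w τ H0) := by
  intro t k i
  by_cases hk : k = 0
  · subst hk
    rw [neg_zero]
    show gb c m w τ H0 0 t i = star (gb c m w τ H0 0 t i)
    rw [gb_zero]
    simp
  · show gb c m w τ H0 (-k) t i = star (gb c m w τ H0 k t i)
    unfold gb
    rw [if_neg hk, if_neg (neg_ne_zero.2 hk), fc_sym, fc_sym, ex_neg, sq_neg]
    simp only [star_mul', star_add, Complex.star_def, Complex.conj_ofReal, map_mul, map_sum, Complex.conj_I,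
      Pi.neg_apply, Int.cast_neg, map_ofNat, map_intCast]
    congr 2
    congr 2
    rw [show (fun j => -((k j : ℤ) : ℂ) * (m j : ℂ)) = fun j => -(((k j : ℤ) : ℂ) * (m j : ℂ)) from
      funext fun j => by ring, Finset.sum_neg_distrib]
    ring

lemma yb_cf (h : SV (Ico 0 T) w) {τ H0 : ℝ} (hτ : 0 ≤ τ) (hH : 0 < H0) (hT : τ + H0 < T) (m : E3) :
    CF (yb m w τ H0) := by
  intro k
  refine continuous_pi fun i => ?_
  by_cases hk : k = 0
  · subst hk
    simp only [yb_zero]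
    exact continuous_const
  simp only [yb_apply hk]
  have h2 : Continuous fun t : ℝ => ex k (clt H0 t • m) := (ex_cont k).comp ((clt_cont H0).smul continuous_const)
  refine Continuous.mul ?_ h2
  exact (fcS_cont h k i).comp_continuous (continuous_const.add (clt_cont H0)) fun t =>
    ⟨add_nonneg hτ (clt_nonneg hH.le t), by have := clt_le H0 t; linarith⟩

lemma gb_cf (h : SV (Ico 0 T) w) {τ H0 : ℝ} (hτ : 0 ≤ τ) (hH : 0 < H0) (hT : τ + H0 < T) (c : ℝ) (m : E3) :
    CF (gb c m w τ H0) := by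
  intro k
  refine continuous_pi fun i => ?_
  by_cases hk : k = 0
  · subst hk
    simp only [gb_zero]
    exact continuous_const
  simp only [gb, if_neg hk]
  have h2 : Continuous fun t : ℝ => ex k (clt H0 t • m) := (ex_cont k).comp ((clt_cont H0).smul continuous_const)
  have h3 : ∀ {w' : ℝ → R3 → R3}, SV (Ico 0 T) w' → Continuous fun t => fc (w' (τ + clt H0 t)) k i := fun h' =>
    (fcS_cont h' k i).comp_continuous (continuous_const.add (clt_cont H0)) fun t =>
      ⟨add_nonneg hτ (clt_nonneg hH.le t), by have := clt_le H0 t; linarith⟩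
  exact ((h3 (dwt_sv h)).add (continuous_const.mul (h3 h))).mul h2

lemma sum_km (k : K) (m : E3) : ‖∑ j, (k j : ℂ) * (m j : ℂ)‖ ≤ 3 * ‖m‖ * nk k := by
  calc ‖∑ j, (k j : ℂ) * (m j : ℂ)‖ ≤ ∑ j : Fin 3, ‖(k j : ℂ) * (m j : ℂ)‖ := norm_sum_le _ _
    _ ≤ ∑ _j : Fin 3, ‖m‖ * nk k := by
        refine Finset.sum_le_sum fun j _ => ?_
        rw [norm_mul, Complex.norm_real, Complex.norm_intCast, mul_comm]
        refine mul_le_mul (norm_le_pi_norm m j) ?_ (abs_nonneg _) (norm_nonneg _)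
        unfold nk Pool.Agent.H356R3.NS.sq
        rw [← Real.sqrt_sq_eq_abs]
        exact Real.sqrt_le_sqrt (Finset.single_le_sum (f := fun j => (k j : ℝ) ^ 2) (fun j _ => by positivity)
          (Finset.mem_univ j))
    _ = _ := by simp; ring

/-- uniform bounds for the coefficients -/
lemma path_bounds (h : SV (Ico 0 T) w) {c : ℝ} (hc : 0 ≤ c) (m : E3) {T1 : ℝ} (hT : T1 < T) (n : ℕ) :
    ∃ C : ℝ, 0 ≤ C ∧ ∀ τ H0 : ℝ, 0 ≤ τ → 0 < H0 → τ + H0 ≤ T1 → ∀ k t,
      ‖yb m w τ H0 k t‖ ≤ C * (1 / nk k) ^ n ∧ ‖gb c m w τ H0 k t‖ ≤ C * (1 / nk k) ^ n := by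
  obtain ⟨C1, hC1, h1⟩ := fcS_bound h hT n
  obtain ⟨C2, hC2, h2⟩ := fcS_bound h hT (n + 2)
  obtain ⟨C3, hC3, h3⟩ := fcS_bound (dwt_sv h) hT n
  obtain ⟨A, hA⟩ : ∃ A, A = 2 * Real.pi * (3 * ‖m‖) + c := ⟨_, rfl⟩
  have hA0 : 0 ≤ A := by rw [hA]; positivity
  refine ⟨C1 + (C3 + A * C2), by positivity, fun τ H0 hτ hH hle k t => ?_⟩
  have hI : τ + clt H0 t ∈ Icc 0 T1 := ⟨add_nonneg hτ (clt_nonneg hH.le t), by have := clt_le H0 t; linarith⟩
  by_cases hk : k = 0
  · subst hk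
    rw [yb_zero, gb_zero, norm_zero, nk_zero]
    constructor <;> positivity
  have hn := nk_pos hk
  have hn1 := one_le_nk hk
  have e1 : ∀ {X Y : ℝ}, nk k ^ n * X ≤ Y → X ≤ Y * (1 / nk k) ^ n := fun {X Y} hX => by
    rw [one_div, inv_pow, ← div_eq_mul_inv, le_div_iff₀ (by positivity)]
    linarith
  constructor
  · apply e1
    have : ‖yb m w τ H0 k t‖ = ‖fc (w (τ + clt H0 t)) k‖ := by
      show ‖ph m _ _ k‖ = _
      rw [norm_ph]
      unfold nz
      rw [if_neg hk]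
    rw [this]
    have h4 := h1 _ hI k
    have : 0 ≤ C3 + A * C2 := by positivity
    linarith
  · apply e1
    have h4 : ‖gb c m w τ H0 k t‖ ≤ ‖fc (dwt w (τ + clt H0 t)) k‖ + A * nk k ^ 2 * ‖fc (w (τ + clt H0 t)) k‖ := by
      rw [pi_norm_le_iff_of_nonneg (by positivity)]
      intro i
      unfold gb
      rw [if_neg hk, norm_mul, norm_ex, mul_one]
      refine (norm_add_le _ _).trans (add_le_add (norm_le_pi_norm _ i) ?_)
      rw [norm_mul]
      refine mul_le_mul ?_ (norm_le_pi_norm _ i) (norm_nonneg _) (by positivity)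
      refine (norm_add_le _ _).trans ?_
      rw [norm_mul, norm_mul, norm_mul, Complex.norm_I, mul_one, Complex.norm_real, Complex.norm_real,
        Real.norm_eq_abs, abs_of_pos Real.pi_pos, Complex.norm_ofNat, Real.norm_of_nonneg (by
          have := sq_nonneg' k; positivity), ← nk_sq, hA]
      have h5 := sum_km k m
      have h6 : nk k ≤ nk k ^ 2 := by nlinarith
      have h7 : 2 * Real.pi * ‖∑ j, (k j : ℂ) * (m j : ℂ)‖ ≤ 2 * Real.pi * (3 * ‖m‖ * nk k ^ 2) := by
        apply mul_le_mul_of_nonneg_left _ (by positivity)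
        exact h5.trans (mul_le_mul_of_nonneg_left h6 (by positivity))
      nlinarith
    have h5 := h2 _ hI k
    have h6 := h3 _ hI k
    calc nk k ^ n * ‖gb c m w τ H0 k t‖
        ≤ nk k ^ n * (‖fc (dwt w (τ + clt H0 t)) k‖ + A * nk k ^ 2 * ‖fc (w (τ + clt H0 t)) k‖) :=
          mul_le_mul_of_nonneg_left h4 (by positivity)
      _ = nk k ^ n * ‖fc (dwt w (τ + clt H0 t)) k‖ + A * (nk k ^ (n + 2) * ‖fc (w (τ + clt H0 t)) k‖) := by ring
      _ ≤ C3 + A * C2 := add_le_add h6 (mul_le_mul_of_nonneg_left h5 hA0)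
      _ ≤ _ := by linarith

/-- Duhamel's formula from the differential equation, locally in time. -/
lemma eqn_of_deriv_loc {c H0 : ℝ} {y G : Fam} (hy : CF y) (hG : CF G)
    (hd : ∀ k t, 0 < t → t < H0 → HasDerivAt (y k) (-(c * sq k) • y k t + G k t) t)
    (h0 : ∀ k t, t ≤ 0 → y k t = y k 0) (k : K) (t : ℝ) (htH : t ≤ H0) :
    y k t = Real.exp (-(c * sq k * max t 0)) • y k 0 + Duh c G k t := by
  rcases le_total t 0 with ht | ht
  · rw [h0 k t ht, max_eq_right ht, Duh_eq, max_eq_right ht]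
    simp
  rw [max_eq_left ht]
  have h1 : ∫ s in (0 : ℝ)..t, Real.exp (c * sq k * s) • G k s
      = Real.exp (c * sq k * t) • y k t - Real.exp (c * sq k * 0) • y k 0 := by
    refine intervalIntegral.integral_eq_sub_of_hasDerivAt_of_le (f := fun s => Real.exp (c * sq k * s) • y k s)
      ht ?_ (fun s hs => ?_) ?_
    · have := hy k
      exact (by fun_prop : Continuous fun s => Real.exp (c * sq k * s) • y k s).continuousOn
    · have h2 : HasDerivAt (fun s => Real.exp (c * sq k * s)) (Real.exp (c * sq k * s) * (c * sq k)) s := by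
        have : HasDerivAt (fun s : ℝ => c * sq k * s) (c * sq k) s := by
          simpa using (hasDerivAt_id' s).const_mul (c * sq k)
        exact this.exp
      have h3 := h2.smul (hd k s hs.1 (hs.2.trans_le htH))
      refine h3.congr_deriv ?_
      rw [smul_add, smul_smul]
      have e : Real.exp (c * sq k * s) * -(c * sq k) = -(Real.exp (c * sq k * s) * (c * sq k)) := by ring
      rw [e, neg_smul]
      abel
    · exact (cont_inner hG c k).intervalIntegrable _ _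
  rw [Duh_eq, max_eq_left ht, h1, smul_sub, smul_smul, smul_smul, ← Real.exp_add, ← Real.exp_add]
  simp

lemma yb_deriv (h : SV (Ico 0 T) w) {τ H0 : ℝ} (hτ : 0 ≤ τ) (hT : τ + H0 < T) (c : ℝ) (m : E3) (k : K) {t : ℝ}
    (ht : 0 < t) (htH : t < H0) :
    HasDerivAt (yb m w τ H0 k) (-(c * sq k) • yb m w τ H0 k t + gb c m w τ H0 k t) t := by
  rw [hasDerivAt_pi]
  intro i
  by_cases hk : k = 0
  · subst hk
    have e1 : (fun s => yb m w τ H0 0 s i) = fun _ => 0 := by funext s; rw [yb_zero]; rfl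
    rw [e1, yb_zero, gb_zero, smul_zero, add_zero]
    exact hasDerivAt_const _ _
  have h1 : HasDerivAt (fun s => fc (w (τ + s)) k i) (fc (dwt w (τ + t)) k i) t :=
    HasDerivAt.comp_const_add τ t (fcS_deriv h (t := τ + t) ⟨by linarith, by linarith⟩ k i)
  have h2 := h1.mul (ex_deriv k m t)
  have e1 : (fun s => yb m w τ H0 k s i) =ᶠ[𝓝 t] (fun s => fc (w (τ + s)) k i) * fun s : ℝ => ex k (s • m) := by
    filter_upwards [lt_mem_nhds ht, gt_mem_nhds htH] with s hs hs'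
    rw [yb_apply hk, clt_eq hs.le hs'.le]
    rfl
  refine (h2.congr_of_eventuallyEq e1).congr_deriv ?_
  rw [Pi.add_apply, Pi.smul_apply, yb_apply hk, clt_eq ht.le htH.le, Complex.real_smul]
  unfold gb
  rw [if_neg hk, clt_eq ht.le htH.le]
  push_cast
  ring

lemma yb_div (h : SV (Ico 0 T) w) (hd : ∀ t ∈ Ico 0 T, ∀ x, ∑ i, pd i (fun y => w t y i) x = 0) {τ H0 : ℝ}
    (hτ : 0 ≤ τ) (hH : 0 < H0) (hT : τ + H0 < T) (m : E3) (k : K) (t : ℝ) : dt k (yb m w τ H0 k t) = 0 := by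
  have hI : τ + clt H0 t ∈ Ico 0 T := ⟨add_nonneg hτ (clt_nonneg hH.le t), by have := clt_le H0 t; linarith⟩
  have hdv : ∑ j, (k j : ℂ) * fc (w (τ + clt H0 t)) k j = 0 := by
    simp only [fc_fr]
    exact H459R3.NS.fr_div (v := fun i y => w (τ + clt H0 t) y i) (fun i => SV.sp h hI i) (hd _ hI) k
  unfold dt
  by_cases hk : k = 0
  · subst hk; simp
  · simp only [yb_apply hk]
    have : ∀ z : ℂ, ∑ j, (k j : ℂ) * (fc (w (τ + clt H0 t)) k j * z)
        = (∑ j, (k j : ℂ) * fc (w (τ + clt H0 t)) k j) * z := by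
      intro z
      rw [Finset.sum_mul]
      exact Finset.sum_congr rfl fun j _ => by ring
    rw [this, hdv, zero_mul]

/-- Blocks of a smooth path. -/
theorem path_BF (h : SV (Ico 0 T) w) (hd : ∀ t ∈ Ico 0 T, ∀ x, ∑ i, pd i (fun y => w t y i) x = 0)
    {c : ℝ} (hc : 0 ≤ c) (m : E3) {T1 : ℝ} (hT : T1 < T) (n : ℕ) :
    ∃ C : ℝ, 0 ≤ C ∧ ∀ τ H0 : ℝ, 0 ≤ τ → 0 < H0 → τ + H0 ≤ T1 →
      BF c C n H0 (yb m w τ H0) (gb c m w τ H0) := by
  obtain ⟨C, hC, hb⟩ := path_bounds h hc m hT n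
  refine ⟨C, hC, fun τ H0 hτ hH hle => ?_⟩
  have hlt : τ + H0 < T := by linarith
  exact ⟨yb_cf h hτ hH hlt m, gb_cf h hτ hH hlt c m, yb_zero m τ H0, gb_zero c m τ H0, yb_sym m τ H0,
    gb_sym c m τ H0, fun k => yb_div h hd hτ hH hlt m k 0, fun k t => (hb τ H0 hτ hH hle k t).1,
    fun k t => (hb τ H0 hτ hH hle k t).2,
    fun k t ht => eqn_of_deriv_loc (yb_cf h hτ hH hlt m) (gb_cf h hτ hH hlt c m)
      (fun k t h1 h2 => yb_deriv h hτ hlt c m k h1 h2) (fun k t h1 => by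
        have : clt H0 t = clt H0 0 := by unfold clt; rw [max_eq_right h1, max_self]
        simp only [yb, this]) k t ht⟩

end

end Pool.Agent.H356R3.NS.X
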