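import Pool.Agent.H3NX.RegX2
import Pool.Agent.H3NS.Field

set_option autoImplicit false
set_option maxHeartbeats 4000000
set_option synthInstance.maxHeartbeats 400000

open MeasureTheory Set Filter Topology
open scoped ENNReal NNReal ContDiff

namespace Pool.Agent.H356R3.NS.X

open Pool.Agent.H3NS

/-- the velocity field of a family -/
noncomputable def fld (m : E3) (u : Fam) (t : ℝ) (x : E3) (i : Fin 3) : ℝ := m i + (GS m (cf' u i) t x).re

/-- the pressure of a family -/
noncomputable def prs (m : E3) (u : Fam) (t : ℝ) (x : E3) : ℝ := (GS m (PF u) t x).re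

lemma GS_shift (m : E3) (c : SFam) {δ t : ℝ} (ht : δ ≤ t) (x : E3) :
    GS m c t x = GS m (fun k s => c k (δ + max s 0)) (t - δ) (x - δ • m) := by
  unfold GS SF
  refine tsum_congr fun k => ?_
  show c k t * ex k (x - t • m) = c k (δ + max (t - δ) 0) * ex k (x - δ • m - (t - δ) • m)
  have e1 : x - δ • m - (t - δ) • m = x - t • m := by rw [sub_smul]; abel
  rw [e1, max_eq_left (by linarith), add_sub_cancel]

lemma fld_shift (m : E3) (u : Fam) {δ t : ℝ} (ht : δ ≤ t) (x : E3) :
    fld m u t x = fld m (shf δ u) (t - δ) (x - δ • m) := by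
  funext i
  unfold fld
  rw [GS_shift m _ ht]
  rfl

lemma prs_shift (m : E3) (u : Fam) {δ t : ℝ} (ht : δ ≤ t) (x : E3) :
    prs m u t x = prs m (shf δ u) (t - δ) (x - δ • m) := by
  unfold prs
  rw [GS_shift m _ ht]
  rfl

lemma GS_contDiffOn (m : E3) {c : SFam} (hc : ∀ δ : ℝ, 0 < δ → ∀ n, TT n (fun k s => c k (δ + max s 0))) :
    ContDiffOn ℝ ∞ (fun z : ℝ × E3 => GS m c z.1 z.2) (Ioi 0 ×ˢ univ) := by
  intro z hz
  have hz1 : 0 < z.1 := hz.1
  obtain ⟨δ, hδ⟩ : ∃ δ, δ = z.1 / 2 := ⟨_, rfl⟩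
  have hδ0 : 0 < δ := by rw [hδ]; positivity
  have hδz : δ < z.1 := by rw [hδ]; linarith
  have h1 := GS_smooth m (hc δ hδ0)
  have hA : ContDiff ℝ ∞ fun z : ℝ × E3 => ((z.1 - δ, z.2 - δ • m) : ℝ × E3) :=
    (contDiff_fst.sub contDiff_const).prodMk (contDiff_snd.sub contDiff_const)
  have h2 : ContDiffAt ℝ ∞ (fun z : ℝ × E3 => GS m (fun k s => c k (δ + max s 0)) z.1 z.2)
      ((fun z : ℝ × E3 => ((z.1 - δ, z.2 - δ • m) : ℝ × E3)) z) :=
    h1.contDiffAt (prod_mem_nhds (Ici_mem_nhds (by simpa using hδz)) univ_mem)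
  have h3 := h2.comp z hA.contDiffAt
  refine (h3.congr_of_eventuallyEq ?_).contDiffWithinAt
  have h4 : ∀ᶠ w : ℝ × E3 in 𝓝 z, δ < w.1 := (continuous_fst.tendsto z).eventually (lt_mem_nhds hδz)
  filter_upwards [h4] with w hw
  exact GS_shift m c hw.le w.2

lemma pd_sub_const (g : R3 → ℝ) (a : R3) (j : Fin 3) (x : R3) : pd j (fun y => g (y - a)) x = pd j g (x - a) := by
  unfold pd
  rw [fderiv_comp_sub]

/-- Families which are regular for positive times. -/
def RegP (c : ℝ) (χ : ℝ → ℝ) (u : Fam) : Prop := ∀ δ : ℝ, 0 < δ → RegF c (fun t => χ (δ + t)) (shf δ u)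

section
variable {ν : ℝ} {χ : ℝ → ℝ} {u : Fam}

lemma RegP.smooth (h : RegP (4 * Real.pi ^ 2 * ν) χ u) (m : E3) :
    ContDiffOn ℝ ∞ (fun z : ℝ × R3 => fld m u z.1 z.2) (Ioi 0 ×ˢ univ) := by
  rw [contDiffOn_pi]
  intro i
  refine contDiffOn_const.add (Complex.reCLM.contDiff.comp_contDiffOn (GS_contDiffOn m fun δ hδ n => ?_))
  exact (h δ hδ).TT n i

lemma RegP.smooth_p (h : RegP (4 * Real.pi ^ 2 * ν) χ u) (m : E3) :
    ContDiffOn ℝ ∞ (fun z : ℝ × R3 => prs m u z.1 z.2) (Ioi 0 ×ˢ univ) := by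
  refine Complex.reCLM.contDiff.comp_contDiffOn (GS_contDiffOn m fun δ hδ n => ?_)
  exact TT_PF (u := shf δ u) ((h δ hδ).TT n)

lemma fld_per (m : E3) (u : Fam) (t : ℝ) : Pe (fld m u t) := by
  intro x j
  funext i
  unfold fld
  rw [GS_periodic]

lemma prs_per (m : E3) (u : Fam) (t : ℝ) : Pe (prs m u t) := by
  intro x j
  unfold prs
  rw [GS_periodic]

lemma RegP.mom (h : RegP (4 * Real.pi ^ 2 * ν) χ u) (m : E3) {t : ℝ} (ht : 0 < t) (h1 : χ t = 1) (x : R3)
    (i : Fin 3) : deriv (fun s => fld m u s x i) t + ∑ j, fld m u t x j * pd j (fun y => fld m u t y i) x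
      = ν * ∑ j, pd j (pd j fun y => fld m u t y i) x - pd i (prs m u t) x := by
  obtain ⟨δ, hδ⟩ : ∃ δ, δ = t / 2 := ⟨_, rfl⟩
  have hδ0 : 0 < δ := by rw [hδ]; positivity
  have hδt : δ < t := by rw [hδ]; linarith
  have hR := h δ hδ0
  have key := physX hR m (t := t - δ) (by linarith) (by simpa using h1) (x - δ • m) i
  have e1 : deriv (fun s => fld m u s x i) t
      = derivWithin (fun s => m i + (GS m (cf' (shf δ u) i) s (x - δ • m)).re) (Ici 0) (t - δ) := by
    rw [derivWithin_of_mem_nhds (Ici_mem_nhds (by linarith)), ← deriv_comp_sub_const]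
    refine Filter.EventuallyEq.deriv_eq ?_
    filter_upwards [lt_mem_nhds hδt] with s hs
    rw [fld_shift m u hs.le]
    rfl
  have e2 : ∀ j, fld m u t x j = m j + (GS m (cf' (shf δ u) j) (t - δ) (x - δ • m)).re := by
    intro j
    rw [fld_shift m u hδt.le]
    rfl
  have e3 : (fun y => fld m u t y i) = fun y => (fun y => m i + (GS m (cf' (shf δ u) i) (t - δ) y).re) (y - δ • m) := by
    funext y
    rw [fld_shift m u hδt.le]
    rfl
  have e4 : prs m u t = fun y => (fun y => (GS m (PF (shf δ u)) (t - δ) y).re) (y - δ • m) := by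
    funext y
    rw [prs_shift m u hδt.le]
    rfl
  have e5 : ∀ j, pd j (fun y => fld m u t y i)
      = fun y => pd j (fun y => m i + (GS m (cf' (shf δ u) i) (t - δ) y).re) (y - δ • m) := by
    intro j
    funext y
    rw [e3]
    exact pd_sub_const (fun y => m i + (GS m (cf' (shf δ u) i) (t - δ) y).re) (δ • m) j y
  rw [e1]
  simp only [e2]
  have e6 : ∀ j, pd j (fun y => fld m u t y i) x
      = pd j (fun y => m i + (GS m (cf' (shf δ u) i) (t - δ) y).re) (x - δ • m) := fun j => by rw [e5]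
  have e7 : ∀ j, pd j (pd j fun y => fld m u t y i) x
      = pd j (pd j fun y => m i + (GS m (cf' (shf δ u) i) (t - δ) y).re) (x - δ • m) := fun j => by
    rw [e5]
    exact pd_sub_const (pd j fun y => m i + (GS m (cf' (shf δ u) i) (t - δ) y).re) (δ • m) j x
  have e8 : pd i (prs m u t) x = pd i (fun x => (GS m (PF (shf δ u)) (t - δ) x).re) (x - δ • m) := by
    rw [e4]
    exact pd_sub_const (fun y => (GS m (PF (shf δ u)) (t - δ) y).re) (δ • m) i x
  rw [e8]
  simp only [e6, e7]
  exact key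

lemma RegP.divf (h : RegP (4 * Real.pi ^ 2 * ν) χ u) (m : E3) {t : ℝ} (ht : 0 < t) (x : R3) :
    ∑ i, pd i (fun y => fld m u t y i) x = 0 := by
  obtain ⟨δ, hδ⟩ : ∃ δ, δ = t / 2 := ⟨_, rfl⟩
  have hδ0 : 0 < δ := by rw [hδ]; positivity
  have hδt : δ < t := by rw [hδ]; linarith
  have key := phys_divX (h δ hδ0) m (t := t - δ) (by linarith) (x - δ • m)
  rw [← key]
  refine Finset.sum_congr rfl fun i _ => ?_
  have e3 : (fun y => fld m u t y i) = fun y => (fun y => m i + (GS m (cf' (shf δ u) i) (t - δ) y).re) (y - δ • m) := by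
    funext y
    rw [fld_shift m u hδt.le]
    rfl
  rw [e3]
  exact pd_sub_const (fun y => m i + (GS m (cf' (shf δ u) i) (t - δ) y).re) (δ • m) i x

end

/-- the Fourier coefficients of the field of a family -/
noncomputable def cof (m : E3) (u : Fam) (t : ℝ) : K → C3 := fun k =>
  if k = 0 then (fun i => (m i : ℂ)) else fun i => u k t i * ex k (-(t • m))

lemma fc_fld {u : Fam} {t : ℝ} (hs : SN (at' u t)) (hsy : Sym (at' u t)) (hz : u 0 t = 0) (m : E3) :
    fc (fld m u t) = cof m u t := by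
  set d : K → C3 := cof m u t with hd
  have d0 : d 0 = fun i => (m i : ℂ) := by simp [hd, cof]
  have dk : ∀ k, k ≠ 0 → d k = fun i => u k t i * ex k (-(t • m)) := fun k hk => by
    simp only [hd, cof]
    rw [if_neg hk]
  have hsn : SN d := by
    have h1 : Summable fun k => ‖u k t‖ + (if k = 0 then ‖(fun i => (m i : ℂ) : C3)‖ else 0) := by
      refine Summable.add hs (summable_of_ne_finset_zero (s := {0}) fun k hk => ?_)
      rw [if_neg (by simpa using hk)]
    refine h1.of_nonneg_of_le (fun _ => norm_nonneg _) fun k => ?_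
    by_cases h : k = 0
    · subst h
      rw [d0, if_pos rfl]
      have := norm_nonneg (u 0 t)
      linarith
    · rw [dk k h, if_neg h, add_zero]
      rw [pi_norm_le_iff_of_nonneg (norm_nonneg _)]
      intro i
      rw [norm_mul, norm_ex, mul_one]
      exact norm_le_pi_norm _ i
  have hsy' : Sym d := by
    intro k i
    by_cases h : k = 0
    · subst h
      rw [neg_zero, d0]
      simp
    · rw [dk k h, dk (-k) (neg_ne_zero.2 h)]
      have := hsy k i
      simp only [at'] at this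
      simp only
      rw [this, ex_neg, star_mul']
  rw [← fc_tsum hsn hsy']
  congr 1
  funext x i
  have hs1 : Summable fun k => u k t i * ex k (x - t • m) := by
    refine Summable.of_norm_bounded hs fun k => ?_
    rw [norm_mul, norm_ex, mul_one]
    exact norm_le_pi_norm _ i
  have hs2 : Summable fun k : K => (if k = 0 then (m i : ℂ) else 0) := by
    refine summable_of_ne_finset_zero (s := {0}) fun k hk => ?_
    rw [if_neg (by simpa using hk)]
  have e4 : ∀ k, d k i * ex k x = (if k = 0 then (m i : ℂ) else 0) + u k t i * ex k (x - t • m) := by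
    intro k
    by_cases h : k = 0
    · subst h
      rw [hz, d0]
      simp [ex]
    · rw [dk k h, if_neg h, zero_add]
      simp only
      rw [ex_sub]
      ring
  simp only [e4]
  rw [hs2.tsum_add hs1, Complex.add_re, tsum_ite_eq]
  rfl

lemma enorm_ex (k : K) (x : E3) : ‖ex k x‖ₑ = 1 := by rw [← ofReal_norm, norm_ex, ENNReal.ofReal_one]

lemma enorm_R3_le {v : R3} {A : ℝ≥0∞} (h : ∀ i, ‖v i‖ₑ ≤ A) : ‖v‖ₑ ≤ A := by
  by_cases hA : A = ⊤
  · rw [hA]; exact le_top
  rw [← ofReal_norm]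
  refine ENNReal.ofReal_le_of_le_toReal ((pi_norm_le_iff_of_nonneg ENNReal.toReal_nonneg).2 fun i => ?_)
  have := h i
  rw [← ofReal_norm] at this
  exact (ENNReal.ofReal_le_iff_le_toReal hA).1 this

/-- sup distance of two fields with the same mean -/
lemma fld_sub_le {u v : Fam} {t : ℝ} (hu : SN (at' u t)) (hv : SN (at' v t)) (m : E3) (x : R3) :
    ‖fld m u t x - fld m v t x‖ₑ ≤ NW (Wa 0) (at' (u - v) t) := by
  refine enorm_R3_le fun i => ?_
  have hs : ∀ {w : Fam}, SN (at' w t) → Summable fun k => w k t i * ex k (x - t • m) := by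
    intro w hw
    refine Summable.of_norm_bounded hw fun k => ?_
    rw [norm_mul, norm_ex, mul_one]
    exact norm_le_pi_norm _ i
  have e1 : (fld m u t x - fld m v t x) i = (∑' k, (u k t i - v k t i) * ex k (x - t • m)).re := by
    have e2 : ∑' k, (u k t i - v k t i) * ex k (x - t • m)
        = (∑' k, u k t i * ex k (x - t • m)) - ∑' k, v k t i * ex k (x - t • m) := by
      rw [← (hs hu).tsum_sub (hs hv)]
      exact tsum_congr fun k => by ring
    rw [e2, Complex.sub_re]
    simp only [Pi.sub_apply, fld, GS, SF, cf']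
    ring
  rw [e1]
  have hd : Summable fun k => ‖(u k t i - v k t i) * ex k (x - t • m)‖ := by
    refine (((hs hu).sub (hs hv)).norm).congr fun k => ?_
    rw [sub_mul]
  calc ‖(∑' k, (u k t i - v k t i) * ex k (x - t • m)).re‖ₑ
      ≤ ‖∑' k, (u k t i - v k t i) * ex k (x - t • m)‖ₑ := by
        rw [← ofReal_norm, ← ofReal_norm]
        exact ENNReal.ofReal_le_ofReal (Complex.abs_re_le_norm _)
    _ ≤ ∑' k, ‖(u k t i - v k t i) * ex k (x - t • m)‖ₑ := enorm_tsum_le_tsum_enorm
    _ ≤ _ := by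
        rw [NW_Wa_zero]
        refine ENNReal.tsum_le_tsum fun k => ?_
        rw [enorm_mul, enorm_ex, mul_one]
        exact enorm_apply_le (at' (u - v) t k) i

end Pool.Agent.H356R3.NS.X
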