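import Pool.Agent.H3NX.CoreN
import Pool.Agent.H3NS.Link

set_option autoImplicit false
set_option maxHeartbeats 4000000
set_option synthInstance.maxHeartbeats 400000

open MeasureTheory Set Filter Topology
open scoped ENNReal NNReal ContDiff

namespace Pool.Agent.H356R3.NS.X

open Pool.Agent.H3NS

/-- phases -/
noncomputable def ph (m : E3) (t : ℝ) (x : K → C3) : K → C3 := fun k i => x k i * ex k (-(t • m))

lemma enorm_ph (m : E3) (t : ℝ) (x : K → C3) (k : K) : ‖ph m t x k‖ₑ = ‖x k‖ₑ := by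
  apply le_antisymm
  · refine enorm_pi_le fun i => ?_
    show ‖x k i * ex k (-(t • m))‖ₑ ≤ _
    rw [enorm_mul, enorm_ex, mul_one]
    exact enorm_apply_le _ i
  · refine enorm_pi_le fun i => ?_
    have h : ‖x k i‖ₑ = ‖ph m t x k i‖ₑ := by
      show _ = ‖x k i * ex k (-(t • m))‖ₑ
      rw [enorm_mul, enorm_ex, mul_one]
    rw [h]
    exact enorm_apply_le _ i

lemma ph_sub (m : E3) (t : ℝ) (x y : K → C3) : ph m t (x - y) = ph m t x - ph m t y := by
  funext k i
  simp only [ph, Pi.sub_apply]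
  ring

lemma critNorm_ph {r : ℝ} (hr : 0 ≤ r) (m : E3) (t : ℝ) (x : K → C3) : critNorm r (ph m t x) = critNorm r x :=
  le_antisymm (critNorm_mono hr fun k _ => (enorm_ph m t x k).le) (critNorm_mono hr fun k _ => (enorm_ph m t x k).ge)

lemma exists_ofReal_le {η : ℝ≥0∞} (h : 0 < η) : ∃ ε : ℝ, 0 < ε ∧ ENNReal.ofReal ε ≤ η := by
  by_cases ht : η = ⊤
  · exact ⟨1, one_pos, by rw [ht]; exact le_top⟩
  · exact ⟨η.toReal, ENNReal.toReal_pos h.ne' ht, by rw [ENNReal.ofReal_toReal ht]⟩

lemma ph_tendsto {r : ℝ} (hr : 1 ≤ r) {b : K → C3} (hb : critNorm r b ≠ ⊤) (m : E3) :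
    Tendsto (fun t => critNorm r (ph m t b - b)) (𝓝[>] 0) (𝓝 0) := by
  rw [ENNReal.tendsto_nhds_zero]
  intro η hη
  obtain ⟨ε, hε, hεη⟩ := exists_ofReal_le hη
  obtain ⟨M, hM⟩ := tru_tail (by linarith : 0 < r) hb (ε := ε / 4) (by positivity)
  -- the finite part
  have hfin : Tendsto (fun t => NW (Wm 0) (ph m t (tru M b) - tru M b)) (𝓝 0) (𝓝 0) := by
    have h0 : ∀ t, NW (Wm 0) (ph m t (tru M b) - tru M b) =
        ∑ k ∈ bx M, Wm 0 k * ‖(ph m t (tru M b) - tru M b) k‖ₑ := by
      intro t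
      unfold NW
      refine tsum_eq_sum fun k hk => ?_
      have : (ph m t (tru M b) - tru M b) k = 0 := by
        funext i
        simp [ph, tru, hk]
      rw [this, enorm_zero, mul_zero]
    simp only [h0]
    have h1 : ∀ k ∈ bx M, Tendsto (fun t => Wm 0 k * ‖(ph m t (tru M b) - tru M b) k‖ₑ) (𝓝 0) (𝓝 (Wm 0 k * 0)) := by
      intro k _
      refine ENNReal.Tendsto.const_mul ?_ (Or.inr (Wm_ne_top 0 k))
      have h2 : Continuous fun t => (ph m t (tru M b) - tru M b) k := by
        refine continuous_pi fun i => ?_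
        have := ex_cont k
        simp only [ph, Pi.sub_apply]
        fun_prop
      have h3 : (ph m 0 (tru M b) - tru M b) k = 0 := by
        funext i
        simp [ph, ex]
      have h4 := (continuous_enorm.comp h2).tendsto 0
      simpa only [Function.comp_def, h3, enorm_zero] using h4
    have h5 := tendsto_finsetSum (bx M) h1
    simpa using h5
  have hev : ∀ᶠ t in 𝓝[>] (0 : ℝ), NW (Wm 0) (ph m t (tru M b) - tru M b) < ENNReal.ofReal (ε / 4) :=
    (hfin.mono_left nhdsWithin_le_nhds).eventually (gt_mem_nhds (ENNReal.ofReal_pos.2 (by positivity)))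
  filter_upwards [hev] with t ht
  have e1 : ph m t b - b = (ph m t (b - tru M b) - (b - tru M b)) + (ph m t (tru M b) - tru M b) := by
    rw [ph_sub]; abel
  rw [e1]
  refine (critNorm_add' hr _ _).trans (le_trans ?_ hεη)
  have h1 : critNorm r (ph m t (b - tru M b) - (b - tru M b)) ≤ ENNReal.ofReal (ε / 4) + ENNReal.ofReal (ε / 4) := by
    refine (critNorm_sub' hr _ _).trans (add_le_add ?_ hM)
    rw [critNorm_ph (by linarith)]
    exact hM
  have h2 : critNorm r (ph m t (tru M b) - tru M b) ≤ ENNReal.ofReal (ε / 4) + ENNReal.ofReal (ε / 4) := by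
    refine (critNorm_le_NW hr _).trans ?_
    rw [two_mul]
    exact add_le_add ht.le ht.le
  refine (add_le_add h1 h2).trans (le_of_eq ?_)
  rw [← ENNReal.ofReal_add (by positivity) (by positivity), ← ENNReal.ofReal_add (by positivity) (by positivity)]
  congr 1
  ring

/-- The datum is attained in physical space. -/
lemma att_phys {r : ℝ} (hr : 1 ≤ r) {a b : K → C3} (hab : ∀ k, k ≠ 0 → a k = b k) (hb : critNorm r b ≠ ⊤)
    {u : Fam} (m : E3) (hsn : ∀ t, 0 < t → SN (at' u t)) (hsy : SymF u) (hz : ∀ t, u 0 t = 0)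
    (h : Tendsto (fun t => critNorm r (at' u t - b)) (𝓝[>] 0) (𝓝 0)) :
    Tendsto (fun t => critNorm r (fun k => fc (fld m u t) k - a k)) (𝓝[>] 0) (𝓝 0) := by
  have h1 := h.add (ph_tendsto hr hb m)
  rw [add_zero] at h1
  refine tendsto_of_tendsto_of_tendsto_of_le_of_le' tendsto_const_nhds h1
    (Filter.Eventually.of_forall fun t => zero_le) ?_
  filter_upwards [self_mem_nhdsWithin] with t ht
  have ht' : (0 : ℝ) < t := ht
  have e1 : critNorm r (fun k => fc (fld m u t) k - a k) = critNorm r (ph m t (at' u t) - b) := by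
    refine critNorm_congr fun k hk => ?_
    rw [fc_fld (hsn t ht') (hsy t) (hz t) m, hab k hk]
    simp only [cof, if_neg hk]
    rfl
  have e2 : ph m t (at' u t) - b = ph m t (at' u t - b) + (ph m t b - b) := by
    rw [ph_sub]; abel
  rw [e1, e2]
  refine (critNorm_add' hr _ _).trans (add_le_add ?_ le_rfl)
  rw [critNorm_ph (by linarith)]

lemma fc_fld_zero {u : Fam} {t : ℝ} (hs : SN (at' u t)) (hsy : Sym (at' u t)) (hz : u 0 t = 0) (m : E3) :
    fc (fld m u t) 0 = fun i => (m i : ℂ) := by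
  rw [fc_fld hs hsy hz m]
  simp [cof]

/-- distances of fields with the same mean -/
lemma fc_fld_sub {u v : Fam} {t : ℝ} (hu : SN (at' u t)) (hv : SN (at' v t)) (hus : Sym (at' u t))
    (hvs : Sym (at' v t)) (hu0 : u 0 t = 0) (hv0 : v 0 t = 0) (m : E3) (k : K) :
    ‖fc (fld m u t) k - fc (fld m v t) k‖ₑ = ‖at' (u - v) t k‖ₑ := by
  rw [fc_fld hu hus hu0 m, fc_fld hv hvs hv0 m]
  by_cases hk : k = 0
  · subst hk
    simp [cof, at', hu0, hv0]
  · have e : cof m u t k - cof m v t k = ph m t (at' (u - v) t) k := by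
      funext i
      simp only [cof, if_neg hk, Pi.sub_apply, ph, at']
      ring
    rw [e, enorm_ph]

end Pool.Agent.H356R3.NS.X
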