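import Pool.Agent.H3NX.Poly

set_option autoImplicit false
set_option maxHeartbeats 4000000
set_option synthInstance.maxHeartbeats 400000

open MeasureTheory Set Filter Topology
open scoped ENNReal NNReal

namespace Pool.Agent.H356R3.NS.X

lemma LN_shift_le (φ : ℝ → ℝ≥0∞) {t0 : ℝ} (h0 : 0 ≤ t0) : LN (fun t => φ (t0 + t)) ≤ LN φ := by
  rw [LN_shift]
  unfold LN
  apply ENNReal.rpow_le_rpow _ (by norm_num)
  exact lintegral_mono_set fun t ht => lt_of_le_of_lt h0 ht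

lemma LN_congr {φ ψ : ℝ → ℝ≥0∞} (h : ∀ t, 0 < t → φ t = ψ t) : LN φ = LN ψ :=
  le_antisymm (LN_mono fun t ht => (h t ht).le) (LN_mono fun t ht => (h t ht).ge)

/-- Propagation and gain of regularity for solutions. -/
lemma prop_s {c : ℝ} (hc : 0 < c) {L : ℝ} (hL : 0 ≤ L) (s : ℕ) : ∃ C : ℝ, 0 ≤ C ∧
    ∀ (χ : ℝ → ℝ), CutT χ → ∀ a : ℝ, 0 < a → ∀ (V : K → C3) (u : Fam), SolX χ c a V u → ∀ t1 : ℝ, 0 ≤ t1 →
      (∫⁻ t in Ioi t1, NW (Wa 0) (at' u t) ^ (2 : ℝ)) ^ (1 / 2 : ℝ) ≤ ENNReal.ofReal L →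
      (∫⁻ t in Ioi t1, NW (ws (s + 1)) (at' u t) ^ (2 : ℝ)) ^ (1 / 2 : ℝ)
        ≤ ENNReal.ofReal C * NW (ws s) (at' u t1) ∧
      ∀ t, t1 ≤ t → NW (ws s) (at' u t) ≤ ENNReal.ofReal C * NW (ws s) (at' u t1) := by
  have hC := C0_pos
  obtain ⟨C, hCn, hgain⟩ := gain hc (Cs := C0 * 2 ^ (s + 1)) (by positivity) hL
  refine ⟨C, hCn, fun χ hχ a ha V u hu t1 h1 hLu => ?_⟩
  have hd : Dom u := hu.dom' ha
  have hBc : CF (Bx χ u) := Bx_cont hχ hu.cf hd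
  have hE : Eqn c V (Bx χ u) u := hu.eq
  have key := hgain (ws s) (shf t1 u) (shf t1 (Bx χ u)) (at' u t1) (fun t => An u (t1 + max t 0))
    (shf_cf hu.cf) (shf_cf hBc) ((An_cont hu.cf hd).comp (by fun_prop)) (fun t => An_nonneg _ _) ?_
    (hE.shift hBc h1) ?_ ?_
  · rw [W1_ws] at key
    constructor
    · rw [← LN_shift]
      refine le_trans (le_of_eq (LN_congr fun t ht => ?_)) key.1
      rw [at'_shf u ht.le]
    · intro t ht
      have h2 := key.2 (t - t1) (by linarith)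
      rw [at'_shf u (by linarith)] at h2
      have e : t1 + (t - t1) = t := by ring
      rwa [e] at h2
  · rw [← LN_shift (fun t => NW (Wa 0) (at' u t))] at hLu
    refine le_trans (le_of_eq (LN_congr fun t ht => ?_)) hLu
    rw [NW_Wa_zero, max_eq_left ht.le, ← An_eq hd]
    rfl
  · intro σ hσ
    rw [at'_shf _ hσ.le, at'_shf _ hσ.le, at'_Bx, W1_ws, max_eq_left hσ.le, ← An_eq hd]
    refine (NW_smul_le _ (hχ.nn _) (hχ.le _) _).trans ?_
    refine (NW_Bf_ws s _).trans (le_of_eq ?_)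
    rw [NW_Wa_zero]
    rfl
  · rw [W1_ws]
    obtain ⟨C', hC', h'⟩ := NW_ws_le ha (s + 1)
    refine ne_top_of_le_ne_top (ENNReal.mul_ne_top (ENNReal.ofReal_ne_top (r := C')) hu.l2) ?_
    rw [← LN_const_mul _ (NW_meas _ hu.cf)]
    refine le_trans ?_ (LN_shift_le (fun t => ENNReal.ofReal C' * NW (Wa a) (at' u t)) h1)
    refine LN_mono fun t ht => ?_
    rw [at'_shf u ht.le]
    exact h' _

/-- Solutions are smooth for positive times, with bounds that only depend on the norm in `L²(ℓ¹)`. -/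
theorem smoothing {c : ℝ} (hc : 0 < c) {L : ℝ} (hL : 0 ≤ L) (s : ℕ) : ∀ δ δ' : ℝ, 0 ≤ δ → δ < δ' →
    ∃ B : ℝ, 0 ≤ B ∧
    ∀ (χ : ℝ → ℝ), CutT χ → ∀ a : ℝ, 0 < a → ∀ (V : K → C3) (u : Fam), SolX χ c a V u →
      LNd δ u ≤ ENNReal.ofReal L → ∀ t, δ' ≤ t → NW (ws s) (at' u t) ≤ ENNReal.ofReal B := by
  have hmono : ∀ (u : Fam) {δ t1 : ℝ}, 0 ≤ δ → δ ≤ t1 → LNd δ u ≤ ENNReal.ofReal L →
      (∫⁻ t in Ioi t1, NW (Wa 0) (at' u t) ^ (2 : ℝ)) ^ (1 / 2 : ℝ) ≤ ENNReal.ofReal L := by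
    intro u δ t1 h0 h1 h
    refine le_trans ?_ h
    unfold LNd
    rw [LN_indicator _ h0]
    apply ENNReal.rpow_le_rpow _ (by norm_num)
    exact lintegral_mono_set fun t ht => lt_of_le_of_lt h1 ht
  induction s with
  | zero =>
    intro δ δ' hδ hδδ
    obtain ⟨C, hC, hprop⟩ := prop_s hc hL 0
    refine ⟨C * ((L + 1) / Real.sqrt (δ' - δ)), by positivity, fun χ hχ a ha V u hu hLu t ht => ?_⟩
    have h1 := hmono u hδ le_rfl hLu
    obtain ⟨t1, ht1, h2⟩ := pick hδδ hL h1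
    have h3 := (hprop χ hχ a ha V u hu t1 (by linarith [ht1.1]) (hmono u hδ ht1.1.le hLu)).2 t
      (by linarith [ht1.2])
    refine h3.trans ?_
    rw [ws_zero, ENNReal.ofReal_mul hC]
    exact mul_le_mul' le_rfl h2
  | succ s ih =>
    intro δ δ' hδ hδδ
    obtain ⟨B, hB, hih⟩ := ih δ ((δ + δ') / 2) hδ (by linarith)
    obtain ⟨C, hC, hprop⟩ := prop_s hc hL s
    obtain ⟨C', hC', hprop'⟩ := prop_s hc hL (s + 1)
    refine ⟨C' * ((C * B + 1) / Real.sqrt (δ' - (δ + δ') / 2)), by positivity,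
      fun χ hχ a ha V u hu hLu t ht => ?_⟩
    have h0 := hih χ hχ a ha V u hu hLu ((δ + δ') / 2) le_rfl
    have h1 := (hprop χ hχ a ha V u hu ((δ + δ') / 2) (by linarith) (hmono u hδ (by linarith) hLu)).1
    have h2 : (∫⁻ t in Ioi ((δ + δ') / 2), NW (ws (s + 1)) (at' u t) ^ (2 : ℝ)) ^ (1 / 2 : ℝ)
        ≤ ENNReal.ofReal (C * B) := by
      rw [ENNReal.ofReal_mul hC]
      exact h1.trans (mul_le_mul' le_rfl h0)
    obtain ⟨t1, ht1, h3⟩ := pick (show (δ + δ') / 2 < δ' by linarith) (by positivity) h2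
    have h4 := (hprop' χ hχ a ha V u hu t1 (by linarith [ht1.1]) (hmono u hδ (by linarith [ht1.1]) hLu)).2 t
      (by linarith [ht1.2])
    refine h4.trans ?_
    rw [ENNReal.ofReal_mul hC']
    exact mul_le_mul' le_rfl h3

end Pool.Agent.H356R3.NS.X
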