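import Pool.Agent.H3NX.StepK

set_option maxHeartbeats 4000000
set_option synthInstance.maxHeartbeats 400000

/-!
The basic step with an explicit threshold for the frequency.
-/

open MeasureTheory Set Filter Topology
open scoped ENNReal NNReal

namespace Pool.Agent.H356R3.NS.X

open Pool.Agent.H356R3.NS.H3

variable {q cc η : K}

theorem step_coreQ {χ : ℝ → ℝ} {h : ℝ} (hχ : CutH χ h) {c D : ℝ} (hc : 0 < c) (hD1 : 1 ≤ D) :
    ∃ K1 : ℝ, 0 < K1 ∧ ∀ {q cc η : K} {γ : ℂ} {V : K → C3} {u : Fam} {a0 lm ee Mu L : ℝ} {N : ℕ},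
      0 < a0 → 0 < lm → 0 < ee → ee ≤ 1 → Geo q cc η → SolX χ c a0 V u → 0 ≤ Mu → 0 ≤ L →
      (∀ t, NW (Wa a0) (at' u t) ≤ ENNReal.ofReal Mu) →
      LN (fun t => NW (Wa a0) (at' u t)) ≤ ENNReal.ofReal L →
      L + Cv c q cc η γ lm * √(1 / (2 * c)) + 1 ≤ D → 1 ≤ N →
      K1 * (Mu * Cv c q cc η γ lm + Cv c q cc η γ lm ^ 2 + c * sq η * (‖γ‖ * ‖cK cc‖)) / ee ≤ N →
      ∃ a : ℝ, 0 < a ∧ ∃ r : Fam,
      SolX χ c a (V + (E0 q cc γ + W0 c q cc η γ lm N))
        (u + (wF c q cc η γ lm N + IF c q cc η γ N) + r) ∧ CF r ∧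
      (∀ t, NW (Wa 0) (at' (wF c q cc η γ lm N + IF c q cc η γ N) t) ≤
        ENNReal.ofReal (Cv c q cc η γ lm * N * Real.exp (-(c * N ^ 2 * max t 0)))) ∧
      (∀ t, NW (Wm 0) (at' r t) ≤ ENNReal.ofReal ee) ∧
      LN (fun t => NW (Wa 0) (at' r t)) ≤ ENNReal.ofReal ee ∧
      ∀ k, ∫⁻ t in Ioi 0, ‖(Bx χ (u + (wF c q cc η γ lm N + IF c q cc η γ N) + r) - Bx χ u) k t‖ₑ ≤
        ‖E0 q cc γ k‖ₑ + ENNReal.ofReal (nk k * ee) := by
  have hD : 0 < D := by linarith
  obtain ⟨Lam, ρ0, hp0⟩ := exists_par hc hD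
  have hρ0 := hp0.hρ
  have hC := C0_pos
  have hh := hχ.hpos
  obtain ⟨ρ1, hρ1d⟩ : ∃ ρ1, ρ1 = min ρ0 (min (1 / (2 * Real.exp (Lam * D ^ 2)))
    (1 / (4 * (Real.exp (Lam * D ^ 2) * (3 * C0 * D))))) := ⟨_, rfl⟩
  have hρ1p : 0 < ρ1 := by rw [hρ1d]; positivity
  obtain ⟨Kz, hKz⟩ : ∃ Kz, Kz = 2 * C0 + 8 * (1 + 4 / (c * h)) := ⟨_, rfl⟩
  have hKzp : 0 < Kz := by rw [hKz]; positivity
  refine ⟨Kz * (2 / (c * (Real.sqrt c * ρ1)) + 4 / c), by positivity, ?_⟩
  intro q cc η γ V u a0 lm ee Mu L N ha0 hlm hee hee1 hG hS hMu hL0 hAuM' hLN' hDD hN1 hNK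
  obtain ⟨bu, hbu, hbu'⟩ := hS.dom
  have hbu0 : ∀ k, 0 ≤ bu k := fun k => (norm_nonneg _).trans (hbu' k 0)
  have huW : WDom a0 u := ⟨bu, hbu, hbu'⟩
  have hud : Dom u := huW.dom ha0.le
  -- the norm of `u`
  set Au : ℝ → ℝ := fun t => ∑' k, om a0 k * ‖u k t‖
  have hsm : ∀ t, Summable fun k => om a0 k * ‖u k t‖ := fun t =>
    hbu.of_nonneg_of_le (fun k => mul_nonneg (om_pos _ _).le (norm_nonneg _))
      fun k => mul_le_mul_of_nonneg_left (hbu' k t) (om_pos _ _).le
  have hAuc : Continuous Au := by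
    refine continuous_tsum (fun k => ?_) hbu fun k t => ?_
    · have := hS.cf k; fun_prop
    · rw [Real.norm_of_nonneg (mul_nonneg (om_pos _ _).le (norm_nonneg _))]
      exact mul_le_mul_of_nonneg_left (hbu' k t) (om_pos _ _).le
  have hAu0 : ∀ t, 0 ≤ Au t := fun t => tsum_nonneg fun k => mul_nonneg (om_pos _ _).le (norm_nonneg _)
  have hNA : ∀ t, NW (Wa a0) (at' u t) = ENNReal.ofReal (Au t) := by
    intro t
    simp only [Au]
    rw [ENNReal.ofReal_tsum_of_nonneg (fun k => mul_nonneg (om_pos _ _).le (norm_nonneg _)) (hsm t)]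
    unfold NW Wa at'
    refine tsum_congr fun k => ?_
    rw [ENNReal.ofReal_mul (om_pos _ _).le, ofReal_norm]
  have hAuM : ∀ t, Au t ≤ Mu := fun t => by
    have := hAuM' t
    rw [hNA] at this
    exact (ENNReal.ofReal_le_ofReal_iff hMu).1 this
  have hLN : LN (fun t => ENNReal.ofReal (Au t)) ≤ ENNReal.ofReal L := by
    simp only [← hNA]
    exact hLN'
  -- constants
  set nq := ‖cK q‖
  set nc := ‖cK cc‖
  have hnq : 0 ≤ nq := norm_nonneg _
  have hnc : 0 ≤ nc := norm_nonneg _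
  have hQ := sq_pos hG.hq
  have hsη := sq_pos hG.hη
  have hsη1 := one_le_sq hG.hη
  have hpi := Real.pi_pos
  set B0 := c * sq η * ‖γ‖ / (Real.pi * sq q * lm)
  have hB0 : 0 ≤ B0 := by positivity
  set Cw := 4 * (lm * nq) + 4 * (B0 * nc)
  set CI := 4 * (‖γ‖ * nc)
  have hCw : 0 ≤ Cw := by positivity
  have hCI : 0 ≤ CI := by positivity
  have hCvd : Cv c q cc η γ lm = Cw + CI := rfl
  set CH := 8 * (c * sq η * (‖γ‖ * nc))
  have hCH : 0 ≤ CH := by positivity
  set Ct := C0 * (2 * (Mu * (Cw + CI)) + (2 * (Cw * CI) + CI * CI)) + CH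
  have hCt : 0 ≤ Ct := by positivity
  set Cu := Ct + 4 * CH / (c * h)
  have hCu : 0 ≤ Cu := by positivity
  have hCuK : Cu ≤ Kz * (Mu * Cv c q cc η γ lm + Cv c q cc η γ lm ^ 2 + c * sq η * (‖γ‖ * nc)) := by
    rw [hCvd, hKz]
    obtain ⟨X, hX⟩ : ∃ X, X = c * sq η * (‖γ‖ * nc) := ⟨_, rfl⟩
    have hX0 : 0 ≤ X := by rw [hX]; positivity
    have e1 : Cu = C0 * (2 * (Mu * (Cw + CI)) + (2 * (Cw * CI) + CI * CI)) + 8 * (1 + 4 / (c * h)) * X := by
      simp only [Cu, Ct, CH]
      rw [← hX]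
      ring
    rw [e1, ← hX]
    have p1 : 0 ≤ Mu * (Cw + CI) := by positivity
    have p2 : 0 ≤ 8 * (1 + 4 / (c * h)) * (Mu * (Cw + CI) + (Cw + CI) ^ 2) := by positivity
    have p3 : 0 ≤ C0 * X := by positivity
    have p4 : 0 ≤ C0 * (Cw ^ 2) := by positivity
    have p5 : 0 ≤ C0 * ((Cw + CI) ^ 2) := by positivity
    nlinarith
  have hKK : Kz * (2 / (c * (Real.sqrt c * ρ1)) + 4 / c) *
      (Mu * Cv c q cc η γ lm + Cv c q cc η γ lm ^ 2 + c * sq η * (‖γ‖ * nc)) / ee
      = 2 * (Kz * (Mu * Cv c q cc η γ lm + Cv c q cc η γ lm ^ 2 + c * sq η * (‖γ‖ * nc))) / (c * (Real.sqrt c * (ee * ρ1)))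
        + Kz * (Mu * Cv c q cc η γ lm + Cv c q cc η γ lm ^ 2 + c * sq η * (‖γ‖ * nc)) / (c * (ee / 4)) := by
    have hsc := Real.sqrt_pos.2 hc
    field_simp
  rw [hKK] at hNK
  obtain ⟨ρ, hρd⟩ : ∃ ρ, ρ = ee * ρ1 := ⟨_, rfl⟩
  have hρ : 0 < ρ := by rw [hρd]; positivity
  have hE : 0 < Real.exp (Lam * D ^ 2) := Real.exp_pos _
  have hE1 : 1 ≤ Real.exp (Lam * D ^ 2) := Real.one_le_exp (by have := hp0.hL; positivity)
  have hρ1a : ρ1 ≤ ρ0 := by rw [hρ1d]; exact min_le_left _ _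
  have hρ1b : Real.exp (Lam * D ^ 2) * ρ1 ≤ 1 / 2 := by
    have h1 : ρ1 ≤ 1 / (2 * Real.exp (Lam * D ^ 2)) := by
      rw [hρ1d]; exact (min_le_right _ _).trans (min_le_left _ _)
    rw [le_div_iff₀ (by positivity)] at h1
    linarith
  have hρ1c : Real.exp (Lam * D ^ 2) * (3 * C0 * D) * ρ1 ≤ 1 / 4 := by
    have h1 : ρ1 ≤ 1 / (4 * (Real.exp (Lam * D ^ 2) * (3 * C0 * D))) := by
      rw [hρ1d]; exact (min_le_right _ _).trans (min_le_right _ _)
    rw [le_div_iff₀ (by positivity)] at h1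
    linarith
  have hp : Par c D Lam ρ := hp0.mono hρ (by
    rw [hρd]
    calc ee * ρ1 ≤ 1 * ρ1 := mul_le_mul_of_nonneg_right hee1 hρ1p.le
      _ = ρ1 := one_mul _
      _ ≤ ρ0 := hρ1a)
  have hρ1 : Real.exp (Lam * D ^ 2) * ρ ≤ 1 := by
    rw [hρd]
    nlinarith
  have hρe : Real.exp (Lam * D ^ 2) * ρ ≤ ee / 2 := by
    rw [hρd]
    nlinarith
  have hρe2 : Real.exp (Lam * D ^ 2) * (3 * C0 * D) * ρ ≤ ee / 4 := by
    rw [hρd]
    nlinarith
  have hNr : (1 : ℝ) ≤ N := by exact_mod_cast hN1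
  have hNp : (0 : ℝ) < N := by linarith
  have hYp : 0 ≤ Kz * (Mu * Cv c q cc η γ lm + Cv c q cc η γ lm ^ 2 + c * sq η * (‖γ‖ * nc)) := hCu.trans hCuK
  have hNC : Cu / (c * (Real.sqrt c * (ρ / 2))) ≤ N := by
    refine le_trans ?_ hNK
    have h1 : 0 ≤ Kz * (Mu * Cv c q cc η γ lm + Cv c q cc η γ lm ^ 2 + c * sq η * (‖γ‖ * nc)) / (c * (ee / 4)) := by
      positivity
    have h2 : Cu / (c * (Real.sqrt c * (ρ / 2))) ≤
        2 * (Kz * (Mu * Cv c q cc η γ lm + Cv c q cc η γ lm ^ 2 + c * sq η * (‖γ‖ * nc))) / (c * (Real.sqrt c * (ee * ρ1))) := by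
      rw [← hρd]
      have e1 : Cu / (c * (Real.sqrt c * (ρ / 2))) = 2 * Cu / (c * (Real.sqrt c * ρ)) := by
        have hsc := Real.sqrt_pos.2 hc
        field_simp
      rw [e1]
      apply div_le_div_of_nonneg_right _ (by positivity)
      linarith
    linarith
  have hNC2 : Cu / (c * (ee / 4)) ≤ N := by
    refine le_trans ?_ hNK
    have h1 : 0 ≤ 2 * (Kz * (Mu * Cv c q cc η γ lm + Cv c q cc η γ lm ^ 2 + c * sq η * (‖γ‖ * nc))) / (c * (Real.sqrt c * (ee * ρ1))) := by
      positivity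
    have h2 : Cu / (c * (ee / 4)) ≤
        Kz * (Mu * Cv c q cc η γ lm + Cv c q cc η γ lm ^ 2 + c * sq η * (‖γ‖ * nc)) / (c * (ee / 4)) :=
      div_le_div_of_nonneg_right hCuK (by positivity)
    linarith
  set k1 : K := (N : ℤ) • η with hk1
  set σ := c * N ^ 2
  have hσ : 0 < σ := by positivity
  set T := l1 k1 + l1 (k1 + q) + l1 q + l1 (k1 + (k1 + q)) + 1
  have t1 := l1_nonneg k1
  have t2 := l1_nonneg (k1 + q)
  have t3 := l1_nonneg q
  have t4 := l1_nonneg (k1 + (k1 + q))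
  have hT : 0 < T := by positivity
  set a := min a0 (Real.log 2 / T)
  have hlog : 0 < Real.log 2 := Real.log_pos (by norm_num)
  have ha : 0 < a := lt_min ha0 (by positivity)
  have haa : a ≤ a0 := min_le_left _ _
  have haT : a ≤ Real.log 2 / T := min_le_right _ _
  have om2 : ∀ κ : K, l1 κ ≤ T → Wa a κ ≤ ENNReal.ofReal 2 ∧ Wa a (-κ) ≤ ENNReal.ofReal 2 := by
    intro κ hκ
    refine ⟨ENNReal.ofReal_le_ofReal (Wa_le_two hT ha.le haT hκ), ENNReal.ofReal_le_ofReal ?_⟩
    exact Wa_le_two hT ha.le haT (by rw [l1_neg]; exact hκ)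
  -- rates
  have s1 : sq k1 = N ^ 2 * sq η := sq_k1 N
  have s2 : sq (k1 + q) = N ^ 2 * sq η + sq q := sq_k2 hG N
  have s12 : sq (k1 + (k1 + q)) = 4 * (N ^ 2 * sq η) + sq q := sq_k12 hG N
  have hN2 : (0 : ℝ) < (N : ℝ) ^ 2 := by positivity
  have r1 : σ ≤ c * sq k1 := by
    rw [s1]; exact mul_le_mul_of_nonneg_left (le_mul_of_one_le_right hN2.le hsη1) hc.le
  have r2 : σ ≤ c * sq (k1 + q) := by
    rw [s2]
    exact mul_le_mul_of_nonneg_left ((le_mul_of_one_le_right hN2.le hsη1).trans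
      (le_add_of_nonneg_right hQ.le)) hc.le
  have rμ : σ ≤ muF c q η N := by
    have h0 : 0 ≤ c * sq (k1 + q) := mul_nonneg hc.le (sq_nonneg' _)
    unfold muF; rw [← hk1]; linarith
  have hbe : ‖be c q η γ lm N‖ = N * B0 := norm_be hc hlm hG γ hN1
  set e : ℝ → ℝ := fun t => Real.exp (-(σ * max t 0))
  have he0 : ∀ t, 0 ≤ e t := fun t => (Real.exp_pos _).le
  have he1 : ∀ t, e t ≤ 1 := by
    intro t
    simp only [e]; rw [Real.exp_le_one_iff]
    have : 0 ≤ σ * max t 0 := mul_nonneg hσ.le (le_max_right _ _)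
    linarith
  -- bounds for the wave and the low mode
  have hw : ∀ t, NW (Wa a) (at' (wF c q cc η γ lm N) t) ≤ ENNReal.ofReal (Cw * N * e t) := by
    intro t
    have e1 : at' (wF c q cc η γ lm N) t =
      at' (Mo k1 (c * sq k1) (am lm N • cK q) + Mo (-k1) (c * sq k1) (am lm N • cK q)) t
      + at' (Mo (k1 + q) (c * sq (k1 + q)) (be c q η γ lm N • cK cc)
        + Mo (-(k1 + q)) (c * sq (k1 + q)) (star (be c q η γ lm N) • cK cc)) t := rfl
    rw [e1]
    refine (NW_add_le _ _ _).trans ?_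
    have nv : ‖am lm N • cK q‖ ≤ N * (lm * nq) := by rw [norm_smul, norm_am hlm, mul_assoc]
    have nb : ‖be c q η γ lm N • cK cc‖ ≤ N * B0 * nc := by rw [norm_smul, hbe]
    have nb' : ‖star (be c q η γ lm N) • cK cc‖ ≤ N * B0 * nc := by rw [norm_smul, norm_star, hbe]
    have h1 := NW_pair_le (Wa a) (κ := k1) r1 _ _ t nv nv (by norm_num)
      (om2 k1 (by simp only [T]; linarith)).1 (om2 k1 (by simp only [T]; linarith)).2
    have h2 := NW_pair_le (Wa a) (κ := k1 + q) r2 _ _ t nb nb' (by norm_num)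
      (om2 (k1 + q) (by simp only [T]; linarith)).1 (om2 (k1 + q) (by simp only [T]; linarith)).2
    refine (add_le_add h1 h2).trans ?_
    rw [← ENNReal.ofReal_add (by positivity) (by positivity)]
    apply ENNReal.ofReal_le_ofReal
    simp only [Cw, e]
    apply le_of_eq; ring
  have hI : ∀ t, NW (Wa a) (at' (IF c q cc η γ N) t) ≤ ENNReal.ofReal (CI * e t) := by
    intro t
    have nv : ‖γ • cK cc‖ ≤ ‖γ‖ * nc := by rw [norm_smul]
    have nv' : ‖star γ • cK cc‖ ≤ ‖γ‖ * nc := by rw [norm_smul, norm_star]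
    have h1 := NW_pair_le (Wa a) (κ := q) rμ _ _ t nv nv' (by norm_num)
      (om2 q (by simp only [T]; linarith)).1 (om2 q (by simp only [T]; linarith)).2
    refine h1.trans (ENNReal.ofReal_le_ofReal ?_)
    simp only [CI, e]
    apply le_of_eq; ring
  have hHF : ∀ t, NW (Wm a) (at' (pF c q cc η γ N (k1 + (k1 + q))) t) ≤ ENNReal.ofReal (CH * N * e t) := by
    intro t
    have hnk : (N : ℝ) ≤ nk (k1 + (k1 + q)) := by
      unfold nk
      apply Real.le_sqrt_of_sq_le
      rw [s12]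
      have h1 := le_mul_of_one_le_right hN2.le hsη1
      have h2 : (0 : ℝ) ≤ N ^ 2 * sq η := hN2.le.trans h1
      calc (N : ℝ) ^ 2 ≤ N ^ 2 * sq η := h1
        _ ≤ 4 * (N ^ 2 * sq η) := le_mul_of_one_le_left h2 (by norm_num)
        _ ≤ _ := le_add_of_nonneg_right hQ.le
    have hm0 : (0 : ℝ) ≤ 2 * c * N ^ 2 * sq η := by positivity
    have nv : ‖(-((2 * c * N ^ 2 * sq η : ℝ) : ℂ) * γ) • cK cc‖ ≤ 2 * c * N ^ 2 * sq η * ‖γ‖ * nc := by
      rw [norm_smul, norm_mul, norm_neg, Complex.norm_real, Real.norm_of_nonneg hm0]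
    have nv' : ‖star (-((2 * c * N ^ 2 * sq η : ℝ) : ℂ) * γ) • cK cc‖ ≤ 2 * c * N ^ 2 * sq η * ‖γ‖ * nc := by
      rw [norm_smul, norm_star, norm_mul, norm_neg, Complex.norm_real, Real.norm_of_nonneg hm0]
    have hW : ∀ κ : K, l1 κ ≤ T → (N : ℝ) ≤ nk κ → Wm a κ ≤ ENNReal.ofReal (2 / N) := by
      intro κ h1 h2
      apply ENNReal.ofReal_le_ofReal
      exact div_le_div₀ (by norm_num) (Wa_le_two hT ha.le haT h1) hNp h2
    have h1 := NW_pair_le (Wm a) (κ := k1 + (k1 + q)) rμ _ _ t nv nv' (wm := 2 / N) (by positivity)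
      (hW _ (by simp only [T]; linarith) hnk)
      (hW _ (by rw [l1_neg]; simp only [T]; linarith) (by rw [nk_neg]; exact hnk))
    refine h1.trans (ENNReal.ofReal_le_ofReal ?_)
    simp only [CH, e]
    apply le_of_eq; field_simp; ring
  -- the approximate solution
  set U : Fam := u + (wF c q cc η γ lm N + IF c q cc η γ N)
  set FE : Fam := Bx χ U - Bx χ u - pF c q cc η γ N q
  have hwc : CF (wF c q cc η γ lm N) := fun k =>
    ((Mo_cf _ _ _ k).add (Mo_cf _ _ _ k)).add ((Mo_cf _ _ _ k).add (Mo_cf _ _ _ k))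
  have hIc : CF (IF c q cc η γ N) := fun k => (Mo_cf _ _ _ k).add (Mo_cf _ _ _ k)
  have hpc : ∀ κ, CF (pF c q cc η γ N κ) := fun κ k => (Mo_cf _ _ _ k).add (Mo_cf _ _ _ k)
  have hμ0 : 0 ≤ muF c q η N := hσ.le.trans rμ
  have hwD : WDom a0 (wF c q cc η γ lm N) :=
    WDom.add (WDom.add (Mo_dom _ (hσ.le.trans r1) _ _) (Mo_dom _ (hσ.le.trans r1) _ _))
      (WDom.add (Mo_dom _ (hσ.le.trans r2) _ _) (Mo_dom _ (hσ.le.trans r2) _ _))
  have hID : WDom a0 (IF c q cc η γ N) := WDom.add (Mo_dom _ hμ0 _ _) (Mo_dom _ hμ0 _ _)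
  have hUc : CF U := fun k => (hS.cf k).add ((hwc k).add (hIc k))
  have hUW : WDom a0 U := huW.add (hwD.add hID)
  have hUd : Dom U := hUW.dom ha0.le
  have hws : SymF (wF c q cc η γ lm N) := by
    have h1 := sym_pair k1 (c * sq k1) (am lm N) q
    have h2 := sym_pair (k1 + q) (c * sq (k1 + q)) (be c q η γ lm N) cc
    have e3 : star (am lm N) = am lm N := star_am lm N
    rw [e3] at h1
    exact fun t => (h1 t).add (h2 t)
  have hIs : SymF (IF c q cc η γ N) := sym_pair q _ γ cc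
  have hps : ∀ κ, SymF (pF c q cc η γ N κ) := fun κ => sym_pair κ _ _ cc
  have hUs : SymF U := fun t => (hS.sym t).add ((hws t).add (hIs t))
  have hFEc : CF FE := fun k => ((Bx_cont hχ.toCutT hUc hUd k).sub (Bx_cont hχ.toCutT hS.cf hud k)).sub (hpc q k)
  have hFEs : SymF FE := fun t => ((Bx_sym χ hUs t).sub (Bx_sym χ hS.sym t)).sub (hps q t)
  have k1ne : k1 ≠ 0 := ne_zero_of_sq (by rw [s1]; positivity)
  have k2ne : k1 + q ≠ 0 := ne_zero_of_sq (by rw [s2]; positivity)
  have Mo0 : ∀ {κ : K} (_ : κ ≠ 0) (μ : ℝ) (v : C3) (t : ℝ), Mo κ μ v 0 t = 0 := by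
    intro κ hκ μ v t; unfold Mo; rw [if_neg (Ne.symm hκ)]
  have hp0 : ∀ t, pF c q cc η γ N q 0 t = 0 := by
    intro t
    show Mo q _ _ 0 t + Mo (-q) _ _ 0 t = 0
    rw [Mo0 hG.hq, Mo0 (neg_ne_zero.2 hG.hq), add_zero]
  have hw0 : ∀ t, wF c q cc η γ lm N 0 t = 0 := by
    intro t
    show (Mo k1 _ _ 0 t + Mo (-k1) _ _ 0 t) + (Mo (k1 + q) _ _ 0 t + Mo (-(k1 + q)) _ _ 0 t) = 0
    rw [Mo0 k1ne, Mo0 (neg_ne_zero.2 k1ne), Mo0 k2ne, Mo0 (neg_ne_zero.2 k2ne)]; simp
  have hI0 : ∀ t, IF c q cc η γ N 0 t = 0 := by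
    intro t
    show Mo q _ _ 0 t + Mo (-q) _ _ 0 t = 0
    rw [Mo0 hG.hq, Mo0 (neg_ne_zero.2 hG.hq), add_zero]
  have hFE0 : ∀ t, FE 0 t = 0 := by
    intro t
    simp only [FE, Pi.sub_apply, hp0, Bx, Bt, Bf_zero, sub_self, smul_zero]
  -- the majorant
  set A : ℝ → ℝ := fun t => Au t + (Cw + CI) * N * e t
  have hec : Continuous e := by simp only [e]; fun_prop
  have hAc : Continuous A := by simp only [A]; fun_prop
  have hA0 : ∀ t, 0 ≤ A t := fun t => by
    have := hAu0 t; have := he0 t; simp only [A]; positivity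
  have hAi : LN (fun t => ENNReal.ofReal (A t)) ≤ ENNReal.ofReal D := by
    have h1 : ∀ t, ENNReal.ofReal (A t) = ENNReal.ofReal (Au t) +
        ENNReal.ofReal ((Cw + CI) * N) * ENNReal.ofReal (e t) := by
      intro t
      rw [← ENNReal.ofReal_mul (by positivity), ← ENNReal.ofReal_add (hAu0 t)
        (by have := he0 t; positivity)]
    simp only [h1]
    refine (LN_add_le (by fun_prop) (by fun_prop)).trans ?_
    refine (add_le_add hLN le_rfl).trans ?_
    rw [LN_const_mul _ (by fun_prop), LN_e hσ, ← ENNReal.ofReal_mul (by positivity),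
      ← ENNReal.ofReal_add hL0 (by positivity)]
    apply ENNReal.ofReal_le_ofReal
    have h2 : (N : ℝ) * Real.sqrt (1 / (2 * σ)) = Real.sqrt (1 / (2 * c)) := by
      have h3 : (1 : ℝ) / (2 * σ) = 1 / (2 * c) / N ^ 2 := by simp only [σ]; field_simp
      rw [h3, Real.sqrt_div (by positivity), Real.sqrt_sq hNp.le]
      field_simp
    rw [mul_assoc, h2]
    rw [hCvd] at hDD
    linarith
  have hUA : ∀ t, 0 < t → NW (Wa a) (at' U t) ≤ ENNReal.ofReal (A t) := by
    intro t _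
    have e1 : at' U t = at' u t + (at' (wF c q cc η γ lm N) t + at' (IF c q cc η γ N) t) := rfl
    have hx : NW (Wa a) (at' u t) ≤ ENNReal.ofReal (Au t) := by
      rw [← hNA]; exact NW_mono (fun k => Wa_mono haa k) _
    rw [e1]
    refine (NW_add_le _ _ _).trans ((add_le_add hx ((NW_add_le _ _ _).trans
      (add_le_add (hw t) (hI t)))).trans ?_)
    · have h0 := he0 t
      rw [← ENNReal.ofReal_add (by positivity) (by positivity), ← ENNReal.ofReal_add (hAu0 t) (by positivity)]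
      apply ENNReal.ofReal_le_ofReal
      simp only [A]
      have h3 : CI * e t ≤ CI * N * e t := by
        calc CI * e t ≤ N * (CI * e t) := le_mul_of_one_le_left (mul_nonneg hCI (he0 t)) hNr
          _ = _ := by ring
      linarith
  -- the error
  set η' := Cu / (c * N)
  have hη' : 0 ≤ η' := by positivity
  have hη2 : η' ^ 2 ≤ c * (ρ / 2) ^ 2 := by
    have h1 : η' ≤ Real.sqrt c * (ρ / 2) := by
      have hsc := Real.sqrt_pos.2 hc
      simp only [η']
      rw [div_le_iff₀ (by positivity)]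
      rw [div_le_iff₀ (by positivity)] at hNC
      linarith
    calc η' ^ 2 ≤ (Real.sqrt c * (ρ / 2)) ^ 2 := by gcongr
      _ = _ := by rw [mul_pow, Real.sq_sqrt hc.le]
  have hη3 : η' ≤ ee / 4 := by
    simp only [η']
    rw [div_le_iff₀ (by positivity)]
    rw [div_le_iff₀ (by positivity)] at hNC2
    linarith
  have hPq : ∀ t, NW (Wm a) (at' (pF c q cc η γ N q) t) ≤ ENNReal.ofReal (CH * N ^ 2 * e t) := by
    intro t
    have hm0 : (0 : ℝ) ≤ 2 * c * N ^ 2 * sq η := by positivity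
    have nv : ‖(-((2 * c * N ^ 2 * sq η : ℝ) : ℂ) * γ) • cK cc‖ ≤ 2 * c * N ^ 2 * sq η * ‖γ‖ * nc := by
      rw [norm_smul, norm_mul, norm_neg, Complex.norm_real, Real.norm_of_nonneg hm0]
    have nv' : ‖star (-((2 * c * N ^ 2 * sq η : ℝ) : ℂ) * γ) • cK cc‖ ≤ 2 * c * N ^ 2 * sq η * ‖γ‖ * nc := by
      rw [norm_smul, norm_star, norm_mul, norm_neg, Complex.norm_real, Real.norm_of_nonneg hm0]
    have hW : ∀ κ : K, l1 κ ≤ T → 1 ≤ nk κ → Wm a κ ≤ ENNReal.ofReal 2 := by
      intro κ h1 h2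
      apply ENNReal.ofReal_le_ofReal
      have h3 := Wa_le_two hT ha.le haT h1
      have h4 : 0 < nk κ := by linarith
      rw [div_le_iff₀ h4]
      have := om_pos a κ
      nlinarith
    have hq1 := one_le_nk hG.hq
    have h1 := NW_pair_le (Wm a) (κ := q) rμ _ _ t nv nv' (wm := 2) (by positivity)
      (hW _ (by simp only [T]; linarith) hq1)
      (hW _ (by rw [l1_neg]; simp only [T]; linarith) (by rw [nk_neg]; exact hq1))
    refine h1.trans (ENNReal.ofReal_le_ofReal ?_)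
    simp only [CH, e]
    apply le_of_eq; ring
  have hcut : ∀ t, (1 - χ t) * e t ≤ Real.exp (-(σ * h / 2)) * Real.exp (-(σ / 2 * max t 0)) := by
    intro t
    by_cases ht : t ≤ h
    · rw [hχ.one t ht, sub_self, zero_mul]
      positivity
    · push Not at ht
      have h1 := hχ.nn t
      have h2 := hχ.le t
      rw [← Real.exp_add]
      refine (mul_le_of_le_one_left (he0 t) (by linarith)).trans ?_
      apply Real.exp_le_exp.2
      rw [max_eq_left (by linarith)]
      nlinarith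
  have hFEb : ∀ t, NW (Wm a) (at' FE t) ≤ ENNReal.ofReal (Ct * N * e t) +
      ENNReal.ofReal (CH * N ^ 2 * (Real.exp (-(σ * h / 2)) * Real.exp (-(σ / 2 * max t 0)))) := by
    intro t
    set x := at' u t
    set w := at' (wF c q cc η γ lm N) t
    set I := at' (IF c q cc η γ N) t
    have nx : SN x := hud.sn t
    have nw : SN w := (hwD.dom ha0.le).sn t
    have nI : SN I := (hID.dom ha0.le).sn t
    have eF : at' FE t = χ t • ((Bf x (w + I) + Bf (w + I) x) + ((Bf w I + Bf I w) + Bf I I)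
        + at' (pF c q cc η γ N (k1 + (k1 + q))) t) - (1 - χ t) • at' (pF c q cc η γ N q) t := by
      have e1 : at' FE t = χ t • Bf (x + (w + I)) (x + (w + I)) - χ t • Bf x x - at' (pF c q cc η γ N q) t := rfl
      have e2 := BwF (c := c) hlm hG γ hN1 t
      rw [e1, Bf_add_left nx (nw.add nI) (nx.add (nw.add nI)), Bf_add_right nx nx (nw.add nI),
        Bf_add_right (nw.add nI) nx (nw.add nI), Bf_add_left nw nI (nw.add nI), Bf_add_right nw nw nI,
        Bf_add_right nI nw nI]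
      rw [show Bf w w = _ from e2]
      simp only [smul_add, sub_smul, one_smul]
      abel
    rw [eF]
    refine (NW_sub_le _ _ _).trans (add_le_add ((NW_smul_le _ (hχ.nn t) (hχ.le t) _).trans ?_) ?_)
    swap
    · have h1 : 0 ≤ 1 - χ t := by linarith [hχ.le t]
      have e3 : NW (Wm a) ((1 - χ t) • at' (pF c q cc η γ N q) t)
          = ENNReal.ofReal (1 - χ t) * NW (Wm a) (at' (pF c q cc η γ N q) t) := by
        unfold NW
        rw [← ENNReal.tsum_mul_left]
        refine tsum_congr fun k => ?_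
        rw [Pi.smul_apply, enorm_smul, Real.enorm_of_nonneg h1]
        ring
      rw [e3]
      refine (mul_le_mul' le_rfl (hPq t)).trans ?_
      rw [← ENNReal.ofReal_mul h1]
      apply ENNReal.ofReal_le_ofReal
      have h2 := mul_le_mul_of_nonneg_left (hcut t) (show 0 ≤ CH * N ^ 2 by positivity)
      calc _ = CH * N ^ 2 * ((1 - χ t) * e t) := by ring
        _ ≤ _ := h2
    have hx : NW (Wa a) x ≤ ENNReal.ofReal Mu := by
      refine (NW_mono (fun k => Wa_mono haa k) _).trans ?_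
      rw [hNA]; exact ENNReal.ofReal_le_ofReal (hAuM t)
    have h0 := he0 t
    have h1 := he1 t
    have hwI : NW (Wa a) (w + I) ≤ ENNReal.ofReal ((Cw + CI) * N * e t) := by
      refine (NW_add_le _ _ _).trans ((add_le_add (hw t) (hI t)).trans ?_)
      rw [← ENNReal.ofReal_add (by positivity) (by positivity)]
      apply ENNReal.ofReal_le_ofReal
      have h3 : CI * e t ≤ CI * N * e t := by
        calc CI * e t ≤ N * (CI * e t) := le_mul_of_one_le_left (mul_nonneg hCI (he0 t)) hNr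
          _ = _ := by ring
      linarith
    have b1 : NW (Wm a) (Bf x (w + I) + Bf (w + I) x)
        ≤ ENNReal.ofReal (C0 * (2 * (Mu * (Cw + CI))) * N * e t) := by
      refine (NW_add_le _ _ _).trans ((add_le_add (NW_Bf_le ha.le _ _) (NW_Bf_le ha.le _ _)).trans ?_)
      calc _ ≤ ENNReal.ofReal C0 * (ENNReal.ofReal Mu * ENNReal.ofReal ((Cw + CI) * N * e t))
            + ENNReal.ofReal C0 * (ENNReal.ofReal ((Cw + CI) * N * e t) * ENNReal.ofReal Mu) := by
            gcongr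
        _ = _ := by
            rw [ofR _ hC.le hMu, ofR _ hC.le (by positivity),
              ← ENNReal.ofReal_add (by positivity) (by positivity)]
            congr 1; ring
    have b2 : NW (Wm a) ((Bf w I + Bf I w) + Bf I I)
        ≤ ENNReal.ofReal (C0 * (2 * (Cw * CI) + CI * CI) * N * e t) := by
      refine (NW_add_le _ _ _).trans ((add_le_add ((NW_add_le _ _ _).trans
        (add_le_add (NW_Bf_le ha.le _ _) (NW_Bf_le ha.le _ _))) (NW_Bf_le ha.le _ _)).trans ?_)
      calc _ ≤ ENNReal.ofReal C0 * (ENNReal.ofReal (Cw * N * e t) * ENNReal.ofReal (CI * e t))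
            + ENNReal.ofReal C0 * (ENNReal.ofReal (CI * e t) * ENNReal.ofReal (Cw * N * e t))
            + ENNReal.ofReal C0 * (ENNReal.ofReal (CI * e t) * ENNReal.ofReal (CI * e t)) := by
            gcongr
            · exact hw t
            · exact hI t
            · exact hI t
            · exact hw t
            · exact hI t
            · exact hI t
        _ ≤ _ := by
            rw [ofR _ hC.le (by positivity), ofR _ hC.le (by positivity), ofR _ hC.le (by positivity),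
              ← ENNReal.ofReal_add (by positivity) (by positivity),
              ← ENNReal.ofReal_add (by positivity) (by positivity)]
            apply ENNReal.ofReal_le_ofReal
            have e2 : e t * e t ≤ e t := mul_le_of_le_one_left h0 h1
            have e3 : e t * e t ≤ N * e t := e2.trans (le_mul_of_one_le_left h0 hNr)
            have e4 : N * (e t * e t) ≤ N * e t := mul_le_mul_of_nonneg_left e2 hNp.le
            have p1 : 0 ≤ C0 * (Cw * CI) := mul_nonneg hC.le (mul_nonneg hCw hCI)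
            have p2 : 0 ≤ C0 * (CI * CI) := mul_nonneg hC.le (mul_nonneg hCI hCI)
            calc _ = 2 * (C0 * (Cw * CI) * (N * (e t * e t))) + C0 * (CI * CI) * (e t * e t) := by ring
              _ ≤ 2 * (C0 * (Cw * CI) * (N * e t)) + C0 * (CI * CI) * (N * e t) :=
                  add_le_add (mul_le_mul_of_nonneg_left (mul_le_mul_of_nonneg_left e4 p1) zero_le_two)
                    (mul_le_mul_of_nonneg_left e3 p2)
              _ = _ := by ring
    refine (NW_add_le _ _ _).trans ((add_le_add ((NW_add_le _ _ _).trans (add_le_add b1 b2)) (hHF t)).trans ?_)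
    rw [← ENNReal.ofReal_add (by positivity) (by positivity), ← ENNReal.ofReal_add (by positivity) (by positivity)]
    apply ENNReal.ofReal_le_ofReal
    simp only [Ct]
    apply le_of_eq; ring
  have hFEi : ∫⁻ s in Ioi 0, NW (Wm a) (at' FE s) ≤ ENNReal.ofReal η' := by
    have hσ2 : 0 < σ / 2 := by positivity
    calc _ ≤ ∫⁻ s in Ioi 0, (ENNReal.ofReal (Ct * N) * ENNReal.ofReal (e s) +
          ENNReal.ofReal (CH * N ^ 2 * Real.exp (-(σ * h / 2))) * ENNReal.ofReal (Real.exp (-(σ / 2 * max s 0)))) := by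
          refine lintegral_mono fun s => ?_
          rw [← ENNReal.ofReal_mul (by positivity), ← ENNReal.ofReal_mul (by positivity), mul_assoc (CH * N ^ 2)]
          exact hFEb s
      _ = ENNReal.ofReal (Ct * N) * ENNReal.ofReal (1 / σ) +
          ENNReal.ofReal (CH * N ^ 2 * Real.exp (-(σ * h / 2))) * ENNReal.ofReal (1 / (σ / 2)) := by
          rw [lintegral_add_left (by fun_prop), lintegral_const_mul _ (by fun_prop),
            lintegral_const_mul _ (by fun_prop), lint_e hσ, lint_e hσ2]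
      _ ≤ _ := by
          rw [← ENNReal.ofReal_mul (by positivity), ← ENNReal.ofReal_mul (by positivity),
            ← ENNReal.ofReal_add (by positivity) (by positivity)]
          apply ENNReal.ofReal_le_ofReal
          have h1 : Real.exp (-(σ * h / 2)) ≤ 2 / (σ * h) := by
            have h2 : σ * h / 2 + 1 ≤ Real.exp (σ * h / 2) := Real.add_one_le_exp _
            rw [Real.exp_neg, inv_le_comm₀ (Real.exp_pos _) (by positivity), inv_div]
            linarith
          have h3 : CH * N ^ 2 * Real.exp (-(σ * h / 2)) * (1 / (σ / 2)) ≤ 4 * CH / (c * h) / (c * N) := by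
            calc CH * N ^ 2 * Real.exp (-(σ * h / 2)) * (1 / (σ / 2))
                ≤ CH * N ^ 2 * (2 / (σ * h)) * (1 / (σ / 2)) := by gcongr
              _ = 4 * CH / (c * h) / (c * N) * (1 / N) := by
                  simp only [σ]; field_simp; ring
              _ ≤ 4 * CH / (c * h) / (c * N) * 1 := by
                  apply mul_le_mul_of_nonneg_left _ (by positivity)
                  rw [div_le_one hNp]; exact hNr
              _ = _ := mul_one _
          have h4 : Ct * N * (1 / σ) = Ct / (c * N) := by simp only [σ]; field_simp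
          have h5 : η' = Ct / (c * N) + 4 * CH / (c * h) / (c * N) := add_div _ _ _
          rw [h4, h5]
          exact add_le_add le_rfl h3
  obtain ⟨r, hrc, hr0, hrM, hrL, hrfix, hrs⟩ := existX hχ.toCutT hp ha hAc hA0 hAi hUc hUd hUs hUA hFEc
    hFEs hFE0 hη' hη2 hFEi
  set M := 2 * (η' + Real.exp (Lam * D ^ 2) * (3 * C0 * D) * ρ)
  have hM : 0 ≤ M := by positivity
  -- the new solution
  have hrW : WDom (a / 2) r := by
    refine ⟨fun k => M * (nk k * Real.exp (-(a * l1 k))), ?_, fun k t =>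
      norm_le_of_NWm hM (hr0 t) (hrM t) k⟩
    refine ((summ_nk (half_pos ha)).mul_left M).congr fun k => ?_
    unfold om
    have : Real.exp (-(a / 2 * l1 k)) = Real.exp (a / 2 * l1 k) * Real.exp (-(a * l1 k)) := by
      rw [← Real.exp_add]; congr 1; ring
    rw [this]; ring
  have hrd : Dom r := hrW.dom (half_pos ha).le
  have hUrc : CF (U + r) := fun k => (hUc k).add (hrc k)
  -- smallness of the correction
  have hv0 : ∀ t, NW (Wa 0) (at' (wF c q cc η γ lm N + IF c q cc η γ N) t)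
      ≤ ENNReal.ofReal (Cv c q cc η γ lm * N * Real.exp (-(c * N ^ 2 * max t 0))) := by
    intro t
    have e2 : NW (Wa 0) (at' (wF c q cc η γ lm N + IF c q cc η γ N) t)
        ≤ NW (Wa a) (at' (wF c q cc η γ lm N + IF c q cc η γ N) t) := NW_mono (fun k => Wa_mono ha.le k) _
    refine e2.trans ((NW_add_le _ _ _).trans ((add_le_add (hw t) (hI t)).trans ?_))
    have h0 : 0 ≤ e t := (Real.exp_pos _).le
    rw [← ENNReal.ofReal_add (mul_nonneg (mul_nonneg hCw hNp.le) h0) (mul_nonneg hCI h0)]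
    apply ENNReal.ofReal_le_ofReal
    have h3 : CI * e t ≤ N * (CI * e t) := le_mul_of_one_le_left (mul_nonneg hCI h0) hNr
    calc Cw * N * e t + CI * e t ≤ Cw * N * e t + N * (CI * e t) := add_le_add le_rfl h3
      _ = (Cw + CI) * N * e t := by ring
      _ = _ := rfl
  have hrm : ∀ t, NW (Wm 0) (at' r t) ≤ ENNReal.ofReal ee := by
    intro t
    have h1 : NW (Wm 0) (at' r t) ≤ NW (Wm a) (at' r t) := NW_mono (fun k => by
      unfold Wm
      exact ENNReal.ofReal_le_ofReal (div_le_div_of_nonneg_right (om_mono ha.le k) (nk_nonneg k))) _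
    refine h1.trans ((hrM t).trans (ENNReal.ofReal_le_ofReal ?_))
    simp only [M]
    linarith
  have hLNr0 : LN (fun t => NW (Wa 0) (at' r t)) ≤ ENNReal.ofReal (Real.exp (Lam * D ^ 2) * ρ) := by
    refine ((LN_le_LF hp.hL.le hD.le hAc hA0 hAi ha.le hrc).trans
      ((mul_le_mul' le_rfl hrL).trans ?_))
    rw [← ENNReal.ofReal_mul (Real.exp_pos _).le]
  have hLNr : LN (fun t => NW (Wa 0) (at' r t)) ≤ ENNReal.ofReal ee :=
    hLNr0.trans (ENNReal.ofReal_le_ofReal (hρe.trans (by linarith)))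
  have hnl : ∀ k, ∫⁻ t in Ioi 0, ‖(Bx χ (U + r) - Bx χ u) k t‖ₑ ≤
      ‖E0 q cc γ k‖ₑ + ENNReal.ofReal (nk k * ee) := by
    intro k
    obtain ⟨X, hX⟩ : ∃ X, X = Real.exp (Lam * D ^ 2) * ρ := ⟨_, rfl⟩
    have hX0 : 0 ≤ X := by rw [hX]; positivity
    have hX1 : X ≤ 1 := by rw [hX]; exact hρ1
    have hX2 : 3 * C0 * D * X ≤ ee / 4 := by rw [hX]; linarith
    have hBr : CF (Bx χ (U + r)) := Bx_cont hχ.toCutT hUrc (hUd.add hrd)
    have hBU : CF (Bx χ U) := Bx_cont hχ.toCutT hUc hUd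
    have hLU : LN (fun t => NW (Wa 0) (at' U t)) ≤ ENNReal.ofReal D :=
      (LN_mono fun t ht => (NW_mono (fun k => Wa_mono ha.le k) _).trans (hUA t ht)).trans hAi
    have e0 : Bx χ (U + r) - Bx χ u = (Bx χ (U + r) - Bx χ U) + (FE + pF c q cc η γ N q) := by
      simp only [FE]; abel
    have m1 : Measurable fun t => ‖(Bx χ (U + r) - Bx χ U) k t‖ₑ :=
      (((hBr k).sub (hBU k)).measurable).enorm
    have m2 : Measurable fun t => ‖FE k t‖ₑ := (hFEc k).measurable.enorm
    have p1 : ∫⁻ t in Ioi 0, ‖(Bx χ (U + r) - Bx χ U) k t‖ₑ ≤ ENNReal.ofReal (nk k * (ee / 4)) := by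
      refine (nl_diff hχ.toCutT hUc hrc hUd hrd k).trans ?_
      rw [ENNReal.ofReal_mul (nk_nonneg k)]
      apply mul_le_mul' le_rfl
      have hLr : LN (fun t => NW (Wa 0) (at' r t)) ≤ ENNReal.ofReal X := by rw [hX]; exact hLNr0
      calc ENNReal.ofReal C0 * (2 * (LN (fun t => NW (Wa 0) (at' U t)) * LN (fun t => NW (Wa 0) (at' r t)))
            + LN (fun t => NW (Wa 0) (at' r t)) * LN (fun t => NW (Wa 0) (at' r t)))
          ≤ ENNReal.ofReal C0 * (2 * (ENNReal.ofReal D * ENNReal.ofReal X) + ENNReal.ofReal X * ENNReal.ofReal X) := by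
            gcongr
        _ = ENNReal.ofReal (C0 * (2 * (D * X) + X * X)) := ofR_comb hC.le hD.le hX0
        _ ≤ _ := by
            apply ENNReal.ofReal_le_ofReal
            have h1 : X * X ≤ D * X := mul_le_mul_of_nonneg_right (hX1.trans hD1) hX0
            have h2 : C0 * (2 * (D * X) + X * X) ≤ C0 * (3 * (D * X)) :=
              mul_le_mul_of_nonneg_left (by linarith) hC.le
            calc _ ≤ C0 * (3 * (D * X)) := h2
              _ = 3 * C0 * D * X := by ring
              _ ≤ _ := hX2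
    have p2 : ∫⁻ t in Ioi 0, ‖FE k t‖ₑ ≤ ENNReal.ofReal (nk k * (ee / 4)) := by
      refine (lint_coef FE hFE0 k).trans ?_
      rw [ENNReal.ofReal_mul (nk_nonneg k)]
      apply mul_le_mul' le_rfl
      refine (lintegral_mono fun s => ?_).trans (hFEi.trans (ENNReal.ofReal_le_ofReal hη3))
      exact NW_mono (fun k => by
        unfold Wm
        exact ENNReal.ofReal_le_ofReal (div_le_div_of_nonneg_right (om_mono ha.le k) (nk_nonneg k))) _
    calc ∫⁻ t in Ioi 0, ‖(Bx χ (U + r) - Bx χ u) k t‖ₑ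
        ≤ ∫⁻ t in Ioi 0, (‖(Bx χ (U + r) - Bx χ U) k t‖ₑ + (‖FE k t‖ₑ + ‖pF c q cc η γ N q k t‖ₑ)) := by
          refine lintegral_mono fun t => ?_
          rw [e0]
          exact (enorm_add_le _ _).trans (add_le_add le_rfl (enorm_add_le _ _))
      _ = (∫⁻ t in Ioi 0, ‖(Bx χ (U + r) - Bx χ U) k t‖ₑ) + ((∫⁻ t in Ioi 0, ‖FE k t‖ₑ)
            + ∫⁻ t in Ioi 0, ‖pF c q cc η γ N q k t‖ₑ) := by
          rw [lintegral_add_left m1, lintegral_add_left m2]
      _ ≤ ENNReal.ofReal (nk k * (ee / 4)) + (ENNReal.ofReal (nk k * (ee / 4)) + ‖E0 q cc γ k‖ₑ) :=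
          add_le_add p1 (add_le_add p2 (pF_int hc hG γ hN1 k))
      _ = ‖E0 q cc γ k‖ₑ + ENNReal.ofReal (nk k * (ee / 4) + nk k * (ee / 4)) := by
          rw [ENNReal.ofReal_add (by have := nk_nonneg k; positivity) (by have := nk_nonneg k; positivity)]
          ring
      _ ≤ _ := by
          refine add_le_add le_rfl (ENNReal.ofReal_le_ofReal ?_)
          have := mul_nonneg (nk_nonneg k) hee.le
          linarith
  refine ⟨a / 2, half_pos ha, r, ⟨hUrc, ?_,
    fun t => (hUs t).add (hrs t), (hUW.mono (by linarith)).add hrW, ?_, ?_⟩,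
    hrc, hv0, hrm, hLNr, hnl⟩
  · intro t
    show (u 0 t + (wF c q cc η γ lm N 0 t + IF c q cc η γ N 0 t)) + r 0 t = 0
    rw [hS.z, hw0, hI0, hr0]; simp
  · -- finite norm
    have hg : Monotone (gw Lam A) := gw_mono hp.hL.le hAc
    have m1 : Measurable fun t => NW (Wa (a / 2)) (at' U t) := NW_meas _ hUc
    have m2 : Measurable fun t => NW (Wa (a / 2)) (at' r t) := NW_meas _ hrc
    have h1 : LN (fun t => NW (Wa (a / 2)) (at' U t)) ≠ ⊤ := by
      refine ne_top_of_le_ne_top ENNReal.ofReal_ne_top ((LN_mono fun t ht => ?_).trans hAi)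
      exact (NW_mono (fun k => Wa_mono (by linarith) k) _).trans (hUA t ht)
    have h2 : LN (fun t => NW (Wa (a / 2)) (at' r t)) ≠ ⊤ :=
      ne_top_of_le_ne_top (ENNReal.mul_ne_top ENNReal.ofReal_ne_top
        (ne_top_of_le_ne_top ENNReal.ofReal_ne_top hrL))
        (LN_le_LF hp.hL.le hD.le hAc hA0 hAi (half_le_self ha.le) hrc)
    refine ne_top_of_le_ne_top (ENNReal.add_ne_top.2 ⟨h1, h2⟩) ((LN_mono fun t _ => ?_).trans
      (LN_add_le m1 m2))
    exact NW_add_le _ _ _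
  · intro k t
    have hBr : CF (Bx χ (U + r)) := Bx_cont hχ.toCutT hUrc (hUd.add hrd)
    have hBu : CF (Bx χ u) := Bx_cont hχ.toCutT hS.cf hud
    have e1 : FE + (Bx χ (U + r) - Bx χ U) = Bx χ (U + r) - (Bx χ u + pF c q cc η γ N q) := by
      simp only [FE]; abel
    have hadd : CF (Bx χ u + pF c q cc η γ N q) := fun k => (hBu k).add (hpc q k)
    rw [e1, Duh_sub hBr hadd, Duh_add hBu (hpc q)] at hrfix
    have e2 : r k t = Duh c (Bx χ (U + r)) k t - (Duh c (Bx χ u) k t + Duh c (pF c q cc η γ N q) k t) :=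
      congrFun (congrFun hrfix k) t
    have e3 := hS.eq k t
    have e4 := w_init (q := q) (cc := cc) (η := η) c γ lm N k t
    have e5 := I_init hc hG γ hN1 k t
    show (u k t + (wF c q cc η γ lm N k t + IF c q cc η γ N k t)) + r k t = _
    have e6 : IF c q cc η γ N k t = Real.exp (-(c * sq k * max t 0)) • E0 q cc γ k
        + Duh c (pF c q cc η γ N q) k t := by rw [← e5]; abel
    rw [e2, e3, e4, e6]
    simp only [Pi.add_apply, smul_add]
    abel

end Pool.Agent.H356R3.NS.X
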