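import Pool.Agent.H3NX.StepK

set_option autoImplicit false
set_option maxHeartbeats 4000000
set_option synthInstance.maxHeartbeats 400000

/-!
Auxiliary estimates for the step with explicit thresholds.
-/

open MeasureTheory Set Filter Topology
open scoped ENNReal NNReal

namespace Pool.Agent.H356R3.NS.X

open Pool.Agent.H356R3.NS.H3

variable {q cc η : K}

/-- Geometric data of size at most `H`. -/
structure GB (H : ℝ) (q cc η : K) (γ : ℂ) : Prop extends Geo q cc η where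
  nq : ‖cK q‖ ≤ H
  nc : ‖cK cc‖ ≤ H
  g : ‖γ‖ ≤ H
  se : sq η ≤ H
  ke : nk η ≤ H
  kq : nk q ≤ H

/-- the constant for the size of one piece -/
noncomputable def C5 (c H : ℝ) : ℝ := 8 * H ^ 2 + 4 * c * H ^ 3

lemma C5_pos {c H : ℝ} (hc : 0 < c) (hH : 1 ≤ H) : 0 < C5 c H := by
  unfold C5
  have : 0 < H := by linarith
  positivity

lemma one_le_nkG (hG : Geo q cc η) : 1 ≤ nk η := by
  have := one_le_sq hG.hη
  unfold nk
  rw [Real.one_le_sqrt]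
  exact this

lemma piece_le {c H : ℝ} (hc : 0 < c) (hH : 1 ≤ H) {γ : ℂ} (h : GB H q cc η γ) {n : ℕ} (hn : 1 ≤ n) :
    4 * (1 / √(n : ℝ) * ‖cK q‖ + c * ‖γ / (n : ℂ)‖ / (Real.pi * sq q * (1 / √(n : ℝ))) * ‖cK cc‖)
      ≤ C5 c H / √(n : ℝ) := by
  have hnp : (1 : ℝ) ≤ n := by exact_mod_cast hn
  have hsn : 0 < √(n : ℝ) := Real.sqrt_pos.2 (by linarith)
  have hsq : √(n : ℝ) ^ 2 = n := Real.sq_sqrt (by linarith)
  have hs2 : √(n : ℝ) * √(n : ℝ) = n := Real.mul_self_sqrt (by linarith)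
  have hpi := Real.pi_gt_three
  have h1 := one_le_sq h.hq
  have h2 : ‖γ / (n : ℂ)‖ = ‖γ‖ / n := by rw [norm_div, Complex.norm_natCast]
  have p1 : 1 ≤ Real.pi * sq q := by nlinarith
  have nq0 := norm_nonneg (cK q)
  have nc0 := norm_nonneg (cK cc)
  have g0 := norm_nonneg γ
  have hH0 : 0 ≤ H := by linarith
  rw [h2, le_div_iff₀ hsn]
  have e1 : 4 * (1 / √(n : ℝ) * ‖cK q‖ + c * (‖γ‖ / n) / (Real.pi * sq q * (1 / √(n : ℝ))) * ‖cK cc‖) * √(n : ℝ)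
      = 4 * ‖cK q‖ + 4 * c * (‖γ‖ * ‖cK cc‖) / (Real.pi * sq q) := by
    have : Real.pi * sq q ≠ 0 := by positivity
    field_simp
    rw [hsq]
    ring
  rw [e1]
  have e2 : ‖γ‖ * ‖cK cc‖ ≤ H * H := mul_le_mul h.g h.nc nc0 hH0
  have e3 : 4 * c * (‖γ‖ * ‖cK cc‖) / (Real.pi * sq q) ≤ 4 * c * (H * H) := by
    rw [div_le_iff₀ (by positivity)]
    calc 4 * c * (‖γ‖ * ‖cK cc‖) ≤ 4 * c * (H * H) := mul_le_mul_of_nonneg_left e2 (by positivity)
      _ ≤ 4 * c * (H * H) * (Real.pi * sq q) := le_mul_of_one_le_right (by positivity) p1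
  have e4 := h.nq
  unfold C5
  have e5 : 4 * c * (H * H) ≤ 4 * c * H ^ 3 := by
    apply mul_le_mul_of_nonneg_left _ (by positivity)
    nlinarith [mul_nonneg hH0 hH0]
  nlinarith

lemma Cv_le {c H : ℝ} (hc : 0 < c) (hH : 1 ≤ H) {γ : ℂ} (h : GB H q cc η γ) {n : ℕ} (hn : 1 ≤ n) :
    Cv c q cc η (γ / n) (nk η * (1 / √(n : ℝ))) ≤ C5 c H / √(n : ℝ) := by
  have hnp : (1 : ℝ) ≤ n := by exact_mod_cast hn
  have hsn : 0 < √(n : ℝ) := Real.sqrt_pos.2 (by linarith)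
  have hsn1 : 1 ≤ √(n : ℝ) := Real.one_le_sqrt.2 hnp
  have hsq : √(n : ℝ) ^ 2 = n := Real.sq_sqrt (by linarith)
  have hpi := Real.pi_gt_three
  have h1 := one_le_sq h.hq
  have h2 : ‖γ / (n : ℂ)‖ = ‖γ‖ / n := by rw [norm_div, Complex.norm_natCast]
  have p1 : 1 ≤ Real.pi * sq q := by nlinarith
  have nq0 := norm_nonneg (cK q)
  have nc0 := norm_nonneg (cK cc)
  have g0 := norm_nonneg γ
  have hH0 : 0 ≤ H := by linarith
  have k1 := one_le_nkG h.toGeo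
  have hse : nk η ^ 2 = sq η := by rw [pow_two]; exact nk_mul_self η
  unfold Cv
  rw [h2, ← hse, le_div_iff₀ hsn]
  have e1 : (4 * (nk η * (1 / √(n : ℝ)) * ‖cK q‖) +
      4 * (c * nk η ^ 2 * (‖γ‖ / n) / (Real.pi * sq q * (nk η * (1 / √(n : ℝ)))) * ‖cK cc‖) +
      4 * (‖γ‖ / n * ‖cK cc‖)) * √(n : ℝ)
      = 4 * (nk η * ‖cK q‖) + 4 * c * (nk η * (‖γ‖ * ‖cK cc‖)) / (Real.pi * sq q)
        + 4 * (‖γ‖ * ‖cK cc‖) / √(n : ℝ) := by
    have h3 : Real.pi * sq q ≠ 0 := by positivity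
    have h4 : nk η ≠ 0 := by linarith
    obtain ⟨s, hs⟩ : ∃ s, s = √(n : ℝ) := ⟨_, rfl⟩
    rw [← hs] at hsq hsn ⊢
    rw [← hsq]
    field_simp
  rw [e1]
  have e2 : ‖γ‖ * ‖cK cc‖ ≤ H * H := mul_le_mul h.g h.nc nc0 hH0
  have e0 : 0 ≤ ‖γ‖ * ‖cK cc‖ := mul_nonneg g0 nc0
  have e3 : 4 * c * (nk η * (‖γ‖ * ‖cK cc‖)) / (Real.pi * sq q) ≤ 4 * c * (H * (H * H)) := by
    rw [div_le_iff₀ (by positivity)]
    calc 4 * c * (nk η * (‖γ‖ * ‖cK cc‖)) ≤ 4 * c * (H * (H * H)) :=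
          mul_le_mul_of_nonneg_left (mul_le_mul h.ke e2 e0 hH0) (by positivity)
      _ ≤ 4 * c * (H * (H * H)) * (Real.pi * sq q) := le_mul_of_one_le_right (by positivity) p1
  have e4 : nk η * ‖cK q‖ ≤ H * H := mul_le_mul h.ke h.nq nq0 hH0
  have e5 : 4 * (‖γ‖ * ‖cK cc‖) / √(n : ℝ) ≤ 4 * (H * H) := by
    rw [div_le_iff₀ hsn]
    calc 4 * (‖γ‖ * ‖cK cc‖) ≤ 4 * (H * H) := by linarith
      _ ≤ 4 * (H * H) * √(n : ℝ) := le_mul_of_one_le_right (by positivity) hsn1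
  unfold C5
  nlinarith

lemma om_convex {a0 a1 : ℝ} (h0 : 0 < a0) (h1 : 0 ≤ a1) (h : a1 ≤ a0) (k : K) :
    om a1 k ≤ 1 + a1 / a0 * om a0 k := by
  have hl := l1_nonneg k
  unfold om
  obtain ⟨x, hx⟩ : ∃ x, x = l1 k := ⟨_, rfl⟩
  rw [← hx] at hl ⊢
  obtain ⟨s, hs⟩ : ∃ s, s = a1 / a0 := ⟨_, rfl⟩
  have hs0 : 0 ≤ s := by rw [hs]; positivity
  have hs1 : s ≤ 1 := by rw [hs, div_le_one h0]; exact h
  have e1 : a1 * x = (1 - s) * 0 + s * (a0 * x) := by rw [hs]; field_simp; ring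
  have h2 := convexOn_exp.2 (mem_univ (0 : ℝ)) (mem_univ (a0 * x)) (sub_nonneg.2 hs1) hs0 (by ring)
  simp only [smul_eq_mul, Real.exp_zero, mul_one] at h2
  rw [e1, ← hs]
  have h3 : (1 - s) * 0 = 0 := mul_zero _
  linarith [Real.exp_pos (a0 * x)]

lemma NW_shrink {a0 a1 : ℝ} (h0 : 0 < a0) (h1 : 0 ≤ a1) (h : a1 ≤ a0) (x : K → C3) :
    NW (Wa a1) x ≤ NW (Wa 0) x + ENNReal.ofReal (a1 / a0) * NW (Wa a0) x := by
  unfold NW
  rw [← ENNReal.tsum_mul_left, ← ENNReal.tsum_add]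
  refine ENNReal.tsum_le_tsum fun k => ?_
  rw [← mul_assoc, ← add_mul]
  apply mul_le_mul' _ le_rfl
  unfold Wa
  have o : om 0 k = 1 := by simp [om]
  rw [o, ← ENNReal.ofReal_mul (by positivity), ← ENNReal.ofReal_add zero_le_one (by have := om_pos a0 k; positivity)]
  exact ENNReal.ofReal_le_ofReal (om_convex h0 h1 h k)

lemma solX_anti {χ : ℝ → ℝ} {c a a' : ℝ} {V : K → C3} {u : Fam} (haa : a' ≤ a) (h : SolX χ c a V u) :
    SolX χ c a' V u := by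
  refine ⟨h.cf, h.z, h.sym, ?_, ?_, h.eq⟩
  · obtain ⟨b, hb, hb'⟩ := h.dom
    have hb0 : ∀ k, 0 ≤ b k := fun k => (norm_nonneg _).trans (hb' k 0)
    exact ⟨b, hb.of_nonneg_of_le (fun k => mul_nonneg (om_pos _ _).le (hb0 k))
      fun k => mul_le_mul_of_nonneg_right (om_mono haa k) (hb0 k), hb'⟩
  · exact ne_top_of_le_ne_top h.l2 (LN_mono fun t _ => NW_mono (fun k => Wa_mono haa k) _)

lemma solX_shrink {χ : ℝ → ℝ} {c a Mu L : ℝ} (ha : 0 < a) {V : K → C3} {u : Fam} (h : SolX χ c a V u)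
    (hMu : 0 ≤ Mu) (hL : 0 ≤ L) (h1 : ∀ t, NW (Wa 0) (at' u t) ≤ ENNReal.ofReal Mu)
    (h2 : LN (fun t => NW (Wa 0) (at' u t)) ≤ ENNReal.ofReal L) :
    ∃ a1, 0 < a1 ∧ SolX χ c a1 V u ∧ (∀ t, NW (Wa a1) (at' u t) ≤ ENNReal.ofReal (Mu + 1)) ∧
      LN (fun t => NW (Wa a1) (at' u t)) ≤ ENNReal.ofReal (L + 1) := by
  obtain ⟨b, hb, hb'⟩ := h.dom
  have hb0 : ∀ k, 0 ≤ b k := fun k => (norm_nonneg _).trans (hb' k 0)
  obtain ⟨M0, hM0⟩ : ∃ M0, M0 = ∑' k, om a k * b k := ⟨_, rfl⟩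
  have hM0p : 0 ≤ M0 := by rw [hM0]; exact tsum_nonneg fun k => mul_nonneg (om_pos _ _).le (hb0 k)
  have hM : ∀ t, NW (Wa a) (at' u t) ≤ ENNReal.ofReal M0 := by
    intro t
    rw [hM0, ENNReal.ofReal_tsum_of_nonneg (fun k => mul_nonneg (om_pos _ _).le (hb0 k)) hb]
    unfold NW Wa at'
    refine ENNReal.tsum_le_tsum fun k => ?_
    rw [ENNReal.ofReal_mul (om_pos _ _).le, ← ofReal_norm]
    exact mul_le_mul' le_rfl (ENNReal.ofReal_le_ofReal (hb' k t))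
  obtain ⟨l, hl⟩ : ∃ l, l = (LN fun t => NW (Wa a) (at' u t)).toReal := ⟨_, rfl⟩
  have hl0 : 0 ≤ l := by rw [hl]; exact ENNReal.toReal_nonneg
  have hl' : (LN fun t => NW (Wa a) (at' u t)) = ENNReal.ofReal l := by rw [hl, ENNReal.ofReal_toReal h.l2]
  obtain ⟨s, hs⟩ : ∃ s, s = 1 / (M0 + l + 1) := ⟨_, rfl⟩
  have hsp : 0 < s := by rw [hs]; positivity
  have hs1 : s ≤ 1 := by
    rw [hs, div_le_one (by positivity)]; linarith
  have hsM : s * M0 ≤ 1 := by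
    rw [hs, one_div, inv_mul_le_iff₀ (by positivity)]; linarith
  have hsl : s * l ≤ 1 := by
    rw [hs, one_div, inv_mul_le_iff₀ (by positivity)]; linarith
  have hsa : s * a ≤ a := by nlinarith
  have hsd : s * a / a = s := by field_simp
  refine ⟨s * a, by positivity, solX_anti hsa h, fun t => ?_, ?_⟩
  · refine (NW_shrink ha (by positivity) hsa _).trans ?_
    rw [hsd, ENNReal.ofReal_add hMu zero_le_one]
    refine add_le_add (h1 t) ((mul_le_mul' le_rfl (hM t)).trans ?_)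
    rw [← ENNReal.ofReal_mul hsp.le]
    exact ENNReal.ofReal_le_ofReal hsM
  · refine (LN_mono fun t _ => NW_shrink ha (by positivity) hsa _).trans ?_
    rw [hsd]
    have m0 : Measurable fun t => NW (Wa 0) (at' u t) := NW_meas _ h.cf
    have m1 : Measurable fun t => NW (Wa a) (at' u t) := NW_meas _ h.cf
    refine (LN_add_le m0 (m1.const_mul _)).trans ?_
    rw [LN_const_mul _ m1, hl', ENNReal.ofReal_add hL zero_le_one, ← ENNReal.ofReal_mul hsp.le]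
    exact add_le_add h2 (ENNReal.ofReal_le_ofReal hsl)

/-- Before time zero and at time zero the solution is the datum. -/
lemma solX_init {χ : ℝ → ℝ} {c a : ℝ} {V : K → C3} {u : Fam} (h : SolX χ c a V u) {t : ℝ} (ht : t ≤ 0) :
    at' u t = V := by
  funext k
  show u k t = V k
  have h1 : Duh c (Bx χ u) k t = Duh c (Bx χ u) k 0 := by
    unfold Duh
    rw [max_eq_right ht, max_self]
  rw [h.eq, h1, Duh_at_zero, max_eq_right ht]
  simp

/-- The norm in the Wiener algebra is bounded by that of the datum, with a constant which depends on the norm in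
`L²(ℓ¹)` only. -/
lemma solX_sup {c : ℝ} (hc : 0 < c) {Lb : ℝ} (hLb : 0 ≤ Lb) : ∃ C2 : ℝ, 1 ≤ C2 ∧
    ∀ (χ : ℝ → ℝ), CutT χ → ∀ a : ℝ, 0 < a → ∀ (V : K → C3) (u : Fam), SolX χ c a V u →
      LN (fun t => NW (Wa 0) (at' u t)) ≤ ENNReal.ofReal Lb →
      (∀ t, NW (Wa 0) (at' u t) ≤ ENNReal.ofReal C2 * NW (Wa 0) V) ∧
      ∀ t1 t, 0 ≤ t1 → t1 ≤ t → NW (Wa 0) (at' u t) ≤ ENNReal.ofReal C2 * NW (Wa 0) (at' u t1) := by
  obtain ⟨C, hC, h⟩ := prop_s hc hLb 0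
  refine ⟨C + 1, by linarith, fun χ hχ a ha V u hu hL => ?_⟩
  have key : ∀ t1 t, 0 ≤ t1 → t1 ≤ t → NW (Wa 0) (at' u t) ≤ ENNReal.ofReal (C + 1) * NW (Wa 0) (at' u t1) := by
    intro t1 t h1 h2
    have h3 := (h χ hχ a ha V u hu t1 h1 (by
      refine le_trans ?_ hL
      unfold LN
      apply ENNReal.rpow_le_rpow _ (by norm_num)
      exact lintegral_mono_set fun t ht => lt_of_le_of_lt h1 ht)).2 t h2
    rw [ws_zero] at h3
    exact h3.trans (mul_le_mul' (ENNReal.ofReal_le_ofReal (by linarith)) le_rfl)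
  refine ⟨fun t => ?_, key⟩
  rcases le_or_gt 0 t with h0 | h0
  · have := key 0 t le_rfl h0
    rwa [solX_init hu le_rfl] at this
  · rw [solX_init hu h0.le]
    calc NW (Wa 0) V = 1 * NW (Wa 0) V := (one_mul _).symm
      _ ≤ _ := by
        apply mul_le_mul' _ le_rfl
        rw [ENNReal.one_le_ofReal]
        linarith

/-- scale invariant choice of a good time -/
lemma pick' {φ : ℝ → ℝ≥0∞} {a b M : ℝ} (hab : a < b) (hM : 0 < M)
    (h : (∫⁻ t in Ioi a, φ t ^ (2 : ℝ)) ^ (1 / 2 : ℝ) ≤ ENNReal.ofReal M) :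
    ∃ t ∈ Ioo a b, φ t ≤ ENNReal.ofReal (2 * M / Real.sqrt (b - a)) := by
  have h1 : (∫⁻ t in Ioi a, (ENNReal.ofReal (1 / M) * φ t) ^ (2 : ℝ)) ^ (1 / 2 : ℝ) ≤ ENNReal.ofReal 1 := by
    simp_rw [ENNReal.mul_rpow_of_nonneg _ _ (by norm_num : (0 : ℝ) ≤ 2)]
    rw [lintegral_const_mul' _ _ (by finiteness), ENNReal.mul_rpow_of_nonneg _ _ (by norm_num),
      ← ENNReal.rpow_mul, show (2 : ℝ) * (1 / 2) = 1 by norm_num, ENNReal.rpow_one]
    refine (mul_le_mul' le_rfl h).trans ?_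
    rw [← ENNReal.ofReal_mul (by positivity), one_div, inv_mul_cancel₀ hM.ne']
  obtain ⟨t, ht, h2⟩ := pick hab zero_le_one h1
  refine ⟨t, ht, ?_⟩
  have e1 : φ t = ENNReal.ofReal M * (ENNReal.ofReal (1 / M) * φ t) := by
    rw [← mul_assoc, ← ENNReal.ofReal_mul hM.le]
    have : M * (1 / M) = 1 := by field_simp
    rw [this, ENNReal.ofReal_one, one_mul]
  rw [e1]
  refine (mul_le_mul' le_rfl h2).trans ?_
  rw [← ENNReal.ofReal_mul hM.le]
  apply ENNReal.ofReal_le_ofReal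
  apply le_of_eq
  ring

lemma nk_W0 (c : ℝ) (γ : ℂ) (lm : ℝ) {N : ℕ} (hN : 1 ≤ N) {k : K}
    (h : W0 c q cc η γ lm N k ≠ 0) : nk k ≤ N * (nk η + nk q) := by
  have hNr : (1 : ℝ) ≤ N := by exact_mod_cast hN
  have n1 := nk_nonneg η
  have n2 := nk_nonneg q
  have k1 : nk ((N : ℤ) • η) = N * nk η := by
    unfold nk
    rw [sq_k1, Real.sqrt_mul (by positivity), Real.sqrt_sq (by linarith)]
  have b1 : nk ((N : ℤ) • η) ≤ N * (nk η + nk q) := by rw [k1]; nlinarith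
  have b2 : nk ((N : ℤ) • η + q) ≤ N * (nk η + nk q) := by
    refine (nk_add _ _).trans ?_
    rw [k1]
    nlinarith
  by_contra hcon
  push Not at hcon
  apply h
  unfold W0 Sg
  simp only [Pi.add_apply]
  have q1 : k ≠ (N : ℤ) • η := by rintro rfl; linarith
  have q2 : k ≠ -((N : ℤ) • η) := by rintro rfl; rw [nk_neg] at hcon; linarith
  have q3 : k ≠ (N : ℤ) • η + q := by rintro rfl; linarith
  have q4 : k ≠ -((N : ℤ) • η + q) := by rintro rfl; rw [nk_neg] at hcon; linarith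
  rw [if_neg q1, if_neg q2, if_neg q3, if_neg q4]
  simp

lemma IF_eq (c : ℝ) (q cc η : K) (γ : ℂ) (N : ℕ) (k : K) (t : ℝ) :
    IF c q cc η γ N k t = Real.exp (-(muF c q η N * max t 0)) • E0 q cc γ k := by
  show Mo q _ _ k t + Mo (-q) _ _ k t = _
  unfold Mo E0 Sg
  simp only [Pi.add_apply]
  split_ifs <;> simp

lemma v_init (c : ℝ) (q cc η : K) (γ : ℂ) (lm : ℝ) (N : ℕ) :
    at' (wF c q cc η γ lm N + IF c q cc η γ N) 0 = W0 c q cc η γ lm N + E0 q cc γ := by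
  funext k
  show wF c q cc η γ lm N k 0 + IF c q cc η γ N k 0 = W0 c q cc η γ lm N k + E0 q cc γ k
  rw [w_init, IF_eq]
  simp

end Pool.Agent.H356R3.NS.X
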