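import Pool.Agent.H3NX.StepQ
import Pool.Agent.H3NX.StepQ1

set_option autoImplicit false
set_option maxHeartbeats 4000000
set_option synthInstance.maxHeartbeats 400000

/-!
The step with thresholds that are linear in the size of the solution, for pieces of size `1/n`.
-/

open MeasureTheory Set Filter Topology
open scoped ENNReal NNReal

namespace Pool.Agent.H356R3.NS.X

open Pool.Agent.H356R3.NS.H3

lemma LN_le_iff {φ : ℝ → ℝ≥0∞} {a : ℝ} (ha : 0 ≤ a) :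
    LN φ ≤ ENNReal.ofReal a ↔ ∫⁻ t in Ioi 0, φ t ^ (2 : ℝ) ≤ ENNReal.ofReal (a ^ 2) := by
  unfold LN
  have e1 : ENNReal.ofReal (a ^ 2) = ENNReal.ofReal a ^ (2 : ℝ) := by
    rw [ENNReal.rpow_two, ENNReal.ofReal_pow ha]
  rw [e1]
  constructor
  · intro h
    have h2 := ENNReal.rpow_le_rpow h (show (0 : ℝ) ≤ 2 by norm_num)
    rwa [← ENNReal.rpow_mul, show (1 / 2 : ℝ) * 2 = 1 by norm_num, ENNReal.rpow_one] at h2
  · intro h
    have h2 := ENNReal.rpow_le_rpow h (show (0 : ℝ) ≤ 1 / 2 by norm_num)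
    rwa [← ENNReal.rpow_mul, show (2 : ℝ) * (1 / 2) = 1 by norm_num, ENNReal.rpow_one] at h2

lemma LN_add_sq {φ ψ : ℝ → ℝ≥0∞} (mφ : Measurable φ) (mψ : Measurable ψ) {a b d : ℝ} (ha : 0 ≤ a) (hb : 0 ≤ b)
    (hd : 0 ≤ d) (h1 : LN φ ≤ ENNReal.ofReal a) (h2 : ∫⁻ t in Ioi 0, φ t * ψ t ≤ ENNReal.ofReal b)
    (h3 : LN ψ ≤ ENNReal.ofReal d) :
    LN (fun t => φ t + ψ t) ≤ ENNReal.ofReal (√(a ^ 2 + 2 * b + d ^ 2)) := by
  rw [LN_le_iff (Real.sqrt_nonneg _), Real.sq_sqrt (by positivity)]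
  rw [LN_le_iff ha] at h1
  rw [LN_le_iff hd] at h3
  calc ∫⁻ t in Ioi 0, (φ t + ψ t) ^ (2 : ℝ)
      = ∫⁻ t in Ioi 0, ((φ t ^ (2 : ℝ) + 2 * (φ t * ψ t)) + ψ t ^ (2 : ℝ)) := by
        refine lintegral_congr fun t => ?_
        simp only [ENNReal.rpow_two]
        ring
    _ = (∫⁻ t in Ioi 0, φ t ^ (2 : ℝ)) + 2 * (∫⁻ t in Ioi 0, φ t * ψ t) + ∫⁻ t in Ioi 0, ψ t ^ (2 : ℝ) := by
        rw [lintegral_add_left (by fun_prop), lintegral_add_left (by fun_prop),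
          lintegral_const_mul' _ _ (by norm_num)]
    _ ≤ ENNReal.ofReal (a ^ 2) + 2 * ENNReal.ofReal b + ENNReal.ofReal (d ^ 2) := by gcongr
    _ = _ := by
        rw [← ENNReal.ofReal_ofNat, ← ENNReal.ofReal_mul (by norm_num), ← ENNReal.ofReal_add (by positivity) (by positivity),
          ← ENNReal.ofReal_add (by positivity) (by positivity)]

/-- growth constant of the square of the norm in `L²(ℓ¹)` -/
noncomputable def Kv (c H : ℝ) : ℝ := 2 + C5 c H ^ 2 / (2 * c)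

lemma Kv_pos {c H : ℝ} (hc : 0 < c) : 0 < Kv c H := by
  unfold Kv
  positivity

theorem stepQ2 {χ : ℝ → ℝ} {h : ℝ} (hχ : CutH χ h) {c H Lb p dl : ℝ} (hc : 0 < c) (hH : 1 ≤ H) (hLb : 0 ≤ Lb)
    (hp1 : 1 ≤ p) (hp2 : p < 2) (hdl : 0 < dl) {P : ℕ} (hP : 4 ≤ P * (2 - p)) :
    ∃ Kf B0 : ℝ, 1 ≤ Kf ∧ 1 ≤ B0 ∧ ∃ n0 : ℕ, 1 ≤ n0 ∧ ∀ {q cc η : K} {γ : ℂ} {V : K → C3} {u : Fam}
      {a0 F L : ℝ} {n : ℕ}, GB H q cc η γ → n0 ≤ n → B0 * (n : ℝ) ^ P ≤ F → 0 < a0 → SolX χ c a0 V u →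
      NW (Wa 0) V ≤ ENNReal.ofReal F → 0 ≤ L → L ≤ Lb →
      LN (fun t => NW (Wa 0) (at' u t)) ≤ ENNReal.ofReal L →
      ∃ N : ℕ, 2 * F ≤ N ∧ (N : ℝ) ≤ Kf * (n : ℝ) ^ 4 * F ∧ ∃ a : ℝ, 0 < a ∧ ∃ v r : Fam,
        v = wF c q cc η (γ / n) (nk η * (1 / √(n : ℝ))) N + IF c q cc η (γ / n) N ∧
        SolX χ c a (V + (E0 q cc (γ / n) + W0 c q cc η (γ / n) (nk η * (1 / √(n : ℝ))) N)) (u + v + r) ∧
        CF v ∧ CF r ∧
        NW (Wa 0) (V + (E0 q cc (γ / n) + W0 c q cc η (γ / n) (nk η * (1 / √(n : ℝ))) N))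
          ≤ ENNReal.ofReal (Kf * (n : ℝ) ^ 4 * F) ∧
        (∀ k, W0 c q cc η (γ / n) (nk η * (1 / √(n : ℝ))) N k ≠ 0 → nk k ≤ Kf * (n : ℝ) ^ 4 * F) ∧
        LN (fun t => NW (Wa 0) (at' (u + v + r) t)) ≤ ENNReal.ofReal (√(L ^ 2 + Kv c H / n)) ∧
        LNd dl v ≤ ENNReal.ofReal (1 / (n : ℝ) ^ 2) ∧ LP p v ≤ ENNReal.ofReal (1 / (n : ℝ) ^ 2) ∧
        (∀ t, dl ≤ t → NW (Wm 0) (at' v t) ≤ ENNReal.ofReal (1 / (n : ℝ) ^ 2)) ∧
        (∀ t, NW (Wa 0) (at' v t) ≤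
          ENNReal.ofReal (C5 c H / √(n : ℝ) * (N * Real.exp (-(c * N ^ 2 * max t 0))))) ∧
        (∀ t, NW (Wm 0) (at' r t) ≤ ENNReal.ofReal (1 / (n : ℝ) ^ 4)) ∧
        LN (fun t => NW (Wa 0) (at' r t)) ≤ ENNReal.ofReal (1 / (n : ℝ) ^ 4) ∧
        ∀ k, ∫⁻ t in Ioi 0, ‖(Bx χ (u + v + r) - Bx χ u) k t‖ₑ ≤
          ‖E0 q cc (γ / n) k‖ₑ + ENNReal.ofReal (nk k * (1 / (n : ℝ) ^ 4)) := by
  obtain ⟨Z, hZ⟩ : ∃ Z, Z = C5 c H := ⟨_, rfl⟩
  have hZp : 0 < Z := by rw [hZ]; exact C5_pos hc hH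
  have hC := C0_pos
  have hsc : 0 < √c := Real.sqrt_pos.2 hc
  have hH0 : 0 < H := by linarith
  obtain ⟨C2, hC2, hsup⟩ := solX_sup hc hLb
  obtain ⟨D, hD⟩ : ∃ D, D = Lb + 1 + Z * √(1 / (2 * c)) + 1 := ⟨_, rfl⟩
  have hD1 : 1 ≤ D := by
    have : 0 ≤ Z * √(1 / (2 * c)) := by positivity
    rw [hD]; linarith
  obtain ⟨K1, hK1, hcore⟩ := step_coreQ hχ hc hD1
  obtain ⟨X1, hX1⟩ : ∃ X1, X1 = (C2 + 1) * Z + Z ^ 2 + c * (H * (H * H)) := ⟨_, rfl⟩
  have hX1p : 0 < X1 := by rw [hX1]; positivity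
  obtain ⟨Kn, hKn⟩ : ∃ Kn, Kn = K1 * X1 + 2 * C2 * Z / c + Z / √c * (2 / (c * dl)) + Z / (c * dl) + 2 := ⟨_, rfl⟩
  have hKn1 : K1 * X1 ≤ Kn := by
    have : 0 ≤ 2 * C2 * Z / c + Z / √c * (2 / (c * dl)) + Z / (c * dl) := by positivity
    rw [hKn]; linarith
  have hKn2 : 2 * C2 * Z / c ≤ Kn := by
    have : 0 ≤ K1 * X1 + Z / √c * (2 / (c * dl)) + Z / (c * dl) := by positivity
    rw [hKn]; linarith
  have hKn3 : Z / √c * (2 / (c * dl)) ≤ Kn := by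
    have : 0 ≤ K1 * X1 + 2 * C2 * Z / c + Z / (c * dl) := by positivity
    rw [hKn]; linarith
  have hKn4 : Z / (c * dl) ≤ Kn := by
    have : 0 ≤ K1 * X1 + 2 * C2 * Z / c + Z / √c * (2 / (c * dl)) := by positivity
    rw [hKn]; linarith
  have hKn5 : 2 ≤ Kn := by
    have : 0 ≤ K1 * X1 + 2 * C2 * Z / c + Z / √c * (2 / (c * dl)) + Z / (c * dl) := by positivity
    rw [hKn]; linarith
  obtain ⟨B1, hB1⟩ : ∃ B1, B1 = (Z ^ p / (p * c)) ^ (1 / (2 - p)) := ⟨_, rfl⟩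
  have hp0 : 0 < p := by linarith
  have h2p : 0 < 2 - p := by linarith
  have hB1p : 0 ≤ B1 := by rw [hB1]; positivity
  have hB1e : B1 ^ (2 - p) = Z ^ p / (p * c) := by
    rw [hB1, ← Real.rpow_mul (by positivity), one_div, inv_mul_cancel₀ h2p.ne', Real.rpow_one]
  obtain ⟨X0, hX0⟩ : ∃ X0, X0 = Lb + 1 + Z ^ 2 / (2 * c) := ⟨_, rfl⟩
  have hX0p : 0 < X0 := by rw [hX0]; positivity
  obtain ⟨n0, hn0⟩ := exists_nat_ge (2 * X0 + 1)
  refine ⟨(Z + 2 * H + 1) * (Kn + 1), 1 + B1, ?_, by linarith, max n0 1, le_max_right _ _, ?_⟩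
  · nlinarith
  intro q cc η γ V u a0 F L n hGB hn hF ha0 hS hV hL0 hLL hLN
  have hn1 : 1 ≤ n := (le_max_right _ _).trans hn
  have hnX : 2 * X0 + 1 ≤ n := hn0.trans (by exact_mod_cast (le_max_left _ _).trans hn)
  have hnr : (1 : ℝ) ≤ n := by exact_mod_cast hn1
  have hnp : (0 : ℝ) < n := by linarith
  have hsn : 0 < √(n : ℝ) := Real.sqrt_pos.2 hnp
  have hsn1 : 1 ≤ √(n : ℝ) := Real.one_le_sqrt.2 hnr
  have hsn2 : √(n : ℝ) ^ 2 = n := Real.sq_sqrt hnp.le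
  have hnP : (1 : ℝ) ≤ (n : ℝ) ^ P := one_le_pow₀ hnr
  have hn2 : (1 : ℝ) ≤ (n : ℝ) ^ 2 := one_le_pow₀ hnr
  have hn4 : (1 : ℝ) ≤ (n : ℝ) ^ 4 := one_le_pow₀ hnr
  have hF1 : 1 ≤ F := by
    refine le_trans ?_ hF
    nlinarith
  have hFp : 0 < F := by linarith
  have hG : Geo q cc η := hGB.toGeo
  obtain ⟨lm, hlm⟩ : ∃ lm, lm = nk η * (1 / √(n : ℝ)) := ⟨_, rfl⟩
  have hlmp : 0 < lm := by rw [hlm]; exact mul_pos (nk_pos' hG.hη) (by positivity)
  obtain ⟨g, hg⟩ : ∃ g : ℂ, g = γ / (n : ℂ) := ⟨_, rfl⟩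
  obtain ⟨C, hCd⟩ : ∃ C, C = Cv c q cc η g lm := ⟨_, rfl⟩
  have hCp : 0 < C := by rw [hCd]; exact Cv_pos hc hG g hlmp
  have hCZ : C ≤ Z / √(n : ℝ) := by rw [hCd, hg, hlm, hZ]; exact Cv_le hc hH hGB hn1
  have hCZ1 : C ≤ Z := hCZ.trans (div_le_self hZp.le hsn1)
  have hgn : ‖g‖ ≤ H := by
    rw [hg, norm_div, Complex.norm_natCast]
    exact (div_le_self (norm_nonneg _) hnr).trans hGB.g
  obtain ⟨N, hN⟩ : ∃ N, N = ⌈Kn * (n : ℝ) ^ 4 * F⌉₊ := ⟨_, rfl⟩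
  have hNge : Kn * (n : ℝ) ^ 4 * F ≤ N := by rw [hN]; exact Nat.le_ceil _
  have hNle : (N : ℝ) ≤ Kn * (n : ℝ) ^ 4 * F + 1 := by rw [hN]; exact (Nat.ceil_lt_add_one (by positivity)).le
  have h4F : 1 ≤ (n : ℝ) ^ 4 * F := by nlinarith
  have hNle2 : (N : ℝ) ≤ (Kn + 1) * ((n : ℝ) ^ 4 * F) := by nlinarith
  have hN2F : 2 * F ≤ N := by
    refine le_trans ?_ hNge
    have : 2 * F ≤ Kn * F := mul_le_mul_of_nonneg_right hKn5 hFp.le
    have h2 : Kn * F ≤ Kn * F * (n : ℝ) ^ 4 := le_mul_of_one_le_right (by positivity) hn4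
    calc 2 * F ≤ Kn * F * (n : ℝ) ^ 4 := this.trans h2
      _ = _ := by ring
  have hNr : (1 : ℝ) ≤ N := by linarith
  have hNp : (0 : ℝ) < N := by linarith
  have hN1 : 1 ≤ N := by exact_mod_cast hNr
  -- bounds for `u`
  have hLNb : LN (fun t => NW (Wa 0) (at' u t)) ≤ ENNReal.ofReal Lb := hLN.trans (ENNReal.ofReal_le_ofReal hLL)
  have hub : ∀ t, NW (Wa 0) (at' u t) ≤ ENNReal.ofReal (C2 * F) := fun t => by
    refine ((hsup χ hχ.toCutT a0 ha0 V u hS hLNb).1 t).trans ?_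
    rw [ENNReal.ofReal_mul (by linarith)]
    exact mul_le_mul' le_rfl hV
  obtain ⟨a1, ha1, hS1, hM1, hL1⟩ := solX_shrink ha0 hS (by positivity) hL0 hub hLN
  have hee : (0 : ℝ) < 1 / (n : ℝ) ^ 4 := by positivity
  have hee1 : 1 / (n : ℝ) ^ 4 ≤ 1 := by rw [div_le_one (by positivity)]; exact hn4
  have hDD : L + 1 + Cv c q cc η g lm * √(1 / (2 * c)) + 1 ≤ D := by
    rw [hD, ← hCd]
    have : C * √(1 / (2 * c)) ≤ Z * √(1 / (2 * c)) := mul_le_mul_of_nonneg_right hCZ1 (Real.sqrt_nonneg _)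
    linarith
  have hthr : K1 * ((C2 * F + 1) * Cv c q cc η g lm + Cv c q cc η g lm ^ 2 + c * sq η * (‖g‖ * ‖cK cc‖))
      / (1 / (n : ℝ) ^ 4) ≤ N := by
    refine le_trans ?_ hNge
    rw [← hCd, div_div_eq_mul_div, div_one]
    have e1 : c * sq η * (‖g‖ * ‖cK cc‖) ≤ c * (H * (H * H)) := by
      rw [mul_assoc]
      apply mul_le_mul_of_nonneg_left _ hc.le
      exact mul_le_mul hGB.se (mul_le_mul hgn hGB.nc (norm_nonneg _) hH0.le) (by positivity) hH0.le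
    have e2 : (C2 * F + 1) * C + C ^ 2 + c * sq η * (‖g‖ * ‖cK cc‖) ≤ X1 * F := by
      have e3 : (C2 * F + 1) * C ≤ (C2 + 1) * F * Z := by
        apply mul_le_mul _ hCZ1 hCp.le (by positivity)
        nlinarith
      have e4 : C ^ 2 ≤ Z ^ 2 := pow_le_pow_left₀ hCp.le hCZ1 2
      have e5 : Z ^ 2 ≤ Z ^ 2 * F := le_mul_of_one_le_right (by positivity) hF1
      have e6 : c * (H * (H * H)) ≤ c * (H * (H * H)) * F := le_mul_of_one_le_right (by positivity) hF1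
      rw [hX1]
      linarith
    calc K1 * ((C2 * F + 1) * C + C ^ 2 + c * sq η * (‖g‖ * ‖cK cc‖)) * (n : ℝ) ^ 4
        ≤ K1 * (X1 * F) * (n : ℝ) ^ 4 := by gcongr
      _ = K1 * X1 * ((n : ℝ) ^ 4 * F) := by ring
      _ ≤ Kn * ((n : ℝ) ^ 4 * F) := mul_le_mul_of_nonneg_right hKn1 (by positivity)
      _ = _ := by ring
  obtain ⟨a, ha, r, hsol, hrc, hv, hrm, hr, hnl⟩ := hcore (N := N) ha1 hlmp hee hee1 hG hS1 (by positivity)
    (by positivity) hM1 hL1 hDD hN1 hthr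
  rw [← hCd] at hv
  obtain ⟨v, hvd⟩ : ∃ v, v = wF c q cc η g lm N + IF c q cc η g N := ⟨_, rfl⟩
  rw [← hvd] at hsol hv hnl
  have hvc : CF v := by
    rw [hvd]
    exact fun k => (((Mo_cf _ _ _ k).add (Mo_cf _ _ _ k)).add ((Mo_cf _ _ _ k).add (Mo_cf _ _ _ k))).add
      ((Mo_cf _ _ _ k).add (Mo_cf _ _ _ k))
  rw [← hlm, ← hg, ← hZ]
  have hfin : (Kn + 1) * ((n : ℝ) ^ 4 * F) ≤ (Z + 2 * H + 1) * (Kn + 1) * (n : ℝ) ^ 4 * F := by
    have e1 : 0 ≤ (Kn + 1) * ((n : ℝ) ^ 4 * F) := by positivity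
    have e2 : 0 ≤ (Z + 2 * H) * ((Kn + 1) * ((n : ℝ) ^ 4 * F)) := by positivity
    calc _ ≤ (Kn + 1) * ((n : ℝ) ^ 4 * F) + (Z + 2 * H) * ((Kn + 1) * ((n : ℝ) ^ 4 * F)) := by linarith
      _ = _ := by ring
  refine ⟨N, hN2F, hNle2.trans hfin, a, ha, v, r, hvd, hsol, hvc, hrc, ?_, fun k hk => ?_, ?_, ?_, ?_,
    fun t ht => ?_, fun t => (hv t).trans ?_, hrm, hr, hnl⟩
  · -- the norm of the datum
    have h1 : NW (Wa 0) (E0 q cc g + W0 c q cc η g lm N) ≤ ENNReal.ofReal (Z * N) := by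
      have h2 := hv 0
      rw [hvd, v_init] at h2
      rw [add_comm]
      refine h2.trans (ENNReal.ofReal_le_ofReal ?_)
      simp only [max_self, mul_zero, neg_zero, Real.exp_zero, mul_one]
      exact mul_le_mul_of_nonneg_right hCZ1 hNp.le
    refine (NW_add_le _ _ _).trans ((add_le_add hV h1).trans ?_)
    rw [← ENNReal.ofReal_add hFp.le (by positivity)]
    apply ENNReal.ofReal_le_ofReal
    have e1 : Z * N ≤ Z * ((Kn + 1) * ((n : ℝ) ^ 4 * F)) := mul_le_mul_of_nonneg_left hNle2 hZp.le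
    have e2 : F ≤ (Kn + 1) * ((n : ℝ) ^ 4 * F) := by
      have : F ≤ N := by linarith
      exact this.trans hNle2
    have e3 : 0 ≤ 2 * H * ((Kn + 1) * ((n : ℝ) ^ 4 * F)) := by positivity
    calc F + Z * N ≤ (Kn + 1) * ((n : ℝ) ^ 4 * F) + Z * ((Kn + 1) * ((n : ℝ) ^ 4 * F))
          + 2 * H * ((Kn + 1) * ((n : ℝ) ^ 4 * F)) := by linarith
      _ = _ := by ring
  · refine (nk_W0 c g lm hN1 hk).trans ?_
    have e0 : nk η + nk q ≤ 2 * H := by linarith [hGB.ke, hGB.kq]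
    have e1 : (N : ℝ) * (nk η + nk q) ≤ (Kn + 1) * ((n : ℝ) ^ 4 * F) * (2 * H) :=
      mul_le_mul hNle2 e0 (add_nonneg (nk_nonneg _) (nk_nonneg _)) (by positivity)
    have e2 : 0 ≤ (Z + 1) * ((Kn + 1) * ((n : ℝ) ^ 4 * F)) := by positivity
    calc (N : ℝ) * (nk η + nk q) ≤ (Kn + 1) * ((n : ℝ) ^ 4 * F) * (2 * H) + (Z + 1) * ((Kn + 1) * ((n : ℝ) ^ 4 * F)) := by
          linarith
      _ = _ := by ring
  · -- the norm in `L²`
    have mu : Measurable fun t => NW (Wa 0) (at' u t) := NW_meas _ hS.cf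
    have mv : Measurable fun t => NW (Wa 0) (at' v t) := NW_meas _ hvc
    have mr : Measurable fun t => NW (Wa 0) (at' r t) := NW_meas _ hrc
    have hσ : 0 < c * (N : ℝ) ^ 2 := by positivity
    have hLv : LN (fun t => NW (Wa 0) (at' v t)) ≤ ENNReal.ofReal (√(Z ^ 2 / (2 * c) / n)) := by
      refine (LN_mono (ψ := fun t => ENNReal.ofReal (C * N) * ENNReal.ofReal (Real.exp (-(c * N ^ 2 * max t 0))))
        fun t _ => ?_).trans ?_
      · rw [← ENNReal.ofReal_mul (by positivity)]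
        exact hv t
      · rw [LN_const_mul _ (by fun_prop), LN_e hσ, ← ENNReal.ofReal_mul (by positivity)]
        apply ENNReal.ofReal_le_ofReal
        apply Real.le_sqrt_of_sq_le
        rw [mul_pow, Real.sq_sqrt (by positivity)]
        have e1 : (C * N) ^ 2 * (1 / (2 * (c * (N : ℝ) ^ 2))) = C ^ 2 / (2 * c) := by field_simp
        rw [e1]
        have e2 : C ^ 2 ≤ Z ^ 2 / n := by
          calc C ^ 2 ≤ (Z / √(n : ℝ)) ^ 2 := pow_le_pow_left₀ hCp.le hCZ 2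
            _ = _ := by rw [div_pow, hsn2]
        calc C ^ 2 / (2 * c) ≤ Z ^ 2 / n / (2 * c) := div_le_div_of_nonneg_right e2 (by positivity)
          _ = _ := by ring
    have hmix : ∫⁻ t in Ioi 0, NW (Wa 0) (at' u t) * NW (Wa 0) (at' v t) ≤ ENNReal.ofReal (1 / (2 * n)) := by
      calc ∫⁻ t in Ioi 0, NW (Wa 0) (at' u t) * NW (Wa 0) (at' v t)
          ≤ ∫⁻ t in Ioi 0, ENNReal.ofReal (C2 * F * (C * N)) * ENNReal.ofReal (Real.exp (-(c * N ^ 2 * max t 0))) := by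
            refine lintegral_mono fun t => ?_
            rw [← ENNReal.ofReal_mul (by positivity), mul_assoc, ENNReal.ofReal_mul (p := C2 * F) (by positivity)]
            exact mul_le_mul' (hub t) (hv t)
        _ = ENNReal.ofReal (C2 * F * (C * N)) * ENNReal.ofReal (1 / (c * N ^ 2)) := by
            rw [lintegral_const_mul' _ _ ENNReal.ofReal_ne_top, lint_e hσ]
        _ ≤ _ := by
            rw [← ENNReal.ofReal_mul (by positivity)]
            apply ENNReal.ofReal_le_ofReal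
            have e1 : C2 * F * (C * N) * (1 / (c * (N : ℝ) ^ 2)) = C2 * F * C / c / N := by field_simp
            rw [e1, div_le_iff₀ hNp]
            have e2 : 2 * C2 * Z / c * (n : ℝ) * F ≤ N := by
              refine le_trans ?_ hNge
              have e3 : 2 * C2 * Z / c * (n : ℝ) ≤ Kn * (n : ℝ) ^ 4 := by
                apply mul_le_mul hKn2 _ hnp.le (by linarith)
                calc (n : ℝ) = (n : ℝ) ^ 1 := (pow_one _).symm
                  _ ≤ (n : ℝ) ^ 4 := pow_le_pow_right₀ hnr (by norm_num)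
              exact mul_le_mul_of_nonneg_right e3 hFp.le
            have e4 : C2 * F * C / c ≤ C2 * F * Z / c := by gcongr
            have e5 : C2 * F * Z / c = 1 / (2 * (n : ℝ)) * (2 * C2 * Z / c * (n : ℝ) * F) := by field_simp
            refine e4.trans (e5.le.trans ?_)
            exact mul_le_mul_of_nonneg_left e2 (by positivity)
    have h1 := LN_add_sq mu mv hL0 (by positivity) (Real.sqrt_nonneg _) hLN hmix hLv
    rw [Real.sq_sqrt (by positivity)] at h1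
    have h2 : LN (fun t => NW (Wa 0) (at' (u + v + r) t)) ≤ LN (fun t => NW (Wa 0) (at' u t) + NW (Wa 0) (at' v t))
        + LN (fun t => NW (Wa 0) (at' r t)) := by
      refine (LN_mono fun t _ => ?_).trans (LN_add_le (mu.add mv) mr)
      exact (NW_add_le _ _ _).trans (add_le_add (NW_add_le _ _ _) le_rfl)
    refine h2.trans ((add_le_add h1 hr).trans ?_)
    rw [← ENNReal.ofReal_add (Real.sqrt_nonneg _) hee.le]
    apply ENNReal.ofReal_le_ofReal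
    apply Real.le_sqrt_of_sq_le
    obtain ⟨x, hx⟩ : ∃ x, x = √(L ^ 2 + 2 * (1 / (2 * (n : ℝ))) + Z ^ 2 / (2 * c) / n) := ⟨_, rfl⟩
    have hx0 : 0 ≤ x := by rw [hx]; exact Real.sqrt_nonneg _
    have hx2 : x ^ 2 = L ^ 2 + 1 / n + Z ^ 2 / (2 * c) / n := by
      rw [hx, Real.sq_sqrt (by positivity)]
      congr 2
      field_simp
    rw [← hx]
    have i1 : 1 / (n : ℝ) ≤ 1 := by rw [div_le_one hnp]; exact hnr
    have i2 : Z ^ 2 / (2 * c) / n ≤ Z ^ 2 / (2 * c) := div_le_self (by positivity) hnr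
    have hzc : 0 ≤ Z ^ 2 / (2 * c) := by positivity
    have hxX : x ≤ X0 := by
      have h3 : x ^ 2 ≤ X0 ^ 2 := by
        rw [hx2, hX0]
        have : L ^ 2 ≤ Lb ^ 2 := pow_le_pow_left₀ hL0 hLL 2
        nlinarith [mul_nonneg hLb hzc]
      exact (pow_le_pow_iff_left₀ hx0 hX0p.le (by norm_num)).1 h3
    have e6 : (x + 1 / (n : ℝ) ^ 4) ^ 2 ≤ x ^ 2 + 1 / n := by
      have e7 : (x + 1 / (n : ℝ) ^ 4) ^ 2 = x ^ 2 + (2 * x + 1 / (n : ℝ) ^ 4) / (n : ℝ) ^ 4 := by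
        field_simp
        ring
      rw [e7]
      have e8 : (2 * x + 1 / (n : ℝ) ^ 4) / (n : ℝ) ^ 4 ≤ 1 / n := by
        rw [div_le_div_iff₀ (by positivity) hnp, one_mul]
        have e9 : 2 * x + 1 / (n : ℝ) ^ 4 ≤ n := by linarith
        calc (2 * x + 1 / (n : ℝ) ^ 4) * n ≤ n * n := mul_le_mul_of_nonneg_right e9 hnp.le
          _ = (n : ℝ) ^ 2 := by ring
          _ ≤ (n : ℝ) ^ 4 := pow_le_pow_right₀ hnr (by norm_num)
      linarith
    refine e6.trans (le_of_eq ?_)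
    rw [hx2]
    unfold Kv
    rw [← hZ]
    ring
  · -- late times
    have e1 : LNd dl v ≤ ENNReal.ofReal ((2 / (n : ℝ) ^ 2) / 2) := by
      refine (LNd_exp (B := C * N) (σ := c * N ^ 2) (by positivity) (by positivity) hv).trans
        (ENNReal.ofReal_le_ofReal (num_small hc hdl hCp.le hNr (by positivity) ?_))
      have e2 : C / √c * (2 / (c * dl)) / ((2 / (n : ℝ) ^ 2) / 2) = C / √c * (2 / (c * dl)) * (n : ℝ) ^ 2 := by
        field_simp
      rw [e2]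
      refine le_trans ?_ hNge
      have e3 : C / √c * (2 / (c * dl)) ≤ Z / √c * (2 / (c * dl)) := by gcongr
      calc C / √c * (2 / (c * dl)) * (n : ℝ) ^ 2 ≤ Kn * (n : ℝ) ^ 4 := by
            apply mul_le_mul (e3.trans hKn3) (pow_le_pow_right₀ hnr (by norm_num)) (by positivity) (by linarith)
        _ ≤ Kn * (n : ℝ) ^ 4 * F := le_mul_of_one_le_right (by positivity) hF1
    refine e1.trans (le_of_eq ?_)
    congr 1
    ring
  · refine LP_exp hp0 (B := C * N) (σ := c * N ^ 2) (by positivity) (by positivity) (by positivity) hv ?_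
    have e1 : (C * N) ^ p / (p * (c * (N : ℝ) ^ 2)) = C ^ p / (p * c) / (N : ℝ) ^ (2 - p) := by
      rw [Real.mul_rpow hCp.le hNp.le, Real.rpow_sub hNp, Real.rpow_two]
      field_simp
    rw [e1]
    have e2 : (1 / (n : ℝ) ^ 2) ^ p = 1 / (n : ℝ) ^ (2 * p) := by
      rw [Real.div_rpow zero_le_one (by positivity), Real.one_rpow, ← Real.rpow_natCast, ← Real.rpow_mul hnp.le]
      norm_num
    rw [e2, div_le_div_iff₀ (by positivity) (by positivity), one_mul]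
    have e3 : B1 * (n : ℝ) ^ P ≤ N := by
      have : B1 * (n : ℝ) ^ P ≤ (1 + B1) * (n : ℝ) ^ P := mul_le_mul_of_nonneg_right (by linarith) (by positivity)
      linarith
    have e4 : C ^ p / (p * c) ≤ Z ^ p / (p * c) := by
      apply div_le_div_of_nonneg_right _ (by positivity)
      exact Real.rpow_le_rpow hCp.le hCZ1 hp0.le
    have e5 : (n : ℝ) ^ (2 * p) ≤ ((n : ℝ) ^ P) ^ (2 - p) := by
      rw [← Real.rpow_natCast, ← Real.rpow_mul hnp.le]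
      apply Real.rpow_le_rpow_of_exponent_le hnr
      linarith
    calc C ^ p / (p * c) * (n : ℝ) ^ (2 * p) ≤ Z ^ p / (p * c) * ((n : ℝ) ^ P) ^ (2 - p) :=
          mul_le_mul e4 e5 (by positivity) (by positivity)
      _ = (B1 * (n : ℝ) ^ P) ^ (2 - p) := by rw [Real.mul_rpow hB1p (by positivity), hB1e]
      _ ≤ (N : ℝ) ^ (2 - p) := Real.rpow_le_rpow (by positivity) e3 h2p.le
  · refine (NW_mono Wm_le_Wa _).trans ((hv t).trans (ENNReal.ofReal_le_ofReal ?_))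
    have h4 : Real.exp (-(c * N ^ 2 * max t 0)) ≤ 1 / (c * N ^ 2 * dl) := by
      have h5 : c * N ^ 2 * dl ≤ c * N ^ 2 * max t 0 := by
        have := le_max_left t 0
        gcongr
        linarith
      have h6 := Real.add_one_le_exp (c * N ^ 2 * max t 0)
      rw [Real.exp_neg, inv_le_comm₀ (Real.exp_pos _) (by positivity), one_div, inv_inv]
      linarith
    calc C * N * Real.exp (-(c * N ^ 2 * max t 0)) ≤ C * N * (1 / (c * N ^ 2 * dl)) := by gcongr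
      _ = C / (c * dl) / N := by field_simp
      _ ≤ 1 / (n : ℝ) ^ 2 := by
          rw [div_le_div_iff₀ hNp (by positivity), one_mul]
          refine le_trans ?_ hNge
          have e3 : C / (c * dl) ≤ Z / (c * dl) := by gcongr
          calc C / (c * dl) * (n : ℝ) ^ 2 ≤ Kn * (n : ℝ) ^ 4 := by
                apply mul_le_mul (e3.trans hKn4) (pow_le_pow_right₀ hnr (by norm_num)) (by positivity) (by linarith)
            _ ≤ Kn * (n : ℝ) ^ 4 * F := le_mul_of_one_le_right (by positivity) hF1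
  · apply ENNReal.ofReal_le_ofReal
    have e0 := Real.exp_pos (-(c * (N : ℝ) ^ 2 * max t 0))
    calc C * N * Real.exp (-(c * N ^ 2 * max t 0)) = C * (N * Real.exp (-(c * N ^ 2 * max t 0))) := by ring
      _ ≤ _ := mul_le_mul_of_nonneg_right hCZ (by positivity)

end Pool.Agent.H356R3.NS.X
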